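import Pool.Agent.H28.WF.FinC

/-!
# [WF] Alm: almost all polynomials are sums of `k+1` k-th powers, clause (D)  (owner: helper49)

`leadS`: the same as `lead` for `s ≥ 3` summands (generalise the proof in `Lead.lean`).
`almA`: Parseval over the `q^(kn)` polynomials `N` with fixed coefficient `∑ ε_i` at `X^(kn)`:
`∑_N |R(N) - q^((s-k)n)|^2 = q^(-kn) ∑_{a ≠ 0} ∏_i ‖T(ε_i a)‖^2 ≤ q^(-kn) ∑_{a ≠ 0} ‖T a‖^(2s)`
(AM-GM or `∏ x_i ≤ ∑ x_i^s`, losing a factor `s`), `‖T‖^(2s) ≤ q^(n(2s-2k-1)) ‖T‖^(2k+1)`, `circ`.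
`almD`: from `almA` with `s = k+1`, `ε_i = c_i^k`, `leadS`, for each of the `q` values of the
coefficient at `X^(kn)`.
-/

open Polynomial

namespace H28WF

private lemma leadS_star {F : Type} [Field F] [Fintype F] [DecidableEq F] (χ : AddChar F ℂ)
    (hχ : χ ≠ 1) {k : ℕ} (hk : 1 ≤ k) :
    ‖∑ y ∈ (Finset.univ : Finset F).erase 0, χ (y ^ k)‖ ≤
      k * Real.sqrt (Fintype.card F) + 1 := by
  have h1 := gau χ hχ hk
  have h2 : ‖∑ y : F, χ (y ^ k)‖ ≤ k * Real.sqrt (Fintype.card F) := by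
    have h3 : (0 : ℝ) ≤ k * Real.sqrt (Fintype.card F) := by positivity
    refine (pow_le_pow_iff_left₀ (norm_nonneg _) h3 (two_ne_zero)).1 ?_
    rw [mul_pow, Real.sq_sqrt (by positivity)]
    exact h1
  have h4 : ∑ y : F, χ (y ^ k) = χ ((0 : F) ^ k) +
      ∑ y ∈ (Finset.univ : Finset F).erase 0, χ (y ^ k) := by
    rw [← Finset.add_sum_erase Finset.univ (fun y : F => χ (y ^ k)) (Finset.mem_univ 0)]
  have h5 : χ ((0 : F) ^ k) = 1 := by
    rw [zero_pow (by omega)]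
    exact AddChar.map_zero_eq_one χ
  have h6 : ∑ y ∈ (Finset.univ : Finset F).erase 0, χ (y ^ k) = (∑ y : F, χ (y ^ k)) - 1 := by
    rw [h4, h5]; ring
  rw [h6]
  refine (norm_sub_le _ _).trans ?_
  rw [norm_one]
  linarith

private lemma leadS_sum {F : Type} [Field F] [Fintype F] [DecidableEq F] (χ : AddChar F ℂ)
    (k n : ℕ) (ν : F) :
    ∑ x ∈ Fintype.piFinset (fun _ : Fin n => (Finset.univ : Finset F).erase 0),
      χ (∑ i, x i ^ k - ν) = χ (-ν) *
        (∑ y ∈ (Finset.univ : Finset F).erase 0, χ (y ^ k)) ^ n := by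
  have h1 : (∑ y ∈ (Finset.univ : Finset F).erase 0, χ (y ^ k)) ^ n =
      ∑ x ∈ Fintype.piFinset (fun _ : Fin n => (Finset.univ : Finset F).erase 0),
        ∏ i, χ (x i ^ k) := by
    have h := Finset.prod_univ_sum (fun _ : Fin n => (Finset.univ : Finset F).erase 0)
      (fun _ (y : F) => χ (y ^ k))
    rw [Finset.prod_const, Finset.card_univ, Fintype.card_fin] at h
    exact h
  rw [h1, Finset.mul_sum]
  refine Finset.sum_congr rfl fun x _ => ?_
  have h2 : ∏ i, χ (x i ^ k) = χ (∑ i, x i ^ k) := by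
    have h3 := map_prod χ.toMonoidHom (fun i => Multiplicative.ofAdd (x i ^ k)) Finset.univ
    exact h3.symm
  rw [h2, ← AddChar.map_add_eq_mul]
  congr 1
  ring

private lemma leadS_pos {s k q : ℕ} (hs3 : 3 ≤ s)
    (hq : (2 ^ (s - 1) * (k + 1) ^ s) ^ 2 + 2 ≤ q) :
    (k * Real.sqrt q + 1) ^ s * (q - 1 : ℝ) < ((q : ℝ) - 1) ^ s := by
  obtain ⟨t, rfl⟩ : ∃ t, s = t + 3 := ⟨s - 3, by omega⟩
  have hq2 : 2 ≤ q := by omega
  have hq2R : (2 : ℝ) ≤ q := by exact_mod_cast hq2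
  set S : ℝ := Real.sqrt q with hS
  have hss : S ^ 2 = q := Real.sq_sqrt (by positivity)
  have hs0 : 0 ≤ S := Real.sqrt_nonneg _
  have hs1 : 1 ≤ S := by
    nlinarith
  have hB : (2 : ℝ) ^ (t + 2) * (k + 1) ^ (t + 3) < S := by
    apply lt_of_pow_lt_pow_left₀ 2 hs0
    rw [hss]
    have : (2 ^ (t + 2) * (k + 1) ^ (t + 3)) ^ 2 < q := by
      have : t + 3 - 1 = t + 2 := by omega
      rw [this] at hq
      omega
    exact_mod_cast this
  have h1 : (k * S + 1) ^ (t + 3) ≤ ((k + 1) * S) ^ (t + 3) := by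
    apply pow_le_pow_left₀ (by positivity)
    nlinarith
  have h2 : ((q : ℝ) / 2) ^ (t + 2) ≤ ((q : ℝ) - 1) ^ (t + 2) := by
    apply pow_le_pow_left₀ (by positivity)
    linarith
  have h3 : ((k + 1) * S) ^ (t + 3) < ((q : ℝ) / 2) ^ (t + 2) := by
    have e1 : ((q : ℝ) / 2) ^ (t + 2) = S ^ (2 * t + 4) / 2 ^ (t + 2) := by
      rw [div_pow, ← hss, ← pow_mul, show 2 * (t + 2) = 2 * t + 4 by ring]
    rw [e1, lt_div_iff₀ (by positivity), mul_pow]
    have e3 : (1 : ℝ) ≤ S ^ t := one_le_pow₀ hs1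
    have e5 : 0 < S ^ (t + 3) := by positivity
    calc ((k : ℝ) + 1) ^ (t + 3) * S ^ (t + 3) * 2 ^ (t + 2)
        = (2 ^ (t + 2) * (k + 1) ^ (t + 3)) * S ^ (t + 3) := by ring
      _ < S * S ^ (t + 3) := mul_lt_mul_of_pos_right hB e5
      _ = 1 * (S * S ^ (t + 3)) := by ring
      _ ≤ S ^ t * (S * S ^ (t + 3)) := mul_le_mul_of_nonneg_right e3 (by positivity)
      _ = S ^ (2 * t + 4) := by ring
  have h4 : (k * S + 1) ^ (t + 3) < ((q : ℝ) - 1) ^ (t + 2) :=
    lt_of_le_of_lt h1 (lt_of_lt_of_le h3 h2)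
  rw [pow_succ ((q : ℝ) - 1)]
  exact mul_lt_mul_of_pos_right h4 (by linarith)

theorem leadS (s k : ℕ) (hs : 3 ≤ s) (hk : 1 ≤ k) : ∃ q₀ : ℕ, ∀ (F : Type) [Field F] [Fintype F],
    q₀ ≤ Fintype.card F → ∀ ν : F, ∃ c : Fin s → F, (∀ i, c i ≠ 0) ∧ ∑ i, c i ^ k = ν := by
  classical
  refine ⟨(2 ^ (s - 1) * (k + 1) ^ s) ^ 2 + 2, ?_⟩
  intro F _ _ hq ν
  by_contra hne
  push Not at hne
  set q := Fintype.card F with hqdef
  have hpos := leadS_pos (k := k) hs hq
  set P := Fintype.piFinset (fun _ : Fin s => (Finset.univ : Finset F).erase 0) with hP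
  have h0 : ∑ x ∈ P, ∑ χ : AddChar F ℂ, χ (∑ i, x i ^ k - ν) = 0 := by
    refine Finset.sum_eq_zero fun x hx => ?_
    rw [AddChar.sum_apply_eq_ite, if_neg]
    intro h
    have hx' : ∀ i, x i ≠ 0 := by
      intro i
      have := Fintype.mem_piFinset.1 hx i
      exact (Finset.mem_erase.1 this).1
    exact hne x hx' (sub_eq_zero.1 h)
  rw [Finset.sum_comm] at h0
  simp_rw [hP, leadS_sum] at h0
  rw [← Finset.add_sum_erase Finset.univ _ (Finset.mem_univ (1 : AddChar F ℂ))] at h0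
  have h1 : (1 : AddChar F ℂ) (-ν) *
      (∑ y ∈ (Finset.univ : Finset F).erase 0, (1 : AddChar F ℂ) (y ^ k)) ^ s =
      (((q : ℝ) - 1) ^ s : ℝ) := by
    simp only [AddChar.one_apply, one_mul, Finset.sum_const, nsmul_eq_mul, mul_one]
    rw [Finset.card_erase_of_mem (Finset.mem_univ _), Finset.card_univ]
    push_cast [Nat.cast_sub (show 1 ≤ Fintype.card F from Fintype.card_pos)]
    rfl
  rw [h1] at h0
  have h2 : ‖∑ χ ∈ (Finset.univ : Finset (AddChar F ℂ)).erase 1, χ (-ν) *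
      (∑ y ∈ (Finset.univ : Finset F).erase 0, χ (y ^ k)) ^ s‖ ≤
      (k * Real.sqrt q + 1) ^ s * (q - 1 : ℝ) := by
    refine (norm_sum_le _ _).trans ?_
    have h3 : ∀ χ ∈ (Finset.univ : Finset (AddChar F ℂ)).erase 1, ‖χ (-ν) *
      (∑ y ∈ (Finset.univ : Finset F).erase 0, χ (y ^ k)) ^ s‖ ≤
        (k * Real.sqrt q + 1) ^ s := by
      intro χ hχ
      rw [norm_mul, AddChar.norm_apply, one_mul, norm_pow]
      exact pow_le_pow_left₀ (norm_nonneg _) (leadS_star χ (Finset.mem_erase.1 hχ).1 hk) _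
    refine (Finset.sum_le_sum h3).trans ?_
    rw [Finset.sum_const, nsmul_eq_mul, Finset.card_erase_of_mem (Finset.mem_univ _),
      Finset.card_univ, AddChar.card_eq, Nat.cast_sub Fintype.card_pos, Nat.cast_one]
    rw [mul_comm]
  have h4 : ((((q : ℝ) - 1) ^ s : ℝ) : ℂ) =
      -∑ χ ∈ (Finset.univ : Finset (AddChar F ℂ)).erase 1, χ (-ν) *
      (∑ y ∈ (Finset.univ : Finset F).erase 0, χ (y ^ k)) ^ s :=
    eq_neg_of_add_eq_zero_left h0
  have h5 : ‖((((q : ℝ) - 1) ^ s : ℝ) : ℂ)‖ ≤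
      (k * Real.sqrt q + 1) ^ s * (q - 1 : ℝ) := by
    rw [h4, norm_neg]
    exact h2
  have hq1 : (1 : ℝ) ≤ q := by
    have : 1 ≤ q := by omega
    exact_mod_cast this
  rw [Complex.norm_real, Real.norm_of_nonneg (pow_nonneg (by linarith) _)] at h5
  linarith

private theorem alm_cast_ne {F : Type*} [Field F] {k : ℕ} (h : k < ringChar F) :
    ∀ e : ℕ, 1 ≤ e → e ≤ k → (e : F) ≠ 0 := by
  intro e h1 h2 h3
  have h4 := Nat.le_of_dvd h1 ((ringChar.spec F e).1 h3)
  omega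

private theorem alm_exists_psi (F : Type) [Field F] [Fintype F] : ∃ ψ : AddChar F ℂ, ψ ≠ 1 := by
  refine ⟨AddChar.FiniteField.primitiveChar_to_Complex F, ?_⟩
  have h := AddChar.FiniteField.primitiveChar_to_Complex_isPrimitive (F := F) one_ne_zero
  rwa [AddChar.mulShift_one] at h

private theorem alm_T_le {F : Type*} [Field F] [Fintype F] (ψ : AddChar F ℂ) (k n : ℕ)
    (a : Fin (k * n) → F) : ‖T ψ k n a‖ ≤ (Fintype.card F : ℝ) ^ n := by
  rw [T]
  refine (norm_sum_le _ _).trans ?_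
  have h1 : ∀ c : Fin n → F, ‖ψ (pr (k * n) a (mon n c ^ k))‖ = 1 := fun c =>
    AddChar.norm_apply ψ _
  rw [Finset.sum_congr rfl (fun c _ => h1 c)]
  simp

private theorem alm_T_zero {F : Type*} [Field F] [Fintype F] (ψ : AddChar F ℂ) (k n : ℕ) :
    T ψ k n 0 = (Fintype.card F : ℂ) ^ n := by
  rw [T]
  have h1 : ∀ c : Fin n → F, ψ (pr (k * n) 0 (mon n c ^ k)) = 1 := fun c => by
    rw [pr_zero_left, AddChar.map_zero_eq_one]
  rw [Finset.sum_congr rfl (fun c _ => h1 c)]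
  simp

open Classical in
/-- the product of the sums -/
private theorem alm_prod {F : Type*} [Field F] [Fintype F] (ψ : AddChar F ℂ) (k n s : ℕ)
    (ε : Fin s → F) (a : Fin (k * n) → F) :
    ∏ i, T ψ k n (ε i • a) =
      ∑ c : Fin s → Fin n → F, ψ (pr (k * n) a (∑ i, C (ε i) * mon n (c i) ^ k)) := by
  have h1 := Finset.prod_univ_sum (fun _ : Fin s => (Finset.univ : Finset (Fin n → F)))
    (fun i c => ψ (pr (k * n) (ε i • a) (mon n c ^ k)))
  simp only [T]
  rw [h1, Fintype.piFinset_univ]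
  refine Finset.sum_congr rfl fun c _ => ?_
  rw [map_sum]
  have h2 : ∀ t : Finset (Fin s), ∏ i ∈ t, ψ (pr (k * n) (ε i • a) (mon n (c i) ^ k)) =
      ψ (∑ i ∈ t, pr (k * n) a (C (ε i) * mon n (c i) ^ k)) := by
    intro t
    induction t using Finset.induction_on with
    | empty => rw [Finset.prod_empty, Finset.sum_empty, AddChar.map_zero_eq_one]
    | insert i t hi ih =>
      rw [Finset.prod_insert hi, Finset.sum_insert hi, AddChar.map_add_eq_mul, ih]
      congr 2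
      rw [← smul_eq_C_mul, map_smul, pr_smul_left, smul_eq_mul]
  exact h2 Finset.univ

private theorem alm_prod_le_sum {s : ℕ} (hs : 1 ≤ s) (x : Fin s → ℝ) (hx : ∀ i, 0 ≤ x i) :
    ∏ i, x i ≤ ∑ i, x i ^ s := by
  haveI : Nonempty (Fin s) := ⟨⟨0, hs⟩⟩
  obtain ⟨j, -, hj⟩ := Finset.exists_max_image (Finset.univ : Finset (Fin s)) x
    Finset.univ_nonempty
  calc ∏ i, x i ≤ ∏ _i : Fin s, x j := Finset.prod_le_prod (fun i _ => hx i) (fun i _ => hj i (Finset.mem_univ _))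
    _ = x j ^ s := by rw [Finset.prod_const, Finset.card_univ, Fintype.card_fin]
    _ ≤ ∑ i, x i ^ s := Finset.single_le_sum (f := fun i => x i ^ s)
        (fun i _ => pow_nonneg (hx i) _) (Finset.mem_univ j)

open Classical in
private theorem alm_sum_smul {F : Type*} [Field F] [Fintype F] {N : ℕ} {t : F} (ht : t ≠ 0)
    (f : (Fin N → F) → ℝ) :
    ∑ a ∈ (Finset.univ : Finset (Fin N → F)).filter (fun a => a ≠ 0), f (t • a) =
      ∑ a ∈ (Finset.univ : Finset (Fin N → F)).filter (fun a => a ≠ 0), f a := by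
  refine Finset.sum_bij (fun a _ => t • a) ?_ ?_ ?_ ?_
  · intro a ha
    rw [Finset.mem_filter] at ha ⊢
    exact ⟨Finset.mem_univ _, smul_ne_zero ht ha.2⟩
  · intro a _ b _ h
    exact smul_right_injective _ ht h
  · intro b hb
    rw [Finset.mem_filter] at hb
    refine ⟨t⁻¹ • b, ?_, ?_⟩
    · rw [Finset.mem_filter]
      exact ⟨Finset.mem_univ _, smul_ne_zero (inv_ne_zero ht) hb.2⟩
    · rw [smul_smul, mul_inv_cancel₀ ht, one_smul]
  · intro a _
    rfl

open Classical in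
/-- orthogonality -/
private theorem alm_orth {F : Type*} [Field F] [Fintype F] (ψ : AddChar F ℂ) (hψ : ψ ≠ 1)
    (N : ℕ) (f : F[X]) :
    ∑ a : Fin N → F, ψ (pr N a f) =
      if (fun i : Fin N => f.coeff i) = 0 then ((Fintype.card F : ℂ) ^ N) else 0 := by
  have h : ∀ a : Fin N → F, pr N a f = pr N a (low N (fun i => f.coeff i)) := by
    intro a
    rw [pr_apply, pr_apply]
    refine Finset.sum_congr rfl fun i _ => ?_
    rw [low_coeff]
  rw [Finset.sum_congr rfl (fun a _ => by rw [h a]), sum_psi_pr ψ hψ N (low_degree_lt N _)]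
  have h2 : low N (fun i => f.coeff i) = 0 ↔ (fun i : Fin N => f.coeff i) = 0 := by
    constructor
    · intro h3
      apply low_injective N
      rw [h3, low_zero]
    · intro h3
      rw [h3, low_zero]
  simp only [h2]

open Classical in
/-- second moment -/
private theorem alm_par {F : Type*} [Field F] [Fintype F] (ψ : AddChar F ℂ) (hψ : ψ ≠ 1)
    (N : ℕ) {ι : Type*} [Fintype ι] (P : ι → F[X]) :
    ∑ a : Fin N → F, ‖∑ y : ι, ψ (pr N a (P y))‖ ^ 2 =
      (Fintype.card F : ℝ) ^ N * ∑ c : Fin N → F,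
        (((Finset.univ : Finset ι).filter (fun y => (fun i : Fin N => (P y).coeff i) = c)).card : ℝ) ^ 2 := by
  have h1 : ∀ a : Fin N → F, ((‖∑ y : ι, ψ (pr N a (P y))‖ ^ 2 : ℝ) : ℂ) =
      ∑ y : ι, ∑ z : ι, ψ (pr N a (P y - P z)) := by
    intro a
    rw [Complex.ofReal_pow, ← Complex.mul_conj', map_sum, Finset.sum_mul_sum]
    refine Finset.sum_congr rfl fun y _ => Finset.sum_congr rfl fun z _ => ?_
    rw [← AddChar.map_neg_eq_conj, ← AddChar.map_add_eq_mul, map_sub, sub_eq_add_neg]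
  have h2 : (((∑ a : Fin N → F, ‖∑ y : ι, ψ (pr N a (P y))‖ ^ 2 : ℝ)) : ℂ) =
      (((Fintype.card F : ℝ) ^ N * ∑ c : Fin N → F,
        (((Finset.univ : Finset ι).filter (fun y => (fun i : Fin N => (P y).coeff i) = c)).card : ℝ) ^ 2 : ℝ) : ℂ) := by
    rw [Complex.ofReal_sum, Finset.sum_congr rfl (fun a _ => h1 a), Finset.sum_comm]
    have h3 : ∀ y : ι, ∑ a : Fin N → F, ∑ z : ι, ψ (pr N a (P y - P z)) =
        ∑ z : ι, if (fun i : Fin N => (P y).coeff i) = (fun i : Fin N => (P z).coeff i) then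
          ((Fintype.card F : ℂ) ^ N) else 0 := by
      intro y
      rw [Finset.sum_comm]
      refine Finset.sum_congr rfl fun z _ => ?_
      rw [alm_orth ψ hψ]
      have h4 : (fun i : Fin N => (P y - P z).coeff i) = 0 ↔
          (fun i : Fin N => (P y).coeff i) = (fun i : Fin N => (P z).coeff i) := by
        constructor
        · intro h5
          funext i
          have := congrFun h5 i
          simp only [coeff_sub, Pi.zero_apply] at this
          exact sub_eq_zero.1 this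
        · intro h5
          funext i
          have := congrFun h5 i
          simp only [coeff_sub, Pi.zero_apply]
          exact sub_eq_zero.2 this
      simp only [h4]
    rw [Finset.sum_congr rfl (fun y _ => h3 y)]
    have h5 : ∀ c : Fin N → F,
        ((((Finset.univ : Finset ι).filter (fun y => (fun i : Fin N => (P y).coeff i) = c)).card : ℂ)) ^ 2 =
        ∑ y : ι, ∑ z : ι, if (fun i : Fin N => (P y).coeff i) = c ∧ (fun i : Fin N => (P z).coeff i) = c
          then (1 : ℂ) else 0 := by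
      intro c
      rw [sq, Finset.card_filter, Nat.cast_sum, Finset.sum_mul_sum]
      refine Finset.sum_congr rfl fun y _ => Finset.sum_congr rfl fun z _ => ?_
      by_cases e1 : (fun i : Fin N => (P y).coeff i) = c <;>
      by_cases e2 : (fun i : Fin N => (P z).coeff i) = c <;> simp [e1, e2]
    rw [Complex.ofReal_mul, Complex.ofReal_pow, Complex.ofReal_natCast, Complex.ofReal_sum]
    have h6 : ∑ c : Fin N → F, ((((((Finset.univ : Finset ι).filter
        (fun y => (fun i : Fin N => (P y).coeff i) = c)).card : ℝ) ^ 2 : ℝ)) : ℂ) =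
        ∑ y : ι, ∑ z : ι, if (fun i : Fin N => (P y).coeff i) = (fun i : Fin N => (P z).coeff i)
          then (1 : ℂ) else 0 := by
      rw [Finset.sum_congr rfl (fun c _ => by rw [Complex.ofReal_pow, Complex.ofReal_natCast, h5 c]),
        Finset.sum_comm]
      refine Finset.sum_congr rfl fun y _ => ?_
      rw [Finset.sum_comm]
      refine Finset.sum_congr rfl fun z _ => ?_
      rw [Finset.sum_eq_single (fun i : Fin N => (P z).coeff i)]
      · simp
      · intro c _ hc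
        rw [if_neg]
        exact fun h => hc h.2.symm
      · intro h
        exact absurd (Finset.mem_univ _) h
    rw [h6, Finset.mul_sum]
    refine Finset.sum_congr rfl fun y _ => ?_
    rw [Finset.mul_sum]
    refine Finset.sum_congr rfl fun z _ => ?_
    split_ifs <;> simp
  exact_mod_cast h2

theorem almA (k : ℕ) (hk : 3 ≤ k) (δ : ℝ) (hδ : 0 < δ) : ∃ q₀ : ℕ, ∀ (F : Type) [Field F]
    [Fintype F], q₀ ≤ Fintype.card F → k < ringChar F → ∀ ε : Fin (k + 1) → F, (∀ i, ε i ≠ 0) →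
    ∀ n : ℕ, (Nat.card {N : F[X] // N.natDegree ≤ k * n ∧ N.coeff (k * n) = ∑ i, ε i ∧
      ¬ ∃ y : Fin (k + 1) → F[X], (∀ i, (y i).Monic ∧ (y i).natDegree = n) ∧
        ∑ i, C (ε i) * y i ^ k = N} : ℝ) ≤ δ * (Fintype.card F : ℝ) ^ (k * n) := by
  classical
  obtain ⟨q₀, hq₀⟩ := circ k hk (δ / (k + 1)) (by positivity)
  refine ⟨q₀, fun F _ _ hq hch ε hε n => ?_⟩
  obtain ⟨ψ, hψ⟩ := alm_exists_psi F
  have hcirc := hq₀ F hq (alm_cast_ne hch) ψ hψ n
  set P : (Fin (k + 1) → Fin n → F) → F[X] := fun c => ∑ i, C (ε i) * mon n (c i) ^ k with hP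
  set r : (Fin (k * n) → F) → ℕ := fun c => ((Finset.univ : Finset (Fin (k + 1) → Fin n → F)).filter
    (fun y => (fun i : Fin (k * n) => (P y).coeff i) = c)).card with hr
  set Z : Finset (Fin (k * n) → F) := Finset.univ.filter (fun c => r c = 0) with hZ
  have hpar := alm_par ψ hψ (k * n) P
  have hqpos : (0 : ℝ) < Fintype.card F := by exact_mod_cast Fintype.card_pos
  have hTle := alm_T_le ψ k n
  -- degree and leading coefficient of `P y`
  have hPdeg : ∀ y, (P y).natDegree ≤ k * n ∧ (P y).coeff (k * n) = ∑ i, ε i := by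
    intro y
    have h1 : ∀ i, (mon n (y i) ^ k).natDegree = k * n := fun i => by
      rw [(mon_monic n (y i)).natDegree_pow, mon_natDegree]
    have h2 : ∀ i, (mon n (y i) ^ k).coeff (k * n) = 1 := fun i => by
      have h3 := ((mon_monic n (y i)).pow k).coeff_natDegree
      rwa [h1 i] at h3
    constructor
    · refine natDegree_sum_le_of_forall_le _ _ fun i _ => ?_
      exact (natDegree_C_mul_le _ _).trans (h1 i).le
    · rw [hP, finsetSum_coeff]
      exact Finset.sum_congr rfl fun i _ => by rw [coeff_C_mul, h2 i, mul_one]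
  -- the exceptional set injects into `Z`
  have hcard : Nat.card {N : F[X] // N.natDegree ≤ k * n ∧ N.coeff (k * n) = ∑ i, ε i ∧
      ¬ ∃ y : Fin (k + 1) → F[X], (∀ i, (y i).Monic ∧ (y i).natDegree = n) ∧
        ∑ i, C (ε i) * y i ^ k = N} ≤ Z.card := by
    have h1 : Nat.card {N : F[X] // N.natDegree ≤ k * n ∧ N.coeff (k * n) = ∑ i, ε i ∧
      ¬ ∃ y : Fin (k + 1) → F[X], (∀ i, (y i).Monic ∧ (y i).natDegree = n) ∧
        ∑ i, C (ε i) * y i ^ k = N} ≤ Nat.card Z := by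
      have hext : ∀ M N : F[X], M.natDegree ≤ k * n → N.natDegree ≤ k * n →
          M.coeff (k * n) = N.coeff (k * n) → (∀ i : Fin (k * n), M.coeff i = N.coeff i) → M = N := by
        intro M N hM hN h2 h3
        ext m
        rcases lt_trichotomy m (k * n) with h4 | h4 | h4
        · exact h3 ⟨m, h4⟩
        · rw [h4, h2]
        · rw [coeff_eq_zero_of_natDegree_lt (lt_of_le_of_lt hM h4),
            coeff_eq_zero_of_natDegree_lt (lt_of_le_of_lt hN h4)]
      refine Nat.card_le_card_of_injective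
        (fun N => (⟨fun i : Fin (k * n) => N.1.coeff i, ?_⟩ : Z)) ?_
      · rw [hZ, Finset.mem_filter]
        refine ⟨Finset.mem_univ _, ?_⟩
        rw [hr]
        simp only
        rw [Finset.card_eq_zero, Finset.filter_eq_empty_iff]
        intro y _ hy
        refine N.2.2.2 ⟨fun i => mon n (y i), fun i => ⟨mon_monic n _, mon_natDegree n _⟩, ?_⟩
        refine hext (P y) N.1 (hPdeg y).1 N.2.1 ?_ (fun i => congrFun hy i)
        rw [(hPdeg y).2, N.2.2.1]
      · intro M N h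
        apply Subtype.ext
        have h5 := congrArg Subtype.val h
        refine hext M.1 N.1 M.2.1 N.2.1 ?_ (fun i => congrFun h5 i)
        rw [M.2.2.1, N.2.2.1]
    refine h1.trans (le_of_eq ?_)
    rw [Nat.card_eq_fintype_card (α := Z), Fintype.card_coe]
  -- the product formula
  have hR : ∀ a : Fin (k * n) → F, ∑ y : Fin (k + 1) → Fin n → F, ψ (pr (k * n) a (P y)) =
      ∏ i, T ψ k n (ε i • a) := fun a => (alm_prod ψ k n (k + 1) ε a).symm
  rw [Finset.sum_congr rfl (fun a _ => by rw [hR a])] at hpar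
  -- total number
  have hsum1 : ∑ c : Fin (k * n) → F, (r c : ℝ) = (Fintype.card F : ℝ) ^ ((k + 1) * n) := by
    have h1 : ∑ c : Fin (k * n) → F, r c = (Finset.univ : Finset (Fin (k + 1) → Fin n → F)).card := by
      rw [Finset.card_eq_sum_card_fiberwise (f := fun y => (fun i : Fin (k * n) => (P y).coeff i))
        (t := Finset.univ) (fun _ _ => Finset.mem_univ _)]
    rw [← Nat.cast_sum, h1, Finset.card_univ, Fintype.card_fun, Fintype.card_fun, Fintype.card_fin,
      Fintype.card_fin]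
    push_cast
    rw [← pow_mul]
    congr 1
    ring
  have hcc : ∑ _c : Fin (k * n) → F, (1 : ℝ) = (Fintype.card F : ℝ) ^ (k * n) := by
    simp
  -- the sum over `a ≠ 0`
  have hne : ∑ a ∈ (Finset.univ : Finset (Fin (k * n) → F)).filter (fun a => a ≠ 0),
      ‖∏ i, T ψ k n (ε i • a)‖ ^ 2 ≤
      δ * (Fintype.card F : ℝ) ^ ((2 * k + 2) * n) := by
    have h1 : ∀ a : Fin (k * n) → F, ‖∏ i, T ψ k n (ε i • a)‖ ^ 2 ≤
        ∑ i, (Fintype.card F : ℝ) ^ n * ‖T ψ k n (ε i • a)‖ ^ (2 * k + 1) := by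
      intro a
      rw [norm_prod, ← Finset.prod_pow]
      refine (alm_prod_le_sum (by omega) _ (fun i => by positivity)).trans ?_
      refine Finset.sum_le_sum fun i _ => ?_
      rw [← pow_mul, show 2 * (k + 1) = 1 + (2 * k + 1) by ring, pow_add, pow_one]
      exact mul_le_mul_of_nonneg_right (hTle _) (by positivity)
    refine (Finset.sum_le_sum fun a _ => h1 a).trans ?_
    rw [Finset.sum_comm]
    have h2 : ∀ i : Fin (k + 1), ∑ a ∈ (Finset.univ : Finset (Fin (k * n) → F)).filter (fun a => a ≠ 0),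
        (Fintype.card F : ℝ) ^ n * ‖T ψ k n (ε i • a)‖ ^ (2 * k + 1) ≤
        (Fintype.card F : ℝ) ^ n * (δ / (k + 1) * (Fintype.card F : ℝ) ^ ((2 * k + 1) * n)) := by
      intro i
      rw [← Finset.mul_sum, alm_sum_smul (hε i) (fun a => ‖T ψ k n a‖ ^ (2 * k + 1))]
      exact mul_le_mul_of_nonneg_left hcirc (by positivity)
    refine (Finset.sum_le_sum fun i _ => h2 i).trans (le_of_eq ?_)
    rw [Finset.sum_const, Finset.card_univ, Fintype.card_fin, nsmul_eq_mul]
    push_cast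
    rw [show (2 * k + 2) * n = n + (2 * k + 1) * n by ring, pow_add]
    field_simp
  -- `a = 0`
  have hzero : ‖∏ i, T ψ k n (ε i • (0 : Fin (k * n) → F))‖ ^ 2 =
      (Fintype.card F : ℝ) ^ ((2 * k + 2) * n) := by
    have h1 : ∀ i : Fin (k + 1), T ψ k n (ε i • (0 : Fin (k * n) → F)) = (Fintype.card F : ℂ) ^ n := by
      intro i
      rw [smul_zero, alm_T_zero]
    rw [Finset.prod_congr rfl (fun i _ => h1 i), Finset.prod_const, Finset.card_univ, Fintype.card_fin,
      norm_pow, norm_pow, Complex.norm_natCast, ← pow_mul, ← pow_mul]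
    congr 1
    ring
  have hsplit : ∑ a : Fin (k * n) → F, ‖∏ i, T ψ k n (ε i • a)‖ ^ 2 =
      (∑ a ∈ (Finset.univ : Finset (Fin (k * n) → F)).filter (fun a => a ≠ 0),
        ‖∏ i, T ψ k n (ε i • a)‖ ^ 2) + (Fintype.card F : ℝ) ^ ((2 * k + 2) * n) := by
    rw [← Finset.sum_filter_add_sum_filter_not (Finset.univ : Finset (Fin (k * n) → F)) (fun a => a ≠ 0)]
    congr 1
    have h1 : (Finset.univ : Finset (Fin (k * n) → F)).filter (fun a => ¬ a ≠ 0) = {0} := by
      ext a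
      simp
    rw [h1, Finset.sum_singleton, hzero]
  -- variance
  have hvar : (Fintype.card F : ℝ) ^ (k * n) * ∑ c : Fin (k * n) → F,
      ((r c : ℝ) - (Fintype.card F : ℝ) ^ n) ^ 2 ≤ δ * (Fintype.card F : ℝ) ^ ((2 * k + 2) * n) := by
    have h1 : ∑ c : Fin (k * n) → F, ((r c : ℝ) - (Fintype.card F : ℝ) ^ n) ^ 2 =
        ∑ c : Fin (k * n) → F, (r c : ℝ) ^ 2 - (Fintype.card F : ℝ) ^ ((k + 2) * n) := by
      have h2 : ∀ c : Fin (k * n) → F, ((r c : ℝ) - (Fintype.card F : ℝ) ^ n) ^ 2 =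
          (r c : ℝ) ^ 2 - 2 * (Fintype.card F : ℝ) ^ n * (r c : ℝ) +
            ((Fintype.card F : ℝ) ^ n) ^ 2 * 1 := by
        intro c
        ring
      rw [Finset.sum_congr rfl (fun c _ => h2 c), Finset.sum_add_distrib, Finset.sum_sub_distrib,
        ← Finset.mul_sum, ← Finset.mul_sum, hsum1, hcc]
      rw [show (k + 2) * n = n + (k + 1) * n by ring, pow_add]
      have h3 : ((Fintype.card F : ℝ) ^ n) ^ 2 * (Fintype.card F : ℝ) ^ (k * n) =
          (Fintype.card F : ℝ) ^ n * (Fintype.card F : ℝ) ^ ((k + 1) * n) := by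
        rw [← pow_mul, ← pow_add, ← pow_add]
        congr 1
        ring
      rw [h3]
      ring
    rw [h1, mul_sub]
    have h4 : (Fintype.card F : ℝ) ^ (k * n) * ∑ c : Fin (k * n) → F, (r c : ℝ) ^ 2 =
        ∑ a : Fin (k * n) → F, ‖∏ i, T ψ k n (ε i • a)‖ ^ 2 := hpar.symm
    rw [h4, hsplit, ← pow_add, show k * n + (k + 2) * n = (2 * k + 2) * n by ring]
    linarith
  have hlow : (Z.card : ℝ) * ((Fintype.card F : ℝ) ^ n) ^ 2 ≤ ∑ c : Fin (k * n) → F,
      ((r c : ℝ) - (Fintype.card F : ℝ) ^ n) ^ 2 := by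
    refine le_trans ?_ (Finset.sum_le_sum_of_subset_of_nonneg (Finset.subset_univ Z)
      (fun c _ _ => sq_nonneg _))
    rw [← nsmul_eq_mul, ← Finset.sum_const]
    refine Finset.sum_le_sum fun c hc => ?_
    rw [hZ, Finset.mem_filter] at hc
    rw [hc.2]
    simp
  have hfin : (Z.card : ℝ) * (Fintype.card F : ℝ) ^ ((k + 2) * n) ≤
      δ * (Fintype.card F : ℝ) ^ (k * n) * (Fintype.card F : ℝ) ^ ((k + 2) * n) := by
    calc (Z.card : ℝ) * (Fintype.card F : ℝ) ^ ((k + 2) * n)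
        = (Fintype.card F : ℝ) ^ (k * n) * ((Z.card : ℝ) * ((Fintype.card F : ℝ) ^ n) ^ 2) := by
          rw [show (k + 2) * n = k * n + n * 2 by ring, pow_add, pow_mul]
          ring
      _ ≤ (Fintype.card F : ℝ) ^ (k * n) * ∑ c : Fin (k * n) → F,
          ((r c : ℝ) - (Fintype.card F : ℝ) ^ n) ^ 2 := mul_le_mul_of_nonneg_left hlow (by positivity)
      _ ≤ δ * (Fintype.card F : ℝ) ^ ((2 * k + 2) * n) := hvar
      _ = δ * (Fintype.card F : ℝ) ^ (k * n) * (Fintype.card F : ℝ) ^ ((k + 2) * n) := by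
          rw [show (2 * k + 2) * n = k * n + (k + 2) * n by ring, pow_add]
          ring
  have hfin2 := le_of_mul_le_mul_right hfin (by positivity)
  exact (Nat.cast_le.2 hcard).trans hfin2

theorem almD (k : ℕ) (hk : 3 ≤ k) (δ : ℝ) (hδ : 0 < δ) : ∃ q₀ : ℕ, ∀ (F : Type) [Field F]
    [Fintype F], q₀ ≤ Fintype.card F → k < ringChar F → ∀ n : ℕ,
    (Nat.card {N : F[X] // N.natDegree ≤ k * n ∧
      ¬ ∃ x : Fin (k + 1) → F[X], (∀ i, (x i).degree = (n : WithBot ℕ)) ∧ ∑ i, x i ^ k = N} : ℝ) ≤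
        δ * (Fintype.card F : ℝ) ^ (k * n + 1) := by
  classical
  obtain ⟨q₁, hq₁⟩ := leadS (k + 1) k (by omega) (by omega)
  obtain ⟨q₂, hq₂⟩ := almA k hk δ hδ
  refine ⟨max q₁ q₂, fun F _ _ hq hch n => ?_⟩
  have hfin : ∀ Q : F[X] → Prop, Finite {N : F[X] // N.natDegree ≤ k * n ∧ Q N} := by
    intro Q
    refine Finite.of_injective
      (fun N : {N : F[X] // N.natDegree ≤ k * n ∧ Q N} => (fun i : Fin (k * n + 1) => N.1.coeff i)) ?_
    intro M N h
    apply Subtype.ext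
    ext m
    rcases Nat.lt_or_ge m (k * n + 1) with h4 | h4
    · exact congrFun h ⟨m, h4⟩
    · rw [coeff_eq_zero_of_natDegree_lt (lt_of_le_of_lt M.2.1 (by omega)),
        coeff_eq_zero_of_natDegree_lt (lt_of_le_of_lt N.2.1 (by omega))]
  have hbad : ∀ ν : F, (Nat.card {N : F[X] // N.natDegree ≤ k * n ∧ (N.coeff (k * n) = ν ∧
      ¬ ∃ x : Fin (k + 1) → F[X], (∀ i, (x i).degree = (n : WithBot ℕ)) ∧ ∑ i, x i ^ k = N)} : ℝ) ≤
      δ * (Fintype.card F : ℝ) ^ (k * n) := by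
    intro ν
    obtain ⟨c, hc0, hc⟩ := hq₁ F ((le_max_left _ _).trans hq) ν
    have h1 := hq₂ F ((le_max_right _ _).trans hq) hch (fun i => c i ^ k)
      (fun i => pow_ne_zero _ (hc0 i)) n
    refine le_trans ?_ h1
    haveI := hfin (fun N => N.coeff (k * n) = ∑ i, c i ^ k ∧
      ¬ ∃ y : Fin (k + 1) → F[X], (∀ i, (y i).Monic ∧ (y i).natDegree = n) ∧
        ∑ i, C (c i ^ k) * y i ^ k = N)
    refine Nat.cast_le.2 (Nat.card_le_card_of_injective
      (fun N => (⟨N.1, N.2.1, ?_, ?_⟩ : {N : F[X] // N.natDegree ≤ k * n ∧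
        N.coeff (k * n) = ∑ i, c i ^ k ∧
      ¬ ∃ y : Fin (k + 1) → F[X], (∀ i, (y i).Monic ∧ (y i).natDegree = n) ∧
        ∑ i, C (c i ^ k) * y i ^ k = N})) ?_)
    · rw [hc]
      exact N.2.2.1
    · rintro ⟨y, hy, hyN⟩
      refine N.2.2.2 ⟨fun i => C (c i) * y i, fun i => ?_, ?_⟩
      · rw [degree_C_mul (hc0 i), degree_eq_natDegree (hy i).1.ne_zero, (hy i).2]
      · rw [← hyN]
        refine Finset.sum_congr rfl fun i _ => ?_
        rw [mul_pow, C_pow]
    · intro M N h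
      have h2 := congrArg Subtype.val h
      exact Subtype.ext h2
  haveI hfin2 : ∀ ν : F, Finite {N : F[X] // N.natDegree ≤ k * n ∧ (N.coeff (k * n) = ν ∧
      ¬ ∃ x : Fin (k + 1) → F[X], (∀ i, (x i).degree = (n : WithBot ℕ)) ∧ ∑ i, x i ^ k = N)} :=
    fun ν => hfin _
  have hsig : Nat.card {N : F[X] // N.natDegree ≤ k * n ∧
      ¬ ∃ x : Fin (k + 1) → F[X], (∀ i, (x i).degree = (n : WithBot ℕ)) ∧ ∑ i, x i ^ k = N} ≤
      Nat.card (Σ ν : F, {N : F[X] // N.natDegree ≤ k * n ∧ (N.coeff (k * n) = ν ∧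
      ¬ ∃ x : Fin (k + 1) → F[X], (∀ i, (x i).degree = (n : WithBot ℕ)) ∧ ∑ i, x i ^ k = N)}) := by
    refine Nat.card_le_card_of_injective
      (fun N => ⟨N.1.coeff (k * n), ⟨N.1, N.2.1, rfl, N.2.2⟩⟩) ?_
    intro M N h
    apply Subtype.ext
    have h2 : ∀ u v : (Σ ν : F, {N : F[X] // N.natDegree ≤ k * n ∧ (N.coeff (k * n) = ν ∧
      ¬ ∃ x : Fin (k + 1) → F[X], (∀ i, (x i).degree = (n : WithBot ℕ)) ∧ ∑ i, x i ^ k = N)}),
      u = v → u.2.1 = v.2.1 := by
      rintro u v rfl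
      rfl
    exact h2 _ _ h
  rw [Nat.card_sigma] at hsig
  calc (Nat.card {N : F[X] // N.natDegree ≤ k * n ∧
      ¬ ∃ x : Fin (k + 1) → F[X], (∀ i, (x i).degree = (n : WithBot ℕ)) ∧ ∑ i, x i ^ k = N} : ℝ)
      ≤ ((∑ ν : F, Nat.card {N : F[X] // N.natDegree ≤ k * n ∧ (N.coeff (k * n) = ν ∧
      ¬ ∃ x : Fin (k + 1) → F[X], (∀ i, (x i).degree = (n : WithBot ℕ)) ∧ ∑ i, x i ^ k = N)} : ℕ) : ℝ) :=
        Nat.cast_le.2 hsig
    _ = ∑ ν : F, (Nat.card {N : F[X] // N.natDegree ≤ k * n ∧ (N.coeff (k * n) = ν ∧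
      ¬ ∃ x : Fin (k + 1) → F[X], (∀ i, (x i).degree = (n : WithBot ℕ)) ∧ ∑ i, x i ^ k = N)} : ℝ) := by
        rw [Nat.cast_sum]
    _ ≤ ∑ _ν : F, δ * (Fintype.card F : ℝ) ^ (k * n) := Finset.sum_le_sum fun ν _ => hbad ν
    _ = δ * (Fintype.card F : ℝ) ^ (k * n + 1) := by
        rw [Finset.sum_const, Finset.card_univ, nsmul_eq_mul, pow_succ]
        ring

end H28WF
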