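import Pool.Agent.H28.WF.Bas

/-!
# [WF] AnnA: counting functionals with given annihilators ((2a), (2c))

(2a) If `G ∈ Ann a` and the first `deg G` coordinates of `a` vanish then `a = 0`
(`pr a (G X^i) = 0` gives `a (deg G + i) = 0` by induction on `i`).  So the restriction to the first
`deg G` coordinates is injective on the linear space of these `a`; at most `q ^ deg G`.  If
`deg G ≥ N` trivial.
(2c) `W = G₁ V_{N-g₁} + G₂ V_{N-g₂}` is a direct sum by the hypothesis, of dimension `2N - g₁ - g₂`,
and the functionals vanishing on `W` form a space of dimension `N - dim W = g₁ + g₂ - N`.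
(`Subspace.dualAnnihilator` and `finrank`, or character sums `|W| |W^⊥| = q^N`, or `Matrix.rank`.)
-/

open Polynomial

namespace H28WF

variable {F : Type*} [Field F] [Fintype F]

omit [Fintype F] in
/-- the degree of a product with `low` -/
private theorem deg_mul_low {N : ℕ} {G : F[X]} (hG : G ≠ 0) (c : Fin (N - G.natDegree) → F) :
    (G * low _ c).degree < (N : WithBot ℕ) := by
  by_cases hc : low (N - G.natDegree) c = 0
  · rw [hc, mul_zero, degree_zero]
    exact WithBot.bot_lt_coe _
  · have h1 := (natDegree_lt_iff_degree_lt hc).2 (low_degree_lt _ c)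
    rw [← natDegree_lt_iff_degree_lt (mul_ne_zero hG hc), natDegree_mul hG hc]
    omega

omit [Fintype F] in
private theorem deg_mul_X {N : ℕ} {G : F[X]} (hG : G ≠ 0) {j : ℕ} (hj : j < N - G.natDegree) :
    (G * X ^ j).degree < (N : WithBot ℕ) := by
  have h0 : (X ^ j : F[X]) ≠ 0 := pow_ne_zero _ X_ne_zero
  rw [← natDegree_lt_iff_degree_lt (mul_ne_zero hG h0), natDegree_mul hG h0, natDegree_X_pow]
  omega

omit [Fintype F] in
private theorem coeff_mul_low (G : F[X]) (n : ℕ) (c : Fin n → F) (i : ℕ) :
    (G * low n c).coeff i = ∑ j : Fin n, (G * X ^ (j : ℕ)).coeff i * c j := by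
  rw [low, Finset.mul_sum, finsetSum_coeff]
  refine Finset.sum_congr rfl fun j _ => ?_
  have h : G * (C (c j) * X ^ (j : ℕ)) = C (c j) * (G * X ^ (j : ℕ)) := by ring
  rw [h, coeff_C_mul, mul_comm]

omit [Fintype F] in
/-- an annihilated functional with zero initial part -/
private theorem ann_zero {N : ℕ} {G : F[X]} (hG : G ≠ 0) {a : Fin N → F} (h : Ann N a G)
    (h0 : ∀ i : Fin N, (i : ℕ) < G.natDegree → a i = 0) : a = 0 := by
  have key : ∀ m : ℕ, ∀ hm : m < N, a ⟨m, hm⟩ = 0 := by
    intro m
    induction m using Nat.strong_induction_on with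
    | _ m ih =>
      intro hm
      by_cases hmg : m < G.natDegree
      · exact h0 ⟨m, hm⟩ hmg
      · push Not at hmg
        have h1 := h (X ^ (m - G.natDegree)) (deg_mul_X hG (by omega))
        rw [pr_apply, Finset.sum_eq_single ⟨m, hm⟩] at h1
        · have h2 : (G * X ^ (m - G.natDegree)).coeff m = G.leadingCoeff := by
            rw [coeff_mul_X_pow', if_pos (Nat.sub_le _ _)]
            have h3 : m - (m - G.natDegree) = G.natDegree := by omega
            rw [h3]
            rfl
          rw [h2] at h1
          exact (mul_eq_zero.1 h1).resolve_right (leadingCoeff_ne_zero.2 hG)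
        · intro j _ hj
          rcases lt_trichotomy (j : ℕ) m with hj1 | hj1 | hj1
          · have h2 := ih j hj1 j.2
            have h3 : a j = 0 := h2
            rw [h3, zero_mul]
          · exact absurd (Fin.ext hj1) hj
          · rw [coeff_eq_zero_of_natDegree_lt, mul_zero]
            rw [natDegree_mul hG (pow_ne_zero _ X_ne_zero), natDegree_X_pow]
            omega
        · intro hj
          exact absurd (Finset.mem_univ _) hj
  funext i
  exact key i i.2

/-- (2a) -/
theorem card_ann {N : ℕ} {G : F[X]} (hG : G ≠ 0) (S : Finset (Fin N → F))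
    (hS : ∀ a ∈ S, Ann N a G) : S.card ≤ Fintype.card F ^ G.natDegree := by
  classical
  by_cases hN : N ≤ G.natDegree
  · calc S.card ≤ Fintype.card (Fin N → F) := S.card_le_univ
      _ = Fintype.card F ^ N := by rw [Fintype.card_fun, Fintype.card_fin]
      _ ≤ Fintype.card F ^ G.natDegree := Nat.pow_le_pow_right Fintype.card_pos hN
  · push Not at hN
    have h1 : S.card ≤ (Finset.univ : Finset (Fin G.natDegree → F)).card := by
      refine Finset.card_le_card_of_injOn (fun a i => a ⟨i, i.2.trans hN⟩)
        (fun _ _ => Finset.mem_univ _) ?_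
      intro a ha b hb hab
      have h2 : a - b = 0 := by
        refine ann_zero hG (G := G) ?_ ?_
        · intro f hf
          rw [pr_sub, hS a ha f hf, hS b hb f hf, sub_zero]
        · intro i hi
          have h3 := congrFun hab ⟨i, hi⟩
          exact sub_eq_zero.2 h3
      exact sub_eq_zero.1 h2
    rwa [Finset.card_univ, Fintype.card_fun, Fintype.card_fin] at h1

/-- (2c) -/
theorem card_ann2 {N : ℕ} {G₁ G₂ : F[X]} (hG₁ : G₁ ≠ 0) (hG₂ : G₂ ≠ 0)
    (h₁ : G₁.natDegree ≤ N) (h₂ : G₂.natDegree ≤ N)
    (hl : ∀ f : F[X], G₁ ∣ f → G₂ ∣ f → f.degree < (N : WithBot ℕ) → f = 0)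
    (S : Finset (Fin N → F)) (hS : ∀ a ∈ S, Ann N a G₁ ∧ Ann N a G₂) :
    S.card * Fintype.card F ^ N ≤ Fintype.card F ^ (G₁.natDegree + G₂.natDegree) := by
  classical
  let M : Matrix (Fin N) (Fin (N - G₁.natDegree) ⊕ Fin (N - G₂.natDegree)) F := fun i =>
    Sum.elim (fun j => (G₁ * X ^ (j : ℕ)).coeff i) (fun j => (G₂ * X ^ (j : ℕ)).coeff i)
  have hinj : Function.Injective M.mulVecLin := by
    rw [← LinearMap.ker_eq_bot, LinearMap.ker_eq_bot']
    intro v hv
    have h3 : G₁ * low _ (fun j => v (Sum.inl j)) + G₂ * low _ (fun j => v (Sum.inr j)) = 0 := by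
      ext i
      rw [coeff_zero]
      by_cases hi : i < N
      · have h4 := congrFun hv ⟨i, hi⟩
        rw [Matrix.mulVecLin_apply, Matrix.mulVec, dotProduct, Fintype.sum_sum_type] at h4
        rw [coeff_add, coeff_mul_low, coeff_mul_low]
        exact h4
      · push Not at hi
        refine coeff_eq_zero_of_degree_lt (lt_of_lt_of_le ?_ (by exact_mod_cast hi :
          (N : WithBot ℕ) ≤ i))
        exact lt_of_le_of_lt (degree_add_le _ _) (max_lt (deg_mul_low hG₁ _) (deg_mul_low hG₂ _))
    have h5 : G₁ * low _ (fun j => v (Sum.inl j)) = 0 := by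
      refine hl _ (dvd_mul_right _ _) ?_ (deg_mul_low hG₁ _)
      rw [eq_neg_of_add_eq_zero_left h3]
      exact (dvd_mul_right _ _).neg_right
    have h6 : G₂ * low _ (fun j => v (Sum.inr j)) = 0 := by
      rw [h5, zero_add] at h3
      exact h3
    have h7 := low_injective _ (((mul_eq_zero.1 h5).resolve_left hG₁).trans (low_zero _).symm)
    have h8 := low_injective _ (((mul_eq_zero.1 h6).resolve_left hG₂).trans (low_zero _).symm)
    funext j
    rcases j with j | j
    · exact congrFun h7 j
    · exact congrFun h8 j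
  have hr : M.rank = (N - G₁.natDegree) + (N - G₂.natDegree) := by
    rw [Matrix.rank, LinearMap.finrank_range_of_inj hinj, Module.finrank_fintype_fun_eq_card,
      Fintype.card_sum, Fintype.card_fin, Fintype.card_fin]
  have hk : Module.finrank F (LinearMap.ker M.transpose.mulVecLin) + N =
      G₁.natDegree + G₂.natDegree := by
    have h3 := LinearMap.finrank_range_add_finrank_ker M.transpose.mulVecLin
    have h4 : Module.finrank F (LinearMap.range M.transpose.mulVecLin) = M.rank :=
      M.rank_transpose
    rw [h4, hr, Module.finrank_fintype_fun_eq_card, Fintype.card_fin] at h3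
    omega
  have hsub : ∀ a ∈ S, a ∈ LinearMap.ker M.transpose.mulVecLin := by
    intro a ha
    rw [LinearMap.mem_ker]
    funext j
    rw [Matrix.mulVecLin_apply, Matrix.mulVec, dotProduct]
    rcases j with j | j
    · have h3 := (hS a ha).1 (X ^ (j : ℕ)) (deg_mul_X hG₁ j.2)
      rw [pr_apply] at h3
      refine Eq.trans (Finset.sum_congr rfl fun i _ => ?_) h3
      exact mul_comm _ _
    · have h3 := (hS a ha).2 (X ^ (j : ℕ)) (deg_mul_X hG₂ j.2)
      rw [pr_apply] at h3
      refine Eq.trans (Finset.sum_congr rfl fun i _ => ?_) h3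
      exact mul_comm _ _
  have hcard : S.card ≤ Fintype.card F ^ Module.finrank F (LinearMap.ker M.transpose.mulVecLin) := by
    rw [← Module.card_eq_pow_finrank (K := F) (V := LinearMap.ker M.transpose.mulVecLin)]
    rw [← Finset.card_attach, ← Finset.card_univ]
    refine Finset.card_le_card_of_injOn (fun a => ⟨a.1, hsub a.1 a.2⟩)
      (fun _ _ => Finset.mem_univ _) ?_
    intro a _ b _ hab
    have h9 : (a : Fin N → F) = b := Subtype.mk.inj hab
    exact Subtype.ext h9
  calc S.card * Fintype.card F ^ N ≤
        Fintype.card F ^ Module.finrank F (LinearMap.ker M.transpose.mulVecLin) *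
          Fintype.card F ^ N := Nat.mul_le_mul_right _ hcard
    _ = Fintype.card F ^ (G₁.natDegree + G₂.natDegree) := by rw [← pow_add, hk]

end H28WF
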