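import Pool.Agent.H28.WF.Bas

/-!
# [WF] AnnB: the annihilators, merging lemma (2b), minimal annihilators

MERGING (first form).  `G₁ = D u`, `G₂ = D w`, `u, w` coprime, a common multiple `f ≠ 0` has degree
`≤ N` (so `deg D + deg u + deg w ≤ N`).  For `g` with `deg (D g) < N`: `g = u f₁ + w f₂` with
`deg f₂ < deg u` (division with remainder; if `u` is a unit take `f₂ = 0`), so
`deg (G₂ f₂) < deg D + deg w + deg u ≤ N` and `deg (u f₁) < N - deg D`: both pairings vanish.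
SECOND FORM: `G = D u`, `H = D w`, `deg H < deg G`, `pr a (H f) = 0` for `deg f < N - deg G`,
`2 deg G ≤ N + deg D`: `deg f₂ < deg u = deg G - deg D ≤ N - deg G`, and
`deg (w f₂) < 2 deg u ≤ N - deg D`.
-/

open Polynomial

namespace H28WF

variable {F : Type*} [Field F] {N : ℕ} {a : Fin N → F}

theorem Ann.of_dvd {G H : F[X]} (h : Ann N a G) (hd : G ∣ H) : Ann N a H := by
  obtain ⟨c, rfl⟩ := hd
  intro f hf
  rw [mul_assoc] at hf ⊢
  exact h _ hf

theorem ann_of_natDegree_ge {G : F[X]} (hG : G ≠ 0) (h : N ≤ G.natDegree) : Ann N a G := by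
  intro f hf
  by_cases hf0 : f = 0
  · rw [hf0, mul_zero, map_zero]
  · exfalso
    have h0 : G * f ≠ 0 := mul_ne_zero hG hf0
    rw [degree_eq_natDegree h0, natDegree_mul hG hf0] at hf
    have h1 : G.natDegree + f.natDegree < N := by exact_mod_cast hf
    omega

theorem ann_one_iff : Ann N a 1 ↔ a = 0 := by
  constructor
  · intro h
    refine pr_eq_zero_of_all fun f hf => ?_
    have h1 := h f (by rwa [one_mul])
    rwa [one_mul] at h1
  · rintro rfl f _
    exact pr_zero_left N _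

/-- division with remainder in the ideal of two coprime polynomials -/
private theorem split {u w : F[X]} (hc : IsCoprime u w) (hu : u ≠ 0) (g : F[X]) :
    ∃ f₁ f₂ : F[X], g = u * f₁ + w * f₂ ∧ f₂.degree < u.degree := by
  obtain ⟨r, s, hrs⟩ := hc
  refine ⟨g * r + w * ((g * s) / u), (g * s) % u, ?_, degree_mod_lt _ hu⟩
  have h1 : u * ((g * s) / u) + (g * s) % u = g * s := EuclideanDomain.div_add_mod _ _
  calc g = g * (r * u + s * w) := by rw [hrs, mul_one]
    _ = u * (g * r) + w * (g * s) := by ring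
    _ = u * (g * r) + w * (u * ((g * s) / u) + (g * s) % u) := by rw [h1]
    _ = _ := by ring

private theorem deg_mul_lt {A f u : F[X]} {n : ℕ} (hA : A ≠ 0) (hu : u ≠ 0)
    (hf : f.degree < u.degree) (h : A.natDegree + u.natDegree ≤ n) :
    (A * f).degree < (n : WithBot ℕ) := by
  by_cases hf0 : f = 0
  · rw [hf0, mul_zero, degree_zero]
    exact WithBot.bot_lt_coe _
  · rw [degree_eq_natDegree (mul_ne_zero hA hf0), natDegree_mul hA hf0]
    rw [degree_eq_natDegree hf0, degree_eq_natDegree hu] at hf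
    have h1 : f.natDegree < u.natDegree := by exact_mod_cast hf
    exact_mod_cast (by omega : A.natDegree + f.natDegree < n)

/-- merging, first form -/
theorem ann_gcd {G₁ G₂ D u w : F[X]} (h₁ : G₁ = D * u) (h₂ : G₂ = D * w) (hc : IsCoprime u w)
    (hD : D ≠ 0) (hu : u ≠ 0) (hw : w ≠ 0) (hdeg : D.natDegree + u.natDegree + w.natDegree ≤ N)
    (hA₁ : Ann N a G₁) (hA₂ : Ann N a G₂) : Ann N a D := by
  intro g hg
  obtain ⟨f₁, f₂, hgf, hf₂⟩ := split hc hu g
  have hG₂ : G₂ ≠ 0 := h₂ ▸ mul_ne_zero hD hw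
  have hn₂ : G₂.natDegree = D.natDegree + w.natDegree := by rw [h₂, natDegree_mul hD hw]
  have e₂ : (G₂ * f₂).degree < (N : WithBot ℕ) := deg_mul_lt hG₂ hu hf₂ (by omega)
  have hD' : D * g = G₁ * f₁ + G₂ * f₂ := by rw [h₁, h₂, hgf]; ring
  have e₁ : (G₁ * f₁).degree < (N : WithBot ℕ) := by
    have h3 : G₁ * f₁ = D * g - G₂ * f₂ := by rw [hD']; ring
    rw [h3]
    exact lt_of_le_of_lt (degree_sub_le _ _) (max_lt hg e₂)
  rw [hD', map_add, hA₁ _ e₁, hA₂ _ e₂, add_zero]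

/-- merging, second form -/
theorem ann_gcd' {G H D u w : F[X]} (hG : G = D * u) (hH : H = D * w) (hc : IsCoprime u w)
    (hG0 : G ≠ 0) (hH0 : H ≠ 0) (hdeg : H.natDegree < G.natDegree)
    (h2 : 2 * G.natDegree ≤ N + D.natDegree) (hA : Ann N a G)
    (hAH : ∀ f : F[X], f.degree < ((N - G.natDegree : ℕ) : WithBot ℕ) → pr N a (H * f) = 0) :
    Ann N a D := by
  intro g hg
  have hD : D ≠ 0 := fun h => hG0 (by rw [hG, h, zero_mul])
  have hu : u ≠ 0 := fun h => hG0 (by rw [hG, h, mul_zero])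
  have hnG : G.natDegree = D.natDegree + u.natDegree := by rw [hG, natDegree_mul hD hu]
  obtain ⟨f₁, f₂, hgf, hf₂⟩ := split hc hu g
  have e₂ : (H * f₂).degree < (N : WithBot ℕ) := deg_mul_lt hH0 hu hf₂ (by omega)
  have e₃ : f₂.degree < ((N - G.natDegree : ℕ) : WithBot ℕ) := by
    refine lt_of_lt_of_le hf₂ ?_
    rw [degree_eq_natDegree hu]
    exact_mod_cast (by omega : u.natDegree ≤ N - G.natDegree)
  have hD' : D * g = G * f₁ + H * f₂ := by rw [hG, hH, hgf]; ring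
  have e₁ : (G * f₁).degree < (N : WithBot ℕ) := by
    have h3 : G * f₁ = D * g - H * f₂ := by rw [hD']; ring
    rw [h3]
    exact lt_of_le_of_lt (degree_sub_le _ _) (max_lt hg e₂)
  rw [hD', map_add, hA _ e₁, hAH _ e₃, add_zero]

/-- a minimal annihilator below a given one -/
theorem min_ex {G : F[X]} (hG : G.Monic) (hA : Ann N a G) : ∃ G', IsMin N a G' ∧ G' ∣ G := by
  induction hn : G.natDegree using Nat.strong_induction_on generalizing G with
  | _ n ih =>
    by_cases hm : ∀ H : F[X], H.Monic → H ∣ G → Ann N a H → H = G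
    · exact ⟨G, ⟨hG, hA, hm⟩, dvd_rfl⟩
    · push Not at hm
      obtain ⟨H, hHm, hHd, hHA, hne⟩ := hm
      have hlt : H.natDegree < n := by
        by_contra hge
        refine hne (eq_of_monic_of_dvd_of_natDegree_le hHm hG hHd (by omega)).symm
      obtain ⟨G', h1, h2⟩ := ih _ hlt hHm hHA rfl
      exact ⟨G', h1, h2.trans hHd⟩

/-- the minimal annihilator of a nonzero functional is not `1` -/
theorem IsMin.natDegree_pos {G : F[X]} (ha : a ≠ 0) (h : IsMin N a G) : 0 < G.natDegree := by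
  by_contra h0
  have hm : G.Monic := h.1
  have h1 : G = 1 := hm.natDegree_eq_zero.1 (by omega)
  exact ha (ann_one_iff.1 (h1 ▸ h.2.1))

private theorem dec {G₁ G₂ : F[X]} (hG₁ : G₁ ≠ 0) :
    ∃ D u w : F[X], IsCoprime u w ∧ G₁ = D * u ∧ G₂ = D * w := by
  classical
  obtain ⟨D, hD⟩ : ∃ D, D = EuclideanDomain.gcd G₁ G₂ := ⟨_, rfl⟩
  obtain ⟨u, hu⟩ : D ∣ G₁ := hD ▸ EuclideanDomain.gcd_dvd_left G₁ G₂
  obtain ⟨w, hw⟩ : D ∣ G₂ := hD ▸ EuclideanDomain.gcd_dvd_right G₁ G₂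
  have hab := EuclideanDomain.gcd_eq_gcd_ab G₁ G₂
  rw [← hD] at hab
  have hD0 : D ≠ 0 := fun h => hG₁ (by rw [hu, h, zero_mul])
  refine ⟨D, u, w, ⟨EuclideanDomain.gcdA G₁ G₂, EuclideanDomain.gcdB G₁ G₂, ?_⟩, hu, hw⟩
  generalize EuclideanDomain.gcdA G₁ G₂ = A at hab ⊢
  generalize EuclideanDomain.gcdB G₁ G₂ = B at hab ⊢
  refine mul_left_cancel₀ hD0 ?_
  rw [mul_one]
  calc D * (A * u + B * w) = (D * u) * A + (D * w) * B := by ring
    _ = D := by rw [← hu, ← hw, ← hab]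

/-- two different minimal annihilators have all their nonzero common multiples of degree `> N` -/
theorem min_ne {G₁ G₂ : F[X]} (h₁ : IsMin N a G₁) (h₂ : IsMin N a G₂) (hne : G₁ ≠ G₂)
    {f : F[X]} (hf : f ≠ 0) (d₁ : G₁ ∣ f) (d₂ : G₂ ∣ f) : N < f.natDegree := by
  classical
  by_contra hN
  have hm₁ : G₁.Monic := h₁.1
  have hm₂ : G₂.Monic := h₂.1
  have hG₁ : G₁ ≠ 0 := hm₁.ne_zero
  have hG₂ : G₂ ≠ 0 := hm₂.ne_zero
  obtain ⟨D, u, w, hc, e₁, e₂⟩ := dec hG₁ (G₂ := G₂)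
  have hD : D ≠ 0 := fun h => hG₁ (by rw [e₁, h, zero_mul])
  have hu : u ≠ 0 := fun h => hG₁ (by rw [e₁, h, mul_zero])
  have hw : w ≠ 0 := fun h => hG₂ (by rw [e₂, h, mul_zero])
  have hdvd : D * u * w ∣ f := by
    obtain ⟨c, rfl⟩ := d₁
    rw [e₁] at d₂ ⊢
    rw [e₂, mul_assoc] at d₂
    have h3 : w ∣ u * c := (mul_dvd_mul_iff_left hD).1 d₂
    exact mul_dvd_mul_left _ (hc.symm.dvd_of_dvd_mul_left h3)
  have hdeg : D.natDegree + u.natDegree + w.natDegree ≤ N := by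
    have h4 := natDegree_le_of_dvd hdvd hf
    rw [natDegree_mul (mul_ne_zero hD hu) hw, natDegree_mul hD hu] at h4
    omega
  have hAD : Ann N a D := ann_gcd e₁ e₂ hc hD hu hw hdeg h₁.2.1 h₂.2.1
  have hAn : Ann N a (normalize D) := hAD.of_dvd (associated_normalize D).dvd
  have hm : (normalize D).Monic := monic_normalize hD
  have k₁ := h₁.2.2 _ hm ((associated_normalize D).symm.dvd.trans (e₁ ▸ Dvd.intro u rfl)) hAn
  have k₂ := h₂.2.2 _ hm ((associated_normalize D).symm.dvd.trans (e₂ ▸ Dvd.intro w rfl)) hAn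
  exact hne (k₁.symm.trans k₂)

end H28WF
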