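import Pool.Agent.H28.WF.MomF

/-!
# [WF] Asy: from the sum over `a ≠ 0` to the number of representations

`R` = number of `c : Fin s → Fin n → F` with `∑ ε_i (mon n (c i))^k = N`, where
`deg N ≤ k n` and the coefficient of `X^(kn)` in `N` is `∑ ε_i`.  Orthogonality (`sum_psi_pr` for
`∑ ε_i y_i^k - N`, degree `< k n`):
`q^(kn) R = ∑_a ψ(-pr a N) ∏_i T(ε_i a)`, the term `a = 0` is `q^(s n)`, and for `a ≠ 0`
`∏ ‖T(ε_i a)‖ ≤ q^(n(s-2k-1)) ∏_{i < 2k+1} ‖T(ε_i a)‖ ≤ q^(n(s-2k-1)) (2k+1)^(-1) ∑_i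
‖T(ε_i a)‖^(2k+1)` (AM-GM, `Real.inner_le_nnorm_mul_nnorm` / `Real.geom_mean_le_arith_mean`), and
`a ↦ ε_i a` permutes the `a ≠ 0`.
-/

open Polynomial

namespace H28WF

/-- AM-GM for `m` factors -/
private theorem asy_amgm {ι : Type*} (I : Finset ι) {m : ℕ} (hm : m ≠ 0) (hI : I.card = m)
    (x : ι → ℝ) (hx : ∀ i, 0 ≤ x i) :
    (m : ℝ) * ∏ i ∈ I, x i ≤ ∑ i ∈ I, x i ^ m := by
  have hm' : (m : ℝ) ≠ 0 := by exact_mod_cast hm
  have h1 := Real.geom_mean_le_arith_mean_weighted I (fun _ => ((m : ℝ))⁻¹) (fun i => x i ^ m)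
    (fun i _ => by positivity) (by rw [Finset.sum_const, hI, nsmul_eq_mul, mul_inv_cancel₀ hm'])
    (fun i _ => pow_nonneg (hx i) m)
  have h2 : ∀ i ∈ I, (x i ^ m) ^ ((m : ℝ)⁻¹) = x i := fun i _ =>
    Real.pow_rpow_inv_natCast (hx i) hm
  rw [Finset.prod_congr rfl h2, ← Finset.mul_sum] at h1
  calc (m : ℝ) * ∏ i ∈ I, x i ≤ (m : ℝ) * ((m : ℝ)⁻¹ * ∑ i ∈ I, x i ^ m) :=
        mul_le_mul_of_nonneg_left h1 (by positivity)
    _ = ∑ i ∈ I, x i ^ m := by rw [← mul_assoc, mul_inv_cancel₀ hm', one_mul]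

/-- trivial bound -/
private theorem asy_T_le {F : Type*} [Field F] [Fintype F] (ψ : AddChar F ℂ) (k n : ℕ)
    (a : Fin (k * n) → F) : ‖T ψ k n a‖ ≤ (Fintype.card F : ℝ) ^ n := by
  rw [T]
  refine (norm_sum_le _ _).trans ?_
  have h1 : ∀ c : Fin n → F, ‖ψ (pr (k * n) a (mon n c ^ k))‖ = 1 := fun c =>
    AddChar.norm_apply ψ _
  rw [Finset.sum_congr rfl (fun c _ => h1 c)]
  simp

private theorem asy_T_zero {F : Type*} [Field F] [Fintype F] (ψ : AddChar F ℂ) (k n : ℕ) :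
    T ψ k n 0 = (Fintype.card F : ℂ) ^ n := by
  rw [T]
  have h1 : ∀ c : Fin n → F, ψ (pr (k * n) 0 (mon n c ^ k)) = 1 := fun c => by
    rw [pr_zero_left, AddChar.map_zero_eq_one]
  rw [Finset.sum_congr rfl (fun c _ => h1 c)]
  simp

open Classical in
/-- the product of the sums -/
private theorem asy_prod {F : Type*} [Field F] [Fintype F] (ψ : AddChar F ℂ) (k n s : ℕ)
    (ε : Fin s → F) (a : Fin (k * n) → F) :
    ∏ i, T ψ k n (ε i • a) =
      ∑ c : Fin s → Fin n → F, ψ (pr (k * n) a (∑ i, C (ε i) * mon n (c i) ^ k)) := by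
  have h1 := Finset.prod_univ_sum (fun _ : Fin s => (Finset.univ : Finset (Fin n → F)))
    (fun i c => ψ (pr (k * n) (ε i • a) (mon n c ^ k)))
  simp only [T]
  rw [h1, Fintype.piFinset_univ]
  refine Finset.sum_congr rfl fun c _ => ?_
  rw [map_sum]
  have h2 : ∀ t : Finset (Fin s), ∏ i ∈ t, ψ (pr (k * n) (ε i • a) (mon n (c i) ^ k)) =
      ψ (∑ i ∈ t, pr (k * n) a (C (ε i) * mon n (c i) ^ k)) := by
    intro t
    induction t using Finset.induction_on with
    | empty => rw [Finset.prod_empty, Finset.sum_empty, AddChar.map_zero_eq_one]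
    | insert i t hi ih =>
      rw [Finset.prod_insert hi, Finset.sum_insert hi, AddChar.map_add_eq_mul, ih]
      congr 2
      rw [← smul_eq_C_mul, map_smul, pr_smul_left, smul_eq_mul]
  exact h2 Finset.univ

open Classical in
theorem asy {F : Type*} [Field F] [Fintype F] (ψ : AddChar F ℂ) (hψ : ψ ≠ 1) {k n s : ℕ}
    (hk : 1 ≤ k) (hs : 2 * k + 1 ≤ s) (ε : Fin s → F) (hε : ∀ i, ε i ≠ 0) (N : F[X])
    (hN : N.natDegree ≤ k * n) (hlead : N.coeff (k * n) = ∑ i, ε i) {δ : ℝ}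
    (hδ : ∑ a ∈ (Finset.univ : Finset (Fin (k * n) → F)).filter (fun a => a ≠ 0),
      ‖T ψ k n a‖ ^ (2 * k + 1) ≤ δ * (Fintype.card F : ℝ) ^ ((2 * k + 1) * n)) :
    |(((Finset.univ : Finset (Fin s → Fin n → F)).filter
        (fun c => ∑ i, C (ε i) * mon n (c i) ^ k = N)).card : ℝ) -
        (Fintype.card F : ℝ) ^ ((s - k) * n)| ≤ δ * (Fintype.card F : ℝ) ^ ((s - k) * n) := by
  set q : ℝ := (Fintype.card F : ℝ) with hq
  have hq0 : 0 < q := by
    rw [hq]
    exact_mod_cast Fintype.card_pos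
  set R := ((Finset.univ : Finset (Fin s → Fin n → F)).filter
        (fun c => ∑ i, C (ε i) * mon n (c i) ^ k = N)).card with hR
  -- the degree of the difference
  have hdeg : ∀ c : Fin s → Fin n → F,
      ((∑ i, C (ε i) * mon n (c i) ^ k) - N).degree < ((k * n : ℕ) : WithBot ℕ) := by
    intro c
    have h1 : ∀ i, (mon n (c i) ^ k).natDegree = k * n := fun i => by
      rw [(mon_monic n (c i)).natDegree_pow, mon_natDegree]
    have h2 : ∀ i, (mon n (c i) ^ k).coeff (k * n) = 1 := fun i => by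
      have h3 := ((mon_monic n (c i)).pow k).coeff_natDegree
      rwa [h1 i] at h3
    have h4 : ((∑ i, C (ε i) * mon n (c i) ^ k) - N).natDegree ≤ k * n := by
      refine (natDegree_sub_le _ _).trans (max_le ?_ hN)
      refine natDegree_sum_le_of_forall_le _ _ fun i _ => ?_
      exact (natDegree_C_mul_le _ _).trans (h1 i).le
    have h5 : ((∑ i, C (ε i) * mon n (c i) ^ k) - N).coeff (k * n) = 0 := by
      rw [coeff_sub, finset_sum_coeff, hlead, sub_eq_zero]
      exact Finset.sum_congr rfl fun i _ => by rw [coeff_C_mul, h2 i, mul_one]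
    rw [degree_lt_iff_coeff_zero]
    intro m hm
    rcases eq_or_lt_of_le hm with h6 | h6
    · rw [← h6]
      exact h5
    · exact coeff_eq_zero_of_natDegree_lt (lt_of_le_of_lt h4 h6)
  -- orthogonality
  have hmain : (q : ℂ) ^ (k * n) * (R : ℂ) =
      ∑ a : Fin (k * n) → F, ψ (-(pr (k * n) a N)) * ∏ i, T ψ k n (ε i • a) := by
    have h1 : ∀ a : Fin (k * n) → F, ψ (-(pr (k * n) a N)) * ∏ i, T ψ k n (ε i • a) =
        ∑ c : Fin s → Fin n → F, ψ (pr (k * n) a ((∑ i, C (ε i) * mon n (c i) ^ k) - N)) := by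
      intro a
      rw [asy_prod, Finset.mul_sum]
      refine Finset.sum_congr rfl fun c _ => ?_
      rw [← AddChar.map_add_eq_mul, map_sub]
      congr 1
      ring
    rw [Finset.sum_congr rfl (fun a _ => h1 a), Finset.sum_comm,
      Finset.sum_congr rfl (fun c _ => sum_psi_pr ψ hψ (k * n) (hdeg c))]
    rw [← Finset.sum_filter, Finset.sum_const, nsmul_eq_mul, mul_comm]
    congr 1
    rw [hR]
    congr 2
    refine Finset.filter_congr fun c _ => ?_
    rw [sub_eq_zero]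
  -- the term `a = 0`
  have hsplit : (q : ℂ) ^ (k * n) * (R : ℂ) - (q : ℂ) ^ (s * n) =
      ∑ a ∈ (Finset.univ : Finset (Fin (k * n) → F)).filter (fun a => a ≠ 0),
        ψ (-(pr (k * n) a N)) * ∏ i, T ψ k n (ε i • a) := by
    rw [hmain, ← Finset.sum_filter_add_sum_filter_not Finset.univ
      (fun a : Fin (k * n) → F => a ≠ 0)]
    have h1 : (Finset.univ : Finset (Fin (k * n) → F)).filter (fun a => ¬ a ≠ 0) = {0} := by
      ext a
      simp
    rw [h1, Finset.sum_singleton, pr_zero_left, neg_zero, AddChar.map_zero_eq_one, one_mul]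
    have h2 : ∏ i, T ψ k n (ε i • (0 : Fin (k * n) → F)) = (q : ℂ) ^ (s * n) := by
      rw [Finset.prod_congr rfl (fun i _ => by rw [smul_zero, asy_T_zero]), Finset.prod_const,
        Finset.card_univ, Fintype.card_fin, ← pow_mul, hq]
      push_cast
      rw [mul_comm n s]
    rw [h2]
    ring
  -- the bound for `a ≠ 0`
  obtain ⟨I, -, hI⟩ := Finset.exists_subset_card_eq
    (s := (Finset.univ : Finset (Fin s))) (n := 2 * k + 1) (by simpa using hs)
  have hprod : ∀ a : Fin (k * n) → F, ∏ i, ‖T ψ k n (ε i • a)‖ ≤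
      q ^ ((s - (2 * k + 1)) * n) * ∏ i ∈ I, ‖T ψ k n (ε i • a)‖ := by
    intro a
    rw [← Finset.prod_mul_prod_compl I, mul_comm]
    refine mul_le_mul_of_nonneg_right ?_ (Finset.prod_nonneg fun i _ => norm_nonneg _)
    calc ∏ i ∈ Iᶜ, ‖T ψ k n (ε i • a)‖ ≤ ∏ i ∈ Iᶜ, q ^ n :=
          Finset.prod_le_prod (fun i _ => norm_nonneg _) (fun i _ => asy_T_le ψ k n _)
      _ = q ^ ((s - (2 * k + 1)) * n) := by
          rw [Finset.prod_const, Finset.card_compl, Fintype.card_fin, hI, ← pow_mul, mul_comm n]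
  have hperm : ∀ i, ∑ a ∈ (Finset.univ : Finset (Fin (k * n) → F)).filter (fun a => a ≠ 0),
      ‖T ψ k n (ε i • a)‖ ^ (2 * k + 1) =
        ∑ a ∈ (Finset.univ : Finset (Fin (k * n) → F)).filter (fun a => a ≠ 0),
          ‖T ψ k n a‖ ^ (2 * k + 1) := by
    intro i
    refine Finset.sum_nbij' (fun a => ε i • a) (fun a => (ε i)⁻¹ • a) ?_ ?_ ?_ ?_ ?_
    · intro a ha
      rw [Finset.mem_filter] at ha ⊢
      exact ⟨Finset.mem_univ _, smul_ne_zero (hε i) ha.2⟩
    · intro a ha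
      rw [Finset.mem_filter] at ha ⊢
      exact ⟨Finset.mem_univ _, smul_ne_zero (inv_ne_zero (hε i)) ha.2⟩
    · intro a _
      exact inv_smul_smul₀ (hε i) a
    · intro a _
      exact smul_inv_smul₀ (hε i) a
    · intro a _
      rfl
  have hsum : ∑ a ∈ (Finset.univ : Finset (Fin (k * n) → F)).filter (fun a => a ≠ 0),
      ∏ i ∈ I, ‖T ψ k n (ε i • a)‖ ≤ δ * q ^ ((2 * k + 1) * n) := by
    have hm : (0 : ℝ) < ((2 * k + 1 : ℕ) : ℝ) := by positivity
    refine le_of_mul_le_mul_left ?_ hm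
    rw [Finset.mul_sum]
    calc ∑ a ∈ (Finset.univ : Finset (Fin (k * n) → F)).filter (fun a => a ≠ 0),
          ((2 * k + 1 : ℕ) : ℝ) * ∏ i ∈ I, ‖T ψ k n (ε i • a)‖
        ≤ ∑ a ∈ (Finset.univ : Finset (Fin (k * n) → F)).filter (fun a => a ≠ 0),
          ∑ i ∈ I, ‖T ψ k n (ε i • a)‖ ^ (2 * k + 1) :=
          Finset.sum_le_sum fun a _ => asy_amgm I (by omega) hI _ (fun i => norm_nonneg _)
      _ = ∑ i ∈ I, ∑ a ∈ (Finset.univ : Finset (Fin (k * n) → F)).filter (fun a => a ≠ 0),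
            ‖T ψ k n (ε i • a)‖ ^ (2 * k + 1) := Finset.sum_comm
      _ = ((2 * k + 1 : ℕ) : ℝ) *
            ∑ a ∈ (Finset.univ : Finset (Fin (k * n) → F)).filter (fun a => a ≠ 0),
              ‖T ψ k n a‖ ^ (2 * k + 1) := by
          rw [Finset.sum_congr rfl (fun i _ => hperm i), Finset.sum_const, hI, nsmul_eq_mul]
      _ ≤ ((2 * k + 1 : ℕ) : ℝ) * (δ * q ^ ((2 * k + 1) * n)) :=
          mul_le_mul_of_nonneg_left hδ hm.le
  have hfin : |q ^ (k * n) * (R : ℝ) - q ^ (s * n)| ≤ δ * q ^ (s * n) := by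
    have h1 : |q ^ (k * n) * (R : ℝ) - q ^ (s * n)| =
        ‖(q : ℂ) ^ (k * n) * (R : ℂ) - (q : ℂ) ^ (s * n)‖ := by
      rw [← Real.norm_eq_abs, ← Complex.norm_real]
      push_cast
      rfl
    rw [h1, hsplit]
    refine (norm_sum_le _ _).trans ?_
    calc ∑ a ∈ (Finset.univ : Finset (Fin (k * n) → F)).filter (fun a => a ≠ 0),
          ‖ψ (-(pr (k * n) a N)) * ∏ i, T ψ k n (ε i • a)‖
        ≤ ∑ a ∈ (Finset.univ : Finset (Fin (k * n) → F)).filter (fun a => a ≠ 0),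
          q ^ ((s - (2 * k + 1)) * n) * ∏ i ∈ I, ‖T ψ k n (ε i • a)‖ := by
          refine Finset.sum_le_sum fun a _ => ?_
          rw [norm_mul, AddChar.norm_apply, one_mul, norm_prod]
          exact hprod a
      _ = q ^ ((s - (2 * k + 1)) * n) *
            ∑ a ∈ (Finset.univ : Finset (Fin (k * n) → F)).filter (fun a => a ≠ 0),
              ∏ i ∈ I, ‖T ψ k n (ε i • a)‖ := by rw [Finset.mul_sum]
      _ ≤ q ^ ((s - (2 * k + 1)) * n) * (δ * q ^ ((2 * k + 1) * n)) :=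
          mul_le_mul_of_nonneg_left hsum (by positivity)
      _ = δ * q ^ (s * n) := by
          have h2 : s * n = (s - (2 * k + 1)) * n + (2 * k + 1) * n := by
            rw [← Nat.add_mul, Nat.sub_add_cancel hs]
          rw [h2, pow_add]
          ring
  have hpow : q ^ (s * n) = q ^ (k * n) * q ^ ((s - k) * n) := by
    rw [← pow_add, ← Nat.add_mul, Nat.add_sub_cancel' (by omega)]
  have hpos : 0 < q ^ (k * n) := by positivity
  refine le_of_mul_le_mul_left ?_ hpos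
  calc q ^ (k * n) * |(R : ℝ) - q ^ ((s - k) * n)|
      = |q ^ (k * n) * (R : ℝ) - q ^ (s * n)| := by
        rw [hpow, ← mul_sub, abs_mul, abs_of_pos hpos]
    _ ≤ δ * q ^ (s * n) := hfin
    _ = q ^ (k * n) * (δ * q ^ ((s - k) * n)) := by
        rw [hpow]
        ring

end H28WF
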