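import Pool.Agent.H28.WF.Def

/-!
# [WF] Bas: basic facts on `low`, `mon`, `pr`
-/

open Polynomial

namespace H28WF

variable {F : Type*} [Field F]

theorem low_degree_lt (n : ℕ) (c : Fin n → F) : (low n c).degree < (n : WithBot ℕ) := by
  rw [low, ← mem_degreeLT]
  refine Submodule.sum_mem _ fun i _ => ?_
  rw [mem_degreeLT]
  exact lt_of_le_of_lt (degree_C_mul_X_pow_le _ _) (by exact_mod_cast i.2)

theorem low_coeff (n : ℕ) (c : Fin n → F) (i : Fin n) : (low n c).coeff i = c i := by
  rw [low, finset_sum_coeff]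
  rw [Finset.sum_eq_single i]
  · simp
  · intro j _ hj
    rw [coeff_C_mul_X_pow, if_neg]
    exact fun h => hj (Fin.ext h.symm)
  · simp

theorem low_coeff_of_le (n : ℕ) (c : Fin n → F) {i : ℕ} (h : n ≤ i) : (low n c).coeff i = 0 :=
  coeff_eq_zero_of_degree_lt (lt_of_lt_of_le (low_degree_lt n c) (by exact_mod_cast h))

theorem low_of_coeff {n : ℕ} {f : F[X]} (h : f.degree < (n : WithBot ℕ)) :
    low n (fun i => f.coeff i) = f := by
  ext j
  rcases lt_or_ge j n with hj | hj
  · exact low_coeff n _ ⟨j, hj⟩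
  · rw [low_coeff_of_le n _ hj, coeff_eq_zero_of_degree_lt]
    exact lt_of_lt_of_le h (by exact_mod_cast hj)

theorem low_injective (n : ℕ) : Function.Injective (low (F := F) n) := by
  intro c d h
  funext i
  rw [← low_coeff n c i, h, low_coeff n d i]

theorem low_add (n : ℕ) (c d : Fin n → F) : low n (c + d) = low n c + low n d := by
  simp only [low, Pi.add_apply, C_add, add_mul, Finset.sum_add_distrib]

theorem low_sub (n : ℕ) (c d : Fin n → F) : low n (c - d) = low n c - low n d := by
  simp only [low, Pi.sub_apply, C_sub, sub_mul, Finset.sum_sub_distrib]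

theorem low_smul (n : ℕ) (t : F) (c : Fin n → F) : low n (t • c) = C t * low n c := by
  simp only [low, Pi.smul_apply, smul_eq_mul, C_mul, Finset.mul_sum, mul_assoc]

theorem low_zero (n : ℕ) : low n (0 : Fin n → F) = 0 := by
  simp [low]

theorem mon_monic (n : ℕ) (c : Fin n → F) : (mon n c).Monic :=
  monic_X_pow_add (low_degree_lt n c)

theorem mon_natDegree (n : ℕ) (c : Fin n → F) : (mon n c).natDegree = n := by
  have h : (mon n c).degree = (n : WithBot ℕ) := by
    rw [mon, degree_add_eq_left_of_degree_lt, degree_X_pow]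
    rw [degree_X_pow]
    exact low_degree_lt n c
  exact natDegree_eq_of_degree_eq_some h

theorem mon_injective (n : ℕ) : Function.Injective (mon (F := F) n) := by
  intro c d h
  exact low_injective n (add_left_cancel h)

theorem exists_mon {n : ℕ} {y : F[X]} (hy : y.Monic) (hn : y.natDegree = n) :
    ∃ c : Fin n → F, mon n c = y := by
  have h : (y - X ^ n).degree < (n : WithBot ℕ) := by
    have h1 : y.degree = (X ^ n : F[X]).degree := by
      rw [degree_X_pow, degree_eq_natDegree hy.ne_zero, hn]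
    have h2 := degree_sub_lt h1 hy.ne_zero (by rw [hy.leadingCoeff, leadingCoeff_X_pow])
    rwa [degree_eq_natDegree hy.ne_zero, hn] at h2
  refine ⟨fun i => (y - X ^ n).coeff i, ?_⟩
  rw [mon, low_of_coeff h]
  ring

theorem pr_apply (N : ℕ) (a : Fin N → F) (f : F[X]) :
    pr N a f = ∑ i : Fin N, a i * f.coeff i := by
  simp [pr]

theorem pr_add (N : ℕ) (a b : Fin N → F) (f : F[X]) : pr N (a + b) f = pr N a f + pr N b f := by
  simp only [pr_apply, Pi.add_apply, add_mul, Finset.sum_add_distrib]

theorem pr_sub (N : ℕ) (a b : Fin N → F) (f : F[X]) : pr N (a - b) f = pr N a f - pr N b f := by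
  simp only [pr_apply, Pi.sub_apply, sub_mul, Finset.sum_sub_distrib]

theorem pr_smul_left (N : ℕ) (t : F) (a : Fin N → F) (f : F[X]) :
    pr N (t • a) f = t * pr N a f := by
  simp only [pr_apply, Pi.smul_apply, smul_eq_mul, mul_assoc, Finset.mul_sum]

theorem pr_zero_left (N : ℕ) (f : F[X]) : pr N (0 : Fin N → F) f = 0 := by
  simp [pr_apply]

theorem pr_X_pow (N : ℕ) (a : Fin N → F) (i : Fin N) : pr N a (X ^ (i : ℕ)) = a i := by
  rw [pr_apply, Finset.sum_eq_single i]
  · simp
  · intro j _ hj
    rw [coeff_X_pow, if_neg, mul_zero]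
    exact fun h => hj (Fin.ext h)
  · simp

theorem pr_eq_zero_of_all {N : ℕ} {a : Fin N → F}
    (h : ∀ f : F[X], f.degree < (N : WithBot ℕ) → pr N a f = 0) : a = 0 := by
  funext i
  rw [← pr_X_pow N a i, h _ (by rw [degree_X_pow]; exact_mod_cast i.2)]
  rfl

/-- only the part of degree `< N` of a polynomial is seen -/
theorem pr_X_pow_of_le (N : ℕ) (a : Fin N → F) {j : ℕ} (h : N ≤ j) : pr N a (X ^ j) = 0 := by
  rw [pr_apply]
  refine Finset.sum_eq_zero fun i _ => ?_
  rw [coeff_X_pow, if_neg, mul_zero]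
  have := i.2
  omega

end H28WF
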