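import Mathlib

/-!
# [WF] Bd: the recursion closes (natural number arithmetic)

`A ≥ 1`, `B = 8 A^k`: `2 A^n ≤ (2/8) B^n`; `∑_{δ=1}^n A^δ B^(n-δ) ≤ B^n ∑ 8^(-δ) ≤ B^n / 7` and, if
`n < (k-1) δ`, `A^n B^(n-δ) ≤ A^((k-1)δ) B^(n-δ) ≤ B^n 8^(-δ)`.
-/

namespace H28WF

private theorem bd_geo (n : ℕ) : ∑ δ ∈ Finset.Icc 1 n, (1 / 8 : ℝ) ^ δ = (1 - (1 / 8 : ℝ) ^ n) / 7 := by
  induction n with
  | zero => simp
  | succ n ih =>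
    rw [Finset.sum_Icc_succ_top (by omega), ih, pow_succ]
    ring

private theorem bd_term {k : ℕ} {A : ℕ} (hA : 1 ≤ A) {n m δ : ℕ} (hδ : δ ≤ n) (hm : m ≤ k * δ) :
    (A : ℝ) ^ m * (8 * (A : ℝ) ^ k) ^ (n - δ) ≤ (8 * (A : ℝ) ^ k) ^ n * (1 / 8 : ℝ) ^ δ := by
  have hAR : (1 : ℝ) ≤ A := by exact_mod_cast hA
  have hB : 0 ≤ (8 * (A : ℝ) ^ k) ^ (n - δ) := by positivity
  have h1 : (A : ℝ) ^ m ≤ (8 * (A : ℝ) ^ k) ^ δ * (1 / 8 : ℝ) ^ δ := by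
    rw [← mul_pow]
    have h2 : 8 * (A : ℝ) ^ k * (1 / 8) = (A : ℝ) ^ k := by ring
    rw [h2, ← pow_mul]
    exact pow_le_pow_right₀ hAR hm
  have h3 : (8 * (A : ℝ) ^ k) ^ n = (8 * (A : ℝ) ^ k) ^ δ * (8 * (A : ℝ) ^ k) ^ (n - δ) := by
    rw [← pow_add, Nat.add_sub_cancel' hδ]
  calc (A : ℝ) ^ m * (8 * (A : ℝ) ^ k) ^ (n - δ) ≤
        ((8 * (A : ℝ) ^ k) ^ δ * (1 / 8 : ℝ) ^ δ) * (8 * (A : ℝ) ^ k) ^ (n - δ) := mul_le_mul_of_nonneg_right h1 hB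
    _ = _ := by rw [h3]; ring

theorem bd {k : ℕ} (hk : 2 ≤ k) {A : ℕ} (hA : 1 ≤ A) {n : ℕ} (hn : 1 ≤ n) :
    2 * A ^ n + ∑ δ ∈ Finset.Icc 1 n, A ^ δ * (8 * A ^ k) ^ (n - δ) +
      ∑ δ ∈ (Finset.Icc 1 n).filter (fun δ => n < (k - 1) * δ), A ^ n * (8 * A ^ k) ^ (n - δ) ≤
      (8 * A ^ k) ^ n := by
  obtain ⟨B, hB⟩ : ∃ B : ℝ, B = (8 * (A : ℝ) ^ k) ^ n := ⟨_, rfl⟩
  have hAR : (1 : ℝ) ≤ A := by exact_mod_cast hA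
  have hB0 : 0 ≤ B := by
    rw [hB]
    positivity
  have hg := bd_geo n
  have hp : (0 : ℝ) ≤ (1 / 8 : ℝ) ^ n := by positivity
  have h1 : (A : ℝ) ^ n ≤ B / 8 := by
    have h2 := bd_term (k := k) hA (n := n) (m := n) (δ := n) le_rfl (Nat.le_mul_of_pos_left n (by omega))
    rw [Nat.sub_self, pow_zero, mul_one, ← hB] at h2
    refine h2.trans ?_
    have h3 : (1 / 8 : ℝ) ^ n ≤ (1 / 8 : ℝ) ^ 1 := pow_le_pow_of_le_one (by norm_num) (by norm_num) hn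
    have h4 := mul_le_mul_of_nonneg_left h3 hB0
    rw [pow_one] at h4
    linarith
  have h2 : ∑ δ ∈ Finset.Icc 1 n, (A : ℝ) ^ δ * (8 * (A : ℝ) ^ k) ^ (n - δ) ≤ B / 7 := by
    calc ∑ δ ∈ Finset.Icc 1 n, (A : ℝ) ^ δ * (8 * (A : ℝ) ^ k) ^ (n - δ) ≤
          ∑ δ ∈ Finset.Icc 1 n, B * (1 / 8 : ℝ) ^ δ := by
          refine Finset.sum_le_sum fun δ hδ => ?_
          rw [Finset.mem_Icc] at hδ
          rw [hB]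
          exact bd_term hA hδ.2 (Nat.le_mul_of_pos_left δ (by omega))
      _ = B * ((1 - (1 / 8 : ℝ) ^ n) / 7) := by rw [← Finset.mul_sum, hg]
      _ ≤ B / 7 := by nlinarith [mul_nonneg hB0 hp]
  have h3 : ∑ δ ∈ (Finset.Icc 1 n).filter (fun δ => n < (k - 1) * δ), (A : ℝ) ^ n * (8 * (A : ℝ) ^ k) ^ (n - δ) ≤ B / 7 := by
    calc ∑ δ ∈ (Finset.Icc 1 n).filter (fun δ => n < (k - 1) * δ), (A : ℝ) ^ n * (8 * (A : ℝ) ^ k) ^ (n - δ) ≤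
          ∑ δ ∈ (Finset.Icc 1 n).filter (fun δ => n < (k - 1) * δ), B * (1 / 8 : ℝ) ^ δ := by
          refine Finset.sum_le_sum fun δ hδ => ?_
          rw [Finset.mem_filter, Finset.mem_Icc] at hδ
          rw [hB]
          refine bd_term hA hδ.1.2 (hδ.2.le.trans (Nat.mul_le_mul_right _ (Nat.sub_le _ _)))
      _ ≤ ∑ δ ∈ Finset.Icc 1 n, B * (1 / 8 : ℝ) ^ δ :=
          Finset.sum_le_sum_of_subset_of_nonneg (Finset.filter_subset _ _) fun _ _ _ => by positivity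
      _ = B * ((1 - (1 / 8 : ℝ) ^ n) / 7) := by rw [← Finset.mul_sum, hg]
      _ ≤ B / 7 := by nlinarith [mul_nonneg hB0 hp]
  have h4 : ((2 * A ^ n + ∑ δ ∈ Finset.Icc 1 n, A ^ δ * (8 * A ^ k) ^ (n - δ) +
      ∑ δ ∈ (Finset.Icc 1 n).filter (fun δ => n < (k - 1) * δ), A ^ n * (8 * A ^ k) ^ (n - δ) : ℕ) : ℝ) ≤
      (((8 * A ^ k) ^ n : ℕ) : ℝ) := by
    push_cast
    rw [← hB]
    linarith
  exact_mod_cast h4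

end H28WF
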