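import Mathlib

/-!
# [H28 WF BEZ] MP_efcac8_nt, theorem WF (think 1933), step (1): nonsingular Bezout

`bez`: `s` polynomials of degree at most `D` in `s` variables over a field have at most `D ^ s` common
zeros with invertible Jacobian. Proof: `b_z` with `b_z(z') = δ`; the polynomials `b_z P ^ β` are linearly
independent (expand along the generic line through `z`), so `m L(T) ≤ L(c + D T) ≤ D ^ s L(T + c)` with
`L(T)` the number of monomials of degree at most `T`, which grows polynomially.
`bez_inj` (1a): injective Jacobian, any number of equations. `bez_surj` (1b): surjective Jacobian over a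
finite field.
-/

set_option autoImplicit false

namespace H28.WF

open MvPolynomial

private theorem fin_deg {σ : Type*} [Finite σ] (n : ℕ) : {b : σ →₀ ℕ | b.degree ≤ n}.Finite := by
  have h : Finite {f : σ →₀ ℕ | ∀ a, f a ≤ n} :=
    ((Set.Finite.pi' fun _ ↦ Set.finite_le_nat _).preimage DFunLike.coe_injective.injOn).to_subtype
  rw [Set.finite_coe_iff] at h
  exact h.subset fun f hf a => (Finsupp.le_degree a f).trans hf

/-- exponents of degree at most `n` -/
private noncomputable def Bn (σ : Type*) [Finite σ] (n : ℕ) : Finset (σ →₀ ℕ) := (fin_deg n).toFinset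

private theorem mem_Bn {σ : Type*} [Finite σ] {n : ℕ} {b : σ →₀ ℕ} : b ∈ Bn σ n ↔ b.degree ≤ n := by
  simp [Bn]

private theorem sep {σ F : Type*} [Field F] [DecidableEq (σ → F)] (Z : Finset (σ → F)) (z : σ → F) :
    ∃ b : MvPolynomial σ F, eval z b = 1 ∧ ∀ z' ∈ Z, z' ≠ z → eval z' b = 0 := by
  classical
  have h : ∀ z' : σ → F, z' ≠ z → ∃ j, z' j ≠ z j := fun z' hz' => by
    by_contra hc
    push Not at hc
    exact hz' (funext hc)
  rcases isEmpty_or_nonempty σ with hσ | hσ
  · exact ⟨1, by simp, fun z' _ hne => absurd (Subsingleton.elim z' z) hne⟩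
  choose! j hj using h
  refine ⟨∏ z' ∈ Z.erase z, C ((z (j z') - z' (j z'))⁻¹) * (X (j z') - C (z' (j z'))), ?_, ?_⟩
  · rw [map_prod]
    refine Finset.prod_eq_one fun z' hz' => ?_
    have := hj z' (Finset.ne_of_mem_erase hz')
    simp only [map_mul, eval_C, map_sub, eval_X]
    exact inv_mul_cancel₀ (sub_ne_zero.2 (Ne.symm this))
  · intro z' hz' hne
    rw [map_prod]
    refine Finset.prod_eq_zero (Finset.mem_erase.2 ⟨hne, hz'⟩) ?_
    simp

/-- expansion along the generic line through `z` -/
private noncomputable def lin {σ F : Type*} [Field F] (z : σ → F) :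
    MvPolynomial σ F →ₐ[F] Polynomial (MvPolynomial σ F) :=
  aeval fun j => Polynomial.C (C (z j)) + Polynomial.C (X j) * Polynomial.X

private theorem lin0 {σ F : Type*} [Field F] (z : σ → F) (p : MvPolynomial σ F) :
    (lin z p).coeff 0 = C (eval z p) := by
  induction p using MvPolynomial.induction_on with
  | C a => simp [lin, Polynomial.algebraMap_apply, algebraMap_eq]
  | add p q hp hq => rw [map_add, Polynomial.coeff_add, hp, hq, map_add, map_add]
  | mul_X p n hp =>
    rw [map_mul, Polynomial.mul_coeff_zero, hp, map_mul, map_mul]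
    simp [lin]

private theorem lin1 {σ F : Type*} [Fintype σ] [Field F] (z : σ → F) (p : MvPolynomial σ F) :
    (lin z p).coeff 1 = ∑ j, C (eval z (pderiv j p)) * X j := by
  classical
  induction p using MvPolynomial.induction_on with
  | C a => simp [lin, Polynomial.algebraMap_apply, algebraMap_eq, Polynomial.coeff_C]
  | add p q hp hq =>
    rw [map_add, Polynomial.coeff_add, hp, hq, ← Finset.sum_add_distrib]
    refine Finset.sum_congr rfl fun j _ => ?_
    simp [add_mul]
  | mul_X p n hp =>
    have h1 : (lin z (X n : MvPolynomial σ F)).coeff 1 = X n := by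
      simp [lin, Polynomial.coeff_C]
    have h2 : (lin z (p * X n)).coeff 1
        = (lin z p).coeff 0 * (lin z (X n : MvPolynomial σ F)).coeff 1
          + (lin z p).coeff 1 * (lin z (X n : MvPolynomial σ F)).coeff 0 := by
      rw [map_mul, Polynomial.coeff_mul]
      simp [Finset.antidiagonal, Finset.Nat.antidiagonal_succ]
    rw [h2, h1, lin0, lin0, hp]
    have h3 : ∀ j, eval z (pderiv j (p * X n)) =
        eval z p * (if j = n then 1 else 0) + eval z (pderiv j p) * z n := by
      intro j
      rw [pderiv_mul, map_add, map_mul, map_mul, pderiv_X, eval_X]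
      by_cases h : j = n
      · subst h; simp [add_comm]
      · have h' : Pi.single (M := fun _ => MvPolynomial σ F) j (1 : MvPolynomial σ F) n = 0 := by
          rw [Pi.single_apply, if_neg (Ne.symm h)]
        rw [h']; simp [h]
    simp only [h3, map_add, map_mul, add_mul, Finset.sum_add_distrib, eval_X]
    congr 1
    · rw [Finset.sum_eq_single n]
      · simp
      · intro b _ hb; simp [hb]
      · simp
    · rw [Finset.sum_mul]
      exact Finset.sum_congr rfl fun j _ => by ring


private theorem fac {σ F : Type*} [Fintype σ] [Field F] (z : σ → F) (p : MvPolynomial σ F)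
    (hp : eval z p = 0) : ∃ g : Polynomial (MvPolynomial σ F), lin z p = Polynomial.X * g ∧
      g.coeff 0 = ∑ j, C (eval z (pderiv j p)) * X j := by
  have h0 : (lin z p).coeff 0 = 0 := by rw [lin0, hp, map_zero]
  obtain ⟨g, hg⟩ := Polynomial.X_dvd_iff.2 h0
  refine ⟨g, hg, ?_⟩
  rw [← lin1, hg, show (1 : ℕ) = 0 + 1 from rfl, Polynomial.coeff_X_mul]

/-- the family `b z * P ^ β` is linearly independent -/
private theorem indep {σ F : Type*} [Fintype σ] [DecidableEq σ] [Field F]
    (P : σ → MvPolynomial σ F) (Z : Finset (σ → F)) (hz : ∀ x ∈ Z, ∀ i, eval x (P i) = 0)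
    (hJ : ∀ x ∈ Z, (Matrix.of fun i j => eval x (pderiv j (P i))).det ≠ 0)
    (b : (σ → F) → MvPolynomial σ F) (hb1 : ∀ z, eval z (b z) = 1)
    (hb0 : ∀ z, ∀ z' ∈ Z, z' ≠ z → eval z' (b z) = 0) :
    LinearIndependent F (fun x : Z × (σ →₀ ℕ) => b x.1 * ∏ i, P i ^ x.2 i) := by
  classical
  rw [linearIndependent_iff']
  intro s g hg
  by_contra hcon
  push Not at hcon
  obtain ⟨x1, hx1, hgx1⟩ := hcon
  obtain ⟨x0, hx0, hmin⟩ := Finset.exists_min_image (s.filter fun x => g x ≠ 0)
    (fun x => x.2.degree) ⟨x1, Finset.mem_filter.2 ⟨hx1, hgx1⟩⟩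
  rw [Finset.mem_filter] at hx0
  obtain ⟨hx0s, hgx0⟩ := hx0
  obtain ⟨⟨z0, hz0⟩, β0⟩ := x0
  set t := β0.degree with ht
  have hlow : ∀ x ∈ s, x.2.degree < t → g x = 0 := by
    intro x hx hlt
    by_contra hne
    have := hmin x (Finset.mem_filter.2 ⟨hx, hne⟩)
    exact absurd hlt (not_lt.2 this)
  choose G hG1 hG2 using fun i => fac z0 (P i) (hz z0 hz0 i)
  have hterm : ∀ x : Z × (σ →₀ ℕ), lin z0 (b x.1 * ∏ i, P i ^ x.2 i)
      = Polynomial.X ^ x.2.degree * (lin z0 (b x.1) * ∏ i, G i ^ x.2 i) := by
    intro x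
    rw [map_mul, map_prod]
    simp only [map_pow, hG1, mul_pow, Finset.prod_mul_distrib]
    have : ∏ i, (Polynomial.X : Polynomial (MvPolynomial σ F)) ^ x.2 i
        = Polynomial.X ^ x.2.degree := by
      rw [Finset.prod_pow_eq_pow_sum, Finsupp.degree_eq_sum]
    rw [this]; ring
  have hc := congrArg (fun p => (lin z0 p).coeff t) hg
  simp only [map_sum, map_smul, map_zero, Polynomial.coeff_zero, Polynomial.finset_sum_coeff,
    Polynomial.coeff_smul, hterm, Polynomial.coeff_X_pow_mul'] at hc
  -- only the terms of degree t at z0 survive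
  have hc2 : ∑ x ∈ s, (if x.2.degree = t ∧ (x.1 : σ → F) = z0 then
      g x • ∏ i, (∑ j, C (eval z0 (pderiv j (P i))) * X j : MvPolynomial σ F) ^ x.2 i else 0) = 0 := by
    refine (Finset.sum_congr rfl fun x hx => ?_).trans hc
    rcases lt_trichotomy x.2.degree t with h | h | h
    · rw [hlow x hx h]; simp
    · by_cases hxz : (x.1 : σ → F) = z0
      · rw [if_pos ⟨h, hxz⟩, if_pos h.le, h, Nat.sub_self, Polynomial.mul_coeff_zero, lin0, hxz,
          hb1, map_one, one_mul, Polynomial.coeff_zero_prod]
        simp only [Polynomial.coeff_zero_eq_eval_zero, Polynomial.eval_pow]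
        simp only [← Polynomial.coeff_zero_eq_eval_zero, hG2]
      · rw [if_neg (fun hh => hxz hh.2), if_pos h.le, h, Nat.sub_self, Polynomial.mul_coeff_zero,
          lin0, hb0 _ z0 hz0 (Ne.symm hxz), map_zero, zero_mul, smul_zero]
    · rw [if_neg (fun hh => h.ne' hh.1), if_neg (not_le.2 h), smul_zero]
  -- change of variables
  have hdet := hJ z0 hz0
  set A : Matrix σ σ F := Matrix.of fun i j => eval z0 (pderiv j (P i)) with hA
  have hAu : IsUnit A.det := isUnit_iff_ne_zero.2 hdet
  set th : MvPolynomial σ F →ₐ[F] MvPolynomial σ F :=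
    aeval fun j => ∑ k, C (A⁻¹ j k) * X k with hth
  have hL : ∀ i, th (∑ j, C (eval z0 (pderiv j (P i))) * X j) = X i := by
    intro i
    rw [map_sum]
    simp only [map_mul, hth, aeval_X, ← algebraMap_eq, AlgHom.commutes]
    simp only [algebraMap_eq, Finset.mul_sum, ← mul_assoc, ← map_mul]
    rw [Finset.sum_comm]
    simp only [← Finset.sum_mul, ← map_sum]
    have : ∀ k, ∑ j, eval z0 (pderiv j (P i)) * A⁻¹ j k = (A * A⁻¹) i k := by
      intro k; rw [Matrix.mul_apply]; simp [hA]
    simp only [this, Matrix.mul_nonsing_inv A hAu, Matrix.one_apply]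
    rw [Finset.sum_eq_single i]
    · simp
    · intro k _ hk; simp [Ne.symm hk]
    · simp
  have hc3 := congrArg th hc2
  rw [map_sum, map_zero] at hc3
  have hc4 := congrArg (coeff β0) hc3
  rw [coeff_sum, coeff_zero, Finset.sum_eq_single (⟨z0, hz0⟩, β0)] at hc4
  · rw [if_pos ⟨rfl, rfl⟩, map_smul, map_prod] at hc4
    simp only [map_pow, hL] at hc4
    rw [coeff_smul] at hc4
    have : ∏ i, (X i : MvPolynomial σ F) ^ β0 i = monomial β0 1 := by
      rw [monomial_eq, map_one, one_mul, Finsupp.prod_fintype]
      simp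
    rw [this, coeff_monomial, if_pos rfl, smul_eq_mul, mul_one] at hc4
    exact hgx0 hc4
  · intro x hx hne
    by_cases h : x.2.degree = t ∧ (x.1 : σ → F) = z0
    · rw [if_pos h, map_smul, map_prod]
      simp only [map_pow, hL]
      rw [coeff_smul]
      have : ∏ i, (X i : MvPolynomial σ F) ^ x.2 i = monomial x.2 1 := by
        rw [monomial_eq, map_one, one_mul, Finsupp.prod_fintype]
        simp
      rw [this, coeff_monomial, if_neg, smul_zero]
      intro hb
      exact hne (Prod.ext (Subtype.ext h.2) hb)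
    · rw [if_neg h, map_zero, coeff_zero]
  · intro h; exact absurd hx0s h

/-- counting inequality -/
private theorem count {σ F : Type*} [Fintype σ] [DecidableEq σ] [Field F] (D : ℕ)
    (P : σ → MvPolynomial σ F) (hD : ∀ i, (P i).totalDegree ≤ D)
    (Z : Finset (σ → F)) (hz : ∀ x ∈ Z, ∀ i, eval x (P i) = 0)
    (hJ : ∀ x ∈ Z, (Matrix.of fun i j => eval x (pderiv j (P i))).det ≠ 0) :
    ∃ c : ℕ, ∀ T : ℕ, Z.card * (Bn σ T).card ≤ (Bn σ (c + D * T)).card := by
  classical
  choose b hb1 hb0 using sep (F := F) Z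
  refine ⟨Z.sup fun z => (b z).totalDegree, fun T => ?_⟩
  set c := Z.sup fun z => (b z).totalDegree with hc
  have hli := indep P Z hz hJ b hb1 hb0
  have hfin : Finite {s : σ →₀ ℕ | s.degree ≤ c + D * T} := (fin_deg (c + D * T)).to_subtype
  set W := restrictSupport F {s : σ →₀ ℕ | s.degree ≤ c + D * T} with hW
  have hmem : ∀ x : Z × Bn σ T, b x.1 * ∏ i, P i ^ (x.2 : σ →₀ ℕ) i ∈ W := by
    intro x
    rw [hW, mem_restrictSupport_iff]
    intro m hm
    have h1 : m.degree ≤ (b x.1 * ∏ i, P i ^ (x.2 : σ →₀ ℕ) i).totalDegree := by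
      have := le_totalDegree (Finset.mem_coe.1 hm)
      exact this
    have h2 : (b x.1).totalDegree ≤ c := Finset.le_sup (f := fun z => (b z).totalDegree) x.1.2
    have h3 : (∏ i, P i ^ (x.2 : σ →₀ ℕ) i).totalDegree ≤ D * T := by
      refine (totalDegree_finset_prod _ _).trans ?_
      calc ∑ i, (P i ^ (x.2 : σ →₀ ℕ) i).totalDegree
          ≤ ∑ i, (x.2 : σ →₀ ℕ) i * D := Finset.sum_le_sum fun i _ =>
            (totalDegree_pow _ _).trans (Nat.mul_le_mul_left _ (hD i))
        _ = (x.2 : σ →₀ ℕ).degree * D := by rw [← Finset.sum_mul, Finsupp.degree_eq_sum]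
        _ ≤ T * D := Nat.mul_le_mul_right _ (mem_Bn.1 x.2.2)
        _ = D * T := Nat.mul_comm _ _
    exact h1.trans ((totalDegree_mul _ _).trans (Nat.add_le_add h2 h3))
  have hli2 : LinearIndependent F (fun x : Z × Bn σ T => (⟨_, hmem x⟩ : W)) := by
    have h := hli.comp (fun x : Z × Bn σ T => (x.1, (x.2 : σ →₀ ℕ))) (by
      intro x y hxy
      simp only [Prod.mk.injEq] at hxy
      exact Prod.ext hxy.1 (Subtype.ext hxy.2))
    exact LinearIndependent.of_comp W.subtype h
  have : Module.Finite F W := Module.Finite.of_basis (basisRestrictSupport F _)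
  have hcard := hli2.fintype_card_le_finrank
  have : Fintype {s : σ →₀ ℕ | s.degree ≤ c + D * T} := Fintype.ofFinite _
  rw [Fintype.card_prod, Fintype.card_coe, Fintype.card_coe,
    Module.finrank_eq_card_basis (basisRestrictSupport F _)] at hcard
  refine hcard.trans (le_of_eq ?_)
  rw [← Set.toFinset_card]
  congr 1
  ext m
  simp [mem_Bn]

private theorem card_mul (σ : Type*) [Fintype σ] (D T : ℕ) (hD : 0 < D) :
    (Bn σ (D * T)).card ≤ D ^ Fintype.card σ * (Bn σ T).card := by
  classical
  have h : (Bn σ (D * T)).card ≤ ((Finset.univ : Finset (σ → Fin D)) ×ˢ (Bn σ T)).card := by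
    refine Finset.card_le_card_of_injOn
      (fun b => ((fun i => (⟨b i % D, Nat.mod_lt _ hD⟩ : Fin D)),
        Finsupp.equivFunOnFinite.symm fun i => b i / D)) ?_ ?_
    · intro b hb
      rw [Finset.mem_coe, mem_Bn] at hb
      rw [Finset.mem_coe, Finset.mem_product]
      refine ⟨Finset.mem_univ _, mem_Bn.2 ?_⟩
      rw [Finsupp.degree_eq_sum] at hb ⊢
      simp only [Finsupp.equivFunOnFinite_symm_apply_apply]
      have : D * ∑ i, b i / D ≤ D * T := by
        refine le_trans ?_ hb
        rw [Finset.mul_sum]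
        exact Finset.sum_le_sum fun i _ => Nat.mul_div_le _ _
      exact Nat.le_of_mul_le_mul_left this hD
    · intro a _ b _ hab
      simp only [Prod.mk.injEq] at hab
      obtain ⟨h1, h2⟩ := hab
      ext i
      have e1 := congrFun h1 i
      have e2 := congrArg (fun f : σ →₀ ℕ => f i) h2
      simp only [Fin.mk.injEq] at e1
      simp only [Finsupp.equivFunOnFinite_symm_apply_apply] at e2
      rw [← Nat.div_add_mod (a i) D, ← Nat.div_add_mod (b i) D, e1, e2]
  refine h.trans (le_of_eq ?_)
  rw [Finset.card_product, Finset.card_univ, Fintype.card_fun, Fintype.card_fin]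

private theorem card_poly (σ : Type*) [Fintype σ] (T : ℕ) :
    (Bn σ T).card ≤ (T + 1) ^ Fintype.card σ := by
  classical
  have h : (Bn σ T).card ≤ (Finset.univ : Finset (σ → Fin (T + 1))).card := by
    refine Finset.card_le_card_of_injOn
      (fun b => fun i => (⟨min (b i) T, Nat.lt_succ_of_le (min_le_right _ _)⟩ : Fin (T + 1)))
      (fun _ _ => Finset.mem_coe.2 (Finset.mem_univ _)) ?_
    intro a ha b hb hab
    rw [Finset.mem_coe, mem_Bn] at ha hb
    ext i
    have e1 := congrFun hab i
    simp only [Fin.mk.injEq] at e1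
    rwa [min_eq_left ((Finsupp.le_degree i a).trans ha),
      min_eq_left ((Finsupp.le_degree i b).trans hb)] at e1
  refine h.trans (le_of_eq ?_)
  rw [Finset.card_univ, Fintype.card_fun, Fintype.card_fin]

private theorem card_mono (σ : Type*) [Fintype σ] {a b : ℕ} (h : a ≤ b) :
    (Bn σ a).card ≤ (Bn σ b).card :=
  Finset.card_le_card fun _ hx => mem_Bn.2 ((mem_Bn.1 hx).trans h)

/-- Nonsingular Bezout: `s` polynomials of degree at most `D` in `s` variables over a field have at
most `D ^ s` common zeros with invertible Jacobian. -/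
theorem bez {σ F : Type*} [Fintype σ] [DecidableEq σ] [Field F] (D : ℕ)
    (P : σ → MvPolynomial σ F) (hD : ∀ i, (P i).totalDegree ≤ D)
    (Z : Finset (σ → F)) (hz : ∀ x ∈ Z, ∀ i, eval x (P i) = 0)
    (hJ : ∀ x ∈ Z, (Matrix.of fun i j => eval x (pderiv j (P i))).det ≠ 0) :
    Z.card ≤ D ^ Fintype.card σ := by
  rcases Nat.eq_zero_or_pos D with hD0 | hD0
  · rcases isEmpty_or_nonempty σ with hσ | hσ
    · rw [Fintype.card_eq_zero, pow_zero]
      exact Finset.card_le_one_of_subsingleton Z
    · have : Z = ∅ := by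
        rw [Finset.eq_empty_iff_forall_notMem]
        intro x hx
        apply hJ x hx
        have h0 : (Matrix.of fun i j => eval x (pderiv j (P i))) = 0 := by
          ext i j
          have h1 : (P i).totalDegree = 0 := by
            have := hD i; omega
          have h2 := totalDegree_eq_zero_iff_eq_C.1 h1
          rw [Matrix.of_apply, h2]
          simp
        rw [h0, Matrix.det_zero]
      rw [this]; simp
  by_contra hcon
  push Not at hcon
  obtain ⟨c, hc⟩ := count D P hD Z hz hJ
  set N := D ^ Fintype.card σ with hN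
  have hN0 : 0 < N := pow_pos hD0 _
  have hstep : ∀ T, (N + 1) * (Bn σ T).card ≤ N * (Bn σ (T + c)).card := by
    intro T
    calc (N + 1) * (Bn σ T).card ≤ Z.card * (Bn σ T).card := Nat.mul_le_mul_right _ hcon
      _ ≤ (Bn σ (c + D * T)).card := hc T
      _ ≤ (Bn σ (D * (T + c))).card := card_mono σ (by nlinarith)
      _ ≤ N * (Bn σ (T + c)).card := card_mul σ D (T + c) hD0
  have hind : ∀ k : ℕ, (N + 1) ^ k ≤ N ^ k * (Bn σ (k * c)).card := by
    intro k
    induction k with
    | zero =>
      have : 0 < (Bn σ (0 * c)).card := Finset.card_pos.2 ⟨0, mem_Bn.2 (by simp)⟩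
      simpa using this
    | succ k ih =>
      calc (N + 1) ^ (k + 1) = (N + 1) * (N + 1) ^ k := by ring
        _ ≤ (N + 1) * (N ^ k * (Bn σ (k * c)).card) := Nat.mul_le_mul_left _ ih
        _ = N ^ k * ((N + 1) * (Bn σ (k * c)).card) := by ring
        _ ≤ N ^ k * (N * (Bn σ (k * c + c)).card) := Nat.mul_le_mul_left _ (hstep _)
        _ = N ^ (k + 1) * (Bn σ ((k + 1) * c)).card := by
          rw [show (k + 1) * c = k * c + c by ring]; ring
  set s := Fintype.card σ with hs
  have hNr : (0 : ℝ) < N := by exact_mod_cast hN0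
  have hr : (1 : ℝ) < (N + 1) / N := by rw [lt_div_iff₀ hNr]; linarith
  have hlim := tendsto_pow_const_div_const_pow_of_one_lt s hr
  have hC : (0 : ℝ) < 1 / ((c : ℝ) + 1) ^ s := by positivity
  obtain ⟨k, hk1, hk2⟩ := ((hlim.eventually_lt_const hC).and (Filter.eventually_ge_atTop 1)).exists
  have h1 : ((N : ℝ) + 1) ^ k ≤ N ^ k * ((k : ℝ) * c + 1) ^ s := by
    have := (hind k).trans (Nat.mul_le_mul_left _ (card_poly σ (k * c)))
    exact_mod_cast this
  have h2 : ((k : ℝ) * c + 1) ^ s ≤ (((c : ℝ) + 1) * k) ^ s := by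
    have hk : (1 : ℝ) ≤ k := by exact_mod_cast hk2
    refine pow_le_pow_left₀ (by positivity) ?_ s
    nlinarith
  have hrk : (0 : ℝ) < (((N : ℝ) + 1) / N) ^ k := by positivity
  rw [div_lt_iff₀ hrk] at hk1
  have h3 : (((N : ℝ) + 1) / N) ^ k ≤ (((c : ℝ) + 1) * k) ^ s := by
    rw [div_pow, div_le_iff₀ (by positivity)]
    calc ((N : ℝ) + 1) ^ k ≤ N ^ k * ((k : ℝ) * c + 1) ^ s := h1
      _ ≤ N ^ k * (((c : ℝ) + 1) * k) ^ s := by gcongr
      _ = (((c : ℝ) + 1) * k) ^ s * N ^ k := by ring
  rw [mul_pow] at h3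
  have h4 : ((c : ℝ) + 1) ^ s * (k : ℝ) ^ s < (((N : ℝ) + 1) / N) ^ k := by
    have hpos : (0 : ℝ) < ((c : ℝ) + 1) ^ s := by positivity
    calc ((c : ℝ) + 1) ^ s * (k : ℝ) ^ s
        < ((c : ℝ) + 1) ^ s * (1 / ((c : ℝ) + 1) ^ s * (((N : ℝ) + 1) / N) ^ k) := by gcongr
      _ = (((N : ℝ) + 1) / N) ^ k := by field_simp
  linarith

private theorem rows {σ ι F : Type*} [Fintype σ] [DecidableEq σ] [Fintype ι] [Field F]
    (M : Matrix ι σ F) (hM : ∀ v : σ → F, (∀ i, ∑ j, M i j * v j = 0) → v = 0) :
    ∃ a : σ → ι, Function.Injective a ∧ (Matrix.of fun i j => M (a i) j).det ≠ 0 := by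
  classical
  have hinj : Function.Injective M.mulVecLin := by
    rw [← LinearMap.ker_eq_bot, LinearMap.ker_eq_bot']
    intro v hv
    refine hM v fun i => ?_
    have := congrFun hv i
    simpa [Matrix.mulVec, dotProduct] using this
  have hrank : M.rank = Fintype.card σ := by
    rw [Matrix.rank, LinearMap.finrank_range_of_inj hinj, Module.finrank_fintype_fun_eq_card]
  have hspan : Submodule.span F (Set.range M.row) = ⊤ := by
    apply Submodule.eq_top_of_finrank_eq
    rw [← Matrix.rank_eq_finrank_span_row, hrank, Module.finrank_fintype_fun_eq_card]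
  obtain ⟨κ, a, ha, hsp, hli⟩ := exists_linearIndependent' F M.row
  rw [hspan] at hsp
  let B : Module.Basis κ F (σ → F) := Module.Basis.mk hli hsp.ge
  let e : σ ≃ κ := (Pi.basisFun F σ).indexEquiv B
  refine ⟨fun i => a (e i), ha.comp e.injective, ?_⟩
  have h2 : LinearIndependent F (fun i : σ => M.row (a (e i))) := hli.comp e e.injective
  have h3 := (Matrix.linearIndependent_rows_iff_isUnit
    (A := Matrix.of fun i j => M (a (e i)) j)).1 h2
  exact ((Matrix.isUnit_iff_isUnit_det _).1 h3).ne_zero

private theorem same_range {σ ι : Type*} [Fintype σ] [DecidableEq ι] (a b : σ → ι)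
    (ha : Function.Injective a) (hb : Function.Injective b)
    (h : Finset.univ.image a = Finset.univ.image b) : ∃ e : Equiv.Perm σ, ∀ i, b (e i) = a i := by
  classical
  have h1 : ∀ i, ∃ j, b j = a i := fun i => by
    have : a i ∈ Finset.univ.image b := h ▸ Finset.mem_image_of_mem _ (Finset.mem_univ i)
    simpa using this
  choose f hf using h1
  have hfi : Function.Injective f := fun i j hij => ha (by rw [← hf i, ← hf j, hij])
  exact ⟨Equiv.ofBijective f (Finite.injective_iff_bijective.1 hfi), fun i => hf i⟩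

/-- (1a): `r` equations in `s` unknowns, zeros at which the Jacobian is injective. -/
theorem bez_inj {σ ι F : Type*} [Fintype σ] [Fintype ι] [Field F] (D : ℕ)
    (P : ι → MvPolynomial σ F) (hD : ∀ i, (P i).totalDegree ≤ D)
    (Z : Finset (σ → F)) (hz : ∀ x ∈ Z, ∀ i, eval x (P i) = 0)
    (hJ : ∀ x ∈ Z, ∀ v : σ → F, (∀ i, ∑ j, eval x (pderiv j (P i)) * v j = 0) → v = 0) :
    Z.card ≤ 2 ^ Fintype.card ι * D ^ Fintype.card σ := by
  classical
  have key : ∀ x : Z, ∃ a : σ → ι, Function.Injective a ∧
      (Matrix.of fun i j => eval (x : σ → F) (pderiv j (P (a i)))).det ≠ 0 := fun x =>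
    rows (Matrix.of fun i j => eval (x : σ → F) (pderiv j (P i))) (hJ x x.2)
  choose a ha hdet using key
  have h1 : Z.card = ∑ S ∈ (Finset.univ : Finset (Finset ι)),
      (Z.attach.filter fun x => Finset.univ.image (a x) = S).card := by
    rw [← Finset.card_attach (s := Z)]
    exact Finset.card_eq_sum_card_fiberwise fun x _ => Finset.mem_coe.2 (Finset.mem_univ _)
  rw [h1]
  have h2 : ∀ S ∈ (Finset.univ : Finset (Finset ι)),
      (Z.attach.filter fun x => Finset.univ.image (a x) = S).card ≤ D ^ Fintype.card σ := by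
    intro S _
    rcases (Z.attach.filter fun x => Finset.univ.image (a x) = S).eq_empty_or_nonempty with h | ⟨x0, hx0⟩
    · rw [h]; simp
    · rw [Finset.mem_filter] at hx0
      have h3 := bez D (fun i => P (a x0 i)) (fun i => hD _)
        ((Z.attach.filter fun x => Finset.univ.image (a x) = S).image Subtype.val) ?_ ?_
      · rwa [Finset.card_image_of_injective _ Subtype.val_injective] at h3
      · intro x hx i
        obtain ⟨x, hx, rfl⟩ := Finset.mem_image.1 hx
        exact hz _ x.2 _
      · intro x hx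
        obtain ⟨x, hx1, rfl⟩ := Finset.mem_image.1 hx
        rw [Finset.mem_filter] at hx1
        obtain ⟨e, he⟩ := same_range (a x0) (a x) (ha x0) (ha x) (hx0.2.trans hx1.2.symm)
        have h4 := Matrix.det_permute e
          (Matrix.of fun i j => eval (x : σ → F) (pderiv j (P (a x i))))
        have h5 : (Matrix.of fun i j => eval (x : σ → F) (pderiv j (P (a x i)))).submatrix e id
            = Matrix.of fun i j => eval (x : σ → F) (pderiv j (P (a x0 i))) := by
          ext i j
          simp [Matrix.submatrix_apply, he]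
        rw [h5] at h4
        rw [h4]
        refine mul_ne_zero ?_ (hdet x)
        rcases Int.units_eq_one_or (Equiv.Perm.sign e) with h | h <;> rw [h] <;> simp
  refine (Finset.sum_le_sum h2).trans (le_of_eq ?_)
  rw [Finset.sum_const, Finset.card_univ, Fintype.card_finset, smul_eq_mul]

private noncomputable def spec {σ ι F : Type*} [Field F] (a : ι → σ) (y : σ → F) :
    MvPolynomial σ F →ₐ[F] MvPolynomial ι F := by
  classical
  exact aeval fun j => if h : ∃ k, a k = j then X h.choose else C (y j)

private theorem spec_X {σ ι F : Type*} [Field F] (a : ι → σ) (ha : Function.Injective a)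
    (y : σ → F) (k : ι) : spec a y (X (a k)) = X k := by
  classical
  rw [spec, aeval_X]
  have h : ∃ k', a k' = a k := ⟨k, rfl⟩
  rw [dif_pos h, ha h.choose_spec]

private theorem spec_X' {σ ι F : Type*} [Field F] (a : ι → σ)
    (y : σ → F) (j : σ) (h : ¬ ∃ k, a k = j) : spec a y (X j) = C (y j) := by
  classical
  rw [spec, aeval_X, dif_neg h]

private theorem spec_eval {σ ι F : Type*} [Field F] (a : ι → σ) (ha : Function.Injective a)
    (y x : σ → F) (h : ∀ j, (¬ ∃ k, a k = j) → y j = x j) (p : MvPolynomial σ F) :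
    eval (fun k => x (a k)) (spec a y p) = eval x p := by
  induction p using MvPolynomial.induction_on with
  | C c => rw [← algebraMap_eq, AlgHom.commutes, algebraMap_eq]; simp
  | add p q hp hq => rw [map_add, map_add, map_add, hp, hq]
  | mul_X p j hp =>
    rw [map_mul, map_mul, map_mul, hp]
    congr 1
    by_cases hj : ∃ k, a k = j
    · obtain ⟨k, rfl⟩ := hj
      rw [spec_X a ha, eval_X, eval_X]
    · rw [spec_X' a y j hj, eval_C, eval_X, h j hj]

private theorem spec_pderiv {σ ι F : Type*} [Field F] (a : ι → σ) (ha : Function.Injective a)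
    (y : σ → F) (k : ι) (p : MvPolynomial σ F) :
    pderiv k (spec a y p) = spec a y (pderiv (a k) p) := by
  classical
  induction p using MvPolynomial.induction_on with
  | C c => rw [← algebraMap_eq, AlgHom.commutes, algebraMap_eq]; simp
  | add p q hp hq => rw [map_add, map_add, map_add, map_add, hp, hq]
  | mul_X p j hp =>
    rw [map_mul, pderiv_mul, hp, pderiv_mul, map_add, map_mul, map_mul]
    congr 2
    by_cases hj : ∃ k, a k = j
    · obtain ⟨k', rfl⟩ := hj
      rw [spec_X a ha]
      by_cases hk : k' = k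
      · subst hk; rw [pderiv_X_self, pderiv_X_self, map_one]
      · rw [pderiv_X_of_ne hk, pderiv_X_of_ne (fun h => hk (ha h)), map_zero]
    · rw [spec_X' a y j hj, pderiv_C, pderiv_X_of_ne (fun h => hj ⟨k, h.symm⟩), map_zero]

private theorem spec_deg {σ ι F : Type*} [Fintype σ] [Field F] (a : ι → σ)
    (y : σ → F) (p : MvPolynomial σ F) : (spec a y p).totalDegree ≤ p.totalDegree := by
  classical
  conv_lhs => rw [p.as_sum]
  rw [map_sum]
  refine (totalDegree_finset_sum _ _).trans (Finset.sup_le fun m hm => ?_)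
  rw [monomial_eq, map_mul, Finsupp.prod_fintype _ _ (fun _ => pow_zero _), map_prod]
  refine (totalDegree_mul _ _).trans ?_
  have h1 : (spec a y (C (coeff m p))).totalDegree = 0 := by
    rw [← algebraMap_eq, AlgHom.commutes, algebraMap_eq, totalDegree_C]
  rw [h1, zero_add]
  refine (totalDegree_finset_prod _ _).trans ?_
  have h2 : ∀ j : σ, (spec a y (X j : MvPolynomial σ F)).totalDegree ≤ 1 := by
    intro j
    rw [spec, aeval_X]
    split_ifs
    · rw [totalDegree_X]
    · rw [totalDegree_C]; exact zero_le_one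
  calc ∑ j, (spec a y (X j ^ m j)).totalDegree ≤ ∑ j, m j * 1 := by
        refine Finset.sum_le_sum fun j _ => ?_
        rw [map_pow]
        exact (totalDegree_pow _ _).trans (Nat.mul_le_mul_left _ (h2 j))
    _ = m.degree := by rw [Finsupp.degree_eq_sum]; simp
    _ ≤ p.totalDegree := le_totalDegree hm

/-- (1b): `r` equations in `s` unknowns over a finite field, zeros at which the Jacobian is
surjective. -/
theorem bez_surj {σ ι F : Type*} [Fintype σ] [Fintype ι] [Field F] [Fintype F] (D : ℕ)
    (P : ι → MvPolynomial σ F) (hD : ∀ i, (P i).totalDegree ≤ D)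
    (Z : Finset (σ → F)) (hz : ∀ x ∈ Z, ∀ i, eval x (P i) = 0)
    (hJ : ∀ x ∈ Z, ∀ w : ι → F, ∃ v : σ → F, ∀ i, ∑ j, eval x (pderiv j (P i)) * v j = w i) :
    Z.card ≤ 2 ^ Fintype.card σ * D ^ Fintype.card ι *
      Fintype.card F ^ (Fintype.card σ - Fintype.card ι) := by
  classical
  have key : ∀ x : Z, ∃ a : ι → σ, Function.Injective a ∧
      (Matrix.of fun i k => eval (x : σ → F) (pderiv (a k) (P i))).det ≠ 0 := by
    intro x
    obtain ⟨a, ha, hdet⟩ := rows (Matrix.of fun j i => eval (x : σ → F) (pderiv j (P i))) (by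
      intro u hu
      ext i
      obtain ⟨v, hv⟩ := hJ x x.2 (Pi.single i 1)
      have h1 : ∑ i', u i' * ∑ j, eval (x : σ → F) (pderiv j (P i')) * v j = u i := by
        simp only [hv]
        rw [Finset.sum_eq_single i]
        · simp
        · intro b _ hb; rw [Pi.single_eq_of_ne hb, mul_zero]
        · simp
      rw [← h1]
      simp only [Finset.mul_sum]
      rw [Finset.sum_comm]
      refine Finset.sum_eq_zero fun j _ => ?_
      have h2 := hu j
      simp only [Matrix.of_apply] at h2
      calc ∑ i', u i' * (eval (x : σ → F) (pderiv j (P i')) * v j)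
          = (∑ i', eval (x : σ → F) (pderiv j (P i')) * u i') * v j := by
            rw [Finset.sum_mul]; exact Finset.sum_congr rfl fun _ _ => by ring
        _ = 0 := by rw [h2, zero_mul])
    refine ⟨a, ha, ?_⟩
    rw [← Matrix.det_transpose]
    exact hdet
  choose a ha hdet using key
  have h1 : Z.card = ∑ S ∈ (Finset.univ : Finset (Finset σ)),
      (Z.attach.filter fun x => Finset.univ.image (a x) = S).card := by
    rw [← Finset.card_attach (s := Z)]
    exact Finset.card_eq_sum_card_fiberwise fun x _ => Finset.mem_coe.2 (Finset.mem_univ _)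
  rw [h1]
  have h2 : ∀ S ∈ (Finset.univ : Finset (Finset σ)),
      (Z.attach.filter fun x => Finset.univ.image (a x) = S).card ≤
        D ^ Fintype.card ι * Fintype.card F ^ (Fintype.card σ - Fintype.card ι) := by
    intro S _
    rcases (Z.attach.filter fun x => Finset.univ.image (a x) = S).eq_empty_or_nonempty with h | ⟨x0, hx0⟩
    · rw [h]; simp
    rw [Finset.mem_filter] at hx0
    have hS : S.card = Fintype.card ι := by
      rw [← hx0.2, Finset.card_image_of_injective _ (ha x0), Finset.card_univ]
    -- the coordinates outside S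
    set W : Finset (σ → F) := Fintype.piFinset fun j => if j ∈ S then {0} else Finset.univ with hW
    have hWc : W.card = Fintype.card F ^ (Fintype.card σ - Fintype.card ι) := by
      rw [hW, Fintype.card_piFinset, ← hS, ← Finset.card_compl, ← Finset.prod_compl_mul_prod S]
      rw [Finset.prod_congr rfl (g := fun _ => Fintype.card F)
        (fun j hj => by rw [if_neg (Finset.mem_compl.1 hj), Finset.card_univ]),
        Finset.prod_const, Finset.prod_eq_one (s := S) (fun j hj => by simp [hj]), mul_one]
    have h3 : (Z.attach.filter fun x => Finset.univ.image (a x) = S).card =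
        ∑ y ∈ W, ((Z.attach.filter fun x => Finset.univ.image (a x) = S).filter
          fun x : Z => (fun j => if j ∈ S then 0 else (x : σ → F) j) = y).card := by
      refine Finset.card_eq_sum_card_fiberwise fun x _ => ?_
      rw [Finset.mem_coe, hW, Fintype.mem_piFinset]
      intro j
      by_cases hj : j ∈ S <;> simp [hj]
    rw [h3, ← hWc, mul_comm]
    refine (Finset.sum_le_card_nsmul W _ (D ^ Fintype.card ι) fun y _ => ?_).trans
      (le_of_eq (smul_eq_mul _ _))
    have hnot : ∀ j, (¬ ∃ k, a x0 k = j) ↔ j ∉ S := by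
      intro j
      rw [← hx0.2]
      simp
    have h4 := bez D (fun i => spec (a x0) y (P i)) (fun i => (spec_deg _ _ _).trans (hD i))
      (((Z.attach.filter fun x => Finset.univ.image (a x) = S).filter
          fun x : Z => (fun j => if j ∈ S then 0 else (x : σ → F) j) = y).image
            fun x : Z => fun k => (x : σ → F) (a x0 k)) ?_ ?_
    · rwa [Finset.card_image_of_injOn] at h4
      intro x hx x' hx' hxx
      rw [Finset.mem_coe, Finset.mem_filter] at hx hx'
      apply Subtype.ext
      ext j
      by_cases hj : ∃ k, a x0 k = j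
      · obtain ⟨k, rfl⟩ := hj
        exact congrFun hxx k
      · have e := congrFun (hx.2.trans hx'.2.symm) j
        simp only [if_neg ((hnot j).1 hj)] at e
        exact e
    · intro u hu i
      obtain ⟨x, hx, rfl⟩ := Finset.mem_image.1 hu
      rw [Finset.mem_filter] at hx
      rw [spec_eval _ (ha x0) y x]
      · exact hz _ x.2 _
      · intro j hj
        rw [← hx.2]
        simp only [if_neg ((hnot j).1 hj)]
    · intro u hu
      obtain ⟨x, hx, rfl⟩ := Finset.mem_image.1 hu
      rw [Finset.mem_filter, Finset.mem_filter] at hx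
      have e0 : ∀ p : MvPolynomial σ F, eval (fun k => (x : σ → F) (a x0 k)) (spec (a x0) y p)
          = eval (x : σ → F) p := by
        intro p
        refine spec_eval _ (ha x0) y x ?_ p
        intro j hj
        rw [← hx.2]
        simp only [if_neg ((hnot j).1 hj)]
      simp only [spec_pderiv _ (ha x0), e0]
      obtain ⟨e, he⟩ := same_range (a x0) (a x) (ha x0) (ha x) (hx0.2.trans hx.1.2.symm)
      have h4 := Matrix.det_permute' e
        (Matrix.of fun i k => eval (x : σ → F) (pderiv (a x k) (P i)))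
      have h5 : (Matrix.of fun i k => eval (x : σ → F) (pderiv (a x k) (P i))).submatrix id e
          = Matrix.of fun i k => eval (x : σ → F) (pderiv (a x0 k) (P i)) := by
        ext i j
        simp [Matrix.submatrix_apply, he]
      rw [h5] at h4
      rw [h4]
      refine mul_ne_zero ?_ (hdet x)
      rcases Int.units_eq_one_or (Equiv.Perm.sign e) with h | h <;> rw [h] <;> simp
  refine (Finset.sum_le_sum h2).trans (le_of_eq ?_)
  rw [Finset.sum_const, Finset.card_univ, Fintype.card_finset, smul_eq_mul, mul_assoc]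

end H28.WF
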