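import Mathlib

/-!
# [WF] PM: calculus of polynomial maps

`PM D f Df`: the function `f : (σ → K) → K` is given by a polynomial of total degree `≤ D` whose
derivative at `x` in the direction `v` is `Df x v`.  `PMX D f Df`: the same for maps with values in
`K[X]`, coefficientwise.  Closure under constants, coordinates, sums, products, powers.
-/

open Polynomial

set_option linter.unusedVariables false

namespace H28WF

section

variable {σ : Type*} [Fintype σ] {K : Type*} [Field K]

/-- polynomial function with its derivative -/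
def PM (D : ℕ) (f : (σ → K) → K) (Df : (σ → K) → (σ → K) → K) : Prop :=
  ∃ P : MvPolynomial σ K, P.totalDegree ≤ D ∧ (∀ x, MvPolynomial.eval x P = f x) ∧
    ∀ x v, ∑ i, v i * MvPolynomial.eval x (MvPolynomial.pderiv i P) = Df x v

/-- the same for polynomial valued maps, coefficientwise -/
def PMX (D : ℕ) (f : (σ → K) → K[X]) (Df : (σ → K) → (σ → K) → K[X]) : Prop :=
  ∀ l : ℕ, PM D (fun x => (f x).coeff l) (fun x v => (Df x v).coeff l)

theorem PM.congr {D : ℕ} {f Df f' Df'} (h : PM (σ := σ) (K := K) D f Df) (hf : ∀ x, f x = f' x)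
    (hD : ∀ x v, Df x v = Df' x v) : PM D f' Df' := by
  obtain ⟨P, h1, h2, h3⟩ := h
  exact ⟨P, h1, fun x => (h2 x).trans (hf x), fun x v => (h3 x v).trans (hD x v)⟩

theorem PM.mono {D D' : ℕ} {f Df} (h : PM (σ := σ) (K := K) D f Df) (hD : D ≤ D') : PM D' f Df := by
  obtain ⟨P, h1, h2, h3⟩ := h
  exact ⟨P, h1.trans hD, h2, h3⟩

theorem PM.const (D : ℕ) (t : K) : PM (σ := σ) (K := K) D (fun _ => t) (fun _ _ => 0) := by
  refine ⟨MvPolynomial.C t, by simp, fun x => by simp, fun x v => by simp⟩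

theorem PM.coord {D : ℕ} (hD : 1 ≤ D) (i : σ) :
    PM (σ := σ) (K := K) D (fun x => x i) (fun _ v => v i) := by
  classical
  refine ⟨MvPolynomial.X i, by simpa using hD, fun x => by simp, fun x v => ?_⟩
  rw [Finset.sum_eq_single i]
  · simp
  · intro j _ hj
    rw [MvPolynomial.pderiv_X_of_ne (Ne.symm hj)]; simp
  · simp

theorem PM.add {D : ℕ} {f Df g Dg} (hf : PM (σ := σ) (K := K) D f Df) (hg : PM D g Dg) :
    PM D (fun x => f x + g x) (fun x v => Df x v + Dg x v) := by
  obtain ⟨P, h1, h2, h3⟩ := hf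
  obtain ⟨Q, k1, k2, k3⟩ := hg
  refine ⟨P + Q, (MvPolynomial.totalDegree_add _ _).trans (max_le h1 k1), fun x => ?_, fun x v => ?_⟩
  · rw [_root_.map_add, h2, k2]
  · change _ = Df x v + Dg x v
    rw [← h3, ← k3, ← Finset.sum_add_distrib]
    refine Finset.sum_congr rfl fun i _ => ?_
    rw [_root_.map_add, _root_.map_add, mul_add]

theorem PM.sum {D : ℕ} {ι : Type*} (s : Finset ι) {f : ι → (σ → K) → K}
    {Df : ι → (σ → K) → (σ → K) → K}
    (h : ∀ i ∈ s, PM (σ := σ) (K := K) D (f i) (Df i)) :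
    PM D (fun x => ∑ i ∈ s, f i x) (fun x v => ∑ i ∈ s, Df i x v) := by
  classical
  induction s using Finset.induction_on with
  | empty => simpa using PM.const (σ := σ) (K := K) D 0
  | insert a s ha ih =>
    have h1 := h a (Finset.mem_insert_self a s)
    have h2 := ih fun i hi => h i (Finset.mem_insert_of_mem hi)
    exact (h1.add h2).congr (fun x => (Finset.sum_insert (f := fun i => f i x) ha).symm)
      (fun x v => (Finset.sum_insert (f := fun i => Df i x v) ha).symm)

theorem PM.mul {D E : ℕ} {f Df g Dg} (hf : PM (σ := σ) (K := K) D f Df) (hg : PM E g Dg) :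
    PM (D + E) (fun x => f x * g x) (fun x v => Df x v * g x + f x * Dg x v) := by
  obtain ⟨P, h1, h2, h3⟩ := hf
  obtain ⟨Q, k1, k2, k3⟩ := hg
  refine ⟨P * Q, (MvPolynomial.totalDegree_mul _ _).trans (Nat.add_le_add h1 k1), fun x => ?_,
    fun x v => ?_⟩
  · rw [map_mul, h2, k2]
  · change _ = Df x v * g x + f x * Dg x v
    rw [← h3, ← k3, Finset.sum_mul, Finset.mul_sum, ← Finset.sum_add_distrib]
    refine Finset.sum_congr rfl fun i _ => ?_
    rw [MvPolynomial.pderiv_mul, _root_.map_add, map_mul, map_mul, h2, k2]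
    ring

theorem PM.smul {D : ℕ} (t : K) {f Df} (hf : PM (σ := σ) (K := K) D f Df) :
    PM D (fun x => t * f x) (fun x v => t * Df x v) := by
  have := (PM.const (σ := σ) (K := K) 0 t).mul hf
  rw [zero_add] at this
  exact this.congr (fun x => rfl) (fun x v => by rw [zero_mul, zero_add])

/-- the derivative is additive and homogeneous in the direction -/
theorem PM.map_add {D : ℕ} {f Df} (hf : PM (σ := σ) (K := K) D f Df) (x v w : σ → K) :
    Df x (v + w) = Df x v + Df x w := by
  obtain ⟨P, h1, h2, h3⟩ := hf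
  rw [← h3, ← h3, ← h3, ← Finset.sum_add_distrib]
  exact Finset.sum_congr rfl fun i _ => by rw [Pi.add_apply, add_mul]

theorem PM.map_smul {D : ℕ} {f Df} (hf : PM (σ := σ) (K := K) D f Df) (x v : σ → K) (t : K) :
    Df x (t • v) = t * Df x v := by
  obtain ⟨P, h1, h2, h3⟩ := hf
  rw [← h3, ← h3, Finset.mul_sum]
  exact Finset.sum_congr rfl fun i _ => by rw [Pi.smul_apply, smul_eq_mul, mul_assoc]

theorem PMX.congr {D : ℕ} {f Df f' Df'} (h : PMX (σ := σ) (K := K) D f Df) (hf : ∀ x, f x = f' x)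
    (hD : ∀ x v, Df x v = Df' x v) : PMX D f' Df' := fun l =>
  (h l).congr (fun x => by rw [hf]) (fun x v => by rw [hD])

theorem PMX.mono {D D' : ℕ} {f Df} (h : PMX (σ := σ) (K := K) D f Df) (hD : D ≤ D') :
    PMX D' f Df := fun l => (h l).mono hD

theorem PMX.const (D : ℕ) (t : K[X]) : PMX (σ := σ) (K := K) D (fun _ => t) (fun _ _ => 0) :=
  fun l => (PM.const D (t.coeff l)).congr (fun _ => rfl) (fun _ _ => by simp)

theorem PMX.add {D : ℕ} {f Df g Dg} (hf : PMX (σ := σ) (K := K) D f Df) (hg : PMX D g Dg) :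
    PMX D (fun x => f x + g x) (fun x v => Df x v + Dg x v) :=
  fun l => ((hf l).add (hg l)).congr (fun x => (coeff_add _ _ _).symm)
    (fun x v => (coeff_add _ _ _).symm)

theorem PMX.sum {D : ℕ} {ι : Type*} (s : Finset ι) {f : ι → (σ → K) → K[X]}
    {Df : ι → (σ → K) → (σ → K) → K[X]}
    (h : ∀ i ∈ s, PMX (σ := σ) (K := K) D (f i) (Df i)) :
    PMX D (fun x => ∑ i ∈ s, f i x) (fun x v => ∑ i ∈ s, Df i x v) :=
  fun l => (PM.sum s fun i hi => h i hi l).congr (fun x => (finsetSum_coeff _ _ _).symm)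
    (fun x v => (finsetSum_coeff _ _ _).symm)

theorem PMX.mul {D E : ℕ} {f Df g Dg} (hf : PMX (σ := σ) (K := K) D f Df) (hg : PMX E g Dg) :
    PMX (D + E) (fun x => f x * g x) (fun x v => Df x v * g x + f x * Dg x v) := by
  intro l
  refine (PM.sum (Finset.HasAntidiagonal.antidiagonal l)
    fun p _ => (hf p.1).mul (hg p.2)).congr (fun x => ?_)
    (fun x v => ?_)
  · rw [coeff_mul]
  · rw [coeff_add, coeff_mul, coeff_mul, ← Finset.sum_add_distrib]

theorem PMX.pow {D : ℕ} {f Df} (hf : PMX (σ := σ) (K := K) D f Df) (k : ℕ) :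
    PMX (k * D) (fun x => f x ^ k) (fun x v => (k : K[X]) * f x ^ (k - 1) * Df x v) := by
  induction k with
  | zero =>
    rw [zero_mul]
    exact (PMX.const 0 1).congr (fun x => (pow_zero _).symm) (fun x v => by simp)
  | succ k ih =>
    rw [add_mul, one_mul]
    refine (ih.mul hf).congr (fun x => (pow_succ _ _).symm) (fun x v => ?_)
    rcases Nat.eq_zero_or_pos k with hk | hk
    · subst hk; simp
    · have : f x ^ k = f x ^ (k - 1) * f x := by
        rw [← pow_succ]; congr 1; omega
      rw [Nat.add_sub_cancel, this]; push_cast; ring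

/-- product of powers (used in `Min3a`) -/
theorem PMX.prod_pow {ι : Type*} [DecidableEq ι] (s : Finset ι) (D : ι → ℕ) (e : ι → ℕ)
    {f : ι → (σ → K) → K[X]}
    {Df : ι → (σ → K) → (σ → K) → K[X]}
    (h : ∀ i ∈ s, PMX (σ := σ) (K := K) (D i) (f i) (Df i)) :
    PMX (∑ i ∈ s, e i * D i) (fun x => ∏ i ∈ s, f i x ^ e i)
      (fun x v => ∑ i ∈ s, (∏ j ∈ s.erase i, f j x ^ e j) *
        ((e i : K[X]) * f i x ^ (e i - 1) * Df i x v)) := by
  induction s using Finset.induction_on with
  | empty => simpa using PMX.const (σ := σ) (K := K) 0 1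
  | insert a s ha ih =>
    have h1 := (h a (Finset.mem_insert_self a s)).pow (e a)
    have h2 := ih fun i hi => h i (Finset.mem_insert_of_mem hi)
    rw [Finset.sum_insert ha]
    refine (h1.mul h2).congr (fun x => (Finset.prod_insert ha).symm) (fun x v => ?_)
    rw [Finset.sum_insert ha, Finset.erase_insert ha, mul_comm]
    congr 1
    rw [Finset.mul_sum]
    refine Finset.sum_congr rfl fun i hi => ?_
    have hia : a ≠ i := fun h => ha (h ▸ hi)
    rw [Finset.erase_insert_of_ne hia, Finset.prod_insert (fun h => ha (Finset.mem_of_mem_erase h))]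
    ring

/-- a polynomial with fixed part `t` and coefficients given by some coordinates -/
theorem PMX.line {D : ℕ} (hD : 1 ≤ D) {n : ℕ} (t : K[X]) (j : Fin n → σ) :
    PMX (σ := σ) (K := K) D (fun x => t + ∑ i : Fin n, C (x (j i)) * X ^ (i : ℕ))
      (fun _ v => ∑ i : Fin n, C (v (j i)) * X ^ (i : ℕ)) := by
  have h1 : ∀ i : Fin n, PMX (σ := σ) (K := K) D (fun x => C (x (j i)) * X ^ (i : ℕ))
      (fun _ v => C (v (j i)) * X ^ (i : ℕ)) := by
    intro i l
    refine ((PM.coord hD (j i)).smul (if l = (i : ℕ) then 1 else 0)).congr (fun x => ?_)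
      (fun x v => ?_)
    · rw [coeff_C_mul_X_pow]; split_ifs <;> simp
    · rw [coeff_C_mul_X_pow]; split_ifs <;> simp
  exact ((PMX.const D t).add (PMX.sum Finset.univ fun i _ => h1 i)).congr (fun x => rfl)
    (fun x v => zero_add _)

/-- a linear functional of a polynomial valued map -/
theorem PMX.functional {D : ℕ} {f Df} (hf : PMX (σ := σ) (K := K) D f Df) (N : ℕ) (a : Fin N → K) :
    PM D (fun x => ∑ i : Fin N, a i * (f x).coeff i)
      (fun x v => ∑ i : Fin N, a i * (Df x v).coeff i) :=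
  PM.sum Finset.univ fun i _ => (hf i).smul (a i)

end

end H28WF
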