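import Pool.Agent.H28.WF.Bez
import Pool.Agent.H28.WF.PM

/-!
# [WF] BezR: rectangular forms of the nonsingular Bezout bound

Translation of `H28.WF.bez_inj`, `H28.WF.bez_surj` (helper59, complete) into the language of `PM`:
choose the polynomials of `h`; `D ≤ D + 1`; the dual form of the surjectivity (no nonzero
combination of the rows vanishes) and `r ≤ |σ|` when `S` is not empty.
-/

namespace H28WF

/-- (1a) -/
theorem bez_inj {σ : Type} [Fintype σ] {K : Type*} [Field K] (r D : ℕ)
    (f : Fin r → (σ → K) → K) (Df : Fin r → (σ → K) → (σ → K) → K)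
    (h : ∀ l, PM D (f l) (Df l)) (S : Finset (σ → K)) (hz : ∀ x ∈ S, ∀ l, f l x = 0)
    (hJ : ∀ x ∈ S, ∀ v : σ → K, (∀ l, Df l x v = 0) → v = 0) :
    S.card ≤ 2 ^ r * (D + 1) ^ Fintype.card σ := by
  choose P hP1 hP2 hP3 using h
  have h1 := H28.WF.bez_inj D P hP1 S (fun x hx l => by rw [hP2]; exact hz x hx l)
    (fun x hx v hv => hJ x hx v fun l => by
      rw [← hP3, ← hv l]
      exact Finset.sum_congr rfl fun i _ => mul_comm _ _)
  rw [Fintype.card_fin] at h1
  exact h1.trans (Nat.mul_le_mul_left _ (Nat.pow_le_pow_left (Nat.le_succ D) _))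

/-- a linear map all of whose left kernel vectors vanish is onto -/
private theorem onto_of_dual {σ : Type} [Fintype σ] {K : Type*} [Field K] {r : ℕ}
    (M : Matrix (Fin r) σ K) (hM : ∀ a : Fin r → K, (∀ v : σ → K, ∑ l, a l * (M.mulVec v) l = 0) →
      a = 0) : Function.Surjective M.mulVec := by
  classical
  have h1 : LinearMap.range M.mulVecLin = ⊤ := by
    by_contra hne
    obtain ⟨f, hf, hle⟩ := Submodule.exists_le_ker_of_lt_top _ (lt_top_iff_ne_top.2 hne)
    have hfa : ∀ w : Fin r → K, f w = ∑ l, f (Pi.single l 1) * w l := by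
      intro w
      conv_lhs => rw [← Finset.univ_sum_single w]
      rw [map_sum]
      refine Finset.sum_congr rfl fun l _ => ?_
      have : (Pi.single l (w l) : Fin r → K) = w l • Pi.single l 1 := by
        rw [← Pi.single_smul, smul_eq_mul, mul_one]
      rw [this, _root_.map_smul, smul_eq_mul, mul_comm]
    have h2 : (fun l => f (Pi.single l 1)) = 0 := hM _ fun v => by
      rw [← hfa]
      exact hle ⟨v, rfl⟩
    apply hf
    ext l
    have := congrFun h2 l
    simpa using this
  intro w
  obtain ⟨v, hv⟩ := (LinearMap.range_eq_top.1 h1) w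
  exact ⟨v, hv⟩

/-- (1b) -/
theorem bez_surj {σ : Type} [Fintype σ] {K : Type*} [Field K] [Fintype K] (r D : ℕ)
    (f : Fin r → (σ → K) → K) (Df : Fin r → (σ → K) → (σ → K) → K)
    (h : ∀ l, PM D (f l) (Df l)) (S : Finset (σ → K)) (hz : ∀ x ∈ S, ∀ l, f l x = 0)
    (hJ : ∀ x ∈ S, ∀ a : Fin r → K, (∀ v : σ → K, ∑ l, a l * Df l x v = 0) → a = 0) :
    S.card * Fintype.card K ^ r ≤
      2 ^ Fintype.card σ * (D + 1) ^ r * Fintype.card K ^ Fintype.card σ := by
  classical
  choose P hP1 hP2 hP3 using h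
  rcases S.eq_empty_or_nonempty with hS | ⟨x0, hx0⟩
  · rw [hS]; simp
  have hsur : ∀ x ∈ S, ∀ w : Fin r → K, ∃ v : σ → K,
      ∀ l, ∑ j, MvPolynomial.eval x (MvPolynomial.pderiv j (P l)) * v j = w l := by
    intro x hx w
    have h1 := onto_of_dual
      (Matrix.of fun (l : Fin r) (j : σ) => MvPolynomial.eval x (MvPolynomial.pderiv j (P l)))
      (fun a ha => hJ x hx a fun v => by
        rw [← ha v]
        refine Finset.sum_congr rfl fun l _ => ?_
        rw [← hP3, Matrix.mulVec, dotProduct]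
        congr 1
        exact Finset.sum_congr rfl fun i _ => mul_comm _ _)
    obtain ⟨v, hv⟩ := h1 w
    exact ⟨v, fun l => congrFun hv l⟩
  have hr : r ≤ Fintype.card σ := by
    have h1 : Function.Surjective (Matrix.of fun (l : Fin r) (j : σ) =>
        MvPolynomial.eval x0 (MvPolynomial.pderiv j (P l))).mulVecLin := by
      intro w
      obtain ⟨v, hv⟩ := hsur x0 hx0 w
      exact ⟨v, funext hv⟩
    have h2 := LinearMap.finrank_le_finrank_of_surjective h1
    rwa [Module.finrank_fintype_fun_eq_card, Module.finrank_fintype_fun_eq_card,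
      Fintype.card_fin] at h2
  have h1 := H28.WF.bez_surj D P hP1 S (fun x hx l => by rw [hP2]; exact hz x hx l) hsur
  rw [Fintype.card_fin] at h1
  calc S.card * Fintype.card K ^ r
      ≤ 2 ^ Fintype.card σ * D ^ r * Fintype.card K ^ (Fintype.card σ - r) *
          Fintype.card K ^ r := Nat.mul_le_mul_right _ h1
    _ = 2 ^ Fintype.card σ * D ^ r * Fintype.card K ^ Fintype.card σ := by
        rw [mul_assoc, ← pow_add, Nat.sub_add_cancel hr]
    _ ≤ 2 ^ Fintype.card σ * (D + 1) ^ r * Fintype.card K ^ Fintype.card σ :=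
        Nat.mul_le_mul_right _ (Nat.mul_le_mul_left _ (Nat.pow_le_pow_left (Nat.le_succ D) _))

end H28WF
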