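import Pool.Agent.H28.WF.Bas

/-!
# [WF] Inf: exact cancellation at infinity (4a)

`u ≠ 0`, `deg u < d ≤ n`, `pr a (u f) = 0` for all `deg f < k n - d`, and `Fdeg (k n) a (d-1)` fails.
Then `κ := pr a (u X^(kn-d)) ≠ 0` (otherwise `u` shows `Fdeg (k n) a (d-1)`).  `v := u X^(n-d)`,
`deg v < n`, so `y ↦ y + c v` permutes the monic polynomials of degree `n`, and
`pr a ((y + c v)^k) = pr a (y^k) + k c κ` (binomial: for `i ≥ 2` the term `c^i v^i y^(k-i)` is `u`
times a polynomial of degree `(i-1) deg u + i (n-d) + (k-i) n < k n - d`; for `i = 1` it is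
`k c u (X^(n-d) y^(k-1))` and `X^(n-d) y^(k-1)` is monic of degree `k n - d`).
So `T a = ψ(k c κ) T a` for all `c`; choose `c` with `ψ(k c κ) ≠ 1`.
-/

open Polynomial

namespace H28WF

/-- second order binomial expansion with the degree of the remainder -/
theorem inf_binom {F : Type*} [Field F] {n : ℕ} {y w : F[X]} (hy : y.natDegree ≤ n)
    (hw : w.natDegree ≤ n) (m : ℕ) :
    ∃ Q : F[X], Q.natDegree ≤ m * n ∧
      (y + w) ^ (m + 2) = y ^ (m + 2) + ((m + 2 : ℕ) : F[X]) * (y ^ (m + 1) * w) + Q * w ^ 2 := by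
  induction m with
  | zero =>
    refine ⟨1, by simp, ?_⟩
    push_cast
    ring
  | succ m ih =>
    obtain ⟨Q, hQ, hQe⟩ := ih
    refine ⟨(y + w) * Q + ((m + 2 : ℕ) : F[X]) * y ^ (m + 1), ?_, ?_⟩
    · refine natDegree_add_le_of_degree_le ?_ ?_
      · refine (natDegree_mul_le).trans ?_
        have h1 : (y + w).natDegree ≤ n := natDegree_add_le_of_degree_le hy hw
        have h2 : (m + 1) * n = n + m * n := by ring
        omega
      · refine (natDegree_mul_le).trans ?_
        rw [natDegree_natCast, zero_add]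
        exact natDegree_pow_le_of_le (m + 1) hy
    · have h3 : (y + w) ^ (m + 1 + 2) = (y + w) * (y + w) ^ (m + 2) := by ring
      rw [h3, hQe]
      push_cast
      ring

/-- a monic polynomial of degree `N` is `X ^ N` plus lower terms -/
theorem inf_monic {F : Type*} [Field F] {N : ℕ} {g : F[X]} (hg : g.Monic) (hN : g.natDegree = N) :
    ∃ r : F[X], r.degree < (N : WithBot ℕ) ∧ g = X ^ N + r := by
  obtain ⟨c, hc⟩ := exists_mon hg hN
  exact ⟨low N c, low_degree_lt N c, by rw [← hc, mon]⟩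

theorem inf_kappa {F : Type*} [Field F] {N d : ℕ} (a : Fin N → F) (hd : d ≤ N) (hd0 : 0 < d)
    {u : F[X]} (hu : u ≠ 0) (hud : u.natDegree < d)
    (hker : ∀ f : F[X], f.degree < ((N - d : ℕ) : WithBot ℕ) → pr N a (u * f) = 0)
    (hmin : ¬ Fdeg N a (d - 1)) : pr N a (u * X ^ (N - d)) ≠ 0 := by
  intro h0
  apply hmin
  refine ⟨u, hu, by omega, ?_⟩
  intro f hf
  have h1 : N - (d - 1) = N - d + 1 := by omega
  rw [h1] at hf
  have h2 : f = C (f.coeff (N - d)) * X ^ (N - d) + (f - C (f.coeff (N - d)) * X ^ (N - d)) := by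
    ring
  have h3 : (f - C (f.coeff (N - d)) * X ^ (N - d)).degree < ((N - d : ℕ) : WithBot ℕ) := by
    rw [degree_lt_iff_coeff_zero]
    intro j hj
    rw [coeff_sub, coeff_C_mul_X_pow]
    rcases eq_or_lt_of_le hj with hj | hj
    · rw [if_pos hj.symm, ← hj, sub_self]
    · rw [if_neg (by omega), sub_zero]
      refine coeff_eq_zero_of_degree_lt (lt_of_lt_of_le hf ?_)
      exact_mod_cast hj
  rw [h2, mul_add, map_add, hker _ h3, add_zero]
  have h4 : u * (C (f.coeff (N - d)) * X ^ (N - d)) =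
      (f.coeff (N - d)) • (u * X ^ (N - d)) := by
    rw [smul_eq_C_mul]
    ring
  rw [h4, map_smul, h0, smul_zero]

theorem inf_shift {F : Type*} [Field F] {k n d : ℕ}
    (hk : 2 ≤ k) (a : Fin (k * n) → F) (hd : d ≤ n) {u : F[X]}
    (hud : u.natDegree < d)
    (hker : ∀ f : F[X], f.degree < ((k * n - d : ℕ) : WithBot ℕ) → pr (k * n) a (u * f) = 0)
    (t : F) {y : F[X]} (hy : y.Monic) (hyn : y.natDegree = n) :
    pr (k * n) a ((y + C t * (u * X ^ (n - d))) ^ k) =
      pr (k * n) a (y ^ k) + (k : F) * t * pr (k * n) a (u * X ^ (k * n - d)) := by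
  obtain ⟨m, rfl⟩ : ∃ m, k = m + 2 := ⟨k - 2, by omega⟩
  have hn : 0 < n := by omega
  have hw : (C t * (u * X ^ (n - d))).natDegree ≤ n := by
    refine (natDegree_C_mul_le _ _).trans (natDegree_mul_le.trans ?_)
    rw [natDegree_X_pow]
    omega
  obtain ⟨Q, hQ, hQe⟩ := inf_binom hyn.le hw m
  have hmn : (m + 2) * n = m * n + 2 * n := by ring
  -- the linear term
  have hmon : (X ^ (n - d) * y ^ (m + 1)).Monic := (monic_X_pow _).mul (hy.pow _)
  have hmd : (X ^ (n - d) * y ^ (m + 1)).natDegree = (m + 2) * n - d := by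
    rw [(monic_X_pow _).natDegree_mul (hy.pow _), natDegree_X_pow, hy.natDegree_pow, hyn]
    have : (m + 1) * n = m * n + n := by ring
    omega
  obtain ⟨r, hr, hre⟩ := inf_monic hmon hmd
  have h1 : ((m + 2 : ℕ) : F[X]) * (y ^ (m + 1) * (C t * (u * X ^ (n - d)))) =
      (((m + 2 : ℕ) : F) * t) • (u * X ^ ((m + 2) * n - d) + u * r) := by
    rw [smul_eq_C_mul, C_mul, ← mul_add, ← hre, C_eq_natCast]
    ring
  -- the remainder
  have h2 : Q * (C t * (u * X ^ (n - d))) ^ 2 =
      u * (C (t ^ 2) * (u * X ^ (2 * (n - d)) * Q)) := by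
    rw [C_pow]
    ring
  have h3 : (C (t ^ 2) * (u * X ^ (2 * (n - d)) * Q)).degree <
      (((m + 2) * n - d : ℕ) : WithBot ℕ) := by
    refine lt_of_le_of_lt degree_le_natDegree ?_
    have h4 : (C (t ^ 2) * (u * X ^ (2 * (n - d)) * Q)).natDegree ≤
        u.natDegree + 2 * (n - d) + m * n := by
      refine (natDegree_C_mul_le _ _).trans (natDegree_mul_le.trans ?_)
      refine add_le_add (natDegree_mul_le.trans ?_) hQ
      rw [natDegree_X_pow]
    have h5 : (C (t ^ 2) * (u * X ^ (2 * (n - d)) * Q)).natDegree < (m + 2) * n - d := by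
      omega
    exact_mod_cast h5
  rw [hQe, map_add, map_add, h1, h2, hker _ h3, add_zero, map_smul, map_add, hker _ hr, add_zero,
    smul_eq_mul]

theorem inf_zero {F : Type*} [Field F] [Fintype F] (ψ : AddChar F ℂ) (hψ : ψ ≠ 1) {k n d : ℕ}
    (hk : 2 ≤ k) (hk0 : (k : F) ≠ 0) (a : Fin (k * n) → F) (hd : d ≤ n) {u : F[X]} (hu : u ≠ 0)
    (hud : u.natDegree < d)
    (hker : ∀ f : F[X], f.degree < ((k * n - d : ℕ) : WithBot ℕ) → pr (k * n) a (u * f) = 0)
    (hmin : ¬ Fdeg (k * n) a (d - 1)) : T ψ k n a = 0 := by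
  have hkn : n ≤ k * n := Nat.le_mul_of_pos_left n (by omega)
  have hκ := inf_kappa a (hd.trans hkn) (by omega) hu hud hker hmin
  set κ := pr (k * n) a (u * X ^ (k * n - d)) with hκd
  obtain ⟨s, hs⟩ := AddChar.ne_one_iff.mp hψ
  set t : F := s / (k * κ) with ht
  have hts : (k : F) * t * κ = s := by
    rw [ht]
    field_simp
  set w : Fin n → F := fun i => (C t * (u * X ^ (n - d))).coeff i with hwd
  have hw : low n w = C t * (u * X ^ (n - d)) := by
    refine low_of_coeff ?_
    refine lt_of_le_of_lt degree_le_natDegree ?_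
    have h1 : (C t * (u * X ^ (n - d))).natDegree < n := by
      refine lt_of_le_of_lt ((natDegree_C_mul_le _ _).trans natDegree_mul_le) ?_
      rw [natDegree_X_pow]
      omega
    exact_mod_cast h1
  have hT : T ψ k n a = ψ s * T ψ k n a := by
    conv_lhs => rw [T, ← Equiv.sum_comp (Equiv.addRight w)]
    rw [T, Finset.mul_sum]
    refine Finset.sum_congr rfl fun c _ => ?_
    have h2 : mon n (Equiv.addRight w c) = mon n c + C t * (u * X ^ (n - d)) := by
      rw [Equiv.coe_addRight, mon, low_add, hw, mon]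
      ring
    rw [h2, inf_shift hk a hd hud hker t (mon_monic n c) (mon_natDegree n c), ← hκd, hts,
      AddChar.map_add_eq_mul, mul_comm]
  have h3 : (1 - ψ s) * T ψ k n a = 0 := by
    rw [sub_mul, one_mul, ← hT, sub_self]
  rcases mul_eq_zero.mp h3 with h | h
  · exact absurd (sub_eq_zero.mp h).symm hs
  · exact h

end H28WF
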