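import Pool.Agent.H28.WF.MajT
import Pool.Agent.H28.WF.Inf
import Pool.Agent.H28.WF.AnnA
import Pool.Agent.H28.WF.AnnB

/-!
# [WF] MajS: the sum over the major functionals

`a ≠ 0`, `Fdeg (k n) a n`: let `d` be the smallest with `Fdeg (k n) a d` (`1 ≤ d ≤ n`), `u` its
witness.  `deg u < d`: `T a = 0` (`inf_zero`).  `deg u = d`: `u` (made monic) is an annihilator, and
minimal (a proper monic divisor `v ∈ Ann a` would give `Fdeg (k n) a (deg v)`), so `majT`: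
`‖T a‖^k ≤ q^(kn - d)`, `‖T a‖ ≤ q^n ρ^d`, `ρ = q^(-1/k)`.  The number of `(u, a)` is
`≤ q^d q^d` (`card_ann`).  So the sum is at most
`∑_{d=1}^n q^(2d) (q^n ρ^d)^(2k+1) = q^((2k+1)n) ∑ ρ^d ≤ q^((2k+1)n) ρ/(1-ρ)`, and
`ρ → 0` as `q → ∞`.
-/

open Polynomial

namespace H28WF

private theorem fdeg_zero {F : Type*} [Field F] {N : ℕ} {a : Fin N → F} (h : Fdeg N a 0) : a = 0 := by
  obtain ⟨u, hu, hd, hk⟩ := h
  apply pr_eq_zero_of_all
  intro f hf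
  obtain ⟨c, hc⟩ := Polynomial.natDegree_eq_zero.1 (Nat.le_zero.1 hd)
  have hc0 : c ≠ 0 := by
    rintro rfl
    apply hu
    rw [← hc, C_0]
  have h1 := hk (C c⁻¹ * f) (by
    rw [Nat.sub_zero, degree_C_mul (inv_ne_zero hc0)]
    exact hf)
  rw [← hc, ← mul_assoc, ← C_mul, mul_inv_cancel₀ hc0, C_1, one_mul] at h1
  exact h1

private theorem maj_ex {F : Type*} [Field F] [Fintype F] (ψ : AddChar F ℂ) (hψ : ψ ≠ 1) {k n : ℕ}
    (hk : 3 ≤ k) (hk0 : (k : F) ≠ 0) (a : Fin (k * n) → F) (ha : a ≠ 0) (h : Fdeg (k * n) a n) :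
    T ψ k n a = 0 ∨ ∃ d, 1 ≤ d ∧ d ≤ n ∧ ∃ c : Fin d → F, IsMin (k * n) a (mon d c) := by
  classical
  obtain ⟨d, hd, hmin⟩ : ∃ d, Fdeg (k * n) a d ∧ ∀ e, e < d → ¬ Fdeg (k * n) a e :=
    ⟨Nat.find ⟨n, h⟩, Nat.find_spec ⟨n, h⟩, fun e he => Nat.find_min ⟨n, h⟩ he⟩
  have hdn : d ≤ n := by
    by_contra h1
    exact hmin n (by omega) h
  have hd1 : 1 ≤ d := by
    rcases Nat.eq_zero_or_pos d with h1 | h1
    · rw [h1] at hd
      exact absurd (fdeg_zero hd) ha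
    · exact h1
  obtain ⟨u, hu, hud, hker⟩ := hd
  rcases Nat.lt_or_ge u.natDegree d with h1 | h1
  · left
    exact inf_zero ψ hψ (by omega) hk0 a hdn hu h1 hker (hmin (d - 1) (by omega))
  · right
    have hue : u.natDegree = d := le_antisymm hud h1
    have hlc : u.leadingCoeff ≠ 0 := leadingCoeff_ne_zero.2 hu
    have hkn : n ≤ k * n := Nat.le_mul_of_pos_left n (by omega)
    obtain ⟨v, hv⟩ : ∃ v : F[X], v = C (u.leadingCoeff)⁻¹ * u := ⟨_, rfl⟩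
    have hvm : v.Monic := by
      rw [hv, Monic, leadingCoeff_mul, leadingCoeff_C, inv_mul_cancel₀ hlc]
    have hvd : v.natDegree = d := by
      rw [hv, natDegree_C_mul (inv_ne_zero hlc), hue]
    have hvA : Ann (k * n) a v := by
      intro f hf
      rcases eq_or_ne f 0 with rfl | hf0
      · rw [mul_zero, map_zero]
      · rw [degree_eq_natDegree (mul_ne_zero hvm.ne_zero hf0), natDegree_mul hvm.ne_zero hf0, hvd] at hf
        have h2 : d + f.natDegree < k * n := by exact_mod_cast hf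
        have h3 := hker (C (u.leadingCoeff)⁻¹ * f) (by
          rw [degree_C_mul (inv_ne_zero hlc), degree_eq_natDegree hf0]
          exact_mod_cast (by omega : f.natDegree < k * n - d))
        rw [hv]
        rw [show C (u.leadingCoeff)⁻¹ * u * f = u * (C (u.leadingCoeff)⁻¹ * f) by ring]
        exact h3
    obtain ⟨c, hc⟩ := exists_mon hvm hvd
    refine ⟨d, hd1, hdn, c, ?_⟩
    rw [hc]
    refine ⟨hvm, hvA, fun H hH hHv hHA => ?_⟩
    have h2 : H.natDegree ≤ d := by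
      rw [← hvd]
      exact natDegree_le_of_dvd hHv hvm.ne_zero
    rcases Nat.lt_or_ge H.natDegree d with h3 | h3
    · exfalso
      refine hmin _ h3 ⟨H, hH.ne_zero, le_rfl, fun f hf => hHA f ?_⟩
      rcases eq_or_ne f 0 with rfl | hf0
      · rw [mul_zero, degree_zero]
        exact WithBot.bot_lt_coe _
      · rw [degree_eq_natDegree hf0] at hf
        have h4 : f.natDegree < k * n - H.natDegree := by exact_mod_cast hf
        rw [degree_eq_natDegree (mul_ne_zero hH.ne_zero hf0), natDegree_mul hH.ne_zero hf0]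
        exact_mod_cast (by omega : H.natDegree + f.natDegree < k * n)
    · exact (eq_of_monic_of_dvd_of_natDegree_le hH hvm hHv (by omega)).symm

/-- the bound for one functional -/
private theorem one_bd {t Q ρ : ℝ} {k n d : ℕ} (ht : 0 ≤ t) (hk : k ≠ 0) (hQ : 0 < Q) (hρ : 0 ≤ ρ)
    (hρk : ρ ^ k * Q = 1) (h : t ^ k * Q ^ d ≤ Q ^ (k * n)) :
    t ^ (2 * k + 1) * (Q ^ d * Q ^ d) ≤ Q ^ ((2 * k + 1) * n) * ρ ^ d := by
  have h1 : t ^ k ≤ (Q ^ n * ρ ^ d) ^ k := by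
    have h2 : (ρ ^ d) ^ k * Q ^ d = 1 := by
      rw [← pow_mul, mul_comm d k, pow_mul, ← mul_pow, hρk, one_pow]
    have h3 : 0 < Q ^ d := pow_pos hQ d
    have h4 : (Q ^ n * ρ ^ d) ^ k * Q ^ d = Q ^ (k * n) := by
      rw [mul_pow, mul_assoc, h2, mul_one, ← pow_mul, mul_comm n k]
    rw [← h4] at h
    exact le_of_mul_le_mul_right h h3
  have h2 : t ≤ Q ^ n * ρ ^ d := le_of_pow_le_pow_left₀ hk (by positivity) h1
  have h3 : t ^ (2 * k + 1) ≤ (Q ^ n * ρ ^ d) ^ (2 * k + 1) := pow_le_pow_left₀ ht h2 _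
  have h4 : ρ ^ (d * (2 * k + 1)) * (Q ^ d * Q ^ d) = ρ ^ d := by
    have h5 : ρ ^ (d * (2 * k + 1)) = (ρ ^ k) ^ d * (ρ ^ k) ^ d * ρ ^ d := by
      rw [← pow_mul, ← pow_add, ← pow_add]
      congr 1
      ring
    rw [h5, show (ρ ^ k) ^ d * (ρ ^ k) ^ d * ρ ^ d * (Q ^ d * Q ^ d) = (ρ ^ k * Q) ^ d * (ρ ^ k * Q) ^ d * ρ ^ d by
      rw [mul_pow]; ring, hρk, one_pow, one_mul, one_mul]
  calc t ^ (2 * k + 1) * (Q ^ d * Q ^ d) ≤ (Q ^ n * ρ ^ d) ^ (2 * k + 1) * (Q ^ d * Q ^ d) :=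
        mul_le_mul_of_nonneg_right h3 (by positivity)
    _ = Q ^ ((2 * k + 1) * n) * (ρ ^ (d * (2 * k + 1)) * (Q ^ d * Q ^ d)) := by
        rw [mul_pow, ← pow_mul, ← pow_mul, mul_comm n (2 * k + 1)]
        ring
    _ = _ := by rw [h4]

/-- the geometric sum -/
private theorem geo {ρ δ : ℝ} (hρ : 0 ≤ ρ) (hδ : 0 < δ) (h : ρ * (1 + δ) ≤ δ) (n : ℕ) :
    ∑ d ∈ Finset.Icc 1 n, ρ ^ d ≤ δ := by
  have h1 : ρ < 1 := by
    by_contra h2
    nlinarith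
  have h2 : ∀ n : ℕ, ∑ d ∈ Finset.Icc 1 n, ρ ^ d * (1 - ρ) = ρ - ρ ^ (n + 1) := by
    intro n
    induction n with
    | zero => simp
    | succ m ih =>
      rw [Finset.sum_Icc_succ_top (by omega), ih]
      ring
  have h3 := h2 n
  rw [← Finset.sum_mul] at h3
  have h4 : (∑ d ∈ Finset.Icc 1 n, ρ ^ d) * (1 - ρ) ≤ δ * (1 - ρ) := by
    rw [h3]
    have h5 : 0 ≤ ρ ^ (n + 1) := pow_nonneg hρ _
    nlinarith
  exact le_of_mul_le_mul_right h4 (by linarith)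

open Classical in
theorem majS (k : ℕ) (hk : 3 ≤ k) (δ : ℝ) (hδ : 0 < δ) : ∃ q₀ : ℕ, ∀ (F : Type) [Field F]
    [Fintype F], q₀ ≤ Fintype.card F → (k : F) ≠ 0 → ∀ ψ : AddChar F ℂ, ψ ≠ 1 → ∀ n : ℕ,
    ∑ a ∈ (Finset.univ : Finset (Fin (k * n) → F)).filter
      (fun a => a ≠ 0 ∧ Fdeg (k * n) a n), ‖T ψ k n a‖ ^ (2 * k + 1) ≤
      δ * (Fintype.card F : ℝ) ^ ((2 * k + 1) * n) := by
  obtain ⟨q₁, hq₁⟩ := exists_nat_ge (((1 + δ) / δ) ^ k)
  refine ⟨k ^ (2 * k) + q₁, fun F _ _ hq hk0 ψ hψ n => ?_⟩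
  obtain ⟨Q, hQ⟩ : ∃ Q : ℝ, Q = (Fintype.card F : ℝ) := ⟨_, rfl⟩
  have hQ0 : 0 < Q := by
    rw [hQ]
    exact_mod_cast Fintype.card_pos
  have hk1 : k ≠ 0 := by omega
  obtain ⟨ρ, hρ0, hρk⟩ : ∃ ρ : ℝ, 0 ≤ ρ ∧ ρ ^ k = Q⁻¹ :=
    ⟨Q⁻¹ ^ ((k : ℝ)⁻¹), by positivity, Real.rpow_inv_natCast_pow (by positivity) hk1⟩
  have hρQ : ρ ^ k * Q = 1 := by
    rw [hρk, inv_mul_cancel₀ hQ0.ne']
  have hρδ : ρ * (1 + δ) ≤ δ := by
    have h1 : (ρ * ((1 + δ) / δ)) ^ k ≤ 1 ^ k := by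
      have h3 : ((1 + δ) / δ) ^ k ≤ Q := by
        refine hq₁.trans ?_
        rw [hQ]
        exact_mod_cast (by omega : q₁ ≤ Fintype.card F)
      rw [mul_pow, one_pow]
      exact (mul_le_mul_of_nonneg_left h3 (pow_nonneg hρ0 k)).trans hρQ.le
    have h2 : ρ * ((1 + δ) / δ) ≤ 1 := le_of_pow_le_pow_left₀ hk1 zero_le_one h1
    rw [← mul_div_assoc, div_le_one hδ] at h2
    exact h2
  rw [← hQ]
  -- the sets
  obtain ⟨S, hS⟩ : ∃ S : (d : ℕ) → (Fin d → F) → Finset (Fin (k * n) → F),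
      ∀ d c a, a ∈ S d c ↔ IsMin (k * n) a (mon d c) :=
    ⟨fun d c => Finset.univ.filter fun a => IsMin (k * n) a (mon d c), fun d c a => by simp⟩
  have hS1 : ∀ d c, ((S d c).card : ℝ) ≤ Q ^ d := by
    intro d c
    have h1 := card_ann (mon_monic d c).ne_zero (S d c) (fun a ha => ((hS d c a).1 ha).2.1)
    rw [mon_natDegree] at h1
    rw [hQ]
    exact_mod_cast h1
  have hS2 : ∀ d, d ≤ n → ∀ c, ∀ a ∈ S d c, ‖T ψ k n a‖ ^ (2 * k + 1) ≤
      Q ^ ((2 * k + 1) * n) * ρ ^ d * (Q ^ d * Q ^ d)⁻¹ := by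
    intro d hd c a ha
    have h1 := majT ψ hψ hk hk0 (by omega) a ((hS d c a).1 ha) (by rw [mon_natDegree]; exact hd)
    rw [mon_natDegree, ← hQ] at h1
    have h2 := one_bd (norm_nonneg _) hk1 hQ0 hρ0 hρQ h1
    have h3 : 0 < Q ^ d * Q ^ d := by positivity
    rw [← div_eq_mul_inv, le_div_iff₀ h3]
    exact h2
  have hsub : ∀ a ∈ (Finset.univ : Finset (Fin (k * n) → F)).filter
      (fun a => a ≠ 0 ∧ Fdeg (k * n) a n), ‖T ψ k n a‖ ^ (2 * k + 1) ≤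
      ∑ d ∈ Finset.Icc 1 n, ∑ c : Fin d → F, if a ∈ S d c then ‖T ψ k n a‖ ^ (2 * k + 1) else 0 := by
    intro a ha
    rw [Finset.mem_filter] at ha
    have hnn : ∀ d c, 0 ≤ (if a ∈ S d c then ‖T ψ k n a‖ ^ (2 * k + 1) else 0 : ℝ) := by
      intro d c
      split_ifs
      · positivity
      · exact le_rfl
    rcases maj_ex ψ hψ hk hk0 a ha.2.1 ha.2.2 with h1 | ⟨d, hd1, hdn, c, hc⟩
    · rw [h1, norm_zero, zero_pow (by omega)]
      exact Finset.sum_nonneg fun d _ => Finset.sum_nonneg fun c _ => by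
        split_ifs <;> exact le_rfl
    · have h2 : ‖T ψ k n a‖ ^ (2 * k + 1) = (if a ∈ S d c then ‖T ψ k n a‖ ^ (2 * k + 1) else 0 : ℝ) := by
        rw [if_pos ((hS d c a).2 hc)]
      calc ‖T ψ k n a‖ ^ (2 * k + 1) = (if a ∈ S d c then ‖T ψ k n a‖ ^ (2 * k + 1) else 0 : ℝ) := h2
        _ ≤ ∑ c : Fin d → F, (if a ∈ S d c then ‖T ψ k n a‖ ^ (2 * k + 1) else 0 : ℝ) :=
          Finset.single_le_sum (f := fun c => (if a ∈ S d c then ‖T ψ k n a‖ ^ (2 * k + 1) else 0 : ℝ))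
            (fun c _ => hnn d c) (Finset.mem_univ c)
        _ ≤ _ := Finset.single_le_sum
            (f := fun d => ∑ c : Fin d → F, (if a ∈ S d c then ‖T ψ k n a‖ ^ (2 * k + 1) else 0 : ℝ))
            (fun d _ => Finset.sum_nonneg fun c _ => hnn d c) (Finset.mem_Icc.2 ⟨hd1, hdn⟩)
  have hin : ∀ d ∈ Finset.Icc 1 n, (∑ c : Fin d → F, ∑ a ∈ S d c, ‖T ψ k n a‖ ^ (2 * k + 1)) ≤
      Q ^ ((2 * k + 1) * n) * ρ ^ d := by
    intro d hd
    rw [Finset.mem_Icc] at hd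
    have h1 : ∀ c : Fin d → F, ∑ a ∈ S d c, ‖T ψ k n a‖ ^ (2 * k + 1) ≤
        Q ^ d * (Q ^ ((2 * k + 1) * n) * ρ ^ d * (Q ^ d * Q ^ d)⁻¹) := by
      intro c
      have h2 := Finset.sum_le_card_nsmul (S d c) (fun a => ‖T ψ k n a‖ ^ (2 * k + 1)) _ (hS2 d hd.2 c)
      rw [nsmul_eq_mul] at h2
      exact h2.trans (mul_le_mul_of_nonneg_right (hS1 d c) (by positivity))
    refine (Finset.sum_le_sum fun c _ => h1 c).trans (le_of_eq ?_)
    rw [Finset.sum_const, Finset.card_univ, Fintype.card_fun, Fintype.card_fin, nsmul_eq_mul, Nat.cast_pow, ← hQ]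
    have h3 : Q ^ d ≠ 0 := by positivity
    field_simp
  refine (Finset.sum_le_sum hsub).trans ?_
  rw [Finset.sum_comm]
  have h1 : ∀ d ∈ Finset.Icc 1 n, (∑ a ∈ (Finset.univ : Finset (Fin (k * n) → F)).filter
      (fun a => a ≠ 0 ∧ Fdeg (k * n) a n), ∑ c : Fin d → F,
        if a ∈ S d c then ‖T ψ k n a‖ ^ (2 * k + 1) else 0) ≤ Q ^ ((2 * k + 1) * n) * ρ ^ d := by
    intro d hd
    refine le_trans ?_ (hin d hd)
    rw [Finset.sum_comm]
    refine Finset.sum_le_sum fun c _ => ?_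
    rw [← Finset.sum_filter]
    refine Finset.sum_le_sum_of_subset_of_nonneg (fun a ha => (Finset.mem_filter.1 ha).2) fun a _ _ => by
      positivity
  refine (Finset.sum_le_sum h1).trans ?_
  rw [← Finset.mul_sum, mul_comm]
  exact mul_le_mul_of_nonneg_right (geo hρ0 hδ hρδ n) (by positivity)

end H28WF
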