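import Pool.Agent.H28.WF.MomF

/-!
# [WF] Mom: from squarefree to all monic polynomials (3c), the 2k-th moment

Every monic `y` of degree `n` is `h^2 y'` in a unique way, `h` monic of degree `j`, `2 j ≤ n`, `y'`
monic squarefree of degree `n - 2 j`.  So `T a = ∑_j ∑_{h} T_h(a)`.  Weighted Hoelder
(`inner_le_Lp_mul_Lq` or `Finset.inner_le...`, or convexity `(∑ w x)^(2k) ≤ (∑ w)^(2k-1) ∑ w x^(2k)`:
`inner_le_nnorm_mul_nnorm`, `Real.pow_arith_mean_le_arith_mean_pow`), weights `w_h = q^(-deg h)`,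
`x_h = q^(deg h) ‖T_h(a)‖`, `∑_h w_h ≤ n + 1`:
`‖T a‖^(2k) ≤ (n+1)^(2k-1) ∑_h q^((2k-1) deg h) ‖T_h(a)‖^(2k)`.  Sum over `a` with `momF`,
`M = B^(n-2j) q^(k(n-2j))`; the number of `h` of degree `j` is `q^j`: level `j` gives
`q^j q^((2k-1)j) q^(kn) B^(n-2j) q^(k(n-2j)) ≤ B^n q^(2kn)`, at most `n + 1` levels.  (`B ≥ 1`.)
-/

open Polynomial

namespace H28WF

/-- the power mean inequality -/
private theorem pm {ι : Type*} (s : Finset ι) (g : ι → ℂ) (m : ℕ) {N : ℝ}
    (hN : (s.card : ℝ) ≤ N) :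
    ‖∑ i ∈ s, g i‖ ^ (m + 1) ≤ N ^ m * ∑ i ∈ s, ‖g i‖ ^ (m + 1) := by
  have h0 : 0 ≤ ∑ i ∈ s, ‖g i‖ ^ (m + 1) := Finset.sum_nonneg fun i _ => by positivity
  have h1 : ‖∑ i ∈ s, g i‖ ^ (m + 1) ≤ (∑ i ∈ s, ‖g i‖) ^ (m + 1) :=
    pow_le_pow_left₀ (norm_nonneg _) (norm_sum_le _ _) _
  have h2 : (∑ i ∈ s, ‖g i‖) ^ (m + 1) ≤ (s.card : ℝ) ^ m * ∑ i ∈ s, ‖g i‖ ^ (m + 1) := by
    rcases s.eq_empty_or_nonempty with rfl | hs
    · simp
    · exact pow_sum_le_card_mul_sum_pow (s := s) (f := fun i => ‖g i‖)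
        (fun i _ => norm_nonneg _) m
  have h3 : (s.card : ℝ) ^ m * ∑ i ∈ s, ‖g i‖ ^ (m + 1) ≤ N ^ m * ∑ i ∈ s, ‖g i‖ ^ (m + 1) :=
    mul_le_mul_of_nonneg_right (pow_le_pow_left₀ (by positivity) hN _) h0
  exact h1.trans (h2.trans h3)

/-- every monic polynomial is a square times a squarefree one -/
private theorem dec {F : Type*} [Field F] (n : ℕ) : ∀ y : F[X], y.Monic → y.natDegree = n →
    ∃ h z : F[X], h.Monic ∧ 2 * h.natDegree ≤ n ∧ Sq (n - 2 * h.natDegree) z ∧ y = h ^ 2 * z := by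
  induction n using Nat.strong_induction_on with
  | _ n ih =>
    intro y hy hn
    by_cases hs : Squarefree y
    · refine ⟨1, y, monic_one, by simp, ⟨hy, by simp [hn], hs⟩, by simp⟩
    · rw [Squarefree] at hs
      push Not at hs
      obtain ⟨x, ⟨w, hw⟩, hx⟩ := hs
      have hy0 : y ≠ 0 := hy.ne_zero
      have hx0 : x ≠ 0 := by
        rintro rfl
        simp at hw
        exact hy0 hw
      have hl : x.leadingCoeff ≠ 0 := leadingCoeff_ne_zero.mpr hx0
      obtain ⟨x', hx'⟩ : ∃ x', x' = x * C x.leadingCoeff⁻¹ := ⟨_, rfl⟩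
      have hxm : x'.Monic := by
        rw [hx']
        exact monic_mul_leadingCoeff_inv hx0
      have hC : C x.leadingCoeff⁻¹ * C x.leadingCoeff = (1 : F[X]) := by
        rw [← C_mul, inv_mul_cancel₀ hl, C_1]
      have hxx : x = x' * C x.leadingCoeff := by
        rw [hx', mul_assoc, hC, mul_one]
      obtain ⟨w', hw'⟩ : ∃ w', w' = C x.leadingCoeff * C x.leadingCoeff * w := ⟨_, rfl⟩
      have hyw : y = x' ^ 2 * w' := by
        rw [hw', hw]
        nth_rewrite 1 2 [hxx]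
        ring
      have hwm : w'.Monic := (hxm.pow 2).of_mul_monic_left (by rw [← hyw]; exact hy)
      have hdx : 1 ≤ x'.natDegree := by
        by_contra hc
        have h0 : x'.natDegree = 0 := by omega
        have h1 : x' = 1 := hxm.natDegree_eq_zero.mp h0
        apply hx
        rw [hxx, h1, one_mul]
        exact (isUnit_iff_ne_zero.mpr hl).map C
      have hdeg : n = 2 * x'.natDegree + w'.natDegree := by
        rw [← hn, hyw, (hxm.pow 2).natDegree_mul hwm, hxm.natDegree_pow]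
      obtain ⟨h, z, hm, h2, hz, he⟩ := ih w'.natDegree (by omega) w' hwm rfl
      refine ⟨x' * h, z, hxm.mul hm, ?_, ?_, ?_⟩
      · rw [hxm.natDegree_mul hm]
        omega
      · rw [hxm.natDegree_mul hm]
        have : n - 2 * (x'.natDegree + h.natDegree) = w'.natDegree - 2 * h.natDegree := by omega
        rw [this]
        exact hz
      · rw [hyw, he]
        ring

/-- the number of monic polynomials of degree `j` in a set -/
private theorem card_monic {F : Type*} [Field F] [Fintype F] (j : ℕ) (H : Finset F[X])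
    (h : ∀ x ∈ H, x.Monic ∧ x.natDegree = j) : (H.card : ℝ) ≤ (Fintype.card F : ℝ) ^ j := by
  classical
  have h1 : H ⊆ (Finset.univ : Finset (Fin j → F)).image (mon j) := by
    intro x hx
    obtain ⟨c, hc⟩ := exists_mon (h x hx).1 (h x hx).2
    exact Finset.mem_image.mpr ⟨c, Finset.mem_univ _, hc⟩
  have h2 : H.card ≤ Fintype.card F ^ j := by
    refine (Finset.card_le_card h1).trans (Finset.card_image_le.trans ?_)
    simp
  exact_mod_cast h2

theorem moment {F : Type*} [Field F] [Fintype F] (ψ : AddChar F ℂ) (hψ : ψ ≠ 1) {k B : ℕ}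
    (hk : 1 ≤ k) (hB : 1 ≤ B) (hM : ∀ n : ℕ, MB F k n (B ^ n * Fintype.card F ^ (k * n))) (n : ℕ) :
    ∑ a : Fin (k * n) → F, ‖T ψ k n a‖ ^ (2 * k) ≤
      ((n : ℝ) + 1) ^ (2 * k) * (B : ℝ) ^ n * (Fintype.card F : ℝ) ^ (2 * k * n) := by
  classical
  obtain ⟨q, hq⟩ : ∃ q : ℝ, q = (Fintype.card F : ℝ) := ⟨_, rfl⟩
  have hq1 : 1 ≤ q := by
    rw [hq]
    exact_mod_cast Fintype.card_pos
  have hq0 : 0 < q := by linarith
  obtain ⟨m, hm⟩ : ∃ m, 2 * k = m + 1 := ⟨2 * k - 1, by omega⟩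
  have hd : ∀ c : Fin n → F, ∃ h z : F[X], h.Monic ∧ 2 * h.natDegree ≤ n ∧
      Sq (n - 2 * h.natDegree) z ∧ mon n c = h ^ 2 * z := fun c =>
    dec n (mon n c) (mon_monic n c) (mon_natDegree n c)
  choose hh yy h1 h2 h3 h4 using hd
  -- the pieces
  obtain ⟨L, hL⟩ : ∃ L : ℕ → Finset (Fin n → F),
      L = fun j => Finset.univ.filter (fun c => (hh c).natDegree = j) := ⟨_, rfl⟩
  obtain ⟨Hj, hHj⟩ : ∃ Hj : ℕ → Finset F[X], Hj = fun j => (L j).image hh := ⟨_, rfl⟩
  obtain ⟨Y, hY⟩ : ∃ Y : ℕ → F[X] → Finset F[X],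
      Y = fun j h => ((L j).filter (fun c => hh c = h)).image yy := ⟨_, rfl⟩
  have hLm : ∀ j c, c ∈ L j ↔ (hh c).natDegree = j := by
    intro j c
    rw [hL]
    simp
  have hHm : ∀ j h, h ∈ Hj j → h.Monic ∧ h.natDegree = j ∧ 2 * j ≤ n := by
    intro j h hh'
    rw [hHj] at hh'
    obtain ⟨c, hc, rfl⟩ := Finset.mem_image.mp hh'
    rw [hLm] at hc
    refine ⟨h1 c, hc, ?_⟩
    rw [← hc]
    exact h2 c
  have hYm : ∀ j h, ∀ y ∈ Y j h, Sq (n - 2 * j) y := by
    intro j h y hy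
    rw [hY] at hy
    obtain ⟨c, hc, rfl⟩ := Finset.mem_image.mp hy
    rw [Finset.mem_filter, hLm] at hc
    have := h3 c
    rwa [hc.1] at this
  obtain ⟨Th, hTh⟩ : ∃ Th : ℕ → F[X] → (Fin (k * n) → F) → ℂ,
      Th = fun j h a => ∑ y ∈ Y j h, ψ (pr (k * n) a ((h ^ 2 * y) ^ k)) := ⟨_, rfl⟩
  have hT : ∀ a, T ψ k n a = ∑ j ∈ Finset.range (n + 1), ∑ h ∈ Hj j, Th j h a := by
    intro a
    have e1 : T ψ k n a = ∑ j ∈ Finset.range (n + 1),
        ∑ c ∈ Finset.univ.filter (fun c => (hh c).natDegree = j),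
          ψ (pr (k * n) a (mon n c ^ k)) := by
      unfold T
      rw [Finset.sum_fiberwise_of_maps_to]
      intro c _
      have := h2 c
      rw [Finset.mem_range]
      omega
    rw [e1]
    refine Finset.sum_congr rfl fun j _ => ?_
    have e2 : ∑ c ∈ L j, ψ (pr (k * n) a (mon n c ^ k)) =
        ∑ h ∈ Hj j, ∑ c ∈ (L j).filter (fun c => hh c = h), ψ (pr (k * n) a (mon n c ^ k)) := by
      rw [Finset.sum_fiberwise_of_maps_to]
      intro c hc
      rw [hHj]
      exact Finset.mem_image_of_mem _ hc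
    have e3 : Finset.univ.filter (fun c => (hh c).natDegree = j) = L j := by rw [hL]
    rw [e3, e2]
    refine Finset.sum_congr rfl fun h _ => ?_
    rw [hTh, hY]
    show _ = ∑ y ∈ ((L j).filter (fun c => hh c = h)).image yy,
      ψ (pr (k * n) a ((h ^ 2 * y) ^ k))
    rw [Finset.sum_image]
    · refine Finset.sum_congr rfl fun c hc => ?_
      rw [h4 c, (Finset.mem_filter.mp hc).2]
    · intro c hc c' hc' he
      have hc2 : hh c = h := (Finset.mem_filter.mp hc).2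
      have hc2' : hh c' = h := (Finset.mem_filter.mp hc').2
      apply mon_injective n
      rw [h4 c, h4 c', hc2, hc2', he]
  -- one level
  have hlev : ∀ j ∈ Finset.range (n + 1), ∑ a : Fin (k * n) → F, ‖∑ h ∈ Hj j, Th j h a‖ ^ (2 * k) ≤
      (B : ℝ) ^ n * q ^ (2 * k * n) := by
    intro j _
    rcases (Hj j).eq_empty_or_nonempty with he | ⟨h0, hh0⟩
    · rw [he]
      simp only [Finset.sum_empty, norm_zero]
      rw [zero_pow (by omega)]
      simp only [Finset.sum_const_zero]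
      positivity
    have h2j : 2 * j ≤ n := (hHm j h0 hh0).2.2
    have hcard : ((Hj j).card : ℝ) ≤ q ^ j := by
      rw [hq]
      exact card_monic j _ fun x hx => ⟨(hHm j x hx).1, (hHm j x hx).2.1⟩
    have hone : ∀ h ∈ Hj j, ∑ a : Fin (k * n) → F, ‖Th j h a‖ ^ (2 * k) ≤
        q ^ (k * n) * ((B : ℝ) ^ (n - 2 * j) * q ^ (k * (n - 2 * j))) := by
      intro h hh'
      have := momF ψ hψ hk (n := n) (j := j) (m := n - 2 * j) (by omega) (hM (n - 2 * j))
        (hHm j h hh').1 (hHm j h hh').2.1 (Y j h) (hYm j h)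
      rw [hTh, hq]
      push_cast at this
      exact this
    calc ∑ a : Fin (k * n) → F, ‖∑ h ∈ Hj j, Th j h a‖ ^ (2 * k)
        ≤ ∑ a : Fin (k * n) → F, (q ^ j) ^ m * ∑ h ∈ Hj j, ‖Th j h a‖ ^ (2 * k) := by
          refine Finset.sum_le_sum fun a _ => ?_
          rw [hm]
          exact pm _ _ m hcard
      _ = (q ^ j) ^ m * ∑ h ∈ Hj j, ∑ a : Fin (k * n) → F, ‖Th j h a‖ ^ (2 * k) := by
          rw [← Finset.mul_sum, Finset.sum_comm]
      _ ≤ (q ^ j) ^ m * ∑ h ∈ Hj j, q ^ (k * n) * ((B : ℝ) ^ (n - 2 * j) *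
            q ^ (k * (n - 2 * j))) :=
          mul_le_mul_of_nonneg_left (Finset.sum_le_sum hone) (by positivity)
      _ = ((Hj j).card : ℝ) * ((q ^ j) ^ m * (q ^ (k * n) * ((B : ℝ) ^ (n - 2 * j) *
            q ^ (k * (n - 2 * j))))) := by
          rw [Finset.sum_const, nsmul_eq_mul]
          ring
      _ ≤ q ^ j * ((q ^ j) ^ m * (q ^ (k * n) * ((B : ℝ) ^ n * q ^ (k * (n - 2 * j))))) := by
          have hB1 : (1 : ℝ) ≤ (B : ℝ) := by exact_mod_cast hB
          have hB2 : (B : ℝ) ^ (n - 2 * j) ≤ (B : ℝ) ^ n := pow_le_pow_right₀ hB1 (by omega)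
          gcongr
      _ = (B : ℝ) ^ n * q ^ (2 * k * n) := by
          have e : q ^ (2 * k * n) = q ^ (j * (m + 1)) * q ^ (k * n) * q ^ (k * (n - 2 * j)) := by
            rw [← pow_add, ← pow_add]
            congr 1
            rw [← hm]
            obtain ⟨r, hr⟩ : ∃ r, n = 2 * j + r := ⟨n - 2 * j, by omega⟩
            have hr' : n - 2 * j = r := by omega
            rw [hr', hr]
            ring
          rw [e, ← pow_mul, show j * (m + 1) = j + j * m by ring, pow_add]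
          ring
  calc ∑ a : Fin (k * n) → F, ‖T ψ k n a‖ ^ (2 * k)
      ≤ ∑ a : Fin (k * n) → F, ((n : ℝ) + 1) ^ m *
          ∑ j ∈ Finset.range (n + 1), ‖∑ h ∈ Hj j, Th j h a‖ ^ (2 * k) := by
        refine Finset.sum_le_sum fun a _ => ?_
        rw [hm, hT a]
        exact pm _ _ m (by simp)
    _ = ((n : ℝ) + 1) ^ m * ∑ j ∈ Finset.range (n + 1),
          ∑ a : Fin (k * n) → F, ‖∑ h ∈ Hj j, Th j h a‖ ^ (2 * k) := by
        rw [← Finset.mul_sum, Finset.sum_comm]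
    _ ≤ ((n : ℝ) + 1) ^ m * ∑ j ∈ Finset.range (n + 1), ((B : ℝ) ^ n * q ^ (2 * k * n)) :=
        mul_le_mul_of_nonneg_left (Finset.sum_le_sum hlev) (by positivity)
    _ = ((n : ℝ) + 1) ^ (2 * k) * (B : ℝ) ^ n * (Fintype.card F : ℝ) ^ (2 * k * n) := by
        rw [Finset.sum_const, nsmul_eq_mul, Finset.card_range, hm, pow_succ, ← hm, hq]
        push_cast
        ring

end H28WF
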