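import Pool.Agent.H28.WF.Bas

/-!
# [WF] Small: the scaling trick (small `n`)

For `α ≠ 0` the map `y(t) ↦ α^(-n) y(α t)` permutes the monic polynomials of degree `n`, and it
multiplies the coefficient of index `j` of `y^k` by `α^(j-kn)`.  So `T a = T (a^α)`,
`(a^α)_j = α^(-(kn-j)) a_j`.  For `a ≠ 0`, `a_j ≠ 0`, `j < k n`: `a^α` determines `α^(kn-j)`, so
each value is taken by at most `k n` different `α`:
`(q-1) ‖T a‖^(2k) = ∑_α ‖T a^α‖^(2k) ≤ k n ∑_b ‖T b‖^(2k)`.
-/

open Polynomial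

namespace H28WF

private theorem mon_scale {F : Type*} [Field F] (n : ℕ) (c : Fin n → F) (β : F) :
    mon n (fun i => β ^ (n - (i : ℕ)) * c i) = (mon n c).scaleRoots β := by
  ext j
  rw [coeff_scaleRoots, mon_natDegree, mon, mon, coeff_add, coeff_add, coeff_X_pow]
  rcases lt_trichotomy j n with hj | hj | hj
  · rw [if_neg hj.ne, zero_add, zero_add, low_coeff n _ ⟨j, hj⟩, low_coeff n _ ⟨j, hj⟩]
    ring
  · subst hj
    rw [if_pos rfl, low_coeff_of_le _ _ le_rfl, low_coeff_of_le _ _ le_rfl]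
    simp
  · rw [if_neg hj.ne', low_coeff_of_le _ _ hj.le, low_coeff_of_le _ _ hj.le]
    simp

private theorem pow_scale {F : Type*} [Field F] (p : F[X]) (β : F) (k : ℕ) :
    (p.scaleRoots β) ^ k = (p ^ k).scaleRoots β := by
  induction k with
  | zero => simp
  | succ k ih => rw [pow_succ, ih, pow_succ, mul_scaleRoots_of_noZeroDivisors]

private theorem pr_scale {F : Type*} [Field F] (k n : ℕ) (a : Fin (k * n) → F) (c : Fin n → F)
    (β : F) :
    pr (k * n) a (mon n (fun i => β ^ (n - (i : ℕ)) * c i) ^ k) =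
      pr (k * n) (fun j => β ^ (k * n - (j : ℕ)) * a j) (mon n c ^ k) := by
  rw [mon_scale, pow_scale, pr_apply, pr_apply]
  refine Finset.sum_congr rfl fun j _ => ?_
  rw [coeff_scaleRoots, (mon_monic n c).natDegree_pow, mon_natDegree]
  ring

private theorem T_scale {F : Type*} [Field F] [Fintype F] (ψ : AddChar F ℂ) (k n : ℕ)
    (a : Fin (k * n) → F) (β : Fˣ) :
    T ψ k n (fun j => (β : F) ^ (k * n - (j : ℕ)) * a j) = T ψ k n a := by
  unfold T
  have hβ : (β : F) ≠ 0 := β.ne_zero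
  let e : (Fin n → F) ≃ (Fin n → F) :=
    { toFun := fun c i => (β : F) ^ (n - (i : ℕ)) * c i
      invFun := fun c i => ((β : F) ^ (n - (i : ℕ)))⁻¹ * c i
      left_inv := fun c => by
        funext i
        have : (β : F) ^ (n - (i : ℕ)) ≠ 0 := pow_ne_zero _ hβ
        field_simp
      right_inv := fun c => by
        funext i
        have : (β : F) ^ (n - (i : ℕ)) ≠ 0 := pow_ne_zero _ hβ
        field_simp }
  rw [← e.sum_comp (fun c => ψ (pr (k * n) a (mon n c ^ k)))]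
  refine Finset.sum_congr rfl fun c _ => ?_
  rw [← pr_scale]
  rfl

private theorem fib_card {F : Type*} [Field F] [Fintype F] [DecidableEq F] (k n : ℕ)
    (a : Fin (k * n) → F) (ha : a ≠ 0) (b : Fin (k * n) → F) :
    ((Finset.univ : Finset Fˣ).filter
      (fun β : Fˣ => (fun j : Fin (k * n) => (β : F) ^ (k * n - (j : ℕ)) * a j) = b)).card ≤ k * n := by
  classical
  obtain ⟨j, hj⟩ : ∃ j, a j ≠ 0 := by
    by_contra h
    push Not at h
    exact ha (funext h)
  have hpos : 0 < k * n - (j : ℕ) := Nat.sub_pos_of_lt j.2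
  have h1 : ((Finset.univ : Finset Fˣ).filter
      (fun β : Fˣ => (fun j : Fin (k * n) => (β : F) ^ (k * n - (j : ℕ)) * a j) = b)).card ≤
      (nthRoots (k * n - (j : ℕ)) (b j / a j)).toFinset.card := by
    refine Finset.card_le_card_of_injOn (fun β : Fˣ => (β : F)) ?_ ?_
    · intro β hβ
      have h2 := (Finset.mem_filter.1 hβ).2
      have h3 := congrFun h2 j
      rw [Finset.mem_coe, Multiset.mem_toFinset, mem_nthRoots hpos, eq_div_iff hj]
      exact h3
    · intro x _ y _ hxy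
      exact Units.ext hxy
  calc _ ≤ _ := h1
    _ ≤ Multiset.card (nthRoots (k * n - (j : ℕ)) (b j / a j)) := Multiset.toFinset_card_le _
    _ ≤ k * n - (j : ℕ) := card_nthRoots _ _
    _ ≤ k * n := Nat.sub_le _ _

theorem small {F : Type*} [Field F] [Fintype F] (ψ : AddChar F ℂ) (k n m : ℕ)
    (a : Fin (k * n) → F) (ha : a ≠ 0) :
    ((Fintype.card F : ℝ) - 1) * ‖T ψ k n a‖ ^ m ≤
      (k : ℝ) * n * ∑ b : Fin (k * n) → F, ‖T ψ k n b‖ ^ m := by
  classical
  have hcard : ((Fintype.card F : ℝ) - 1) = (Fintype.card Fˣ : ℝ) := by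
    rw [Fintype.card_units, Nat.cast_sub Fintype.card_pos, Nat.cast_one]
  have h1 : ((Fintype.card F : ℝ) - 1) * ‖T ψ k n a‖ ^ m =
      ∑ β : Fˣ, ‖T ψ k n (fun j => (β : F) ^ (k * n - (j : ℕ)) * a j)‖ ^ m := by
    simp only [T_scale]
    rw [Finset.sum_const, Finset.card_univ, nsmul_eq_mul, hcard]
  rw [h1, ← Finset.sum_fiberwise (Finset.univ : Finset Fˣ)
    (fun β : Fˣ => (fun j : Fin (k * n) => (β : F) ^ (k * n - (j : ℕ)) * a j))
    (fun β : Fˣ => ‖T ψ k n (fun j => (β : F) ^ (k * n - (j : ℕ)) * a j)‖ ^ m), Finset.mul_sum]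
  refine Finset.sum_le_sum fun b _ => ?_
  have h2 : ∑ β ∈ (Finset.univ : Finset Fˣ).filter
      (fun β : Fˣ => (fun j : Fin (k * n) => (β : F) ^ (k * n - (j : ℕ)) * a j) = b),
      ‖T ψ k n (fun j => (β : F) ^ (k * n - (j : ℕ)) * a j)‖ ^ m =
      ∑ _β ∈ (Finset.univ : Finset Fˣ).filter
      (fun β : Fˣ => (fun j : Fin (k * n) => (β : F) ^ (k * n - (j : ℕ)) * a j) = b),
      ‖T ψ k n b‖ ^ m := by
    refine Finset.sum_congr rfl fun β hβ => ?_
    rw [(Finset.mem_filter.1 hβ).2]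
  rw [h2, Finset.sum_const, nsmul_eq_mul]
  have h3 : (((Finset.univ : Finset Fˣ).filter
      (fun β : Fˣ => (fun j : Fin (k * n) => (β : F) ^ (k * n - (j : ℕ)) * a j) = b)).card : ℝ) ≤
      (k : ℝ) * n := by
    exact_mod_cast fib_card k n a ha b
  exact mul_le_mul_of_nonneg_right h3 (by positivity)

end H28WF
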