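import Pool.Agent.H28.WF.Bas

/-!
# [WF] WDim: dimension of the space of products (5)

`M = (k-1)(n-1) + 1 = (k-1) n - (k-2)`.  Bilinear form `B(w, v) = pr a (w v)` on `V_M × V_n`.
`K = {v ∈ V_n : B(w, v) = 0 ∀ w ∈ V_M}` has dimension `≤ k - 2`: otherwise the `k - 2` further linear
conditions `pr a (X^j v) = 0`, `M ≤ j < (k-1) n`, have a common nonzero solution `v ∈ K`, which
kills all `f` of degree `< (k-1) n = k n - n` and has degree `≤ n`: `Fdeg (k n) a n`, CONTRADICTION.
So the rank of `B` is `≥ n - (k-2)` and `W = {w ∈ V_M : B(w, v) = 0 ∀ v ∈ V_n}` has dimension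
`≤ M - n + (k-2) = (k-2) n`.
(In Lean: a matrix `Fin M × Fin n` and `Matrix.rank` / `rank_transpose`, kernel dimensions.)
-/

open Polynomial

namespace H28WF

private theorem wdim_aux {F : Type*} [Field F] [Fintype F] {N P n d : ℕ} (hNP : N - n = P)
    (hd : P = d + n) (a : Fin N → F) (hmin : ¬ Fdeg N a n) (S : Finset F[X])
    (hdeg : ∀ w ∈ S, w.degree < (P : WithBot ℕ))
    (hS : ∀ w ∈ S, ∀ v : Fin n → F, pr N a (w * low n v) = 0) :
    S.card ≤ Fintype.card F ^ d := by
  classical
  let A : Matrix (Fin P) (Fin n) F := fun i j => pr N a (X ^ ((i : ℕ) + (j : ℕ)))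
  have hA1 : ∀ (v : Fin n → F) (i : Fin P), (A.mulVec v) i = pr N a (X ^ (i : ℕ) * low n v) := by
    intro v i
    simp only [Matrix.mulVec, dotProduct, low, Finset.mul_sum, map_sum]
    refine Finset.sum_congr rfl fun j _ => ?_
    have h1 : (X ^ (i : ℕ) * (C (v j) * X ^ (j : ℕ)) : F[X]) =
        (v j) • (X ^ ((i : ℕ) + (j : ℕ)) : F[X]) := by
      rw [smul_eq_C_mul, pow_add]
      ring
    rw [h1, map_smul, smul_eq_mul, mul_comm]
  have hA2 : ∀ (c : Fin P → F) (j : Fin n),
      (A.transpose.mulVec c) j = pr N a (low P c * X ^ (j : ℕ)) := by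
    intro c j
    simp only [Matrix.mulVec, dotProduct, low, Finset.sum_mul, map_sum, Matrix.transpose_apply]
    refine Finset.sum_congr rfl fun i _ => ?_
    have h1 : (C (c i) * X ^ (i : ℕ) * X ^ (j : ℕ) : F[X]) =
        (c i) • (X ^ ((i : ℕ) + (j : ℕ)) : F[X]) := by
      rw [smul_eq_C_mul, pow_add]
      ring
    rw [h1, map_smul, smul_eq_mul, mul_comm]
  have hinj : ∀ v : Fin n → F, A.mulVec v = 0 → v = 0 := by
    intro v hv
    by_contra hv0
    apply hmin
    refine ⟨low n v, ?_, natDegree_le_of_degree_le (low_degree_lt n v).le, ?_⟩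
    · intro h
      exact hv0 (low_injective n (h.trans (low_zero n).symm))
    · intro f hf
      rw [hNP] at hf
      rw [← low_of_coeff hf]
      generalize (fun i : Fin P => f.coeff i) = c
      have h2 : low n v * low P c = ∑ i : Fin P, (c i) • (X ^ (i : ℕ) * low n v) := by
        unfold low
        rw [Finset.mul_sum]
        refine Finset.sum_congr rfl fun i _ => ?_
        rw [smul_eq_C_mul]
        ring
      rw [h2, map_sum]
      refine Finset.sum_eq_zero fun i _ => ?_
      rw [map_smul, ← hA1 v i, hv]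
      simp
  have hker : LinearMap.ker A.mulVecLin = ⊥ := by
    rw [LinearMap.ker_eq_bot']
    intro v hv
    exact hinj v hv
  have hr : A.rank = n := by
    have h1 := LinearMap.finrank_range_add_finrank_ker A.mulVecLin
    rw [hker, finrank_bot, add_zero, Module.finrank_fin_fun] at h1
    exact h1
  have hr' : A.transpose.rank = n := by rw [Matrix.rank_transpose, hr]
  have hdim : Module.finrank F (LinearMap.ker A.transpose.mulVecLin) = d := by
    have h1 := LinearMap.finrank_range_add_finrank_ker A.transpose.mulVecLin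
    have h2 : Module.finrank F (LinearMap.range A.transpose.mulVecLin) = n := hr'
    rw [h2, Module.finrank_fin_fun] at h1
    omega
  have hcard : Nat.card (LinearMap.ker A.transpose.mulVecLin) = Fintype.card F ^ d := by
    rw [Module.natCard_eq_pow_finrank (K := F), hdim, Nat.card_eq_fintype_card]
  rw [← hcard]
  let g : S → LinearMap.ker A.transpose.mulVecLin := fun w => ⟨fun i => (w : F[X]).coeff i, by
    rw [LinearMap.mem_ker]
    funext j
    change (A.transpose.mulVec _) j = 0
    rw [hA2, low_of_coeff (hdeg w w.2)]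
    have h1 := hS w w.2 (Pi.single j 1)
    have h2 : low n (Pi.single j (1 : F)) = X ^ (j : ℕ) := by
      rw [low, Finset.sum_eq_single j]
      · rw [Pi.single_eq_same, C_1, one_mul]
      · intro i _ hij
        rw [Pi.single_eq_of_ne hij, C_0, zero_mul]
      · intro h
        exact absurd (Finset.mem_univ j) h
    rw [h2] at h1
    exact h1⟩
  have hg : Function.Injective g := by
    intro w w' h
    have h1 : (fun i : Fin P => (w : F[X]).coeff i) = fun i : Fin P => (w' : F[X]).coeff i :=
      congrArg Subtype.val h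
    apply Subtype.ext
    rw [← low_of_coeff (hdeg w w.2), ← low_of_coeff (hdeg w' w'.2), h1]
  have h5 := Nat.card_le_card_of_injective g hg
  rwa [Nat.card_eq_fintype_card, Fintype.card_coe] at h5

theorem wdim {F : Type*} [Field F] [Fintype F] {k n : ℕ} (hk : 2 ≤ k) (hn : 1 ≤ n)
    (a : Fin (k * n) → F) (hmin : ¬ Fdeg (k * n) a n) (S : Finset F[X])
    (hS : ∀ w ∈ S, w.degree < (((k - 1) * (n - 1) + 1 : ℕ) : WithBot ℕ) ∧
      ∀ v : Fin n → F, pr (k * n) a (w * low n v) = 0) :
    S.card ≤ Fintype.card F ^ ((k - 2) * n) := by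
  obtain ⟨l, rfl⟩ : ∃ l, k = l + 2 := ⟨k - 2, by omega⟩
  have hk1 : l + 2 - 1 = l + 1 := by omega
  have hk2 : l + 2 - 2 = l := by omega
  rw [hk2]
  rw [hk1] at hS
  have hNP : (l + 2) * n - n = (l + 1) * n := by
    have : (l + 2) * n = (l + 1) * n + n := by ring
    omega
  have hMP : (l + 1) * (n - 1) + 1 ≤ (l + 1) * n := by
    obtain ⟨m, rfl⟩ : ∃ m, n = m + 1 := ⟨n - 1, by omega⟩
    have h1 : m + 1 - 1 = m := by omega
    rw [h1]
    have : (l + 1) * (m + 1) = (l + 1) * m + l + 1 := by ring
    omega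
  exact wdim_aux hNP (by ring) a hmin S
    (fun w hw => lt_of_lt_of_le (hS w hw).1 (by exact_mod_cast hMP)) (fun w hw => (hS w hw).2)

end H28WF
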