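import Mathlib

/-!
# [WF] Div: the divisor bound

A nonzero polynomial `f` over a field has at most `2 ^ natDegree f` monic divisors.
PROOF: induction on the number of (normalized) prime factors: divisors of `π f` are divisors of `f`
or `π` times a divisor of `f`; every prime factor has degree `≥ 1`.
(Or: monic divisors inject into the sub-multisets of `normalizedFactors f`: `Multiset.powerset`,
card `2 ^ card`, and the number of factors is at most the degree.)
-/

open Polynomial

namespace H28WF

open UniqueFactorizationMonoid in
private theorem card_factors_le {F : Type*} [Field F] [DecidableEq F] {f : F[X]} (hf : f ≠ 0) :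
    (normalizedFactors f).card ≤ f.natDegree := by
  have h0 : (0 : F[X]) ∉ normalizedFactors f := fun h =>
    (irreducible_of_normalized_factor 0 h).ne_zero rfl
  have h1 : ((normalizedFactors f).map natDegree).sum = f.natDegree := by
    rw [← natDegree_multiset_prod _ h0]
    exact natDegree_eq_of_degree_eq (degree_eq_degree_of_associated (prod_normalizedFactors hf))
  have h2 : (normalizedFactors f).card • 1 ≤ ((normalizedFactors f).map natDegree).sum := by
    have h3 := Multiset.card_nsmul_le_sum (s := (normalizedFactors f).map natDegree) (a := 1) (by
      intro x hx
      obtain ⟨p, hp, rfl⟩ := Multiset.mem_map.mp hx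
      exact (irreducible_of_normalized_factor p hp).natDegree_pos)
    rwa [Multiset.card_map] at h3
  rw [h1] at h2
  simpa using h2

open UniqueFactorizationMonoid in
theorem card_div {F : Type*} [Field F] {f : F[X]} (hf : f ≠ 0) (S : Finset F[X])
    (hS : ∀ G ∈ S, G.Monic ∧ G ∣ f) : S.card ≤ 2 ^ f.natDegree := by
  classical
  have h1 : S.card ≤ (normalizedFactors f).powerset.toFinset.card := by
    apply Finset.card_le_card_of_injOn (fun G => normalizedFactors G)
    · intro G hG
      obtain ⟨hm, hd⟩ := hS G hG
      have hle : normalizedFactors G ≤ normalizedFactors f :=
        (dvd_iff_normalizedFactors_le_normalizedFactors hm.ne_zero hf).mp hd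
      simpa using hle
    · intro G hG H hH hGH
      have hG' := (hS G hG).1
      have hH' := (hS H hH).1
      have e1 := prod_normalizedFactors hG'.ne_zero
      have e2 := prod_normalizedFactors hH'.ne_zero
      have hGH' : normalizedFactors G = normalizedFactors H := hGH
      rw [hGH'] at e1
      exact eq_of_monic_of_associated hG' hH' (e1.symm.trans e2)
  have h2 : (normalizedFactors f).powerset.toFinset.card ≤ 2 ^ (normalizedFactors f).card := by
    refine le_trans (Multiset.toFinset_card_le _) ?_
    rw [Multiset.card_powerset]
  have h3 : 2 ^ (normalizedFactors f).card ≤ 2 ^ f.natDegree :=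
    Nat.pow_le_pow_right (by norm_num) (card_factors_le hf)
  exact h1.trans (h2.trans h3)

end H28WF
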