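import Pool.Agent.H28.WF.Bas
import Pool.Agent.H28.WF.Div

/-!
# [WF] WFac: the number of factorisations

`wfac`: `w ≠ 0`: the tuples `h ∈ V_n^(t+1)` with product `w`: the first `t` entries are units times
monic divisors of `w` (`card_div`, `natDegree w ≤ D`), the last one is determined:
`≤ (q 2^D)^t`.  `wfac0`: product `0`: some entry is `0`: `≤ (t+1) q^(n t)`.
-/

open Polynomial

namespace H28WF

theorem wfac {F : Type*} [Field F] [Fintype F] (n t D : ℕ) {w : F[X]} (hw : w ≠ 0)
    (hD : w.natDegree ≤ D) (S : Finset (Fin (t + 1) → Fin n → F))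
    (hS : ∀ h ∈ S, ∏ i, low n (h i) = w) : S.card ≤ (Fintype.card F * 2 ^ D) ^ t := by
  classical
  have hdv : ∀ h ∈ S, ∀ i, low n (h i) ∣ w := fun h hh i => by
    rw [← hS h hh]
    exact Finset.dvd_prod_of_mem _ (Finset.mem_univ i)
  have hne : ∀ h ∈ S, ∀ i, low n (h i) ≠ 0 := fun h hh i h0 => by
    have := hdv h hh i
    rw [h0, zero_dvd_iff] at this
    exact hw this
  set M : Finset F[X] := (S ×ˢ (Finset.univ : Finset (Fin (t + 1)))).image
    (fun x => low n (x.1 x.2) * C (low n (x.1 x.2)).leadingCoeff⁻¹) with hM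
  have hMc : M.card ≤ 2 ^ D := by
    refine (card_div hw M ?_).trans (Nat.pow_le_pow_right (by norm_num) hD)
    intro G hG
    rw [hM, Finset.mem_image] at hG
    obtain ⟨⟨h, i⟩, hx, rfl⟩ := hG
    rw [Finset.mem_product] at hx
    refine ⟨monic_mul_leadingCoeff_inv (hne h hx.1 i), ?_⟩
    obtain ⟨g, hg⟩ := hdv h hx.1 i
    refine ⟨C (low n (h i)).leadingCoeff * g, ?_⟩
    have h1 : (C (low n (h i)).leadingCoeff⁻¹ : F[X]) * C (low n (h i)).leadingCoeff = 1 := by
      rw [← C_mul, inv_mul_cancel₀ (leadingCoeff_ne_zero.2 (hne h hx.1 i)), C_1]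
    calc w = low n (h i) * g := hg
      _ = low n (h i) * (C (low n (h i)).leadingCoeff⁻¹ * C (low n (h i)).leadingCoeff) * g := by
        rw [h1, mul_one]
      _ = _ := by ring
  let Φ : (Fin (t + 1) → Fin n → F) → Fin t → F × F[X] := fun h i =>
    ((low n (h i.castSucc)).leadingCoeff,
      low n (h i.castSucc) * C (low n (h i.castSucc)).leadingCoeff⁻¹)
  have hcard : S.card ≤ (Fintype.piFinset fun _ : Fin t =>
      (Finset.univ : Finset F) ×ˢ M).card := by
    refine Finset.card_le_card_of_injOn Φ ?_ ?_
    · intro h hh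
      rw [Finset.mem_coe] at hh ⊢
      rw [Fintype.mem_piFinset]
      intro i
      rw [Finset.mem_product]
      refine ⟨Finset.mem_univ _, ?_⟩
      rw [hM, Finset.mem_image]
      exact ⟨(h, i.castSucc), Finset.mem_product.2 ⟨hh, Finset.mem_univ _⟩, rfl⟩
    · intro h hh h' hh' he
      rw [Finset.mem_coe] at hh hh'
      have h1 : ∀ i : Fin t, low n (h i.castSucc) = low n (h' i.castSucc) := by
        intro i
        have h2 := congrFun he i
        have h3 := congrArg Prod.fst h2
        have h4 := congrArg Prod.snd h2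
        simp only [Φ] at h3 h4
        rw [← h3] at h4
        have hu : (C (low n (h i.castSucc)).leadingCoeff⁻¹ : F[X]) ≠ 0 :=
          C_ne_zero.2 (inv_ne_zero (leadingCoeff_ne_zero.2 (hne h hh _)))
        exact mul_right_cancel₀ hu h4
      have h5 : low n (h (Fin.last t)) = low n (h' (Fin.last t)) := by
        have e1 := hS h hh
        have e2 := hS h' hh'
        rw [Fin.prod_univ_castSucc] at e1 e2
        rw [← e2, Finset.prod_congr rfl fun i _ => h1 i] at e1
        refine mul_left_cancel₀ ?_ e1
        exact Finset.prod_ne_zero_iff.2 fun i _ => hne h' hh' _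
      funext i
      refine low_injective n ?_
      induction i using Fin.lastCases with
      | last => exact h5
      | cast i => exact h1 i
  refine hcard.trans ?_
  rw [Fintype.card_piFinset]
  simp only [Finset.prod_const, Finset.card_product, Finset.card_univ, Fintype.card_fin]
  exact Nat.pow_le_pow_left (Nat.mul_le_mul_left _ hMc) _

theorem wfac0 {F : Type*} [Field F] [Fintype F] (n t : ℕ) (S : Finset (Fin (t + 1) → Fin n → F))
    (hS : ∀ h ∈ S, ∏ i, low n (h i) = 0) : S.card ≤ (t + 1) * Fintype.card F ^ (n * t) := by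
  classical
  have hsub : S ⊆ (Finset.univ : Finset (Fin (t + 1))).biUnion
      (fun i => S.filter fun h => h i = 0) := by
    intro h hh
    have h0 := hS h hh
    rw [Finset.prod_eq_zero_iff] at h0
    obtain ⟨i, -, hi⟩ := h0
    rw [Finset.mem_biUnion]
    refine ⟨i, Finset.mem_univ _, Finset.mem_filter.2 ⟨hh, ?_⟩⟩
    refine low_injective n ?_
    rw [hi, low_zero]
  refine (Finset.card_le_card hsub).trans (Finset.card_biUnion_le.trans ?_)
  have hi : ∀ i : Fin (t + 1), (S.filter fun h => h i = 0).card ≤ Fintype.card F ^ (n * t) := by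
    intro i
    have h1 : (S.filter fun h => h i = 0).card ≤
        (Finset.univ : Finset (Fin t → Fin n → F)).card := by
      refine Finset.card_le_card_of_injOn (fun h j => h (i.succAbove j)) (fun _ _ => by simp) ?_
      intro h hh h' hh' he
      rw [Finset.mem_coe, Finset.mem_filter] at hh hh'
      funext j
      rcases Fin.eq_self_or_eq_succAbove i j with rfl | ⟨l, rfl⟩
      · rw [hh.2, hh'.2]
      · exact congrFun he l
    refine h1.trans (le_of_eq ?_)
    rw [Finset.card_univ, Fintype.card_fun, Fintype.card_fun, Fintype.card_fin, Fintype.card_fin,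
      ← pow_mul]
  refine (Finset.sum_le_sum fun i _ => hi i).trans (le_of_eq ?_)
  simp

end H28WF
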