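import Pool.Agent.H28.WF.WeylW
import Pool.Agent.H28.WF.WDim
import Pool.Agent.H28.WF.WFac

/-!
# [WF] WSup: the minor arc bound (5)

`wcnt`: the products `w = ∏ low n (h i)` lie in the set of `WDim` (`deg ≤ (k-1)(n-1)`), so there are
at most `q^((k-2)n)` of them, each nonzero one from at most `(q 2^((k-1) n))^(k-2)` tuples (`wfac`,
`t = k-2`), zero from at most `(k-1) q^((k-2)n)` tuples.
`minor_sup`: `weylW` with `s = k-1`, `Q = (Y + X^n)^k` over `F[X]`, `lam = pr (k n) a`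
(`mon n c = X^n + low n c`), `k! ≠ 0` in `F`; then cancel `q^(n(k-1))`:
`‖T‖^(2^(k-1)) q^(n(k-1)) ≤ q^(n 2^(k-1)) k 2^(k² n) q^((k-2)(n+1))`.
-/

open Polynomial

namespace H28WF

theorem wcnt {F : Type*} [Field F] [Fintype F] {k n : ℕ} (hk : 2 ≤ k) (hn : 1 ≤ n)
    (a : Fin (k * n) → F) (hmin : ¬ Fdeg (k * n) a n) (S : Finset (Fin (k - 1) → Fin n → F))
    (hS : ∀ h ∈ S, ∀ v : Fin n → F, pr (k * n) a ((∏ i, low n (h i)) * low n v) = 0) :
    S.card ≤ k * 2 ^ (k ^ 2 * n) * Fintype.card F ^ ((k - 2) * (n + 1)) := by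
  classical
  obtain ⟨t, rfl⟩ : ∃ t, k = t + 2 := ⟨k - 2, by omega⟩
  let S' : Finset (Fin (t + 1) → Fin n → F) := S
  have hS' : ∀ h ∈ S', ∀ v : Fin n → F, pr ((t + 2) * n) a ((∏ i, low n (h i)) * low n v) = 0 := hS
  have hcS : S.card = S'.card := rfl
  rw [hcS, show t + 2 - 2 = t from rfl]
  obtain ⟨q, hq⟩ : ∃ q, q = Fintype.card F := ⟨_, rfl⟩
  have hq1 : 1 ≤ q := by
    rw [hq]
    exact Fintype.card_pos
  let w : (Fin (t + 1) → Fin n → F) → F[X] := fun h => ∏ i, low n (h i)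
  have hdeg : ∀ h, (w h).natDegree ≤ (t + 1) * (n - 1) := by
    intro h
    refine (natDegree_prod_le _ _).trans ?_
    refine (Finset.sum_le_card_nsmul _ _ (n - 1) fun i _ => ?_).trans ?_
    · have h1 := low_degree_lt n (h i)
      by_cases h0 : low n (h i) = 0
      · simp [h0]
      · have h2 := (natDegree_lt_iff_degree_lt h0).2 h1
        omega
    · simp
  have hW : (S'.image w).card ≤ q ^ (t * n) := by
    have := wdim (k := t + 2) (n := n) hk hn a hmin (S'.image w) (by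
      intro x hx
      obtain ⟨h, hh, rfl⟩ := Finset.mem_image.1 hx
      refine ⟨?_, hS' h hh⟩
      refine (degree_le_natDegree).trans_lt ?_
      have h1 := hdeg h
      have h2 : (w h).natDegree < (t + 2 - 1) * (n - 1) + 1 := by
        rw [show t + 2 - 1 = t + 1 from rfl]
        omega
      exact_mod_cast h2)
    rw [hq]
    exact this
  have hfib : S'.card = ∑ x ∈ S'.image w, (S'.filter (fun h => w h = x)).card :=
    Finset.card_eq_sum_card_image w S'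
  have hnz : ∀ x ∈ (S'.image w).erase 0, (S'.filter (fun h => w h = x)).card ≤
      (q * 2 ^ ((t + 1) * (n - 1))) ^ t := by
    intro x hx
    obtain ⟨hx0, hx1⟩ := Finset.mem_erase.1 hx
    obtain ⟨h, -, rfl⟩ := Finset.mem_image.1 hx1
    rw [hq]
    exact wfac n t _ hx0 (hdeg h) _ (fun h' hh' => (Finset.mem_filter.1 hh').2)
  have hz : (S'.filter (fun h => w h = 0)).card ≤ (t + 1) * q ^ (n * t) := by
    rw [hq]
    exact wfac0 n t _ (fun h' hh' => (Finset.mem_filter.1 hh').2)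
  have h1 : S'.card ≤ (t + 1) * q ^ (n * t) + q ^ (t * n) * (q * 2 ^ ((t + 1) * (n - 1))) ^ t := by
    rw [hfib]
    have h2 : ∑ x ∈ (S'.image w).erase 0, (S'.filter (fun h => w h = x)).card ≤
        q ^ (t * n) * (q * 2 ^ ((t + 1) * (n - 1))) ^ t := by
      refine (Finset.sum_le_card_nsmul _ _ _ hnz).trans ?_
      rw [smul_eq_mul]
      exact Nat.mul_le_mul_right _ ((Finset.card_le_card (Finset.erase_subset _ _)).trans hW)
    by_cases h0 : (0 : F[X]) ∈ S'.image w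
    · rw [← Finset.add_sum_erase _ _ h0]
      exact Nat.add_le_add hz h2
    · rw [Finset.erase_eq_of_notMem h0] at h2
      exact h2.trans (Nat.le_add_left _ _)
  refine h1.trans ?_
  have h3 : q ^ (n * t) ≤ q ^ (t * (n + 1)) := Nat.pow_le_pow_right hq1 (by nlinarith)
  have h4 : q ^ (t * n) * (q * 2 ^ ((t + 1) * (n - 1))) ^ t =
      2 ^ ((t + 1) * (n - 1) * t) * q ^ (t * (n + 1)) := by
    rw [mul_pow, ← pow_mul 2, show t * (n + 1) = t * n + t from by ring, pow_add q]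
    ring
  have h5 : 2 ^ ((t + 1) * (n - 1) * t) ≤ 2 ^ ((t + 2) ^ 2 * n) := by
    refine Nat.pow_le_pow_right (by norm_num) ?_
    have h6 : n - 1 ≤ n := Nat.sub_le _ _
    calc (t + 1) * (n - 1) * t ≤ (t + 1) * n * t := Nat.mul_le_mul_right _ (Nat.mul_le_mul_left _ h6)
      _ ≤ (t + 2) ^ 2 * n := by nlinarith
  have h7 : 1 ≤ 2 ^ ((t + 2) ^ 2 * n) := Nat.one_le_two_pow
  rw [h4]
  rw [← hq]
  calc (t + 1) * q ^ (n * t) + 2 ^ ((t + 1) * (n - 1) * t) * q ^ (t * (n + 1))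
      ≤ (t + 1) * (2 ^ ((t + 2) ^ 2 * n) * q ^ (t * (n + 1))) +
        2 ^ ((t + 2) ^ 2 * n) * q ^ (t * (n + 1)) := by
        refine Nat.add_le_add (Nat.mul_le_mul_left _ ?_) (Nat.mul_le_mul_right _ h5)
        exact h3.trans (Nat.le_mul_of_pos_left _ h7)
    _ = (t + 2) * 2 ^ ((t + 2) ^ 2 * n) * q ^ (t * (n + 1)) := by ring

theorem minor_sup {F : Type*} [Field F] [Fintype F] (ψ : AddChar F ℂ) (hψ : ψ ≠ 1) {k n : ℕ}
    (hk : 2 ≤ k) (hn : 1 ≤ n) (hf : ((k.factorial : ℕ) : F) ≠ 0) (a : Fin (k * n) → F)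
    (hmin : ¬ Fdeg (k * n) a n) :
    ‖T ψ k n a‖ ^ (2 ^ (k - 1)) * (Fintype.card F : ℝ) ^ n ≤
      k * 2 ^ (k ^ 2 * n) * (Fintype.card F : ℝ) ^ (k - 2) *
        (Fintype.card F : ℝ) ^ (n * 2 ^ (k - 1)) := by
  classical
  obtain ⟨Q, hQdef⟩ : ∃ Q : Polynomial F[X], Q = ((X : Polynomial F[X]) + C ((X : F[X]) ^ n)) ^ k :=
    ⟨_, rfl⟩
  have hmonic : (((X : Polynomial F[X]) + C ((X : F[X]) ^ n))).Monic := monic_X_add_C _
  have hnd : Q.natDegree = k := by
    rw [hQdef, hmonic.natDegree_pow, natDegree_X_add_C, mul_one]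
  have hk1 : k - 1 + 1 = k := by omega
  have hcoeff : Q.coeff k = 1 := by
    have h1 : Q.Monic := by
      rw [hQdef]
      exact hmonic.pow k
    have h2 := h1.coeff_natDegree
    rwa [hnd] at h2
  have hev : ∀ c : Fin n → F, Q.eval (low n c) = mon n c ^ k := by
    intro c
    rw [hQdef, eval_pow, eval_add, eval_X, eval_C, mon, add_comm]
  have hw := weylW ψ hψ n (pr (k * n) a) (k - 1) Q (by rw [hnd]; omega)
  have hT : (∑ c : Fin n → F, ψ (pr (k * n) a (Q.eval (low n c)))) = T ψ k n a := by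
    unfold T
    exact Finset.sum_congr rfl fun c _ => by rw [hev]
  rw [hT, hk1, hcoeff, mul_one] at hw
  have hlam : ∀ f : F[X], pr (k * n) a ((k.factorial : F[X]) * f) =
      ((k.factorial : ℕ) : F) * pr (k * n) a f := by
    intro f
    have h1 : ((k.factorial : ℕ) : F[X]) * f = ((k.factorial : ℕ) : F) • f := by
      rw [smul_eq_C_mul, map_natCast]
    rw [h1, map_smul, smul_eq_mul]
  have hcard : (((Finset.univ : Finset (Fin (k - 1) → Fin n → F)).filter (fun h => ∀ v : Fin n → F,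
          pr (k * n) a (((k.factorial : ℕ) : F[X]) * (∏ i, low n (h i)) * low n v) = 0)).card) ≤
      k * 2 ^ (k ^ 2 * n) * Fintype.card F ^ ((k - 2) * (n + 1)) := by
    refine wcnt hk hn a hmin _ ?_
    intro h hh v
    have h1 := (Finset.mem_filter.1 hh).2 v
    rw [mul_assoc, hlam] at h1
    exact (mul_eq_zero.1 h1).resolve_left hf
  have hcard' : (((((Finset.univ : Finset (Fin (k - 1) → Fin n → F)).filter (fun h => ∀ v : Fin n → F,
          pr (k * n) a (((k.factorial : ℕ) : F[X]) * (∏ i, low n (h i)) * low n v) = 0)).card : ℕ)) : ℝ) ≤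
      k * 2 ^ (k ^ 2 * n) * (Fintype.card F : ℝ) ^ ((k - 2) * (n + 1)) := by
    exact_mod_cast hcard
  have hq : (0 : ℝ) < (Fintype.card F : ℝ) := by exact_mod_cast Fintype.card_pos
  obtain ⟨q, hqd⟩ : ∃ q : ℝ, q = (Fintype.card F : ℝ) := ⟨_, rfl⟩
  rw [← hqd] at hw hcard' hq ⊢
  have h2 : ‖T ψ k n a‖ ^ (2 ^ (k - 1)) * (q ^ n) ^ (k - 1) ≤
      (q ^ n) ^ (2 ^ (k - 1)) * (k * 2 ^ (k ^ 2 * n) * q ^ ((k - 2) * (n + 1))) :=
    hw.trans (mul_le_mul_of_nonneg_left hcard' (by positivity))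
  have h3 : (q ^ n) ^ (k - 1) = q ^ n * q ^ (n * (k - 2)) := by
    rw [← pow_mul, ← pow_add]
    congr 1
    obtain ⟨t, rfl⟩ : ∃ t, k = t + 2 := ⟨k - 2, by omega⟩
    rw [show t + 2 - 1 = t + 1 from rfl, show t + 2 - 2 = t from rfl]
    ring
  have h4 : q ^ ((k - 2) * (n + 1)) = q ^ (k - 2) * q ^ (n * (k - 2)) := by
    rw [← pow_add]
    congr 1
    ring
  rw [h3, h4, ← pow_mul] at h2
  have h5 : (0 : ℝ) < q ^ (n * (k - 2)) := by positivity
  refine le_of_mul_le_mul_right ?_ h5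
  calc ‖T ψ k n a‖ ^ (2 ^ (k - 1)) * q ^ n * q ^ (n * (k - 2))
      = ‖T ψ k n a‖ ^ (2 ^ (k - 1)) * (q ^ n * q ^ (n * (k - 2))) := by ring
    _ ≤ q ^ (n * 2 ^ (k - 1)) * (k * 2 ^ (k ^ 2 * n) * (q ^ (k - 2) * q ^ (n * (k - 2)))) := h2
    _ = k * 2 ^ (k ^ 2 * n) * q ^ (k - 2) * q ^ (n * 2 ^ (k - 1)) * q ^ (n * (k - 2)) := by ring

end H28WF
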