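import Pool.Agent.H28.WF.Rec
import Pool.Agent.H28.WF.Mom
import Pool.Agent.H28.WF.MajS
import Pool.Agent.H28.WF.WSup
import Pool.Agent.H28.WF.Small

/-!
# [WF] Circ: the circle method, assembly

`B` from `mean_value`; `moment`: `∑_a ‖T a‖^(2k) ≤ (n+1)^(2k) B^n q^(2kn) ≤ A^n q^(2kn)`,
`A = 4^k B`.  `n = 0`: the only `a` is `0`, the sum is empty.
`1 ≤ n < 2k`: `small` gives `‖T a‖ ≤ θ q^n` for all `a ≠ 0` as soon as
`(q-1) θ^(2k) ≥ 2 k^2 A^(2k)`; sum `≤ θ A^(2k) q^((2k+1)n)`, `θ = δ / A^(2k)`.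
`n ≥ 2k`: `a` with `Fdeg (k n) a n`: `majS` (with `δ/2`); the others: `minor_sup`,
`q^(k-2) ≤ q^(n/2)` (`q^(2(k-2)) ≤ q^n`), so `‖T a‖ ≤ θ^n q^n` as soon as
`θ^(2^(k-1)) q^(1/2) ≥ k 2^(k²)` [`(‖T‖/q^n)^(2 w) ≤ k^2 2^(2 k² n) q^(-n)`, `w = 2^(k-1)`]; sum
`≤ (θ A)^n q^((2k+1)n) ≤ (δ/2) q^((2k+1)n)` for `θ A ≤ min(δ/2, 1)`.
-/

open Polynomial

namespace H28WF

private lemma circ_fact {F : Type*} [Field F] (k : ℕ)
    (h : ∀ e : ℕ, 1 ≤ e → e ≤ k → (e : F) ≠ 0) : ((k.factorial : ℕ) : F) ≠ 0 := by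
  induction k with
  | zero => simp
  | succ k ih =>
    rw [Nat.factorial_succ, Nat.cast_mul]
    exact mul_ne_zero (h (k + 1) (by omega) le_rfl) (ih fun e h1 h2 => h e h1 (by omega))

private lemma circ_A (k B n : ℕ) :
    ((n : ℝ) + 1) ^ (2 * k) * (B : ℝ) ^ n ≤ (4 ^ k * (B : ℝ)) ^ n := by
  have h1 : ((n : ℝ) + 1) ≤ 2 ^ n := by
    have := Nat.lt_two_pow_self (n := n)
    exact_mod_cast this
  have h2 : ((n : ℝ) + 1) ^ (2 * k) ≤ (2 ^ n) ^ (2 * k) :=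
    pow_le_pow_left₀ (by positivity) h1 _
  have h3 : ((2 : ℝ) ^ n) ^ (2 * k) = (4 ^ k) ^ n := by
    rw [← pow_mul, ← pow_mul, show (4 : ℝ) = 2 ^ 2 by norm_num, ← pow_mul]
    congr 1
    ring
  rw [mul_pow, ← h3]
  exact mul_le_mul_of_nonneg_right h2 (by positivity)

open Classical in
theorem circ (k : ℕ) (hk : 3 ≤ k) (δ : ℝ) (hδ : 0 < δ) : ∃ q₀ : ℕ, ∀ (F : Type) [Field F]
    [Fintype F], q₀ ≤ Fintype.card F → (∀ e : ℕ, 1 ≤ e → e ≤ k → (e : F) ≠ 0) →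
    ∀ ψ : AddChar F ℂ, ψ ≠ 1 → ∀ n : ℕ,
    ∑ a ∈ (Finset.univ : Finset (Fin (k * n) → F)).filter (fun a => a ≠ 0),
      ‖T ψ k n a‖ ^ (2 * k + 1) ≤ δ * (Fintype.card F : ℝ) ^ ((2 * k + 1) * n) := by
  obtain ⟨B, hB, hBM⟩ := mean_value k (by omega)
  have hB1 : (1 : ℝ) ≤ B := by exact_mod_cast hB
  obtain ⟨A, hA⟩ : ∃ A : ℝ, A = 4 ^ k * (B : ℝ) := ⟨_, rfl⟩
  have hA1 : 1 ≤ A := by
    have h4 : (1 : ℝ) ≤ 4 ^ k := one_le_pow₀ (by norm_num)
    rw [hA]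
    nlinarith
  have hA0 : 0 < A := by linarith
  obtain ⟨q₁, hq₁⟩ := majS k hk (δ / 2) (by positivity)
  obtain ⟨θ₁, hθ₁⟩ : ∃ θ₁ : ℝ, θ₁ = δ / A ^ (2 * k) := ⟨_, rfl⟩
  have hθ₁0 : 0 < θ₁ := by rw [hθ₁]; positivity
  obtain ⟨θ, hθ⟩ : ∃ θ : ℝ, θ = min (δ / 2) 1 / A := ⟨_, rfl⟩
  have hθ0 : 0 < θ := by
    rw [hθ]
    have : 0 < min (δ / 2) 1 := lt_min (by positivity) one_pos
    positivity
  obtain ⟨q₂, hq₂⟩ := exists_nat_ge (2 * (k : ℝ) ^ 2 * A ^ (2 * k) / θ₁ ^ (2 * k) + 1)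
  obtain ⟨q₃, hq₃⟩ := exists_nat_ge ((k : ℝ) ^ 2 * 4 ^ (k ^ 2) / θ ^ (2 * 2 ^ (k - 1)))
  refine ⟨max q₁ (max q₂ q₃), ?_⟩
  intro F _ _ hq hchar ψ hψ n
  have hM := moment ψ hψ (k := k) (B := B) (by omega) hB (fun m => hBM F hchar m) n
  have hc1 : q₁ ≤ Fintype.card F := (le_max_left _ _).trans hq
  have hc2 : q₂ ≤ Fintype.card F := ((le_max_left _ _).trans (le_max_right _ _)).trans hq
  have hc3 : q₃ ≤ Fintype.card F := ((le_max_right _ _).trans (le_max_right _ _)).trans hq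
  have hmaj := hq₁ F hc1 (hchar k (by omega) le_rfl) ψ hψ n
  have hsm := fun a => small ψ k n (2 * k) a
  have hmi := fun (hn : 1 ≤ n) a ha => minor_sup ψ hψ (k := k) (n := n) (by omega) hn
    (circ_fact k hchar) a ha
  have hcast2 : (q₂ : ℝ) ≤ (Fintype.card F : ℝ) := by exact_mod_cast hc2
  have hcast3 : (q₃ : ℝ) ≤ (Fintype.card F : ℝ) := by exact_mod_cast hc3
  have hcard1 : (1 : ℝ) ≤ (Fintype.card F : ℝ) := by
    exact_mod_cast Fintype.card_pos (α := F)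
  generalize (Fintype.card F : ℝ) = q at *
  have hq0 : 0 < q := by linarith
  have hmom : ∑ a : Fin (k * n) → F, ‖T ψ k n a‖ ^ (2 * k) ≤ A ^ n * q ^ (2 * k * n) := by
    refine hM.trans ?_
    rw [hA]
    exact mul_le_mul_of_nonneg_right (circ_A k B n) (by positivity)
  have key : ∀ (S : Finset (Fin (k * n) → F)) (t : ℝ), 0 ≤ t →
      (∀ a ∈ S, ‖T ψ k n a‖ ≤ t * q ^ n) →
      ∑ a ∈ S, ‖T ψ k n a‖ ^ (2 * k + 1) ≤ t * A ^ n * q ^ ((2 * k + 1) * n) := by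
    intro S t h0 h
    calc ∑ a ∈ S, ‖T ψ k n a‖ ^ (2 * k + 1)
        ≤ ∑ a ∈ S, (t * q ^ n) * ‖T ψ k n a‖ ^ (2 * k) := by
          refine Finset.sum_le_sum fun a ha => ?_
          rw [pow_succ, mul_comm]
          exact mul_le_mul_of_nonneg_right (h a ha) (by positivity)
      _ ≤ ∑ a : Fin (k * n) → F, (t * q ^ n) * ‖T ψ k n a‖ ^ (2 * k) :=
          Finset.sum_le_sum_of_subset_of_nonneg (Finset.subset_univ _)
            (fun _ _ _ => by positivity)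
      _ = (t * q ^ n) * ∑ a : Fin (k * n) → F, ‖T ψ k n a‖ ^ (2 * k) := by
          rw [Finset.mul_sum]
      _ ≤ (t * q ^ n) * (A ^ n * q ^ (2 * k * n)) :=
          mul_le_mul_of_nonneg_left hmom (by positivity)
      _ = t * A ^ n * q ^ ((2 * k + 1) * n) := by ring
  rcases Nat.eq_zero_or_pos n with hn0 | hn1
  · subst hn0
    rw [Finset.sum_eq_zero]
    · positivity
    · intro a ha
      rw [Finset.mem_filter] at ha
      refine absurd ?_ ha.2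
      funext i
      exact absurd i.2 (by simp)
  rcases lt_or_ge n (2 * k) with hn2 | hn2
  · -- small degrees
    have hbd : ∀ a : Fin (k * n) → F, a ≠ 0 → ‖T ψ k n a‖ ≤ θ₁ * q ^ n := by
      intro a ha
      have h1 := hsm a ha
      have h2 : (k : ℝ) * n * ∑ b : Fin (k * n) → F, ‖T ψ k n b‖ ^ (2 * k) ≤
          (2 * (k : ℝ) ^ 2 * A ^ (2 * k)) * q ^ (2 * k * n) := by
        have hn' : (n : ℝ) ≤ 2 * k := by exact_mod_cast hn2.le
        have hAn : A ^ n ≤ A ^ (2 * k) := pow_le_pow_right₀ hA1 hn2.le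
        calc (k : ℝ) * n * ∑ b : Fin (k * n) → F, ‖T ψ k n b‖ ^ (2 * k)
            ≤ (k : ℝ) * (2 * k) * (A ^ (2 * k) * q ^ (2 * k * n)) := by
              refine mul_le_mul ?_ (hmom.trans ?_) ?_ ?_
              · exact mul_le_mul_of_nonneg_left hn' (by positivity)
              · exact mul_le_mul_of_nonneg_right hAn (by positivity)
              · exact Finset.sum_nonneg fun _ _ => by positivity
              · positivity
          _ = (2 * (k : ℝ) ^ 2 * A ^ (2 * k)) * q ^ (2 * k * n) := by ring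
      have h3 : 2 * (k : ℝ) ^ 2 * A ^ (2 * k) ≤ (q - 1) * θ₁ ^ (2 * k) := by
        have h4 : 2 * (k : ℝ) ^ 2 * A ^ (2 * k) / θ₁ ^ (2 * k) ≤ q - 1 := by linarith
        rwa [div_le_iff₀ (by positivity)] at h4
      have hq1 : 0 < q - 1 := by
        by_contra hcon
        have hk0 : (0 : ℝ) < k := by exact_mod_cast (by omega : 0 < k)
        have h5 : (q - 1) * θ₁ ^ (2 * k) ≤ 0 :=
          mul_nonpos_of_nonpos_of_nonneg (not_lt.1 hcon) (by positivity)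
        have h6 : 0 < 2 * (k : ℝ) ^ 2 * A ^ (2 * k) := by positivity
        linarith
      have h5 : (q - 1) * ‖T ψ k n a‖ ^ (2 * k) ≤ (q - 1) * (θ₁ * q ^ n) ^ (2 * k) := by
        calc (q - 1) * ‖T ψ k n a‖ ^ (2 * k)
            ≤ (2 * (k : ℝ) ^ 2 * A ^ (2 * k)) * q ^ (2 * k * n) := h1.trans h2
          _ ≤ ((q - 1) * θ₁ ^ (2 * k)) * q ^ (2 * k * n) :=
              mul_le_mul_of_nonneg_right h3 (by positivity)
          _ = (q - 1) * (θ₁ * q ^ n) ^ (2 * k) := by ring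
      have h6 := le_of_mul_le_mul_left h5 hq1
      exact (pow_le_pow_iff_left₀ (norm_nonneg _) (by positivity) (by omega)).1 h6
    refine (key _ θ₁ hθ₁0.le fun a ha => hbd a (Finset.mem_filter.1 ha).2).trans ?_
    refine mul_le_mul_of_nonneg_right ?_ (by positivity)
    calc θ₁ * A ^ n ≤ θ₁ * A ^ (2 * k) :=
          mul_le_mul_of_nonneg_left (pow_le_pow_right₀ hA1 hn2.le) hθ₁0.le
      _ = δ := by
          rw [hθ₁]
          field_simp
  · -- large degrees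
    have hbd : ∀ a : Fin (k * n) → F, ¬ Fdeg (k * n) a n → ‖T ψ k n a‖ ≤ θ ^ n * q ^ n := by
      intro a ha
      have h1 := hmi hn1 a ha
      have h3 : (k : ℝ) ^ 2 * 4 ^ (k ^ 2) ≤ q * θ ^ (2 * 2 ^ (k - 1)) := by
        have h4 : (k : ℝ) ^ 2 * 4 ^ (k ^ 2) / θ ^ (2 * 2 ^ (k - 1)) ≤ q := by linarith
        rwa [div_le_iff₀ (by positivity)] at h4
      have hk1 : (1 : ℝ) ≤ k := by exact_mod_cast (by omega : 1 ≤ k)
      have hsq : ((k : ℝ) * 2 ^ (k ^ 2 * n) * q ^ (k - 2)) ^ 2 ≤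
          (θ ^ (n * 2 ^ (k - 1)) * q ^ n) ^ 2 := by
        have e1 : ((2 : ℝ) ^ (k ^ 2 * n)) ^ 2 = (4 ^ (k ^ 2)) ^ n := by
          rw [← pow_mul, ← pow_mul, show (4 : ℝ) = 2 ^ 2 by norm_num, ← pow_mul]
          congr 1
          ring
        have e2 : (q ^ (k - 2)) ^ 2 ≤ q ^ n := by
          rw [← pow_mul]
          exact pow_le_pow_right₀ hcard1 (by omega)
        have e3 : (k : ℝ) ^ 2 ≤ ((k : ℝ) ^ 2) ^ n := by
          have : (1 : ℝ) ≤ (k : ℝ) ^ 2 := one_le_pow₀ hk1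
          calc (k : ℝ) ^ 2 = ((k : ℝ) ^ 2) ^ 1 := (pow_one _).symm
            _ ≤ ((k : ℝ) ^ 2) ^ n := pow_le_pow_right₀ this hn1
        calc ((k : ℝ) * 2 ^ (k ^ 2 * n) * q ^ (k - 2)) ^ 2
            = (k : ℝ) ^ 2 * (4 ^ (k ^ 2)) ^ n * (q ^ (k - 2)) ^ 2 := by
              rw [mul_pow, mul_pow, e1]
          _ ≤ ((k : ℝ) ^ 2) ^ n * (4 ^ (k ^ 2)) ^ n * q ^ n := by
              gcongr
          _ = ((k : ℝ) ^ 2 * 4 ^ (k ^ 2)) ^ n * q ^ n := by rw [mul_pow]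
          _ ≤ (q * θ ^ (2 * 2 ^ (k - 1))) ^ n * q ^ n := by
              gcongr
          _ = (θ ^ (n * 2 ^ (k - 1)) * q ^ n) ^ 2 := by
              rw [mul_pow, mul_pow, ← pow_mul, ← pow_mul, ← pow_mul]
              ring
      have h5 : (k : ℝ) * 2 ^ (k ^ 2 * n) * q ^ (k - 2) ≤ θ ^ (n * 2 ^ (k - 1)) * q ^ n :=
        (pow_le_pow_iff_left₀ (by positivity) (by positivity) two_ne_zero).1 hsq
      have h6 : ‖T ψ k n a‖ ^ (2 ^ (k - 1)) * q ^ n ≤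
          (θ ^ n * q ^ n) ^ (2 ^ (k - 1)) * q ^ n := by
        calc ‖T ψ k n a‖ ^ (2 ^ (k - 1)) * q ^ n
            ≤ (k : ℝ) * 2 ^ (k ^ 2 * n) * q ^ (k - 2) * q ^ (n * 2 ^ (k - 1)) := h1
          _ ≤ (θ ^ (n * 2 ^ (k - 1)) * q ^ n) * q ^ (n * 2 ^ (k - 1)) :=
              mul_le_mul_of_nonneg_right h5 (by positivity)
          _ = (θ ^ n * q ^ n) ^ (2 ^ (k - 1)) * q ^ n := by
              rw [mul_pow, ← pow_mul, ← pow_mul]
              ring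
      have h7 := le_of_mul_le_mul_right h6 (by positivity)
      exact (pow_le_pow_iff_left₀ (norm_nonneg _) (by positivity) (by positivity)).1 h7
    rw [← Finset.sum_filter_add_sum_filter_not
      ((Finset.univ : Finset (Fin (k * n) → F)).filter (fun a => a ≠ 0))
      (fun a => Fdeg (k * n) a n)]
    have p1 : ∑ a ∈ ((Finset.univ : Finset (Fin (k * n) → F)).filter (fun a => a ≠ 0)).filter
        (fun a => Fdeg (k * n) a n), ‖T ψ k n a‖ ^ (2 * k + 1) ≤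
        δ / 2 * q ^ ((2 * k + 1) * n) := by
      refine le_trans (le_of_eq (Finset.sum_congr ?_ fun _ _ => rfl)) hmaj
      ext a
      simp only [Finset.mem_filter, Finset.mem_univ, true_and]
    have p2 : ∑ a ∈ ((Finset.univ : Finset (Fin (k * n) → F)).filter (fun a => a ≠ 0)).filter
        (fun a => ¬ Fdeg (k * n) a n), ‖T ψ k n a‖ ^ (2 * k + 1) ≤
        δ / 2 * q ^ ((2 * k + 1) * n) := by
      refine (key _ (θ ^ n) (by positivity) fun a ha => hbd a (Finset.mem_filter.1 ha).2).trans ?_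
      refine mul_le_mul_of_nonneg_right ?_ (by positivity)
      have hmin : θ * A = min (δ / 2) 1 := by
        rw [hθ]
        field_simp
      have hm0 : 0 ≤ min (δ / 2) 1 := le_min (by positivity) zero_le_one
      rw [← mul_pow, hmin]
      calc (min (δ / 2) 1) ^ n ≤ (min (δ / 2) 1) ^ 1 :=
            pow_le_pow_of_le_one hm0 (min_le_right _ _) hn1
        _ = min (δ / 2) 1 := pow_one _
        _ ≤ δ / 2 := min_le_left _ _
    calc _ ≤ δ / 2 * q ^ ((2 * k + 1) * n) + δ / 2 * q ^ ((2 * k + 1) * n) := add_le_add p1 p2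
      _ = δ * q ^ ((2 * k + 1) * n) := by ring

end H28WF
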