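import Pool.Agent.H28.WF.Bas

/-!
# [WF] Per: sums of periodic functions over polynomials

`per`: `Φ` with period `u` (monic of degree `d ≤ D`): the polynomials of degree `< D` hit each class
mod `u` exactly `q^(D-d)` times (`low D c = u * (quotient) + (remainder)`).
`per_shift`: a complete sum may be shifted.
`per_crt`: `u = u₁ u₂` coprime: `y = u₂ y₁ + u₁ y₂` runs over a complete set of residues.
-/

open Polynomial

namespace H28WF

variable {F : Type*} [Field F] [Fintype F]

/-- a monic polynomial which divides a polynomial of smaller degree: it is zero -/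
private theorem zero_of_dvd {F : Type*} [Field F] {u f : F[X]} (hu : u.Monic) {d : ℕ}
    (hd : u.natDegree = d) (h : u ∣ f) (hf : f.degree < (d : WithBot ℕ)) : f = 0 := by
  refine Polynomial.eq_zero_of_dvd_of_degree_lt h ?_
  rw [Polynomial.degree_eq_natDegree hu.ne_zero, hd]
  exact hf

/-- change of variables: an injective family of polynomials of degree `< D`, of the right number -/
private theorem sum_low {D : ℕ} {ι : Type*} [Fintype ι] (g : ι → F[X])
    (hg : ∀ x, (g x).degree < (D : WithBot ℕ)) (hinj : Function.Injective g)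
    (hcard : Fintype.card ι = Fintype.card F ^ D) (Φ : F[X] → ℂ) :
    ∑ c : Fin D → F, Φ (low D c) = ∑ x, Φ (g x) := by
  symm
  refine Fintype.sum_bijective (fun x => fun i : Fin D => (g x).coeff i) ?_ _ _ ?_
  · rw [Fintype.bijective_iff_injective_and_card]
    refine ⟨?_, ?_⟩
    · intro x y hxy
      apply hinj
      rw [← low_of_coeff (hg x), ← low_of_coeff (hg y)]
      exact congrArg (low D) hxy
    · rw [hcard, Fintype.card_fun, Fintype.card_fin]
  · intro x
    rw [low_of_coeff (hg x)]

theorem per {u : F[X]} (hu : u.Monic) {D : ℕ} (hD : u.natDegree ≤ D) (Φ : F[X] → ℂ)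
    (hΦ : ∀ f g : F[X], Φ (f + u * g) = Φ f) :
    ∑ c : Fin D → F, Φ (low D c) =
      (Fintype.card F : ℂ) ^ (D - u.natDegree) * ∑ c : Fin u.natDegree → F, Φ (low _ c) := by
  obtain ⟨d, hd⟩ : ∃ d, d = u.natDegree := ⟨_, rfl⟩
  rw [← hd] at hD ⊢
  have hdeg : u.degree = (d : WithBot ℕ) := by
    rw [Polynomial.degree_eq_natDegree hu.ne_zero, hd]
  rw [sum_low (fun x : (Fin (D - d) → F) × (Fin d → F) => low d x.2 + u * low (D - d) x.1)
    ?_ ?_ ?_ Φ]
  · rw [Fintype.sum_prod_type]
    simp only [hΦ]
    rw [Finset.sum_const, Finset.card_univ, Fintype.card_fun, Fintype.card_fin, nsmul_eq_mul]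
    push_cast
    rfl
  · intro x
    refine lt_of_le_of_lt (Polynomial.degree_add_le _ _) (max_lt ?_ ?_)
    · exact lt_of_lt_of_le (low_degree_lt _ _) (by exact_mod_cast hD)
    · by_cases h0 : low (D - d) x.1 = 0
      · rw [h0, mul_zero, Polynomial.degree_zero]
        exact WithBot.bot_lt_coe _
      · rw [Polynomial.degree_mul, hdeg, Polynomial.degree_eq_natDegree h0]
        have h1 := low_degree_lt (D - d) x.1
        rw [Polynomial.degree_eq_natDegree h0] at h1
        have h2 : (low (D - d) x.1).natDegree < D - d := by exact_mod_cast h1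
        have h3 : d + (low (D - d) x.1).natDegree < D := by omega
        exact_mod_cast h3
  · intro x y hxy
    have h1 : u * (low (D - d) x.1 - low (D - d) y.1) = low d y.2 - low d x.2 := by
      have h2 : low d x.2 + u * low (D - d) x.1 = low d y.2 + u * low (D - d) y.1 := hxy
      linear_combination h2
    have h3 : low d y.2 - low d x.2 = 0 := by
      refine zero_of_dvd hu hd.symm ⟨_, h1.symm⟩ ?_
      exact lt_of_le_of_lt (Polynomial.degree_sub_le _ _)
        (max_lt (low_degree_lt _ _) (low_degree_lt _ _))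
    rw [h3] at h1
    have h4 : low (D - d) x.1 = low (D - d) y.1 :=
      sub_eq_zero.1 ((mul_eq_zero.1 h1).resolve_left hu.ne_zero)
    exact Prod.ext (low_injective _ h4) (low_injective _ (sub_eq_zero.1 h3).symm)
  · rw [Fintype.card_prod, Fintype.card_fun, Fintype.card_fun, Fintype.card_fin, Fintype.card_fin,
      ← pow_add]
    congr 1
    omega

theorem per_shift {u : F[X]} (hu : u.Monic) (Φ : F[X] → ℂ)
    (hΦ : ∀ f g : F[X], Φ (f + u * g) = Φ f) (z : F[X]) :
    ∑ c : Fin u.natDegree → F, Φ (z + low _ c) = ∑ c : Fin u.natDegree → F, Φ (low _ c) := by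
  have hr : (z %ₘ u).degree < (u.natDegree : WithBot ℕ) := by
    rw [← Polynomial.degree_eq_natDegree hu.ne_zero]
    exact Polynomial.degree_modByMonic_lt z hu
  refine Fintype.sum_equiv (Equiv.addLeft (fun i : Fin u.natDegree => (z %ₘ u).coeff i)) _ _ ?_
  intro c
  show Φ (z + low _ c) = Φ (low _ ((fun i : Fin u.natDegree => (z %ₘ u).coeff i) + c))
  rw [low_add, low_of_coeff hr, ← hΦ (z %ₘ u + low _ c) (z /ₘ u)]
  congr 1
  have h1 := Polynomial.modByMonic_add_div z u
  linear_combination -h1

theorem per_crt {u₁ u₂ : F[X]} (h₁ : u₁.Monic) (h₂ : u₂.Monic) (hc : IsCoprime u₁ u₂)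
    (Φ : F[X] → ℂ) (hΦ : ∀ f g : F[X], Φ (f + u₁ * u₂ * g) = Φ f) :
    ∑ c : Fin (u₁ * u₂).natDegree → F, Φ (low _ c) =
      ∑ c₁ : Fin u₁.natDegree → F, ∑ c₂ : Fin u₂.natDegree → F,
        Φ (u₂ * low _ c₁ + u₁ * low _ c₂) := by
  have hdeg : (u₁ * u₂).natDegree = u₁.natDegree + u₂.natDegree := h₁.natDegree_mul h₂
  have key : ∀ {u v : F[X]}, u.Monic → v.Monic → ∀ c : Fin u.natDegree → F,
      (v * low _ c).degree < ((u.natDegree + v.natDegree : ℕ) : WithBot ℕ) := by
    intro u v hu hv c
    by_cases h0 : low u.natDegree c = 0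
    · rw [h0, mul_zero, Polynomial.degree_zero]
      exact WithBot.bot_lt_coe _
    · rw [Polynomial.degree_mul, Polynomial.degree_eq_natDegree hv.ne_zero,
        Polynomial.degree_eq_natDegree h0]
      have h1 := low_degree_lt u.natDegree c
      rw [Polynomial.degree_eq_natDegree h0] at h1
      have h2 : (low u.natDegree c).natDegree < u.natDegree := by exact_mod_cast h1
      have h3 : v.natDegree + (low u.natDegree c).natDegree < u.natDegree + v.natDegree := by omega
      exact_mod_cast h3
  rw [sum_low (fun x : (Fin u₁.natDegree → F) × (Fin u₂.natDegree → F) =>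
    u₂ * low _ x.1 + u₁ * low _ x.2) ?_ ?_ ?_ Φ]
  · rw [Fintype.sum_prod_type]
  · intro x
    rw [hdeg]
    refine lt_of_le_of_lt (Polynomial.degree_add_le _ _) (max_lt (key h₁ h₂ x.1) ?_)
    rw [add_comm u₁.natDegree]
    exact key h₂ h₁ x.2
  · intro x y hxy
    have h2 : u₂ * low _ x.1 + u₁ * low _ x.2 = u₂ * low _ y.1 + u₁ * low _ y.2 := hxy
    have h3 : u₂ * (low _ x.1 - low _ y.1) = u₁ * (low _ y.2 - low _ x.2) := by
      linear_combination h2
    have h4 : low _ x.1 - low _ y.1 = 0 := by
      refine zero_of_dvd h₁ rfl (hc.dvd_of_dvd_mul_left ⟨_, h3⟩) ?_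
      exact lt_of_le_of_lt (Polynomial.degree_sub_le _ _)
        (max_lt (low_degree_lt _ _) (low_degree_lt _ _))
    have h5 : low _ y.2 - low _ x.2 = 0 := by
      rw [h4, mul_zero] at h3
      exact (mul_eq_zero.1 h3.symm).resolve_left h₁.ne_zero
    exact Prod.ext (low_injective _ (sub_eq_zero.1 h4)) (low_injective _ (sub_eq_zero.1 h5).symm)
  · rw [Fintype.card_prod, Fintype.card_fun, Fintype.card_fun, Fintype.card_fin, Fintype.card_fin,
      ← pow_add, hdeg]

end H28WF
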