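import Pool.Agent.H28.WF.ComP
import Pool.Agent.H28.WF.Per

/-!
# [WF] Com: complete sums modulo `u`, primitive functional (4b)

`S(u, lam) = ∑_{y mod u} ψ(lam(y^k))`, `lam` kills the multiples of `u` and of no proper monic
divisor of `u`.  CLAIM `‖S‖^k ≤ q^((k-1) deg u)` if `q ≥ k^(2k)`, `k ≥ 3`, `(k : F) ≠ 0`.

PROOF by induction on `deg u`.  `u = 1`: `S = ψ(0) = 1`.  Otherwise let `π ∣ u` be a monic prime,
`u' = u / gcd(u, π^k)`, `lam'(f) = lam(π^k f)`: `lam'` kills the multiples of `u'` and is primitive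
for `u'` (if `v ∣ u'` and `lam'(v f) = 0` for all `f` then `lam` kills the ideal
`(π^k v, u) = gcd(u, π^k) v` [`v_π(u) ≥ k`: clear; otherwise `u'` is prime to `π`], so `v = u'`).
(i) `π^2 ∣ u`: replace `y` by `y + (u/π) f` (`per_shift`), `(y + (u/π) f)^k ≡ y^k +
k y^(k-1) (u/π) f mod u`; average over `f` of degree `< deg π`: only the `y` with
`lam(y^(k-1) (u/π) f) = 0` for all `f` survive; if `π ∤ y` then `y^(k-1)` is invertible mod `π` and
`lam` kills all multiples of `u/π`: contradiction.  So only `y = π w`, `w mod u/π`, and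
`S = ∑_{w mod u/π} ψ(lam'(w^k)) = q^(deg(u/π) - deg u') S(u', lam')` (`per`, `u' ∣ u/π`).
`‖S‖^k ≤ q^(k (deg u - deg π - deg u') + (k-1) deg u')` and
`deg u - deg u' ≤ k deg π`.  Exponent `= (k-1) deg u + (deg u - deg u' - k deg π)`. OK.
(ii) `π ∤ u/π`: `u = π u'`, `per_crt` and `(u' y₁ + π y₂)^k ≡ u'^k y₁^k + π^k y₂^k`:
`S = S(π, lam(u'^k ·)) S(u', lam')`, and `‖S(π, ·)‖^2 ≤ k^2 Q`, `Q = q^(deg π) ≥ k^(2k)` gives
`‖S(π)‖^(2k) ≤ k^(2k) Q^k ≤ Q^(k+1) ≤ Q^(2(k-1))`.
-/

open Polynomial

namespace H28WF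

section

variable {F : Type*} [Field F]

private theorem cm_per {k : ℕ} {u : F[X]} {lam : F[X] →ₗ[F] F} (h0 : ∀ f : F[X], lam (u * f) = 0) (f g : F[X]) :
    lam ((f + u * g) ^ k) = lam (f ^ k) := by
  obtain ⟨h, hh⟩ := sub_dvd_pow_sub_pow (f + u * g) f k
  have h1 : (f + u * g) ^ k = f ^ k + u * (g * h) := by
    linear_combination hh
  rw [h1, map_add, h0, add_zero]

private theorem cm_two {R : Type*} [CommRing R] (a b : R) (n : ℕ) :
    ∃ h, (a + b) ^ (n + 1) = a ^ (n + 1) + b ^ (n + 1) + a * b * h := by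
  induction n with
  | zero => exact ⟨0, by ring⟩
  | succ n ih =>
    obtain ⟨h, hh⟩ := ih
    refine ⟨b ^ n + a ^ n + (a + b) * h, ?_⟩
    rw [pow_succ, hh]
    ring

private theorem cm_deg {π g : F[X]} (hπ : π.Monic) {m : ℕ} :
    (π * g).degree < ((π.natDegree + m : ℕ) : WithBot ℕ) ↔ g.degree < (m : WithBot ℕ) := by
  by_cases hg : g = 0
  · subst hg
    rw [mul_zero, degree_zero]
    exact ⟨fun _ => WithBot.bot_lt_coe _, fun _ => WithBot.bot_lt_coe _⟩
  · rw [degree_mul, degree_eq_natDegree hπ.ne_zero, degree_eq_natDegree hg]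
    norm_cast
    omega

end

section

variable {F : Type*} [Field F] [Fintype F]

private noncomputable def SS (ψ : AddChar F ℂ) (k D : ℕ) (lam : F[X] →ₗ[F] F) : ℂ :=
  ∑ c : Fin D → F, ψ (lam (low D c ^ k))

private theorem ss_zero (ψ : AddChar F ℂ) {k D : ℕ} (hD : D = 0) (hk : 1 ≤ k) (lam : F[X] →ₗ[F] F) :
    SS ψ k D lam = 1 := by
  subst hD
  unfold SS
  rw [Fintype.sum_unique]
  have h1 : low 0 (default : Fin 0 → F) = 0 := by
    unfold low
    exact Finset.sum_of_isEmpty _
  rw [h1, zero_pow (by omega), map_zero, AddChar.map_zero_eq_one]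

/-- the sum over `f` -/
private theorem cm_in (ψ : AddChar F ℂ) (hψ : ψ ≠ 1) (d : ℕ) (φ : F[X] →ₗ[F] F) :
    ((∀ f : F[X], f.degree < (d : WithBot ℕ) → φ f = 0) ∧
      ∑ e : Fin d → F, ψ (φ (low d e)) = (Fintype.card F : ℂ) ^ d) ∨
    ((∃ f : F[X], f.degree < (d : WithBot ℕ) ∧ φ f ≠ 0) ∧ ∑ e : Fin d → F, ψ (φ (low d e)) = 0) := by
  classical
  by_cases h : ∀ f : F[X], f.degree < (d : WithBot ℕ) → φ f = 0
  · left
    refine ⟨h, ?_⟩
    have h1 : ∀ e : Fin d → F, ψ (φ (low d e)) = 1 := by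
      intro e
      rw [h _ (low_degree_lt d e), AddChar.map_zero_eq_one]
    simp only [h1]
    simp
  · right
    push Not at h
    obtain ⟨f, hf, hφ⟩ := h
    refine ⟨⟨f, hf, hφ⟩, ?_⟩
    obtain ⟨s, hs⟩ : ∃ s, ψ s ≠ 1 := AddChar.ne_one_iff.1 hψ
    have hadd : ∀ a b : Fin d → F, φ (low d (a + b)) = φ (low d a) + φ (low d b) := by
      intro a b
      rw [low_add, map_add]
    have hne : ψ.compAddMonoidHom (AddMonoidHom.mk' (fun e : Fin d → F => φ (low d e)) hadd) ≠ 1 := by
      rw [AddChar.ne_one_iff]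
      refine ⟨(s / φ f) • (fun i => f.coeff i : Fin d → F), ?_⟩
      rw [AddChar.compAddMonoidHom_apply, AddMonoidHom.mk'_apply, low_smul, low_of_coeff hf,
        ← smul_eq_C_mul, map_smul, smul_eq_mul, div_mul_cancel₀ _ hφ]
      exact hs
    have h2 := AddChar.sum_eq_zero_of_ne_one hne
    simpa only [AddChar.compAddMonoidHom_apply, AddMonoidHom.mk'_apply] using h2

private theorem st1 (ψ : AddChar F ℂ) (hψ : ψ ≠ 1) {k : ℕ} (hk : 2 ≤ k) (hk0 : (k : F) ≠ 0) {π w : F[X]}
    (hπm : π.Monic) (hπ : Irreducible π) (hw : w.Monic) (hπw : π ∣ w) (lam : F[X] →ₗ[F] F)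
    (h0 : ∀ f : F[X], lam (π * w * f) = 0) (hne : ∃ f : F[X], lam (w * f) ≠ 0) :
    SS ψ k (π * w).natDegree lam = SS ψ k w.natDegree (lam ∘ₗ LinearMap.mulLeft F (π ^ k)) := by
  classical
  obtain ⟨D, hD⟩ : ∃ D, D = (π * w).natDegree := ⟨_, rfl⟩
  have hDd : D = π.natDegree + w.natDegree := by rw [hD, hπm.natDegree_mul hw]
  have hq0 : (Fintype.card F : ℂ) ^ π.natDegree ≠ 0 := pow_ne_zero _ (by simp)
  -- the expansion
  have hexp : ∀ y g : F[X], lam ((w * g + y) ^ k) = lam (y ^ k) + (k : F) * lam (y ^ (k - 1) * w * g) := by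
    intro y g
    obtain ⟨h, hh⟩ := Polynomial.powAddExpansion y (w * g) k
    obtain ⟨t, ht⟩ := hπw
    have h1 : (w * g + y) ^ k = y ^ k + C (k : F) * (y ^ (k - 1) * w * g) + π * w * (t * g ^ 2 * h) := by
      rw [add_comm, hh, C_eq_natCast]
      have h2 : w ^ 2 = π * w * t := by
        conv_lhs => rw [pow_two]; rw [ht]
        rw [ht]
        ring
      linear_combination h * g ^ 2 * h2
    rw [h1, map_add, map_add, h0, add_zero, ← smul_eq_C_mul, map_smul, smul_eq_mul]
  -- the inner sum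
  have hin : ∀ y : F[X], ∑ e : Fin π.natDegree → F, ψ ((k : F) * lam (y ^ (k - 1) * w * low _ e)) =
      if π ∣ y then (Fintype.card F : ℂ) ^ π.natDegree else 0 := by
    intro y
    obtain ⟨φ, hφ⟩ : ∃ φ : F[X] →ₗ[F] F, ∀ f, φ f = (k : F) * lam (y ^ (k - 1) * w * f) :=
      ⟨(k : F) • (lam ∘ₗ LinearMap.mulLeft F (y ^ (k - 1) * w)), fun f => rfl⟩
    simp only [← hφ]
    rcases cm_in ψ hψ π.natDegree φ with ⟨h1, h2⟩ | ⟨⟨f, hf, hφf⟩, h2⟩
    · rw [h2, if_pos]
      by_contra hy
      -- coprimality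
      have hc : IsCoprime (y ^ (k - 1)) π := (((hπ.coprime_iff_not_dvd).2 hy).symm).pow_left
      obtain ⟨A, B, hAB⟩ := hc
      obtain ⟨f, hf⟩ := hne
      apply hf
      have hall : ∀ g : F[X], lam (y ^ (k - 1) * w * g) = 0 := by
        intro g
        have h3 : g = π * (g /ₘ π) + g %ₘ π := by
          rw [add_comm]
          exact (modByMonic_add_div g π).symm
        have h4 := h1 (g %ₘ π) (by
          rw [← degree_eq_natDegree hπm.ne_zero]
          exact degree_modByMonic_lt g hπm)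
        rw [hφ] at h4
        have h5 := (mul_eq_zero.1 h4).resolve_left hk0
        have h6 : y ^ (k - 1) * w * g = π * w * (y ^ (k - 1) * (g /ₘ π)) + y ^ (k - 1) * w * (g %ₘ π) := by
          conv_lhs => rw [h3]
          ring
        rw [h6, map_add, h0, h5, add_zero]
      have h7 : w * f = y ^ (k - 1) * w * (A * f) + π * w * (B * f) := by
        linear_combination (-(w * f)) * hAB
      rw [h7, map_add, hall, h0, add_zero]
    · rw [h2, if_neg]
      rintro ⟨t, ht⟩
      apply hφf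
      rw [hφ]
      have h3 : y ^ (k - 1) * w * f = π * w * (t * y ^ (k - 2) * f) := by
        have h4 : y ^ (k - 1) = y * y ^ (k - 2) := by
          rw [← pow_succ']
          congr 1
          omega
        rw [h4]
        linear_combination (y ^ (k - 2) * w * f) * ht
      rw [h3, h0, mul_zero]
  -- the average
  have hav : (Fintype.card F : ℂ) ^ π.natDegree * SS ψ k D lam =
      (Fintype.card F : ℂ) ^ π.natDegree * ∑ c : Fin D → F, if π ∣ low D c then ψ (lam (low D c ^ k)) else 0 := by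
    have h1 : ∀ e : Fin π.natDegree → F, SS ψ k D lam =
        ∑ c : Fin D → F, ψ (lam (low D c ^ k)) * ψ ((k : F) * lam (low D c ^ (k - 1) * w * low _ e)) := by
      intro e
      have h2 := per_shift (hπm.mul hw) (fun f => ψ (lam (f ^ k))) (fun f g => by rw [cm_per h0]) (w * low _ e)
      rw [← hD] at h2
      unfold SS
      rw [← h2]
      refine Finset.sum_congr rfl fun c _ => ?_
      rw [hexp, AddChar.map_add_eq_mul]
    have h3 : ∑ e : Fin π.natDegree → F, SS ψ k D lam = (Fintype.card F : ℂ) ^ π.natDegree * SS ψ k D lam := by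
      rw [Finset.sum_const, Finset.card_univ, nsmul_eq_mul, Fintype.card_fun, Fintype.card_fin]
      push_cast
      rfl
    rw [← h3, Finset.sum_congr rfl fun e _ => h1 e, Finset.sum_comm, Finset.mul_sum]
    refine Finset.sum_congr rfl fun c _ => ?_
    rw [← Finset.mul_sum, hin]
    split_ifs
    · ring
    · ring
  have hS := mul_left_cancel₀ hq0 hav
  rw [← hD, hS, ← Finset.sum_filter]
  unfold SS
  symm
  have hlow : ∀ c : Fin w.natDegree → F, low D (fun i => (π * low _ c).coeff i) = π * low _ c := by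
    intro c
    refine low_of_coeff ?_
    rw [hDd, cm_deg hπm]
    exact low_degree_lt _ _
  refine Finset.sum_bij (fun c _ => fun i => (π * low _ c).coeff i) ?_ ?_ ?_ ?_
  · intro c _
    rw [Finset.mem_filter]
    refine ⟨Finset.mem_univ _, ?_⟩
    rw [hlow]
    exact dvd_mul_right _ _
  · intro c _ c' _ h
    have h1 := congrArg (low D) h
    rw [hlow, hlow] at h1
    exact low_injective _ (mul_left_cancel₀ hπm.ne_zero h1)
  · intro c hc
    obtain ⟨g, hg⟩ := (Finset.mem_filter.1 hc).2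
    have hgd : g.degree < (w.natDegree : WithBot ℕ) := by
      rw [← cm_deg hπm, ← hg, ← hDd]
      exact low_degree_lt _ _
    refine ⟨fun i => g.coeff i, Finset.mem_univ _, ?_⟩
    apply low_injective D
    rw [hlow, low_of_coeff hgd, hg]
  · intro c _
    rw [hlow, LinearMap.comp_apply, LinearMap.mulLeft_apply, mul_pow]

private theorem st2 (ψ : AddChar F ℂ) {k : ℕ} (hk : 1 ≤ k) {π w : F[X]}
    (hπm : π.Monic) (hw : w.Monic) (hc : IsCoprime π w) (lam : F[X] →ₗ[F] F)
    (h0 : ∀ f : F[X], lam (π * w * f) = 0) :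
    SS ψ k (π * w).natDegree lam = SS ψ k π.natDegree (lam ∘ₗ LinearMap.mulLeft F (w ^ k)) *
      SS ψ k w.natDegree (lam ∘ₗ LinearMap.mulLeft F (π ^ k)) := by
  have h1 := per_crt hπm hw hc (fun f => ψ (lam (f ^ k))) (fun f g => by rw [cm_per h0])
  unfold SS
  rw [h1, Finset.sum_mul_sum]
  refine Finset.sum_congr rfl fun c₁ _ => Finset.sum_congr rfl fun c₂ _ => ?_
  obtain ⟨n, rfl⟩ : ∃ n, k = n + 1 := ⟨k - 1, by omega⟩
  obtain ⟨h, hh⟩ := cm_two (w * low _ c₁) (π * low _ c₂) n
  have h2 : (w * low _ c₁ + π * low _ c₂) ^ (n + 1) = w ^ (n + 1) * low _ c₁ ^ (n + 1) +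
      π ^ (n + 1) * low _ c₂ ^ (n + 1) + π * w * (low _ c₁ * low _ c₂ * h) := by
    rw [hh]
    ring
  have h3 : lam ((w * low _ c₁ + π * low _ c₂) ^ (n + 1)) =
      lam (w ^ (n + 1) * low _ c₁ ^ (n + 1)) + lam (π ^ (n + 1) * low _ c₂ ^ (n + 1)) := by
    rw [h2, map_add, map_add, h0, add_zero]
  rw [h3, AddChar.map_add_eq_mul, LinearMap.comp_apply, LinearMap.mulLeft_apply,
    LinearMap.comp_apply, LinearMap.mulLeft_apply]

end

theorem com {F : Type*} [Field F] [Fintype F] (ψ : AddChar F ℂ) (hψ : ψ ≠ 1) {k : ℕ} (hk : 3 ≤ k)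
    (hk0 : (k : F) ≠ 0) (hq : k ^ (2 * k) ≤ Fintype.card F) {u : F[X]} (hu : u.Monic)
    (lam : F[X] →ₗ[F] F) (h0 : ∀ f : F[X], lam (u * f) = 0)
    (hprim : ∀ v : F[X], v.Monic → v ∣ u → (∀ f : F[X], lam (v * f) = 0) → v = u) :
    ‖∑ c : Fin u.natDegree → F, ψ (lam (low _ c ^ k))‖ ^ k ≤
      (Fintype.card F : ℝ) ^ ((k - 1) * u.natDegree) := by
  classical
  change ‖SS ψ k u.natDegree lam‖ ^ k ≤ _
  obtain ⟨q, hqd⟩ : ∃ q : ℝ, q = (Fintype.card F : ℝ) := ⟨_, rfl⟩
  rw [← hqd]
  have hq1 : 1 ≤ q := by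
    rw [hqd]
    exact_mod_cast Fintype.card_pos
  have hqk : (k : ℝ) ^ (2 * k) ≤ q := by
    rw [hqd]
    exact_mod_cast hq
  obtain ⟨n, hn⟩ : ∃ n, n = u.natDegree := ⟨_, rfl⟩
  induction n using Nat.strong_induction_on generalizing u lam with
  | _ n ih =>
  rcases Nat.eq_zero_or_pos n with hn0 | hn0
  · rw [ss_zero ψ (by omega) (by omega), norm_one, one_pow]
    exact one_le_pow₀ hq1
  have hnu : ¬ IsUnit u := by
    intro h
    have := natDegree_eq_zero_of_isUnit h
    omega
  obtain ⟨π, hπm, hπ, w, rfl⟩ := exists_monic_irreducible_factor u hnu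
  have hw : w.Monic := hπm.of_mul_monic_left hu
  have hπd : 1 ≤ π.natDegree := hπ.natDegree_pos
  have hdeg : (π * w).natDegree = π.natDegree + w.natDegree := hπm.natDegree_mul hw
  have hneW : ∃ f : F[X], lam (w * f) ≠ 0 := by
    by_contra hcon
    push Not at hcon
    have h1 := hprim w hw (dvd_mul_left _ _) hcon
    have h2 := congrArg natDegree h1
    omega
  by_cases hπw : π ∣ w
  · -- (i)
    rw [st1 ψ hψ (by omega) hk0 hπm hπ hw hπw lam h0 hneW]
    obtain ⟨j, hj1, hjk, u', huj, hju⟩ : ∃ j, 1 ≤ j ∧ j ≤ k ∧ ∃ u', π * w = π ^ j * u' ∧ (j < k → ¬ π ∣ u') := by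
      obtain ⟨j, hjd⟩ : ∃ j, j = Nat.findGreatest (fun j => π ^ j ∣ π * w) k := ⟨_, rfl⟩
      have h1 : 1 ≤ j := by
        rw [hjd]
        refine Nat.le_findGreatest (by omega) ?_
        rw [pow_one]
        exact dvd_mul_right _ _
      have h2 : j ≤ k := by
        rw [hjd]
        exact Nat.findGreatest_le k
      have h3 : π ^ j ∣ π * w := by
        have := Nat.findGreatest_spec (P := fun j => π ^ j ∣ π * w) (m := 1) (n := k) (by omega)
          (by rw [pow_one]; exact dvd_mul_right _ _)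
        rwa [← hjd] at this
      obtain ⟨u', hu'⟩ := h3
      refine ⟨j, h1, h2, u', hu', ?_⟩
      rintro hlt ⟨t, ht⟩
      have h4 : π ^ (j + 1) ∣ π * w := ⟨t, by rw [hu', ht, pow_succ]; ring⟩
      have h5 : j + 1 ≤ Nat.findGreatest (fun j => π ^ j ∣ π * w) k := Nat.le_findGreatest (by omega) h4
      omega
    have hu'm : u'.Monic := by
      have h1 : (π ^ j * u').Monic := huj ▸ hu
      exact (hπm.pow j).of_mul_monic_left h1
    have hdegj : (π * w).natDegree = j * π.natDegree + u'.natDegree := by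
      rw [huj, (hπm.pow j).natDegree_mul hu'm, hπm.natDegree_pow]
    have hlt : u'.natDegree < n := by
      have : 1 * 1 ≤ j * π.natDegree := Nat.mul_le_mul hj1 hπd
      omega
    have hkill : ∀ f, (lam ∘ₗ LinearMap.mulLeft F (π ^ k)) (u' * f) = 0 := by
      intro f
      rw [LinearMap.comp_apply, LinearMap.mulLeft_apply]
      have h1 : π ^ k * (u' * f) = π * w * (π ^ (k - j) * f) := by
        rw [huj]
        have h2 : π ^ k = π ^ j * π ^ (k - j) := by
          rw [← pow_add]
          congr 1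
          omega
        rw [h2]
        ring
      rw [h1, h0]
    have hpr : ∀ v : F[X], v.Monic → v ∣ u' →
        (∀ f : F[X], (lam ∘ₗ LinearMap.mulLeft F (π ^ k)) (v * f) = 0) → v = u' := by
      intro v hv hvu hvk
      obtain ⟨t, ht⟩ := hvu
      have h1 : ∀ f, lam (π ^ j * v * f) = 0 := by
        intro f
        by_cases hjk' : j < k
        · have hc : IsCoprime (π ^ (k - j)) t := by
            have h2 : ¬ π ∣ t := fun h => hju hjk' (ht ▸ h.mul_left v)
            exact ((hπ.coprime_iff_not_dvd).2 h2).pow_left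
          obtain ⟨A, B, hAB⟩ := hc
          have h2 : π ^ k = π ^ j * π ^ (k - j) := by
            rw [← pow_add]
            congr 1
            omega
          have h3 : π ^ j * v * f = π ^ k * (v * (A * f)) + π * w * (B * f) := by
            rw [huj, ht, h2]
            linear_combination (-(π ^ j * v * f)) * hAB
          have h4 := hvk (A * f)
          rw [LinearMap.comp_apply, LinearMap.mulLeft_apply] at h4
          rw [h3, map_add, h4, h0, add_zero]
        · have h2 : j = k := by omega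
          have h4 := hvk f
          rw [LinearMap.comp_apply, LinearMap.mulLeft_apply] at h4
          rw [h2, mul_assoc]
          exact h4
      have h2 := hprim (π ^ j * v) ((hπm.pow j).mul hv) ⟨t, by rw [huj, ht]; ring⟩ h1
      rw [huj] at h2
      exact mul_left_cancel₀ (pow_ne_zero _ hπm.ne_zero) h2
    have hIH := ih u'.natDegree hlt hu'm _ hkill hpr rfl
    have hle : u'.natDegree ≤ w.natDegree := by
      have : 1 * π.natDegree ≤ j * π.natDegree := Nat.mul_le_mul_right _ hj1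
      omega
    have hper := per hu'm hle (fun f => ψ ((lam ∘ₗ LinearMap.mulLeft F (π ^ k)) (f ^ k)))
      (fun f g => by rw [cm_per hkill])
    have hS : SS ψ k w.natDegree (lam ∘ₗ LinearMap.mulLeft F (π ^ k)) =
        (Fintype.card F : ℂ) ^ (w.natDegree - u'.natDegree) *
          SS ψ k u'.natDegree (lam ∘ₗ LinearMap.mulLeft F (π ^ k)) := hper
    rw [hS, norm_mul, norm_pow, Complex.norm_natCast, ← hqd, mul_pow, ← pow_mul]
    calc q ^ ((w.natDegree - u'.natDegree) * k) * ‖SS ψ k u'.natDegree (lam ∘ₗ LinearMap.mulLeft F (π ^ k))‖ ^ k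
        ≤ q ^ ((w.natDegree - u'.natDegree) * k) * q ^ ((k - 1) * u'.natDegree) :=
          mul_le_mul_of_nonneg_left hIH (by positivity)
      _ = q ^ ((w.natDegree - u'.natDegree) * k + (k - 1) * u'.natDegree) := by rw [pow_add]
      _ ≤ q ^ ((k - 1) * (π * w).natDegree) := by
          refine pow_le_pow_right₀ hq1 ?_
          obtain ⟨j', rfl⟩ : ∃ j', j = j' + 1 := ⟨j - 1, by omega⟩
          obtain ⟨k', rfl⟩ : ∃ k', k = k' + 1 := ⟨k - 1, by omega⟩
          have h1 : w.natDegree - u'.natDegree = j' * π.natDegree := by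
            rw [Nat.succ_mul] at hdegj
            omega
          have h5 : k' * ((j' + 1) * π.natDegree + u'.natDegree) =
              k' * ((j' + 1) * π.natDegree) + k' * u'.natDegree := Nat.mul_add _ _ _
          rw [h1, hdegj, Nat.add_sub_cancel, h5]
          have h2 : j' * π.natDegree * (k' + 1) ≤ k' * ((j' + 1) * π.natDegree) := by
            have h3 : j' ≤ k' := by omega
            nlinarith [Nat.mul_le_mul_right π.natDegree h3]
          omega
  · -- (ii)
    have hc : IsCoprime π w := (hπ.coprime_iff_not_dvd).2 hπw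
    rw [st2 ψ (by omega) hπm hw hc lam h0, norm_mul, mul_pow, hdeg, Nat.mul_add, pow_add]
    have hA : ‖SS ψ k π.natDegree (lam ∘ₗ LinearMap.mulLeft F (w ^ k))‖ ^ k ≤ q ^ ((k - 1) * π.natDegree) := by
      have hk1 : ∀ f, (lam ∘ₗ LinearMap.mulLeft F (w ^ k)) (π * f) = 0 := by
        intro f
        rw [LinearMap.comp_apply, LinearMap.mulLeft_apply]
        have h1 : w ^ k * (π * f) = π * w * (w ^ (k - 1) * f) := by
          have h2 : w ^ k = w * w ^ (k - 1) := by
            rw [← pow_succ']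
            congr 1
            omega
          rw [h2]
          ring
        rw [h1, h0]
      have hk2 : ∃ f, (lam ∘ₗ LinearMap.mulLeft F (w ^ k)) f ≠ 0 := by
        by_contra hcon
        push Not at hcon
        obtain ⟨f, hf⟩ := hneW
        apply hf
        obtain ⟨A, B, hAB⟩ : IsCoprime (w ^ (k - 1)) π := hc.symm.pow_left
        have h2 : w ^ k = w * w ^ (k - 1) := by
          rw [← pow_succ']
          congr 1
          omega
        have h3 : w * f = w ^ k * (A * f) + π * w * (B * f) := by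
          rw [h2]
          linear_combination (-(w * f)) * hAB
        have h4 := hcon (A * f)
        rw [LinearMap.comp_apply, LinearMap.mulLeft_apply] at h4
        rw [h3, map_add, h4, h0, add_zero]
      have h1 : ‖SS ψ k π.natDegree (lam ∘ₗ LinearMap.mulLeft F (w ^ k))‖ ^ 2 ≤
          (k : ℝ) ^ 2 * (Fintype.card F : ℝ) ^ π.natDegree := comP ψ hψ (by omega) hπm hπ _ hk1 hk2
      rw [← hqd] at h1
      obtain ⟨x, hx⟩ : ∃ x, x = ‖SS ψ k π.natDegree (lam ∘ₗ LinearMap.mulLeft F (w ^ k))‖ := ⟨_, rfl⟩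
      obtain ⟨Q, hQ⟩ : ∃ Q, Q = q ^ π.natDegree := ⟨_, rfl⟩
      have hQ1 : 1 ≤ Q := hQ ▸ one_le_pow₀ hq1
      have hQq : q ≤ Q := by
        rw [hQ]
        calc q = q ^ 1 := (pow_one q).symm
          _ ≤ q ^ π.natDegree := pow_le_pow_right₀ hq1 hπd
      rw [← hx, ← hQ] at h1
      have hx0 : 0 ≤ x := hx ▸ norm_nonneg _
      rw [← hx, mul_comm (k - 1), pow_mul, ← hQ]
      have h2 : (x ^ k) ^ 2 ≤ (Q ^ (k - 1)) ^ 2 := by
        calc (x ^ k) ^ 2 = (x ^ 2) ^ k := by ring
          _ ≤ ((k : ℝ) ^ 2 * Q) ^ k := pow_le_pow_left₀ (by positivity) h1 k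
          _ = (k : ℝ) ^ (2 * k) * Q ^ k := by rw [mul_pow, ← pow_mul]
          _ ≤ Q * Q ^ k := mul_le_mul_of_nonneg_right (hqk.trans hQq) (by positivity)
          _ = Q ^ (k + 1) := by rw [pow_succ]; ring
          _ ≤ Q ^ ((k - 1) * 2) := pow_le_pow_right₀ hQ1 (by omega)
          _ = (Q ^ (k - 1)) ^ 2 := by rw [pow_mul]
      exact (pow_le_pow_iff_left₀ (by positivity) (by positivity) two_ne_zero).1 h2
    have hB : ‖SS ψ k w.natDegree (lam ∘ₗ LinearMap.mulLeft F (π ^ k))‖ ^ k ≤ q ^ ((k - 1) * w.natDegree) := by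
      refine ih w.natDegree (by omega) hw _ ?_ ?_ rfl
      · intro f
        rw [LinearMap.comp_apply, LinearMap.mulLeft_apply]
        have h1 : π ^ k * (w * f) = π * w * (π ^ (k - 1) * f) := by
          have h2 : π ^ k = π * π ^ (k - 1) := by
            rw [← pow_succ']
            congr 1
            omega
          rw [h2]
          ring
        rw [h1, h0]
      · intro v hv hvw hvk
        obtain ⟨t, ht⟩ := hvw
        have hc2 : IsCoprime (π ^ (k - 1)) t := by
          have h2 : ¬ π ∣ t := fun h => hπw (ht ▸ h.mul_left v)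
          exact ((hπ.coprime_iff_not_dvd).2 h2).pow_left
        obtain ⟨A, B, hAB⟩ := hc2
        have h1 : ∀ f, lam (π * v * f) = 0 := by
          intro f
          have h2 : π ^ k = π * π ^ (k - 1) := by
            rw [← pow_succ']
            congr 1
            omega
          have h3 : π * v * f = π ^ k * (v * (A * f)) + π * w * (B * f) := by
            rw [h2, ht]
            linear_combination (-(π * v * f)) * hAB
          have h4 := hvk (A * f)
          rw [LinearMap.comp_apply, LinearMap.mulLeft_apply] at h4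
          rw [h3, map_add, h4, h0, add_zero]
        have h2 := hprim (π * v) (hπm.mul hv) ⟨t, by rw [ht]; ring⟩ h1
        exact mul_left_cancel₀ hπm.ne_zero h2
    exact mul_le_mul hA hB (by positivity) (by positivity)

end H28WF
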