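import Pool.Agent.H28.WF.Gau
import Pool.Agent.H28.WF.Bas

/-!
# [WF] ComP: complete sums modulo a prime

`π` monic irreducible of degree `d`, `L = AdjoinRoot π` (finite field with `Q = q^d` elements),
`lam : F[X] → F` linear, zero on the multiples of `π` and not zero: `Ψ = ψ ∘ (lam on L)` is a
nontrivial additive character of `L` (`lam` takes all values of `F`), the polynomials of degree
`< d` represent `L`; `gau`.
-/

open Polynomial

namespace H28WF

theorem comP {F : Type*} [Field F] [Fintype F] (ψ : AddChar F ℂ) (hψ : ψ ≠ 1) {k : ℕ} (hk : 1 ≤ k)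
    {π : F[X]} (hm : π.Monic) (hπ : Irreducible π) (lam : F[X] →ₗ[F] F)
    (h0 : ∀ f : F[X], lam (π * f) = 0) (hne : ∃ f : F[X], lam f ≠ 0) :
    ‖∑ c : Fin π.natDegree → F, ψ (lam (low _ c ^ k))‖ ^ 2 ≤
      (k : ℝ) ^ 2 * (Fintype.card F : ℝ) ^ π.natDegree := by
  classical
  haveI : Fact (Irreducible π) := ⟨hπ⟩
  have hkey : ∀ f g : F[X], AdjoinRoot.mk π f = AdjoinRoot.mk π g → lam f = lam g := by
    intro f g hfg
    rw [AdjoinRoot.mk_eq_mk] at hfg
    obtain ⟨u, hu⟩ := hfg
    have h1 : lam (f - g) = 0 := by rw [hu]; exact h0 u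
    rwa [map_sub, sub_eq_zero] at h1
  have hsurj : ∀ y : AdjoinRoot π, ∃ f : F[X], AdjoinRoot.mk π f = y := AdjoinRoot.mk_surjective
  choose rep hrep using hsurj
  let Ψ : AddChar (AdjoinRoot π) ℂ :=
    { toFun := fun y => ψ (lam (rep y))
      map_zero_eq_one' := by
        have h1 : lam (rep 0) = lam 0 := hkey _ _ (by rw [hrep, map_zero])
        rw [h1, map_zero, AddChar.map_zero_eq_one]
      map_add_eq_mul' := by
        intro x y
        have h1 : lam (rep (x + y)) = lam (rep x + rep y) :=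
          hkey _ _ (by rw [hrep, map_add, hrep, hrep])
        rw [h1, map_add, AddChar.map_add_eq_mul] }
  have hΨmk : ∀ f : F[X], Ψ (AdjoinRoot.mk π f) = ψ (lam f) := by
    intro f
    change ψ (lam (rep (AdjoinRoot.mk π f))) = _
    rw [hkey _ f (hrep _)]
  have hΨ : Ψ ≠ 1 := by
    obtain ⟨f, hf⟩ := hne
    obtain ⟨s, hs⟩ := AddChar.ne_one_iff.1 hψ
    refine AddChar.ne_one_iff.2 ⟨AdjoinRoot.mk π ((s / lam f) • f), ?_⟩
    rw [hΨmk, map_smul, smul_eq_mul, div_mul_cancel₀ _ hf]
    exact hs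
  have hbij : Function.Bijective fun c : Fin π.natDegree → F => AdjoinRoot.mk π (low _ c) := by
    constructor
    · intro c c' hcc
      rw [AdjoinRoot.mk_eq_mk, ← low_sub] at hcc
      have h1 : low π.natDegree (c - c') = 0 := by
        refine Polynomial.eq_zero_of_dvd_of_degree_lt hcc ?_
        rw [degree_eq_natDegree hm.ne_zero]
        exact low_degree_lt _ _
      have h2 : c - c' = 0 := low_injective _ (h1.trans (low_zero _).symm)
      exact sub_eq_zero.1 h2
    · intro y
      have h1 : (rep y %ₘ π).degree < (π.natDegree : WithBot ℕ) := by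
        rw [← degree_eq_natDegree hm.ne_zero]
        exact degree_modByMonic_lt _ hm
      refine ⟨fun i => (rep y %ₘ π).coeff i, ?_⟩
      change AdjoinRoot.mk π (low _ _) = y
      rw [low_of_coeff h1]
      conv_rhs => rw [← hrep y]
      rw [AdjoinRoot.mk_eq_mk]
      refine ⟨-(rep y /ₘ π), ?_⟩
      have h2 := modByMonic_add_div (rep y) π
      linear_combination h2
  let e : (Fin π.natDegree → F) ≃ AdjoinRoot π := Equiv.ofBijective _ hbij
  haveI : Fintype (AdjoinRoot π) := Fintype.ofEquiv _ e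
  have hcard : Fintype.card (AdjoinRoot π) = Fintype.card F ^ π.natDegree := by
    rw [← Fintype.card_congr e, Fintype.card_fun, Fintype.card_fin]
  have hg := gau Ψ hΨ hk
  rw [hcard] at hg
  push_cast at hg
  have hsum : ∑ c : Fin π.natDegree → F, ψ (lam (low _ c ^ k)) = ∑ y : AdjoinRoot π, Ψ (y ^ k) := by
    rw [← e.sum_comp]
    refine Finset.sum_congr rfl fun c _ => ?_
    change _ = Ψ ((AdjoinRoot.mk π (low _ c)) ^ k)
    rw [← map_pow, hΨmk]
  rw [hsum]
  exact hg

end H28WF
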