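import Mathlib

/-!
# [WF] THEOREM WF (MP_efcac8_nt), definitions

Think note 1933 (text), 1942, 1944, 1945 (hostile readings), 1946.
`F` is a field (finite where needed), `q` its cardinality, `k ≥ 3`, characteristic `> k`.
Polynomials are `F[X]`.  All counting statements have the form: every finite set `S` all of whose
elements have the property has at most so many elements.
-/

open Polynomial

namespace H28WF

section

variable {F : Type*} [Field F]

/-- the polynomial of degree `< n` with coefficients `c` -/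
noncomputable def low (n : ℕ) (c : Fin n → F) : F[X] := ∑ i : Fin n, C (c i) * X ^ (i : ℕ)

/-- the monic polynomial of degree `n` with lower coefficients `c` -/
noncomputable def mon (n : ℕ) (c : Fin n → F) : F[X] := X ^ n + low n c

/-- the pairing of a vector of length `N` with a polynomial; only the coefficients with
index `< N` count -/
noncomputable def pr (N : ℕ) (a : Fin N → F) : F[X] →ₗ[F] F :=
  ∑ i : Fin N, a i • Polynomial.lcoeff F (i : ℕ)

/-- `G` annihilates the functional `a` on the space of the polynomials of degree `< N` -/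
def Ann (N : ℕ) (a : Fin N → F) (G : F[X]) : Prop :=
  ∀ f : F[X], (G * f).degree < (N : WithBot ℕ) → pr N a (G * f) = 0

/-- `G` is a minimal annihilator of `a` (monic, no proper monic divisor annihilates) -/
def IsMin (N : ℕ) (a : Fin N → F) (G : F[X]) : Prop :=
  G.Monic ∧ Ann N a G ∧ ∀ H : F[X], H.Monic → H ∣ G → Ann N a H → H = G

/-- `y` is monic, squarefree, of degree `n` -/
def Sq (n : ℕ) (y : F[X]) : Prop := y.Monic ∧ y.natDegree = n ∧ Squarefree y

/-- `g` is the radical of `G`, and `G` divides `g ^ (k - 1)` -/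
def Rad (k : ℕ) (G g : F[X]) : Prop :=
  G.Monic ∧ g.Monic ∧ Squarefree g ∧ g ∣ G ∧ G ∣ g ^ (k - 1)

/-- solutions of the mean value equation -/
def IsSol {ι : Type} [Fintype ι] (k n : ℕ) (ε : ι → F) (C₀ : F[X]) (y : ι → F[X]) : Prop :=
  (∀ i, Sq n (y i)) ∧ ∑ i, C (ε i) * y i ^ k = C₀

/-- `G` is an annihilator which is minimal and divides some `y ^ (k - 1)`, `y` squarefree monic of
degree `n` (the set `𝒢_a` of the note) -/
def GG (k n : ℕ) (a : Fin (k * n) → F) (G : F[X]) : Prop :=
  IsMin (k * n) a G ∧ ∃ y : F[X], Sq n y ∧ G ∣ y ^ (k - 1)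

/-- formal degree at most `d`: some `u ≠ 0` of degree `≤ d` kills all `f` of degree `< N - d` -/
def Fdeg (N : ℕ) (a : Fin N → F) (d : ℕ) : Prop :=
  ∃ u : F[X], u ≠ 0 ∧ u.natDegree ≤ d ∧
    ∀ f : F[X], f.degree < ((N - d : ℕ) : WithBot ℕ) → pr N a (u * f) = 0

end

/-- the mean value bound: at most `B` solutions, for at most `2 k` variables, nonzero coefficients,
arbitrary right hand side -/
def MB (F : Type*) [Field F] (k n B : ℕ) : Prop :=
  ∀ (ι : Type) [Fintype ι], Fintype.card ι ≤ 2 * k → ∀ ε : ι → F, (∀ i, ε i ≠ 0) →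
    ∀ C₀ : F[X], ∀ S : Finset (ι → F[X]), (∀ y ∈ S, IsSol k n ε C₀ y) → S.card ≤ B

/-- the exponential sum over all monic polynomials of degree `n` -/
noncomputable def T {F : Type*} [Field F] [Fintype F] (ψ : AddChar F ℂ) (k n : ℕ)
    (a : Fin (k * n) → F) : ℂ :=
  ∑ c : Fin n → F, ψ (pr (k * n) a (mon n c ^ k))

/-- the constant of `MinCount` -/
def A1 (k : ℕ) : ℕ := 4 ^ k * (k ^ 2 + 1)

end H28WF
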