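import Pool.Agent.H28.WF.Gau

/-!
# [WF] Lead: the leading coefficient

Every element of a large finite field is a sum of `2k+1` nonzero k-th powers.  The number of
solutions with all `c_i ≠ 0` is `q^(-1) ∑_b ψ(-b ν) S*(b)^(2k+1)`,
`S*(b) = ∑_{c ≠ 0} ψ(b c^k)`, `S*(0) = q - 1`, `‖S*(b)‖ ≤ k q^(1/2) + 1` for `b ≠ 0` (`gau` for the
character `ψ(b ·)`).  Positive for `q ≥ q₀(k)`, `2k+1 ≥ 3`.
-/

namespace H28WF

private lemma lead_star {F : Type} [Field F] [Fintype F] [DecidableEq F] (χ : AddChar F ℂ)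
    (hχ : χ ≠ 1) {k : ℕ} (hk : 1 ≤ k) :
    ‖∑ y ∈ (Finset.univ : Finset F).erase 0, χ (y ^ k)‖ ≤
      k * Real.sqrt (Fintype.card F) + 1 := by
  have h1 := gau χ hχ hk
  have h2 : ‖∑ y : F, χ (y ^ k)‖ ≤ k * Real.sqrt (Fintype.card F) := by
    have h3 : (0 : ℝ) ≤ k * Real.sqrt (Fintype.card F) := by positivity
    refine (pow_le_pow_iff_left₀ (norm_nonneg _) h3 (two_ne_zero)).1 ?_
    rw [mul_pow, Real.sq_sqrt (by positivity)]
    exact h1
  have h4 : ∑ y : F, χ (y ^ k) = χ ((0 : F) ^ k) +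
      ∑ y ∈ (Finset.univ : Finset F).erase 0, χ (y ^ k) := by
    rw [← Finset.add_sum_erase Finset.univ (fun y : F => χ (y ^ k)) (Finset.mem_univ 0)]
  have h5 : χ ((0 : F) ^ k) = 1 := by
    rw [zero_pow (by omega)]
    exact AddChar.map_zero_eq_one χ
  have h6 : ∑ y ∈ (Finset.univ : Finset F).erase 0, χ (y ^ k) = (∑ y : F, χ (y ^ k)) - 1 := by
    rw [h4, h5]; ring
  rw [h6]
  refine (norm_sub_le _ _).trans ?_
  rw [norm_one]
  linarith

private lemma lead_sum {F : Type} [Field F] [Fintype F] [DecidableEq F] (χ : AddChar F ℂ)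
    (k n : ℕ) (ν : F) :
    ∑ x ∈ Fintype.piFinset (fun _ : Fin n => (Finset.univ : Finset F).erase 0),
      χ (∑ i, x i ^ k - ν) = χ (-ν) *
        (∑ y ∈ (Finset.univ : Finset F).erase 0, χ (y ^ k)) ^ n := by
  have h1 : (∑ y ∈ (Finset.univ : Finset F).erase 0, χ (y ^ k)) ^ n =
      ∑ x ∈ Fintype.piFinset (fun _ : Fin n => (Finset.univ : Finset F).erase 0),
        ∏ i, χ (x i ^ k) := by
    have h := Finset.prod_univ_sum (fun _ : Fin n => (Finset.univ : Finset F).erase 0)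
      (fun _ (y : F) => χ (y ^ k))
    rw [Finset.prod_const, Finset.card_univ, Fintype.card_fin] at h
    exact h
  rw [h1, Finset.mul_sum]
  refine Finset.sum_congr rfl fun x _ => ?_
  have h2 : ∏ i, χ (x i ^ k) = χ (∑ i, x i ^ k) := by
    have h3 := map_prod χ.toMonoidHom (fun i => Multiplicative.ofAdd (x i ^ k)) Finset.univ
    exact h3.symm
  rw [h2, ← AddChar.map_add_eq_mul]
  congr 1
  ring

private lemma lead_pos {k q : ℕ} (hk : 1 ≤ k)
    (hq : (2 ^ (2 * k) * (k + 1) ^ (2 * k + 1)) ^ 2 + 2 ≤ q) :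
    (k * Real.sqrt q + 1) ^ (2 * k + 1) * (q - 1 : ℝ) < ((q : ℝ) - 1) ^ (2 * k + 1) := by
  have hq2 : 2 ≤ q := by omega
  have hq2R : (2 : ℝ) ≤ q := by exact_mod_cast hq2
  set s : ℝ := Real.sqrt q with hs
  have hss : s ^ 2 = q := Real.sq_sqrt (by positivity)
  have hs0 : 0 ≤ s := Real.sqrt_nonneg _
  have hs1 : 1 ≤ s := by
    nlinarith
  have hB : (2 : ℝ) ^ (2 * k) * (k + 1) ^ (2 * k + 1) < s := by
    apply lt_of_pow_lt_pow_left₀ 2 hs0
    rw [hss]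
    have : (2 ^ (2 * k) * (k + 1) ^ (2 * k + 1)) ^ 2 < q := by omega
    exact_mod_cast this
  have h1 : (k * s + 1) ^ (2 * k + 1) ≤ ((k + 1) * s) ^ (2 * k + 1) := by
    apply pow_le_pow_left₀ (by positivity)
    nlinarith
  have h2 : ((q : ℝ) / 2) ^ (2 * k) ≤ ((q : ℝ) - 1) ^ (2 * k) := by
    apply pow_le_pow_left₀ (by positivity)
    linarith
  have h3 : ((k + 1) * s) ^ (2 * k + 1) < ((q : ℝ) / 2) ^ (2 * k) := by
    have e1 : ((q : ℝ) / 2) ^ (2 * k) = s ^ (4 * k) / 2 ^ (2 * k) := by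
      rw [div_pow, ← hss, ← pow_mul]
      congr 2
      ring
    rw [e1, lt_div_iff₀ (by positivity), mul_pow]
    have e2 : s ^ (4 * k) = s ^ (2 * k - 2) * (s * (s * s ^ (2 * k))) := by
      rw [← pow_succ', ← pow_succ', ← pow_add]
      congr 1
      omega
    have e3 : (1 : ℝ) ≤ s ^ (2 * k - 2) := one_le_pow₀ hs1
    have e4 : ((k : ℝ) + 1) ^ (2 * k + 1) * s ^ (2 * k + 1) * 2 ^ (2 * k) <
        s * (s * s ^ (2 * k)) := by
      have : ((k : ℝ) + 1) ^ (2 * k + 1) * s ^ (2 * k + 1) * 2 ^ (2 * k) =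
          (2 ^ (2 * k) * (k + 1) ^ (2 * k + 1)) * (s * s ^ (2 * k)) := by
        ring
      rw [this]
      exact mul_lt_mul_of_pos_right hB (by positivity)
    rw [e2]
    refine lt_of_lt_of_le e4 ?_
    have : 0 ≤ s * (s * s ^ (2 * k)) := by positivity
    nlinarith
  have h4 : (k * s + 1) ^ (2 * k + 1) < ((q : ℝ) - 1) ^ (2 * k) :=
    lt_of_le_of_lt h1 (lt_of_lt_of_le h3 h2)
  rw [pow_succ ((q : ℝ) - 1)]
  exact mul_lt_mul_of_pos_right h4 (by linarith)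

theorem lead (k : ℕ) (hk : 1 ≤ k) : ∃ q₀ : ℕ, ∀ (F : Type) [Field F] [Fintype F],
    q₀ ≤ Fintype.card F → ∀ ν : F, ∃ c : Fin (2 * k + 1) → F, (∀ i, c i ≠ 0) ∧
      ∑ i, c i ^ k = ν := by
  classical
  refine ⟨(2 ^ (2 * k) * (k + 1) ^ (2 * k + 1)) ^ 2 + 2, ?_⟩
  intro F _ _ hq ν
  by_contra hne
  push Not at hne
  set q := Fintype.card F with hqdef
  have hpos := lead_pos hk hq
  set P := Fintype.piFinset (fun _ : Fin (2 * k + 1) => (Finset.univ : Finset F).erase 0) with hP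
  have h0 : ∑ x ∈ P, ∑ χ : AddChar F ℂ, χ (∑ i, x i ^ k - ν) = 0 := by
    refine Finset.sum_eq_zero fun x hx => ?_
    rw [AddChar.sum_apply_eq_ite, if_neg]
    intro h
    have hx' : ∀ i, x i ≠ 0 := by
      intro i
      have := Fintype.mem_piFinset.1 hx i
      exact (Finset.mem_erase.1 this).1
    exact hne x hx' (sub_eq_zero.1 h)
  rw [Finset.sum_comm] at h0
  simp_rw [hP, lead_sum] at h0
  rw [← Finset.add_sum_erase Finset.univ _ (Finset.mem_univ (1 : AddChar F ℂ))] at h0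
  have h1 : (1 : AddChar F ℂ) (-ν) *
      (∑ y ∈ (Finset.univ : Finset F).erase 0, (1 : AddChar F ℂ) (y ^ k)) ^ (2 * k + 1) =
      (((q : ℝ) - 1) ^ (2 * k + 1) : ℝ) := by
    simp only [AddChar.one_apply, one_mul, Finset.sum_const, nsmul_eq_mul, mul_one]
    rw [Finset.card_erase_of_mem (Finset.mem_univ _), Finset.card_univ]
    push_cast [Nat.cast_sub (show 1 ≤ Fintype.card F from Fintype.card_pos)]
    rfl
  rw [h1] at h0
  have h2 : ‖∑ χ ∈ (Finset.univ : Finset (AddChar F ℂ)).erase 1, χ (-ν) *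
      (∑ y ∈ (Finset.univ : Finset F).erase 0, χ (y ^ k)) ^ (2 * k + 1)‖ ≤
      (k * Real.sqrt q + 1) ^ (2 * k + 1) * (q - 1 : ℝ) := by
    refine (norm_sum_le _ _).trans ?_
    have h3 : ∀ χ ∈ (Finset.univ : Finset (AddChar F ℂ)).erase 1, ‖χ (-ν) *
      (∑ y ∈ (Finset.univ : Finset F).erase 0, χ (y ^ k)) ^ (2 * k + 1)‖ ≤
        (k * Real.sqrt q + 1) ^ (2 * k + 1) := by
      intro χ hχ
      rw [norm_mul, AddChar.norm_apply, one_mul, norm_pow]
      exact pow_le_pow_left₀ (norm_nonneg _) (lead_star χ (Finset.mem_erase.1 hχ).1 hk) _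
    refine (Finset.sum_le_sum h3).trans ?_
    rw [Finset.sum_const, nsmul_eq_mul, Finset.card_erase_of_mem (Finset.mem_univ _),
      Finset.card_univ, AddChar.card_eq, Nat.cast_sub Fintype.card_pos, Nat.cast_one]
    rw [mul_comm]
  have h4 : ((((q : ℝ) - 1) ^ (2 * k + 1) : ℝ) : ℂ) =
      -∑ χ ∈ (Finset.univ : Finset (AddChar F ℂ)).erase 1, χ (-ν) *
      (∑ y ∈ (Finset.univ : Finset F).erase 0, χ (y ^ k)) ^ (2 * k + 1) :=
    eq_neg_of_add_eq_zero_left h0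
  have h5 : ‖((((q : ℝ) - 1) ^ (2 * k + 1) : ℝ) : ℂ)‖ ≤
      (k * Real.sqrt q + 1) ^ (2 * k + 1) * (q - 1 : ℝ) := by
    rw [h4, norm_neg]
    exact h2
  have hq1 : (1 : ℝ) ≤ q := by
    have : 1 ≤ q := by omega
    exact_mod_cast this
  rw [Complex.norm_real, Real.norm_of_nonneg (pow_nonneg (by linarith) _)] at h5
  linarith

end H28WF
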