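import Pool.Agent.H28.WF.Circ
import Pool.Agent.H28.WF.Asy
import Pool.Agent.H28.WF.Lead

/-!
# [WF] Fin: THEOREM WF, final form

(A) asymptotic formula for `s ≥ 2k+1` variables with nonzero coefficients, uniform in the degree `n`
and in `N`; (B) every polynomial `N` with `deg N ≤ k n` is a sum of `2k+1` k-th powers of
polynomials of degree exactly `n`; (C) the 2k-th moment, for every finite field of
characteristic `> k`.
-/

open Polynomial

namespace H28WF

private theorem cast_ne {F : Type*} [Field F] {k : ℕ} (h : k < ringChar F) :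
    ∀ e : ℕ, 1 ≤ e → e ≤ k → (e : F) ≠ 0 := by
  intro e h1 h2 h3
  have h4 := Nat.le_of_dvd h1 ((ringChar.spec F e).1 h3)
  omega

private theorem exists_psi (F : Type) [Field F] [Fintype F] : ∃ ψ : AddChar F ℂ, ψ ≠ 1 := by
  refine ⟨AddChar.FiniteField.primitiveChar_to_Complex F, ?_⟩
  have h := AddChar.FiniteField.primitiveChar_to_Complex_isPrimitive (F := F) one_ne_zero
  rwa [AddChar.mulShift_one] at h

open Classical in
private theorem card_mon {F : Type*} [Field F] [Fintype F] {ι : Type*} [Fintype ι] [DecidableEq ι] (n : ℕ)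
    (P : (ι → F[X]) → Prop) :
    Nat.card {y : ι → F[X] // (∀ i, (y i).Monic ∧ (y i).natDegree = n) ∧ P y} =
      ((Finset.univ : Finset (ι → Fin n → F)).filter (fun c => P (fun i => mon n (c i)))).card := by
  rw [← Fintype.card_subtype, ← Nat.card_eq_fintype_card]
  refine (Nat.card_congr (Equiv.ofBijective
    (fun c : {c : ι → Fin n → F // P (fun i => mon n (c i))} =>
      (⟨fun i => mon n (c.1 i), fun i => ⟨mon_monic n _, mon_natDegree n _⟩, c.2⟩ :
        {y : ι → F[X] // (∀ i, (y i).Monic ∧ (y i).natDegree = n) ∧ P y})) ⟨?_, ?_⟩)).symm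
  · intro c c' h
    apply Subtype.ext
    funext i
    have h1 := congrArg Subtype.val h
    exact mon_injective n (congrFun h1 i)
  · rintro ⟨y, hy, hP⟩
    choose c hc using fun i => exists_mon (hy i).1 (hy i).2
    have h1 : (fun i => mon n (c i)) = y := funext hc
    exact ⟨⟨c, by rw [h1]; exact hP⟩, Subtype.ext h1⟩

/-- (A) -/
theorem wfA (k : ℕ) (hk : 3 ≤ k) (δ : ℝ) (hδ : 0 < δ) : ∃ q₀ : ℕ, ∀ (F : Type) [Field F]
    [Fintype F], q₀ ≤ Fintype.card F → k < ringChar F → ∀ s : ℕ, 2 * k + 1 ≤ s →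
    ∀ ε : Fin s → F, (∀ i, ε i ≠ 0) → ∀ (n : ℕ) (N : F[X]), N.natDegree ≤ k * n →
    N.coeff (k * n) = ∑ i, ε i →
    |(Nat.card {y : Fin s → F[X] // (∀ i, (y i).Monic ∧ (y i).natDegree = n) ∧
        ∑ i, C (ε i) * y i ^ k = N} : ℝ) - (Fintype.card F : ℝ) ^ ((s - k) * n)| ≤
      δ * (Fintype.card F : ℝ) ^ ((s - k) * n) := by
  classical
  obtain ⟨q₀, hq₀⟩ := circ k hk δ hδ
  refine ⟨q₀, fun F _ _ hq hch s hs ε hε n N hN hlead => ?_⟩
  obtain ⟨ψ, hψ⟩ := exists_psi F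
  have h := asy ψ hψ (by omega : 1 ≤ k) hs ε hε N hN hlead (hq₀ F hq (cast_ne hch) ψ hψ n)
  have hc := card_mon (F := F) (ι := Fin s) n (fun y => ∑ i, C (ε i) * y i ^ k = N)
  rw [hc]
  convert h using 4
  exact congrArg Finset.card (by ext c; simp only [Finset.mem_filter, Finset.mem_univ, true_and])

/-- (B) -/
theorem wfB (k : ℕ) (hk : 3 ≤ k) : ∃ q₀ : ℕ, ∀ (F : Type) [Field F] [Fintype F],
    q₀ ≤ Fintype.card F → k < ringChar F → ∀ (n : ℕ) (N : F[X]), N.natDegree ≤ k * n →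
    ∃ x : Fin (2 * k + 1) → F[X], (∀ i, (x i).degree = (n : WithBot ℕ)) ∧ ∑ i, x i ^ k = N := by
  obtain ⟨q₁, hq₁⟩ := wfA k hk (1 / 2) (by norm_num)
  obtain ⟨q₂, hq₂⟩ := lead k (by omega)
  refine ⟨max q₁ q₂, fun F _ _ hq hch n N hN => ?_⟩
  obtain ⟨c, hc0, hc⟩ := hq₂ F ((le_max_right _ _).trans hq) (N.coeff (k * n))
  have h := hq₁ F ((le_max_left _ _).trans hq) hch (2 * k + 1) le_rfl (fun i => c i ^ k)
    (fun i => pow_ne_zero _ (hc0 i)) n N hN hc.symm
  have hq0 : (0 : ℝ) < (Fintype.card F : ℝ) ^ ((2 * k + 1 - k) * n) := by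
    have : 0 < Fintype.card F := Fintype.card_pos
    positivity
  have h1 := (abs_le.1 h).1
  have h2 : 0 < Nat.card {y : Fin (2 * k + 1) → F[X] // (∀ i, (y i).Monic ∧ (y i).natDegree = n) ∧
        ∑ i, C (c i ^ k) * y i ^ k = N} := by
    have h3 : (0 : ℝ) < Nat.card {y : Fin (2 * k + 1) → F[X] // (∀ i, (y i).Monic ∧ (y i).natDegree = n) ∧
        ∑ i, C (c i ^ k) * y i ^ k = N} := by linarith
    exact_mod_cast h3
  obtain ⟨⟨y, hy, hyN⟩⟩ := (Nat.card_pos_iff.1 h2).1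
  refine ⟨fun i => C (c i) * y i, fun i => ?_, ?_⟩
  · rw [degree_C_mul (hc0 i), degree_eq_natDegree (hy i).1.ne_zero, (hy i).2]
  · rw [← hyN]
    refine Finset.sum_congr rfl fun i _ => ?_
    rw [mul_pow, C_pow]

/-- (C) -/
theorem wfC (k : ℕ) (hk : 3 ≤ k) : ∃ B : ℕ, ∀ (F : Type) [Field F] [Fintype F],
    k < ringChar F → ∀ n : ℕ,
    Nat.card {z : (Fin k → F[X]) × (Fin k → F[X]) //
      (∀ i, (z.1 i).Monic ∧ (z.1 i).natDegree = n) ∧ (∀ i, (z.2 i).Monic ∧ (z.2 i).natDegree = n) ∧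
        ∑ i, z.1 i ^ k = ∑ i, z.2 i ^ k} ≤ B ^ n * Fintype.card F ^ (k * n) := by
  classical
  obtain ⟨B, hB1, hB⟩ := mean_value k (by omega)
  refine ⟨4 ^ k * B, fun F _ _ hch n => ?_⟩
  obtain ⟨ψ, hψ⟩ := exists_psi F
  obtain ⟨q, hq⟩ : ∃ q, q = Fintype.card F := ⟨_, rfl⟩
  have hq0 : 0 < q := by rw [hq]; exact Fintype.card_pos
  -- the number of solutions as a filter
  have hcard : Nat.card {z : (Fin k → F[X]) × (Fin k → F[X]) //
      (∀ i, (z.1 i).Monic ∧ (z.1 i).natDegree = n) ∧ (∀ i, (z.2 i).Monic ∧ (z.2 i).natDegree = n) ∧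
        ∑ i, z.1 i ^ k = ∑ i, z.2 i ^ k} =
      (((Fintype.piFinset (fun _ : Fin k => (Finset.univ : Finset (Fin n → F)))) ×ˢ
        (Fintype.piFinset (fun _ : Fin k => (Finset.univ : Finset (Fin n → F))))).filter
          (fun z => ∑ i, mon n (z.1 i) ^ k = ∑ i, mon n (z.2 i) ^ k)).card := by
    rw [Fintype.piFinset_univ, Finset.univ_product_univ, ← Fintype.card_subtype, ← Nat.card_eq_fintype_card]
    refine (Nat.card_congr (Equiv.ofBijective
      (fun c : {c : (Fin k → Fin n → F) × (Fin k → Fin n → F) //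
          ∑ i, mon n (c.1 i) ^ k = ∑ i, mon n (c.2 i) ^ k} =>
        (⟨(fun i => mon n (c.1.1 i), fun i => mon n (c.1.2 i)),
          fun i => ⟨mon_monic n _, mon_natDegree n _⟩, fun i => ⟨mon_monic n _, mon_natDegree n _⟩, c.2⟩ :
          {z : (Fin k → F[X]) × (Fin k → F[X]) //
            (∀ i, (z.1 i).Monic ∧ (z.1 i).natDegree = n) ∧ (∀ i, (z.2 i).Monic ∧ (z.2 i).natDegree = n) ∧
              ∑ i, z.1 i ^ k = ∑ i, z.2 i ^ k})) ⟨?_, ?_⟩)).symm
    · intro c c' h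
      have h1 := congrArg Subtype.val h
      apply Subtype.ext
      refine Prod.ext ?_ ?_
      · funext i
        exact mon_injective n (congrFun (congrArg Prod.fst h1) i)
      · funext i
        exact mon_injective n (congrFun (congrArg Prod.snd h1) i)
    · rintro ⟨⟨y, z⟩, hy, hz, hP⟩
      choose c hc using fun i => exists_mon (hy i).1 (hy i).2
      choose d hd using fun i => exists_mon (hz i).1 (hz i).2
      have h1 : (fun i => mon n (c i)) = y := funext hc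
      have h2 : (fun i => mon n (d i)) = z := funext hd
      refine ⟨⟨(c, d), ?_⟩, Subtype.ext (Prod.ext h1 h2)⟩
      simp only [hc, hd]
      exact hP
  have hf := fourier ψ hψ (N := k * n) (Finset.univ : Finset (Fin n → F)) (fun c => mon n c ^ k)
    (fun c _ => ⟨(mon_monic n c).pow k, by rw [(mon_monic n c).natDegree_pow, mon_natDegree]⟩) k
  have hm := moment ψ hψ (by omega : 1 ≤ k) hB1 (hB F (cast_ne hch)) n
  have hT : ∑ a : Fin (k * n) → F, ‖∑ c : Fin n → F, ψ (pr (k * n) a (mon n c ^ k))‖ ^ (2 * k) ≤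
      ((n : ℝ) + 1) ^ (2 * k) * (B : ℝ) ^ n * (Fintype.card F : ℝ) ^ (2 * k * n) := hm
  rw [hf] at hT
  rw [hcard]
  rw [← hq] at hT ⊢
  have h2n : ((n : ℝ) + 1) ^ (2 * k) ≤ (4 ^ k : ℝ) ^ n := by
    have h1 : ((n : ℝ) + 1) ≤ 2 ^ n := by
      have : n + 1 ≤ 2 ^ n := Nat.lt_two_pow_self
      exact_mod_cast this
    calc ((n : ℝ) + 1) ^ (2 * k) ≤ ((2 : ℝ) ^ n) ^ (2 * k) := pow_le_pow_left₀ (by positivity) h1 _
      _ = (4 ^ k : ℝ) ^ n := by
        rw [show (4 : ℝ) = 2 ^ 2 by norm_num, ← pow_mul, ← pow_mul, ← pow_mul]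
        congr 1
        ring
  have hqr : (0 : ℝ) < (q : ℝ) ^ (k * n) := by
    have : (0 : ℝ) < q := by exact_mod_cast hq0
    positivity
  obtain ⟨R, hR⟩ : ∃ R : ℕ, R = (((Fintype.piFinset (fun _ : Fin k => (Finset.univ : Finset (Fin n → F)))) ×ˢ
        (Fintype.piFinset (fun _ : Fin k => (Finset.univ : Finset (Fin n → F))))).filter
          (fun z => ∑ i, mon n (z.1 i) ^ k = ∑ i, mon n (z.2 i) ^ k)).card := ⟨_, rfl⟩
  rw [← hR] at hT ⊢
  have h3 : (q : ℝ) ^ (k * n) * R ≤ (q : ℝ) ^ (k * n) * (((4 ^ k : ℝ) * B) ^ n * (q : ℝ) ^ (k * n)) := by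
    refine hT.trans ?_
    calc ((n : ℝ) + 1) ^ (2 * k) * (B : ℝ) ^ n * (q : ℝ) ^ (2 * k * n)
        ≤ (4 ^ k : ℝ) ^ n * (B : ℝ) ^ n * (q : ℝ) ^ (2 * k * n) := by gcongr
      _ = (q : ℝ) ^ (k * n) * (((4 ^ k : ℝ) * B) ^ n * (q : ℝ) ^ (k * n)) := by
        rw [mul_pow, show 2 * k * n = k * n + k * n by ring, pow_add]
        ring
  have h4 := le_of_mul_le_mul_left h3 hqr
  exact_mod_cast h4

end H28WF
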