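import Pool.Agent.H28.WF.Fin

/-!
# [WF] FinC: the mean value theorem, final form (C)

`R` = number of `(y_1, .., y_{2k})`, monic of degree `n`, with `∑ ε_i y_i^k = N`.
`q^(kn) R ≤ ∑_a ∏ ‖T (ε_i a)‖ ≤ ∑_i ∑_a ‖T (ε_i a)‖^(2k) = 2k ∑_a ‖T a‖^(2k)`, `moment`.
-/

open Polynomial

namespace H28WF

private theorem cast_ne' {F : Type*} [Field F] {k : ℕ} (h : k < ringChar F) :
    ∀ e : ℕ, 1 ≤ e → e ≤ k → (e : F) ≠ 0 := by
  intro e h1 h2 h3
  have h4 := Nat.le_of_dvd h1 ((ringChar.spec F e).1 h3)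
  omega

private theorem exists_psi' (F : Type) [Field F] [Fintype F] : ∃ ψ : AddChar F ℂ, ψ ≠ 1 := by
  refine ⟨AddChar.FiniteField.primitiveChar_to_Complex F, ?_⟩
  have h := AddChar.FiniteField.primitiveChar_to_Complex_isPrimitive (F := F) one_ne_zero
  rwa [AddChar.mulShift_one] at h

open Classical in
private theorem sum_psi_nonneg {F : Type*} [Field F] [Fintype F] (ψ : AddChar F ℂ) (hψ : ψ ≠ 1)
    (N : ℕ) (f : F[X]) :
    ∑ a : Fin N → F, ψ (pr N a f) =
      ((if low N (fun i => f.coeff i) = 0 then ((Fintype.card F : ℝ) ^ N) else 0 : ℝ) : ℂ) := by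
  have h : ∀ a : Fin N → F, pr N a f = pr N a (low N (fun i => f.coeff i)) := by
    intro a
    rw [pr_apply, pr_apply]
    refine Finset.sum_congr rfl fun i _ => ?_
    rw [low_coeff]
  rw [Finset.sum_congr rfl (fun a _ => by rw [h a]), sum_psi_pr ψ hψ N (low_degree_lt N _)]
  split_ifs <;> push_cast <;> rfl

/-- the upper bound by the product of the exponential sums -/
private theorem upper {F : Type*} [Field F] [Fintype F] (ψ : AddChar F ℂ) (hψ : ψ ≠ 1)
    {k n s : ℕ} (ε : Fin s → F) (N : F[X]) (S : Finset (Fin s → Fin n → F))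
    (hS : ∀ c ∈ S, ∑ i, C (ε i) * mon n (c i) ^ k = N) :
    (S.card : ℝ) * (Fintype.card F : ℝ) ^ (k * n) ≤
      ∑ a : Fin (k * n) → F, ∏ i, ‖T ψ k n (ε i • a)‖ := by
  classical
  set q : ℝ := (Fintype.card F : ℝ) with hq
  have hprod : ∀ a : Fin (k * n) → F, ψ (-pr (k * n) a N) * ∏ i, T ψ k n (ε i • a) =
      ∑ c : Fin s → Fin n → F, ψ (pr (k * n) a ((∑ i, C (ε i) * mon n (c i) ^ k) - N)) := by
    intro a
    have h1 : ∏ i, T ψ k n (ε i • a) =
        ∑ c : Fin s → Fin n → F, ∏ i, ψ (pr (k * n) (ε i • a) (mon n (c i) ^ k)) := by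
      unfold T
      rw [Finset.prod_univ_sum, Fintype.piFinset_univ]
    rw [h1, Finset.mul_sum]
    refine Finset.sum_congr rfl fun c _ => ?_
    have h2 : ∀ t : Finset (Fin s), ∏ i ∈ t, ψ (pr (k * n) (ε i • a) (mon n (c i) ^ k)) =
        ψ (pr (k * n) a (∑ i ∈ t, C (ε i) * mon n (c i) ^ k)) := by
      intro t
      induction t using Finset.induction_on with
      | empty => rw [Finset.prod_empty, Finset.sum_empty, map_zero, AddChar.map_zero_eq_one]
      | insert i t hi ih =>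
        rw [Finset.prod_insert hi, Finset.sum_insert hi, map_add, AddChar.map_add_eq_mul, ih,
          pr_smul_left, ← smul_eq_C_mul, LinearMap.map_smul, smul_eq_mul]
    rw [h2, ← AddChar.map_add_eq_mul, map_sub]
    congr 1
    ring
  have hsum : ∑ a : Fin (k * n) → F, ψ (-pr (k * n) a N) * ∏ i, T ψ k n (ε i • a) =
      ((∑ c : Fin s → Fin n → F, (if low (k * n)
        (fun i => ((∑ i, C (ε i) * mon n (c i) ^ k) - N).coeff i) = 0 then q ^ (k * n) else 0 : ℝ)
          : ℝ) : ℂ) := by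
    rw [Finset.sum_congr rfl (fun a _ => hprod a), Finset.sum_comm, Complex.ofReal_sum]
    exact Finset.sum_congr rfl fun c _ => sum_psi_nonneg ψ hψ (k * n) _
  have hq0 : 0 ≤ q := by positivity
  have hnn : ∀ c : Fin s → Fin n → F, (0 : ℝ) ≤ (if low (k * n)
        (fun i => ((∑ i, C (ε i) * mon n (c i) ^ k) - N).coeff i) = 0 then q ^ (k * n) else 0) := by
    intro c
    split_ifs <;> positivity
  have hlow : (S.card : ℝ) * q ^ (k * n) ≤ ∑ c : Fin s → Fin n → F, (if low (k * n)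
        (fun i => ((∑ i, C (ε i) * mon n (c i) ^ k) - N).coeff i) = 0 then q ^ (k * n) else 0) := by
    refine le_trans ?_ (Finset.sum_le_sum_of_subset_of_nonneg (Finset.subset_univ S)
      (fun c _ _ => hnn c))
    rw [← nsmul_eq_mul, ← Finset.sum_const]
    refine Finset.sum_le_sum fun c hc => ?_
    rw [hS c hc, sub_self]
    rw [if_pos (by simp [low])]
  refine hlow.trans ?_
  have h3 : ∑ c : Fin s → Fin n → F, (if low (k * n)
        (fun i => ((∑ i, C (ε i) * mon n (c i) ^ k) - N).coeff i) = 0 then q ^ (k * n) else 0) =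
      ‖∑ a : Fin (k * n) → F, ψ (-pr (k * n) a N) * ∏ i, T ψ k n (ε i • a)‖ := by
    rw [hsum, Complex.norm_real, Real.norm_of_nonneg (Finset.sum_nonneg fun c _ => hnn c)]
  rw [h3]
  refine (norm_sum_le _ _).trans (Finset.sum_le_sum fun a _ => ?_)
  rw [norm_mul, AddChar.norm_apply, one_mul, norm_prod]

private theorem prod_le_sum {s : ℕ} (hs : 1 ≤ s) (x : Fin s → ℝ) (hx : ∀ i, 0 ≤ x i) :
    ∏ i, x i ≤ ∑ i, x i ^ s := by
  haveI : Nonempty (Fin s) := ⟨⟨0, hs⟩⟩
  obtain ⟨j, -, hj⟩ := Finset.exists_max_image (Finset.univ : Finset (Fin s)) x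
    Finset.univ_nonempty
  calc ∏ i, x i ≤ ∏ _i : Fin s, x j := Finset.prod_le_prod (fun i _ => hx i) (fun i _ => hj i (Finset.mem_univ _))
    _ = x j ^ s := by rw [Finset.prod_const, Finset.card_univ, Fintype.card_fin]
    _ ≤ ∑ i, x i ^ s := Finset.single_le_sum (f := fun i => x i ^ s)
        (fun i _ => pow_nonneg (hx i) _) (Finset.mem_univ j)

private theorem sum_smul {F : Type*} [Field F] [Fintype F] {N : ℕ} {t : F} (ht : t ≠ 0)
    (f : (Fin N → F) → ℝ) : ∑ a, f (t • a) = ∑ a, f a := by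
  classical
  refine Fintype.sum_equiv (Equiv.ofBijective (fun a : Fin N → F => t • a) ⟨?_, ?_⟩) _ _
    (fun a => rfl)
  · intro a b h
    exact smul_right_injective _ ht h
  · intro a
    exact ⟨t⁻¹ • a, by simp only []; rw [smul_smul, mul_inv_cancel₀ ht, one_smul]⟩

/-- (C), general form -/
theorem wfC' (k : ℕ) (hk : 3 ≤ k) : ∃ B : ℕ, ∀ (F : Type) [Field F] [Fintype F],
    k < ringChar F → ∀ ε : Fin (2 * k) → F, (∀ i, ε i ≠ 0) → ∀ (n : ℕ) (N : F[X]),
    Nat.card {y : Fin (2 * k) → F[X] // (∀ i, (y i).Monic ∧ (y i).natDegree = n) ∧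
      ∑ i, C (ε i) * y i ^ k = N} ≤ B ^ n * Fintype.card F ^ (k * n) := by
  classical
  obtain ⟨B, hB1, hB⟩ := mean_value k (by omega)
  refine ⟨2 * k * 4 ^ k * B, fun F _ _ hch ε hε n N => ?_⟩
  obtain ⟨ψ, hψ⟩ := exists_psi' F
  have hm := moment ψ hψ (by omega : 1 ≤ k) hB1 (hB F (cast_ne' hch)) n
  -- the coefficient vectors
  have hc : ∀ y : {y : Fin (2 * k) → F[X] // (∀ i, (y i).Monic ∧ (y i).natDegree = n) ∧
      ∑ i, C (ε i) * y i ^ k = N}, ∃ c : Fin (2 * k) → Fin n → F, ∀ i, mon n (c i) = y.1 i := by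
    intro y
    choose c hc using fun i => exists_mon (y.2.1 i).1 (y.2.1 i).2
    exact ⟨c, hc⟩
  choose c hc using hc
  have hinj : Function.Injective c := by
    intro y z h
    apply Subtype.ext
    funext i
    rw [← hc y i, ← hc z i, h]
  set S : Finset (Fin (2 * k) → Fin n → F) := Finset.univ.filter
    (fun c => ∑ i, C (ε i) * mon n (c i) ^ k = N) with hS
  have hcard : Nat.card {y : Fin (2 * k) → F[X] // (∀ i, (y i).Monic ∧ (y i).natDegree = n) ∧
      ∑ i, C (ε i) * y i ^ k = N} ≤ S.card := by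
    have h1 : Nat.card {y : Fin (2 * k) → F[X] // (∀ i, (y i).Monic ∧ (y i).natDegree = n) ∧
      ∑ i, C (ε i) * y i ^ k = N} ≤ Nat.card S := by
      refine Nat.card_le_card_of_injective (fun y => (⟨c y, ?_⟩ : S)) ?_
      · refine Finset.mem_filter.2 ⟨Finset.mem_univ _, ?_⟩
        rw [Finset.sum_congr rfl (fun i _ => by rw [hc y i])]
        exact y.2.2
      · intro y z h
        exact hinj (congrArg Subtype.val h)
    refine h1.trans (le_of_eq ?_)
    rw [Nat.card_eq_fintype_card (α := S), Fintype.card_coe]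
  refine hcard.trans ?_
  rcases Nat.eq_zero_or_pos n with rfl | hn
  · simp only [pow_zero, Nat.mul_zero, Nat.mul_one]
    refine (Finset.card_le_univ S).trans ?_
    simp
  have hup := upper ψ hψ (k := k) (n := n) ε N S (fun c hc => (Finset.mem_filter.1 hc).2)
  have hle : ∑ a : Fin (k * n) → F, ∏ i, ‖T ψ k n (ε i • a)‖ ≤
      (2 * k : ℕ) * ∑ a : Fin (k * n) → F, ‖T ψ k n a‖ ^ (2 * k) := by
    calc ∑ a : Fin (k * n) → F, ∏ i, ‖T ψ k n (ε i • a)‖
        ≤ ∑ a : Fin (k * n) → F, ∑ i, ‖T ψ k n (ε i • a)‖ ^ (2 * k) :=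
          Finset.sum_le_sum fun a _ => prod_le_sum (by omega) _ (fun i => norm_nonneg _)
      _ = ∑ i : Fin (2 * k), ∑ a : Fin (k * n) → F, ‖T ψ k n (ε i • a)‖ ^ (2 * k) :=
          Finset.sum_comm
      _ = ∑ _i : Fin (2 * k), ∑ a : Fin (k * n) → F, ‖T ψ k n a‖ ^ (2 * k) :=
          Finset.sum_congr rfl fun i _ => sum_smul (hε i) (fun a => ‖T ψ k n a‖ ^ (2 * k))
      _ = _ := by rw [Finset.sum_const, Finset.card_univ, Fintype.card_fin, nsmul_eq_mul]
  obtain ⟨q, hq⟩ : ∃ q : ℕ, q = Fintype.card F := ⟨_, rfl⟩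
  have hq0 : 0 < q := by rw [hq]; exact Fintype.card_pos
  rw [← hq] at hm hup ⊢
  have h2n : ((n : ℝ) + 1) ^ (2 * k) ≤ (4 ^ k : ℝ) ^ n := by
    have h1 : ((n : ℝ) + 1) ≤ 2 ^ n := by
      have : n + 1 ≤ 2 ^ n := Nat.lt_two_pow_self
      exact_mod_cast this
    calc ((n : ℝ) + 1) ^ (2 * k) ≤ ((2 : ℝ) ^ n) ^ (2 * k) := pow_le_pow_left₀ (by positivity) h1 _
      _ = (4 ^ k : ℝ) ^ n := by
        rw [← pow_mul, ← pow_mul, show (4 : ℝ) = 2 ^ 2 by norm_num, ← pow_mul]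
        congr 1
        ring
  have h2k : ((2 * k : ℕ) : ℝ) ≤ ((2 * k : ℕ) : ℝ) ^ n := by
    have h1 : (1 : ℝ) ≤ ((2 * k : ℕ) : ℝ) := by exact_mod_cast (by omega : 1 ≤ 2 * k)
    calc ((2 * k : ℕ) : ℝ) = ((2 * k : ℕ) : ℝ) ^ 1 := (pow_one _).symm
      _ ≤ _ := pow_le_pow_right₀ h1 hn
  have hfin : (S.card : ℝ) * (q : ℝ) ^ (k * n) ≤
      (((2 * k * 4 ^ k * B) ^ n * q ^ (k * n) : ℕ) : ℝ) * (q : ℝ) ^ (k * n) := by
    calc (S.card : ℝ) * (q : ℝ) ^ (k * n) ≤
        (2 * k : ℕ) * ∑ a : Fin (k * n) → F, ‖T ψ k n a‖ ^ (2 * k) := hup.trans hle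
      _ ≤ ((2 * k : ℕ) : ℝ) ^ n * ((4 ^ k : ℝ) ^ n * (B : ℝ) ^ n * (q : ℝ) ^ (2 * k * n)) := by
          refine mul_le_mul h2k (hm.trans ?_) (Finset.sum_nonneg fun a _ => by positivity)
            (by positivity)
          gcongr
      _ = _ := by
          push_cast
          rw [mul_pow, mul_pow, mul_pow, mul_pow]
          have : (q : ℝ) ^ (2 * k * n) = (q : ℝ) ^ (k * n) * (q : ℝ) ^ (k * n) := by
            rw [← pow_add]
            congr 1
            ring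
          rw [this]
          ring
  have hqr : (0 : ℝ) < (q : ℝ) ^ (k * n) := by positivity
  exact_mod_cast le_of_mul_le_mul_right hfin hqr

end H28WF
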