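import Mathlib

/-!
# [WF] Gau: the sum of an additive character over k-th powers (only Mathlib)

`S(c) = ∑_y Ψ(c y^k)`.  `∑_{c ∈ L} |S(c)|^2 = Q #{(y,z) : y^k = z^k} ≤ Q (1 + (Q-1) k)` and
`S(0) = Q`, so `∑_{c ≠ 0} |S(c)|^2 ≤ Q (Q-1) (k-1)`.  `S(c)` depends only on the class of `c`
modulo k-th powers of units (`S(c t^k) = S(c)`), the number of different `t^k` is at least
`(Q-1)/k`: `(Q-1) |S(1)|^2 = ∑_{t ≠ 0} |S(t^k)|^2 ≤ k ∑_{c ≠ 0} |S(c)|^2 ≤ k (k-1) Q (Q-1)`.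
-/

namespace H28WF

section

variable {L : Type*} [Field L] [Fintype L]

private theorem card_root {k : ℕ} (hk : 1 ≤ k) [DecidableEq L] (a : L) :
    (Finset.univ.filter fun z : L => z ^ k = a).card ≤ k := by
  have h1 : (Finset.univ.filter fun z : L => z ^ k = a) ⊆ (Polynomial.nthRoots k a).toFinset := by
    intro z hz
    rw [Multiset.mem_toFinset, Polynomial.mem_nthRoots hk]
    exact (Finset.mem_filter.1 hz).2
  calc _ ≤ (Polynomial.nthRoots k a).toFinset.card := Finset.card_le_card h1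
    _ ≤ Multiset.card (Polynomial.nthRoots k a) := Multiset.toFinset_card_le _
    _ ≤ k := Polynomial.card_nthRoots k a

private theorem second (Ψ : AddChar L ℂ) (hΨ : Ψ ≠ 1) {k : ℕ} (hk : 1 ≤ k) :
    ∑ c : L, ‖∑ y : L, Ψ (c * y ^ k)‖ ^ 2 ≤
      (Fintype.card L : ℝ) * (1 + ((Fintype.card L : ℝ) - 1) * k) := by
  classical
  have hp : Ψ.IsPrimitive := AddChar.IsPrimitive.of_ne_one hΨ
  have h1 : ((∑ c : L, ‖∑ y : L, Ψ (c * y ^ k)‖ ^ 2 : ℝ) : ℂ) =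
      ∑ y : L, ∑ z : L, if y ^ k - z ^ k = 0 then (Fintype.card L : ℂ) else 0 := by
    push_cast
    have h2 : ∀ c : L, ((‖∑ y : L, Ψ (c * y ^ k)‖ : ℂ)) ^ 2 =
        ∑ y : L, ∑ z : L, Ψ (c * (y ^ k - z ^ k)) := by
      intro c
      rw [← Complex.mul_conj', map_sum, Finset.sum_mul_sum]
      refine Finset.sum_congr rfl fun y _ => Finset.sum_congr rfl fun z _ => ?_
      rw [← AddChar.map_neg_eq_conj, ← AddChar.map_add_eq_mul]
      congr 1
      ring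
    rw [Finset.sum_congr rfl fun c _ => h2 c, Finset.sum_comm]
    refine Finset.sum_congr rfl fun y _ => ?_
    rw [Finset.sum_comm]
    refine Finset.sum_congr rfl fun z _ => ?_
    rw [AddChar.sum_mulShift _ hp]
    push_cast
    rfl
  have h3 : (∑ c : L, ‖∑ y : L, Ψ (c * y ^ k)‖ ^ 2 : ℝ) =
      ∑ y : L, ∑ z : L, if y ^ k - z ^ k = 0 then (Fintype.card L : ℝ) else 0 := by
    have h4 : ((∑ y : L, ∑ z : L, if y ^ k - z ^ k = 0 then (Fintype.card L : ℝ) else 0 : ℝ) : ℂ) =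
        ∑ y : L, ∑ z : L, if y ^ k - z ^ k = 0 then (Fintype.card L : ℂ) else 0 := by
      simp only [Complex.ofReal_sum, apply_ite Complex.ofReal, Complex.ofReal_natCast, Complex.ofReal_zero]
    rw [← h4] at h1
    exact Complex.ofReal_injective h1
  have h5 : ∀ y : L, (∑ z : L, if y ^ k - z ^ k = 0 then (Fintype.card L : ℝ) else 0) =
      (Fintype.card L : ℝ) * (Finset.univ.filter fun z : L => z ^ k = y ^ k).card := by
    intro y
    rw [Finset.sum_ite, Finset.sum_const_zero, add_zero, Finset.sum_const, nsmul_eq_mul, mul_comm]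
    congr 3
    ext z
    simp only [Finset.mem_filter, Finset.mem_univ, true_and, sub_eq_zero]
    exact eq_comm
  rw [h3, Finset.sum_congr rfl fun y _ => h5 y, ← Finset.mul_sum]
  have hQ0 : (0 : ℝ) ≤ Fintype.card L := Nat.cast_nonneg _
  apply mul_le_mul_of_nonneg_left _ hQ0
  rw [← Finset.add_sum_erase _ _ (Finset.mem_univ (0 : L))]
  have h6 : (Finset.univ.filter fun z : L => z ^ k = (0 : L) ^ k).card = 1 := by
    rw [Finset.card_eq_one]
    refine ⟨0, ?_⟩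
    ext z
    simp only [Finset.mem_filter, Finset.mem_univ, true_and, Finset.mem_singleton]
    rw [zero_pow (by omega), pow_eq_zero_iff (by omega)]
  rw [h6, Nat.cast_one]
  have h7 : ∑ y ∈ Finset.univ.erase (0 : L), ((Finset.univ.filter fun z : L => z ^ k = y ^ k).card : ℝ) ≤
      ∑ y ∈ Finset.univ.erase (0 : L), (k : ℝ) :=
    Finset.sum_le_sum fun y _ => Nat.cast_le.2 (card_root hk (y ^ k))
  rw [Finset.sum_const, nsmul_eq_mul, Finset.card_erase_of_mem (Finset.mem_univ _), Finset.card_univ,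
    Nat.cast_sub Fintype.card_pos, Nat.cast_one] at h7
  linarith

end

theorem gau {L : Type*} [Field L] [Fintype L] (Ψ : AddChar L ℂ) (hΨ : Ψ ≠ 1) {k : ℕ} (hk : 1 ≤ k) :
    ‖∑ y : L, Ψ (y ^ k)‖ ^ 2 ≤ (k : ℝ) ^ 2 * Fintype.card L := by
  classical
  have h1 := second Ψ hΨ hk
  rw [← Finset.add_sum_erase _ _ (Finset.mem_univ (0 : L))] at h1
  have h2 : ‖∑ y : L, Ψ (0 * y ^ k)‖ ^ 2 = (Fintype.card L : ℝ) ^ 2 := by
    simp
  rw [h2] at h1
  have hQ1 : (2 : ℝ) ≤ Fintype.card L := by exact_mod_cast Fintype.one_lt_card (α := L)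
  have hk1 : (1 : ℝ) ≤ k := by exact_mod_cast hk
  -- the sum over `t ≠ 0`
  have h3 : ∀ t ∈ Finset.univ.erase (0 : L), ‖∑ y : L, Ψ (t ^ k * y ^ k)‖ ^ 2 = ‖∑ y : L, Ψ (y ^ k)‖ ^ 2 := by
    intro t ht
    have ht0 : t ≠ 0 := (Finset.mem_erase.1 ht).1
    congr 2
    have h4 := Equiv.sum_comp (Equiv.mulLeft₀ t ht0) (fun y : L => Ψ (y ^ k))
    rw [← h4]
    refine Finset.sum_congr rfl fun y _ => ?_
    simp only [Equiv.mulLeft₀_apply, mul_pow]
  have h5 : ∑ t ∈ Finset.univ.erase (0 : L), ‖∑ y : L, Ψ (t ^ k * y ^ k)‖ ^ 2 =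
      ((Fintype.card L : ℝ) - 1) * ‖∑ y : L, Ψ (y ^ k)‖ ^ 2 := by
    rw [Finset.sum_congr rfl h3, Finset.sum_const, nsmul_eq_mul, Finset.card_erase_of_mem (Finset.mem_univ _), Finset.card_univ,
      Nat.cast_sub Fintype.card_pos, Nat.cast_one]
  have h6 : ∑ t ∈ Finset.univ.erase (0 : L), ‖∑ y : L, Ψ (t ^ k * y ^ k)‖ ^ 2 ≤
      k * ∑ c ∈ Finset.univ.erase (0 : L), ‖∑ y : L, Ψ (c * y ^ k)‖ ^ 2 := by
    have h7 : ∀ t ∈ Finset.univ.erase (0 : L), t ^ k ∈ Finset.univ.erase (0 : L) := fun t ht =>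
      Finset.mem_erase.2 ⟨pow_ne_zero _ (Finset.mem_erase.1 ht).1, Finset.mem_univ _⟩
    rw [← Finset.sum_fiberwise_of_maps_to h7, Finset.mul_sum]
    refine Finset.sum_le_sum fun c _ => ?_
    have h8 : ∑ t ∈ Finset.univ.erase (0 : L) with t ^ k = c, ‖∑ y : L, Ψ (t ^ k * y ^ k)‖ ^ 2 =
        ((Finset.univ.erase (0 : L)).filter fun t => t ^ k = c).card * ‖∑ y : L, Ψ (c * y ^ k)‖ ^ 2 := by
      rw [Finset.sum_congr rfl (g := fun _ => ‖∑ y : L, Ψ (c * y ^ k)‖ ^ 2) (fun t ht => by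
        rw [(Finset.mem_filter.1 ht).2]), Finset.sum_const, nsmul_eq_mul]
    rw [h8]
    apply mul_le_mul_of_nonneg_right _ (by positivity)
    have h9 : ((Finset.univ.erase (0 : L)).filter fun t => t ^ k = c).card ≤ k :=
      (Finset.card_le_card (Finset.filter_subset_filter _ (Finset.erase_subset _ _))).trans (card_root hk c)
    exact_mod_cast h9
  rw [h5] at h6
  obtain ⟨S, hS⟩ : ∃ S, S = ‖∑ y : L, Ψ (y ^ k)‖ ^ 2 := ⟨_, rfl⟩
  obtain ⟨T, hT⟩ : ∃ T, T = ∑ c ∈ Finset.univ.erase (0 : L), ‖∑ y : L, Ψ (c * y ^ k)‖ ^ 2 := ⟨_, rfl⟩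
  obtain ⟨Q, hQ⟩ : ∃ Q, Q = (Fintype.card L : ℝ) := ⟨_, rfl⟩
  rw [← hS, ← hT, ← hQ] at h6
  rw [← hT, ← hQ] at h1
  rw [← hQ] at hQ1
  rw [← hS, ← hQ]
  have h10 : T ≤ Q * (Q - 1) * (k - 1) := by nlinarith
  have h11 : (Q - 1) * S ≤ (Q - 1) * ((k : ℝ) ^ 2 * Q) := by
    calc (Q - 1) * S ≤ k * T := h6
      _ ≤ k * (Q * (Q - 1) * (k - 1)) := mul_le_mul_of_nonneg_left h10 (by linarith)
      _ ≤ (Q - 1) * ((k : ℝ) ^ 2 * Q) := by
        have : 0 ≤ (Q - 1) * Q * k := mul_nonneg (mul_nonneg (by linarith) (by linarith)) (by linarith)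
        nlinarith
  exact le_of_mul_le_mul_left h11 (by linarith)

end H28WF
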