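import Pool.Agent.H28.WF.Bas

/-!
# [WF] RadL: the radical of a divisor of `y ^ (k-1)`, `y` squarefree; the decomposition `∏ h_e ^ e`

`rad_ex`: `g = ` product of the monic primes dividing `G` (or `normalize (gcd G y)`, or Mathlib's
`UniqueFactorizationMonoid.radical`); it divides `y` because `y` is squarefree up to the exponent
(`π ∣ G ∣ y^(k-1)`), and `G ∣ g^(k-1)` because the exponent of `π` in `G` is at most `k - 1`.
`dec`: `h e` = product of the monic primes `π` with exponent `e + 1` in `G`.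
-/

open Polynomial

namespace H28WF

variable {F : Type*} [Field F]

open UniqueFactorizationMonoid in
private theorem nf_monic [DecidableEq F] {G p : F[X]} (hp : p ∈ normalizedFactors G) : p.Monic := by
  have h1 := normalize_normalized_factor p hp
  have h2 : p ≠ 0 := (irreducible_of_normalized_factor p hp).ne_zero
  rw [← h1]
  exact Polynomial.monic_normalize h2

open UniqueFactorizationMonoid in
private theorem nf_prod [DecidableEq F] {G : F[X]} (hG : G.Monic) : (normalizedFactors G).prod = G := by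
  have h1 := UniqueFactorizationMonoid.prod_normalizedFactors_eq hG.ne_zero
  rw [h1, hG.normalize_eq_self]

open UniqueFactorizationMonoid in
private theorem nf_count [DecidableEq F] {k : ℕ} {G y : F[X]} (hG : G.Monic) (hy : Squarefree y)
    (h : G ∣ y ^ (k - 1)) (p : F[X]) : (normalizedFactors G).count p ≤ k - 1 := by
  classical
  have hy0 : y ≠ 0 := hy.ne_zero
  have h1 : normalizedFactors G ≤ (k - 1) • normalizedFactors y := by
    rw [← normalizedFactors_pow]
    exact (dvd_iff_normalizedFactors_le_normalizedFactors hG.ne_zero (pow_ne_zero _ hy0)).1 h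
  have h2 := Multiset.count_le_of_le p h1
  rw [Multiset.count_nsmul] at h2
  have h3 : (normalizedFactors y).count p ≤ 1 :=
    Multiset.nodup_iff_count_le_one.1 ((squarefree_iff_nodup_normalizedFactors hy0).1 hy) p
  calc (normalizedFactors G).count p ≤ (k - 1) * (normalizedFactors y).count p := h2
    _ ≤ (k - 1) * 1 := Nat.mul_le_mul_left _ h3
    _ = k - 1 := mul_one _

private theorem cop {p q : F[X]} (hp : Irreducible p) (hq : Irreducible q) (hpm : p.Monic)
    (hqm : q.Monic) (hne : p ≠ q) : IsCoprime p q := by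
  refine (Irreducible.coprime_iff_not_dvd hp).2 fun hd => hne ?_
  exact Polynomial.eq_of_monic_of_associated hpm hqm (hp.associated_of_dvd hq hd)

private theorem sqf (S : Finset F[X]) (h : ∀ p ∈ S, Irreducible p ∧ p.Monic) :
    Squarefree (∏ p ∈ S, p) := by
  refine Finset.squarefree_prod_of_pairwise_isCoprime (fun p hp q hq hne => ?_)
    fun p hp => (h p hp).1.squarefree
  exact (cop (h p hp).1 (h q hq).1 (h p hp).2 (h q hq).2 hne).isRelPrime

theorem rad_ex {k : ℕ} (hk : 2 ≤ k) {G y : F[X]} (hG : G.Monic) (hy : Squarefree y)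
    (h : G ∣ y ^ (k - 1)) : ∃ g : F[X], Rad k G g ∧ g ∣ y := by
  classical
  have hy0 : y ≠ 0 := hy.ne_zero
  have hG0 : G ≠ 0 := hG.ne_zero
  obtain ⟨S, hS⟩ : ∃ S : Finset F[X], S = (UniqueFactorizationMonoid.normalizedFactors G).toFinset :=
    ⟨_, rfl⟩
  have hmem : ∀ p, p ∈ S ↔ p ∈ UniqueFactorizationMonoid.normalizedFactors G := fun p => by
    rw [hS, Multiset.mem_toFinset]
  have hirr : ∀ p ∈ S, Irreducible p ∧ p.Monic := fun p hp =>
    ⟨UniqueFactorizationMonoid.irreducible_of_normalized_factor p ((hmem p).1 hp),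
      nf_monic ((hmem p).1 hp)⟩
  have hle : S.val ≤ UniqueFactorizationMonoid.normalizedFactors G := by
    rw [hS]
    exact Multiset.dedup_le _
  have hgm : (∏ p ∈ S, p).Monic := Polynomial.monic_prod_of_monic _ _ fun p hp => (hirr p hp).2
  have hprod : (∏ p ∈ S, p) = S.val.prod := by
    rw [Finset.prod_eq_multiset_prod, Multiset.map_id']
  have hgG : (∏ p ∈ S, p) ∣ G := by
    have h1 := Multiset.prod_dvd_prod_of_le hle
    rw [nf_prod hG] at h1
    rw [hprod]
    exact h1
  have hsq := sqf S hirr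
  have hGg : G ∣ (∏ p ∈ S, p) ^ (k - 1) := by
    have h1 : UniqueFactorizationMonoid.normalizedFactors G ≤ (k - 1) • S.val := by
      rw [Multiset.le_iff_count]
      intro p
      rw [Multiset.count_nsmul]
      by_cases hp : p ∈ S
      · rw [Multiset.count_eq_one_of_mem S.nodup hp, mul_one]
        exact nf_count hG hy h p
      · rw [Multiset.count_eq_zero_of_notMem fun hp' => hp ((hmem p).2 hp')]
        exact Nat.zero_le _
    have h2 := Multiset.prod_dvd_prod_of_le h1
    rw [nf_prod hG, Multiset.prod_nsmul] at h2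
    rw [hprod]
    exact h2
  refine ⟨∏ p ∈ S, p, ⟨hG, hgm, hsq, hgG, hGg⟩, ?_⟩
  exact (hsq.dvd_pow_iff_dvd (by omega : k - 1 ≠ 0)).1 (hgG.trans h)

theorem Rad.dvd_of_dvd_pow {k : ℕ} {G g y : F[X]} (h : Rad k G g) {m : ℕ} (hy : G ∣ y ^ m) :
    g ∣ y := by
  obtain ⟨-, -, h3, h4, -⟩ := h
  rcases Nat.eq_zero_or_pos m with rfl | hm
  · rw [pow_zero] at hy
    exact (h4.trans hy).trans (one_dvd _)
  · exact (h3.dvd_pow_iff_dvd hm.ne').1 (h4.trans hy)

theorem Rad.unique {k : ℕ} {G g g' : F[X]} (h : Rad k G g) (h' : Rad k G g') : g = g' := by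
  refine Polynomial.eq_of_monic_of_associated h.2.1 h'.2.1 (associated_of_dvd_dvd ?_ ?_)
  · exact h.dvd_of_dvd_pow h'.2.2.2.2
  · exact h'.dvd_of_dvd_pow h.2.2.2.2

theorem Rad.natDegree_le {k : ℕ} {G g : F[X]} (h : Rad k G g) :
    G.natDegree ≤ (k - 1) * g.natDegree := by
  have h1 := Polynomial.natDegree_le_of_dvd h.2.2.2.2 (pow_ne_zero _ h.2.1.ne_zero)
  rw [Polynomial.natDegree_pow] at h1
  exact h1

theorem Rad.natDegree_pos {k : ℕ} {G g : F[X]} (h : Rad k G g) (hG : 0 < G.natDegree) :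
    0 < g.natDegree := by
  rcases Nat.eq_zero_or_pos g.natDegree with h0 | h0
  · exfalso
    have h1 := h.natDegree_le
    rw [h0, mul_zero] at h1
    omega
  · exact h0

/-- decomposition of a divisor of `y ^ (k-1)` -/
theorem dec {k : ℕ} {G y : F[X]} (hG : G.Monic) (hy : Squarefree y) (h : G ∣ y ^ (k - 1)) :
    ∃ h : Fin (k - 1) → F[X], (∀ e, (h e).Monic ∧ Squarefree (h e)) ∧
      (∀ e e', e ≠ e' → IsCoprime (h e) (h e')) ∧ G = ∏ e, h e ^ ((e : ℕ) + 1) ∧
      (∏ e, h e) ∣ y := by
  classical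
  have hy0 : y ≠ 0 := hy.ne_zero
  have hG0 : G ≠ 0 := hG.ne_zero
  obtain ⟨nf, hnf⟩ : ∃ nf : Multiset F[X], nf = UniqueFactorizationMonoid.normalizedFactors G :=
    ⟨_, rfl⟩
  obtain ⟨S, hS⟩ : ∃ S : Finset F[X], S = nf.toFinset := ⟨_, rfl⟩
  have hmem : ∀ p, p ∈ S ↔ p ∈ nf := fun p => by rw [hS, Multiset.mem_toFinset]
  have hirr : ∀ p ∈ S, Irreducible p ∧ p.Monic := fun p hp =>
    ⟨UniqueFactorizationMonoid.irreducible_of_normalized_factor p (hnf ▸ (hmem p).1 hp),
      nf_monic (hnf ▸ (hmem p).1 hp)⟩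
  have hcnt : ∀ p ∈ S, 1 ≤ nf.count p ∧ nf.count p ≤ k - 1 := fun p hp =>
    ⟨Multiset.one_le_count_iff_mem.2 ((hmem p).1 hp), hnf ▸ nf_count hG hy h p⟩
  have hmap : ∀ p ∈ S, nf.count p - 1 ∈ Finset.range (k - 1) := fun p hp => by
    have := hcnt p hp
    rw [Finset.mem_range]
    omega
  have hf : ∀ e, ∀ p ∈ S.filter (fun p => nf.count p - 1 = e), Irreducible p ∧ p.Monic :=
    fun e p hp => hirr p (Finset.mem_filter.1 hp).1
  refine ⟨fun e => ∏ p ∈ S.filter (fun p => nf.count p - 1 = (e : ℕ)), p, fun e => ⟨?_, ?_⟩,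
    fun e e' hne => ?_, ?_, ?_⟩
  · exact Polynomial.monic_prod_of_monic _ _ fun p hp => (hf e p hp).2
  · exact sqf _ (hf e)
  · refine IsCoprime.prod_left fun p hp => IsCoprime.prod_right fun q hq => ?_
    refine cop (hf e p hp).1 (hf e' q hq).1 (hf e p hp).2 (hf e' q hq).2 ?_
    rintro rfl
    have h1 := (Finset.mem_filter.1 hp).2
    have h2 := (Finset.mem_filter.1 hq).2
    exact hne (Fin.ext (h1.symm.trans h2))
  · have h1 : G = ∏ p ∈ S, p ^ nf.count p := by
      rw [hS, ← Finset.prod_multiset_count, hnf, nf_prod hG]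
    have h2 := Finset.prod_fiberwise_of_maps_to hmap fun p => p ^ nf.count p
    rw [← Fin.prod_univ_eq_prod_range (fun e => ∏ p ∈ S with nf.count p - 1 = e, p ^ nf.count p)
      (k - 1)] at h2
    calc G = ∏ e : Fin (k - 1), ∏ p ∈ S with nf.count p - 1 = (e : ℕ), p ^ nf.count p := by
          rw [h2, ← h1]
      _ = _ := by
          refine Finset.prod_congr rfl fun e _ => ?_
          rw [← Finset.prod_pow]
          refine Finset.prod_congr rfl fun p hp => ?_
          have h3 := (Finset.mem_filter.1 hp).2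
          have h4 := hcnt p (Finset.mem_filter.1 hp).1
          rw [show nf.count p = (e : ℕ) + 1 by omega]
  · have h2 := Finset.prod_fiberwise_of_maps_to hmap fun p => p
    rw [← Fin.prod_univ_eq_prod_range (fun e => ∏ p ∈ S with nf.count p - 1 = e, p) (k - 1)] at h2
    rw [h2]
    have h3 : (∏ p ∈ S, p) ∣ G := by
      have h4 : S.val ≤ nf := by
        rw [hS]
        exact Multiset.dedup_le _
      have h1 := Multiset.prod_dvd_prod_of_le h4
      rw [hnf, nf_prod hG] at h1
      rw [Finset.prod_eq_multiset_prod, Multiset.map_id']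
      exact h1
    rcases Nat.eq_zero_or_pos (k - 1) with h0 | h0
    · rw [h0, pow_zero] at h
      exact (h3.trans h).trans (one_dvd _)
    · exact ((sqf S hirr).dvd_pow_iff_dvd h0.ne').1 (h3.trans h)

end H28WF
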