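import Pool.Agent.H28.WF.AnnA
import Pool.Agent.H28.WF.AnnB
import Pool.Agent.H28.WF.RadL
import Pool.Agent.H28.WF.Div

/-!
# [WF] Pairs: counting pairs (a, G) and triples (a, G₁, G₂)

Number of `G` with given radical `g`, `G ∣ g^(k-1)`: at most `2^((k-1) deg g)` (`card_div`), number
of monic `g` of degree `δ`: `q^δ`, number of `a`: `q^(deg G) ≤ q^((k-1) δ)` (`card_ann`); so
pairs: `2^((k-1)δ) q^(kδ)`.  Triples with `card_ann2`:
`(number) q^(kn) ≤ 2^((k-1)(δ₁+δ₂)) q^(k(δ₁+δ₂))`.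
`triple_deg`: `deg (G₁ G₂) > k n` (`min_ne` for the common multiple `G₁ G₂`), `deg G_i ≤ (k-1) δ_i`.
-/

open Polynomial

namespace H28WF

variable {F : Type*} [Field F] [Fintype F]

/-- the number of `G` with a radical of degree `δ` -/
private theorem card_G {k : ℕ} (δ : ℕ) (S : Finset F[X])
    (hS : ∀ G ∈ S, ∃ g, Rad k G g ∧ g.natDegree = δ) :
    S.card ≤ 2 ^ ((k - 1) * δ) * Fintype.card F ^ δ := by
  classical
  choose! r hr using hS
  refine (Finset.card_le_mul_card_image (f := r) S (2 ^ ((k - 1) * δ)) ?_).trans ?_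
  · intro g hg
    obtain ⟨G₀, hG₀, rfl⟩ := Finset.mem_image.1 hg
    obtain ⟨h1, h2⟩ := hr G₀ hG₀
    have h3 : (r G₀ ^ (k - 1)).natDegree = (k - 1) * δ := by
      rw [natDegree_pow, h2]
    rw [← h3]
    refine card_div (pow_ne_zero _ h1.2.1.ne_zero) _ fun G hG => ?_
    rw [Finset.mem_filter] at hG
    obtain ⟨h4, -⟩ := hr G hG.1
    rw [hG.2] at h4
    exact ⟨h4.1, h4.2.2.2.2⟩
  · refine Nat.mul_le_mul_left _ ?_
    have h1 : S.image r ⊆ (Finset.univ : Finset (Fin δ → F)).image (mon δ) := by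
      intro g hg
      obtain ⟨G, hG, rfl⟩ := Finset.mem_image.1 hg
      obtain ⟨h2, h3⟩ := hr G hG
      obtain ⟨c, hc⟩ := exists_mon h2.2.1 h3
      exact Finset.mem_image.2 ⟨c, Finset.mem_univ _, hc⟩
    refine (Finset.card_le_card h1).trans (Finset.card_image_le.trans (le_of_eq ?_))
    rw [Finset.card_univ, Fintype.card_fun, Fintype.card_fin]

theorem pairs {k n : ℕ} (hk : 2 ≤ k) (δ : ℕ) (S : Finset ((Fin (k * n) → F) × F[X]))
    (hS : ∀ z ∈ S, Ann (k * n) z.1 z.2 ∧ ∃ g, Rad k z.2 g ∧ g.natDegree = δ) :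
    S.card ≤ 2 ^ ((k - 1) * δ) * Fintype.card F ^ (k * δ) := by
  classical
  have hq : 0 < Fintype.card F := Fintype.card_pos
  have h1 : S.card ≤ Fintype.card F ^ ((k - 1) * δ) * (S.image Prod.snd).card := by
    refine Finset.card_le_mul_card_image (f := Prod.snd) S _ fun G hG => ?_
    obtain ⟨z₀, hz₀, rfl⟩ := Finset.mem_image.1 hG
    obtain ⟨-, g, hg, hgδ⟩ := hS z₀ hz₀
    have h2 : (S.filter fun z => z.2 = z₀.2).card =
        ((S.filter fun z => z.2 = z₀.2).image Prod.fst).card := by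
      refine (Finset.card_image_of_injOn ?_).symm
      intro z hz w hw h
      have hz' := (Finset.mem_filter.1 (Finset.mem_coe.1 hz)).2
      have hw' := (Finset.mem_filter.1 (Finset.mem_coe.1 hw)).2
      exact Prod.ext h (hz'.trans hw'.symm)
    rw [h2]
    refine (card_ann hg.1.ne_zero _ fun a ha => ?_).trans ?_
    · obtain ⟨z, hz, rfl⟩ := Finset.mem_image.1 ha
      have hz' := Finset.mem_filter.1 hz
      rw [← hz'.2]
      exact (hS z hz'.1).1
    · refine Nat.pow_le_pow_right hq ?_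
      have h3 := hg.natDegree_le
      rwa [hgδ] at h3
  have h2 := card_G (k := k) δ (S.image Prod.snd) (by
    intro G hG
    obtain ⟨z, hz, rfl⟩ := Finset.mem_image.1 hG
    exact (hS z hz).2)
  refine (h1.trans (Nat.mul_le_mul_left _ h2)).trans (le_of_eq ?_)
  have h3 : k * δ = (k - 1) * δ + δ := by
    obtain ⟨j, rfl⟩ := Nat.exists_eq_add_of_le' hk
    have : j + 2 - 1 = j + 1 := rfl
    rw [this]
    ring
  rw [h3, pow_add]
  ring

theorem triples {k n : ℕ} (hk : 2 ≤ k) (δ₁ δ₂ : ℕ) (h₁ : δ₁ ≤ n) (h₂ : δ₂ ≤ n)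
    (S : Finset ((Fin (k * n) → F) × F[X] × F[X]))
    (hS : ∀ z ∈ S, IsMin (k * n) z.1 z.2.1 ∧ IsMin (k * n) z.1 z.2.2 ∧ z.2.1 ≠ z.2.2 ∧
      (∃ g, Rad k z.2.1 g ∧ g.natDegree = δ₁) ∧ (∃ g, Rad k z.2.2 g ∧ g.natDegree = δ₂)) :
    S.card * Fintype.card F ^ (k * n) ≤
      2 ^ ((k - 1) * (δ₁ + δ₂)) * Fintype.card F ^ (k * (δ₁ + δ₂)) := by
  classical
  have hq : 0 < Fintype.card F := Fintype.card_pos
  have hk1 : (k - 1) * n ≤ k * n := Nat.mul_le_mul_right _ (Nat.sub_le _ _)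
  have hfib : ∀ P ∈ S.image Prod.snd, (S.filter fun z => z.2 = P).card * Fintype.card F ^ (k * n) ≤
      Fintype.card F ^ ((k - 1) * (δ₁ + δ₂)) := by
    intro P hP
    obtain ⟨z₀, hz₀, rfl⟩ := Finset.mem_image.1 hP
    obtain ⟨m1, m2, hne, ⟨g₁, r₁, e₁⟩, g₂, r₂, e₂⟩ := hS z₀ hz₀
    have hd1 : z₀.2.1.natDegree ≤ (k - 1) * δ₁ := by
      have := r₁.natDegree_le
      rwa [e₁] at this
    have hd2 : z₀.2.2.natDegree ≤ (k - 1) * δ₂ := by
      have := r₂.natDegree_le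
      rwa [e₂] at this
    have h3 : (S.filter fun z => z.2 = z₀.2).card =
        ((S.filter fun z => z.2 = z₀.2).image Prod.fst).card := by
      refine (Finset.card_image_of_injOn ?_).symm
      intro z hz w hw h
      have hz' := (Finset.mem_filter.1 (Finset.mem_coe.1 hz)).2
      have hw' := (Finset.mem_filter.1 (Finset.mem_coe.1 hw)).2
      exact Prod.ext h (hz'.trans hw'.symm)
    rw [h3]
    refine (card_ann2 (N := k * n) (G₁ := z₀.2.1) (G₂ := z₀.2.2) m1.1.ne_zero m2.1.ne_zero ?_ ?_ ?_ _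
      fun a ha => ?_).trans ?_
    · exact hd1.trans ((Nat.mul_le_mul_left _ h₁).trans hk1)
    · exact hd2.trans ((Nat.mul_le_mul_left _ h₂).trans hk1)
    · intro f hf1 hf2 hf3
      by_contra hf0
      have h4 := min_ne m1 m2 hne hf0 hf1 hf2
      rw [← natDegree_lt_iff_degree_lt hf0] at hf3
      omega
    · obtain ⟨z, hz, rfl⟩ := Finset.mem_image.1 ha
      have hz' := Finset.mem_filter.1 hz
      obtain ⟨k1, k2, -, -, -⟩ := hS z hz'.1
      rw [← hz'.2]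
      exact ⟨k1.2.1, k2.2.1⟩
    · refine Nat.pow_le_pow_right hq ?_
      rw [Nat.mul_add]
      exact Nat.add_le_add hd1 hd2
  have himg : (S.image Prod.snd).card ≤
      (2 ^ ((k - 1) * δ₁) * Fintype.card F ^ δ₁) * (2 ^ ((k - 1) * δ₂) * Fintype.card F ^ δ₂) := by
    have h3 : S.image Prod.snd ⊆ (S.image fun z => z.2.1) ×ˢ (S.image fun z => z.2.2) := by
      intro P hP
      obtain ⟨z, hz, rfl⟩ := Finset.mem_image.1 hP
      exact Finset.mem_product.2 ⟨Finset.mem_image.2 ⟨z, hz, rfl⟩, Finset.mem_image.2 ⟨z, hz, rfl⟩⟩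
    refine (Finset.card_le_card h3).trans ?_
    rw [Finset.card_product]
    refine Nat.mul_le_mul ?_ ?_
    · refine card_G (k := k) δ₁ _ fun G hG => ?_
      obtain ⟨z, hz, rfl⟩ := Finset.mem_image.1 hG
      exact (hS z hz).2.2.2.1
    · refine card_G (k := k) δ₂ _ fun G hG => ?_
      obtain ⟨z, hz, rfl⟩ := Finset.mem_image.1 hG
      exact (hS z hz).2.2.2.2
  have hsum : S.card * Fintype.card F ^ (k * n) =
      ∑ P ∈ S.image Prod.snd, (S.filter fun z => z.2 = P).card * Fintype.card F ^ (k * n) := by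
    rw [← Finset.sum_mul]
    congr 1
    exact Finset.card_eq_sum_card_image Prod.snd S
  rw [hsum]
  refine (Finset.sum_le_card_nsmul _ _ _ hfib).trans ?_
  rw [smul_eq_mul]
  refine (Nat.mul_le_mul_right _ himg).trans (le_of_eq ?_)
  have h3 : k * (δ₁ + δ₂) = (k - 1) * (δ₁ + δ₂) + δ₁ + δ₂ := by
    obtain ⟨j, rfl⟩ := Nat.exists_eq_add_of_le' hk
    have : j + 2 - 1 = j + 1 := rfl
    rw [this]
    ring
  have h4 : 2 ^ ((k - 1) * (δ₁ + δ₂)) = 2 ^ ((k - 1) * δ₁) * 2 ^ ((k - 1) * δ₂) := by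
    rw [← pow_add, ← Nat.mul_add]
  rw [h3, h4, pow_add, pow_add]
  ring

omit [Fintype F] in
theorem triple_deg {k n : ℕ} (hk : 2 ≤ k) {a : Fin (k * n) → F} {G₁ G₂ g₁ g₂ : F[X]}
    (h₁ : IsMin (k * n) a G₁) (h₂ : IsMin (k * n) a G₂) (hne : G₁ ≠ G₂)
    (r₁ : Rad k G₁ g₁) (r₂ : Rad k G₂ g₂) (hn : g₂.natDegree ≤ n) :
    n < (k - 1) * g₁.natDegree := by
  have h3 := min_ne h₁ h₂ hne (mul_ne_zero h₁.1.ne_zero h₂.1.ne_zero) (dvd_mul_right _ _)
    (dvd_mul_left _ _)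
  rw [natDegree_mul h₁.1.ne_zero h₂.1.ne_zero] at h3
  have h4 := r₁.natDegree_le
  have h5 := r₂.natDegree_le
  have h6 : (k - 1) * g₂.natDegree ≤ (k - 1) * n := Nat.mul_le_mul_left _ hn
  have h7 : k * n = (k - 1) * n + n := by
    obtain ⟨j, rfl⟩ := Nat.exists_eq_add_of_le' hk
    have : j + 2 - 1 = j + 1 := rfl
    rw [this]
    ring
  omega

end H28WF
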