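import Pool.Agent.H28.WF.MinC
import Pool.Agent.H28.WF.Pairs

/-!
# [WF] IrrA: irregular solutions belonging to one functional `a`

`S` = solutions `y : ι → F[X]` with `y_i^(k-1)` in `Ann a` for all `i`, `k < |ι| ≤ 2 k`, `a ≠ 0`.
Every `i` has some `G ∈ GG k n a` with `G ∣ y_i^(k-1)` (`min_ex`).  `G₁` has the smallest radical
degree `δ₁`.
* `irr_all`: the solutions with `g₁ ∣ y_i` for all `i`: `y_i = g₁ w_i`, `w_i` squarefree monic of
  degree `n - δ₁`, `∑ ε_i w_i^k = C₀ / g₁^k`: at most `M₁` (mean value bound for `n - δ₁`).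
* `one_y`: the number of squarefree monic `y` of degree `n` with `G ∣ y^(k-1)` is `≤ q^(n - deg g)`.
* `others`: the number of `y` with `G ∣ y^(k-1)` for some `G ∈ GG k n a`, `G ≠ G₁`, all these having
  radical degree `≥ δ₂`: at most `A1^n q^(n - δ₂)`.
-/

open Polynomial

namespace H28WF

variable {F : Type*} [Field F] [Fintype F]

omit [Fintype F] in
theorem irr_all {k n : ℕ} {ι : Type} [Fintype ι] (hι : Fintype.card ι ≤ 2 * k) (ε : ι → F)
    (hε : ∀ i, ε i ≠ 0) (C₀ : F[X]) {g : F[X]} (hg : g.Monic) {M : ℕ} (hgn : g.natDegree ≤ n)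
    (hM : MB F k (n - g.natDegree) M) (S : Finset (ι → F[X]))
    (hS : ∀ y ∈ S, IsSol k n ε C₀ y ∧ ∀ i, g ∣ y i) : S.card ≤ M := by
  classical
  rcases S.eq_empty_or_nonempty with rfl | ⟨y₀, hy₀⟩
  · simp
  have hg0 : g ≠ 0 := hg.ne_zero
  have hdiv : g ^ k ∣ C₀ := by
    rw [← (hS y₀ hy₀).1.2]
    exact Finset.dvd_sum fun i _ => Dvd.dvd.mul_left (pow_dvd_pow_of_dvd ((hS y₀ hy₀).2 i) k) _
  obtain ⟨C₁, hC₁⟩ := hdiv
  have hw : ∀ y ∈ S, ∀ i, g * (y i / g) = y i := fun y hy i =>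
    EuclideanDomain.mul_div_cancel' hg0 ((hS y hy).2 i)
  have hinj : Set.InjOn (fun (y : ι → F[X]) (i : ι) => y i / g) S := by
    intro y hy y' hy' h
    funext i
    rw [← hw y hy i, ← hw y' hy' i]
    exact congrArg (fun z => g * z) (congrFun h i)
  rw [← Finset.card_image_of_injOn hinj]
  refine hM ι hι ε hε C₁ _ fun w hw' => ?_
  obtain ⟨y, hy, rfl⟩ := Finset.mem_image.1 hw'
  obtain ⟨⟨hsq, hsum⟩, -⟩ := hS y hy
  have hmon : ∀ i, (y i / g).Monic := fun i =>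
    Polynomial.Monic.of_mul_monic_left hg (by rw [hw y hy i]; exact (hsq i).1)
  refine ⟨fun i => ⟨hmon i, ?_, ?_⟩, ?_⟩
  · have h1 := Polynomial.Monic.natDegree_mul hg (hmon i)
    rw [hw y hy i, (hsq i).2.1] at h1
    show (y i / g).natDegree = n - g.natDegree
    omega
  · exact (hsq i).2.2.squarefree_of_dvd ⟨g, by rw [mul_comm]; exact (hw y hy i).symm⟩
  · have h2 : g ^ k * ∑ i, C (ε i) * (y i / g) ^ k = g ^ k * C₁ := by
      rw [← hC₁, ← hsum, Finset.mul_sum]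
      refine Finset.sum_congr rfl fun i _ => ?_
      conv_rhs => rw [← hw y hy i, mul_pow]
      ring
    exact mul_left_cancel₀ (pow_ne_zero k hg0) h2

theorem one_y {n : ℕ} {g : F[X]} (hg : g.Monic) (S : Finset F[X])
    (hS : ∀ y ∈ S, y.Monic ∧ y.natDegree = n ∧ g ∣ y) :
    S.card ≤ Fintype.card F ^ (n - g.natDegree) := by
  classical
  have hsub : S ⊆ (Finset.univ : Finset (Fin (n - g.natDegree) → F)).image
      (fun c => g * mon (n - g.natDegree) c) := by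
    intro y hy
    obtain ⟨h1, h2, w, rfl⟩ := hS y hy
    have hw : w.Monic := Polynomial.Monic.of_mul_monic_left hg h1
    have h3 : w.natDegree = n - g.natDegree := by
      have := Polynomial.Monic.natDegree_mul hg hw
      omega
    obtain ⟨c, hc⟩ := exists_mon hw h3
    exact Finset.mem_image.2 ⟨c, Finset.mem_univ _, by rw [hc]⟩
  calc S.card ≤ _ := Finset.card_le_card hsub
    _ ≤ (Finset.univ : Finset (Fin (n - g.natDegree) → F)).card := Finset.card_image_le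
    _ = Fintype.card F ^ (n - g.natDegree) := by
      rw [Finset.card_univ, Fintype.card_fun, Fintype.card_fin]

theorem others {k n : ℕ} (hk : 2 ≤ k) (hp : ∀ e : ℕ, 1 ≤ e → e < k → (e : F) ≠ 0)
    (a : Fin (k * n) → F) (G₁ : F[X]) (δ₂ : ℕ)
    (hδ : ∀ G g : F[X], GG k n a G → G ≠ G₁ → Rad k G g → δ₂ ≤ g.natDegree)
    (S : Finset F[X])
    (hS : ∀ y ∈ S, Sq n y ∧ ∃ G, GG k n a G ∧ G ≠ G₁ ∧ G ∣ y ^ (k - 1)) :
    S.card ≤ A1 k ^ n * Fintype.card F ^ (n - δ₂) := by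
  classical
  have hex : ∀ y : F[X], ∃ G : F[X], y ∈ S → (GG k n a G ∧ G ≠ G₁ ∧ G ∣ y ^ (k - 1)) := by
    intro y
    by_cases hy : y ∈ S
    · obtain ⟨G, hG⟩ := (hS y hy).2
      exact ⟨G, fun _ => hG⟩
    · exact ⟨0, fun h => absurd h hy⟩
  choose Gf hGf using hex
  have h1 : (S.image Gf).card ≤ A1 k ^ n := by
    refine minC hk hp a _ fun G hG => ?_
    obtain ⟨y, hy, rfl⟩ := Finset.mem_image.1 hG
    exact (hGf y hy).1
  have h2 : S.card ≤ Fintype.card F ^ (n - δ₂) * (S.image Gf).card := by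
    refine Finset.card_le_mul_card_image S _ fun G hG => ?_
    obtain ⟨y, hy, rfl⟩ := Finset.mem_image.1 hG
    obtain ⟨hGG, hne, hd⟩ := hGf y hy
    obtain ⟨g, hr, -⟩ := rad_ex hk hGG.1.1 (hS y hy).1.2.2 hd
    refine (one_y hr.2.1 _ fun z hz => ?_).trans
      (Nat.pow_le_pow_right Fintype.card_pos (Nat.sub_le_sub_left (hδ _ g hGG hne hr) n))
    obtain ⟨hz1, hz2⟩ := Finset.mem_filter.1 hz
    obtain ⟨hm, hn, -⟩ := (hS z hz1).1
    refine ⟨hm, hn, hr.dvd_of_dvd_pow (m := k - 1) ?_⟩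
    rw [← hz2]
    exact (hGf z hz1).2.2
  calc S.card ≤ _ := h2
    _ ≤ Fintype.card F ^ (n - δ₂) * A1 k ^ n := Nat.mul_le_mul_left _ h1
    _ = _ := mul_comm _ _

omit [Fintype F] in
/-- if there is only one element in `GG k n a` -/
theorem irr_a_one {k n : ℕ} (hk : 2 ≤ k) {ι : Type} [Fintype ι] (hι : Fintype.card ι ≤ 2 * k)
    (ε : ι → F) (hε : ∀ i, ε i ≠ 0) (C₀ : F[X]) (a : Fin (k * n) → F) {G₁ g₁ : F[X]}
    (r₁ : Rad k G₁ g₁) (hn : g₁.natDegree ≤ n) (huniq : ∀ G, GG k n a G → G = G₁) {M : ℕ}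
    (hM : MB F k (n - g₁.natDegree) M) (S : Finset (ι → F[X]))
    (hS : ∀ y ∈ S, IsSol k n ε C₀ y ∧ ∀ i, Ann (k * n) a (y i ^ (k - 1))) : S.card ≤ M := by
  refine irr_all hι ε hε C₀ r₁.2.1 hn hM S fun y hy => ⟨(hS y hy).1, fun i => ?_⟩
  have hsq := (hS y hy).1.1 i
  obtain ⟨G', hmin, hd⟩ := min_ex (hsq.1.pow (k - 1)) ((hS y hy).2 i)
  have hG' : G' = G₁ := huniq G' ⟨hmin, y i, hsq, hd⟩
  rw [hG'] at hd
  exact r₁.dvd_of_dvd_pow hd

end H28WF
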