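import Pool.Agent.H28.WF.IrrA

/-!
# [WF] IrrB: irregular solutions belonging to one functional `a`, general bound

* `irr_a`: split by `I₁ = {i : G₁ ∣ y_i^(k-1)}`.  `I₁ = ι`: `M₁`.  `|I₁| ≤ k`: for each `I₁`,
  `q^((n-δ₁)|I₁|) (A1^n q^(n-δ₂))^(|ι|-|I₁|) ≤ A1^(2kn) q^(k(n-δ₁) + k(n-δ₂))` because
  `n - δ₂ ≤ n - δ₁` and `|ι| - |I₁| ≤ k + (k - |I₁|)`.  `k < |I₁| < |ι|`: choose the `y_i`,
  `i ∉ I₁` (at most `k - 1` of them), then `y_i = g₁ w_i` for `i ∈ I₁`: at most
  `M₁ (A1^n q^(n-δ₂))^(k-1)`.  The number of `I₁` is at most `4^k`.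
-/

open Polynomial

namespace H28WF

variable {F : Type*} [Field F] [Fintype F]

omit [Fintype F] in
/-- the product of two constants over a set and its complement -/
private theorem prod_two {ι : Type} [Fintype ι] [DecidableEq ι] (I : Finset ι) (u v : ℕ) :
    (∏ i : ι, if i ∈ I then u else v) = u ^ I.card * v ^ (Fintype.card ι - I.card) := by
  rw [Finset.prod_ite, Finset.prod_const, Finset.prod_const, Finset.filter_mem_eq_inter,
    Finset.univ_inter]
  congr 2
  rw [← Finset.card_compl]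
  congr 1
  ext i
  simp

omit [Fintype F] in
/-- the exponents of the second case -/
private theorem exp_le {k D₁ D₂ j m : ℕ} (h : D₂ ≤ D₁) (hj : j ≤ k) (hm : m ≤ 2 * k) :
    D₁ * j + D₂ * (m - j) ≤ k * D₁ + k * D₂ := by
  obtain ⟨r, rfl⟩ := Nat.exists_eq_add_of_le hj
  have h1 : m - j ≤ r + (j + r) := by omega
  calc D₁ * j + D₂ * (m - j) ≤ D₁ * j + D₂ * (r + (j + r)) := by gcongr
    _ = D₁ * j + D₂ * r + (j + r) * D₂ := by ring
    _ ≤ D₁ * j + D₁ * r + (j + r) * D₂ := by gcongr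
    _ = _ := by ring

/-- the general bound -/
theorem irr_a {k n : ℕ} (hk : 2 ≤ k) (hp : ∀ e : ℕ, 1 ≤ e → e < k → (e : F) ≠ 0)
    {ι : Type} [Fintype ι] (hι : Fintype.card ι ≤ 2 * k) (hι' : k < Fintype.card ι) (ε : ι → F)
    (hε : ∀ i, ε i ≠ 0) (C₀ : F[X]) (a : Fin (k * n) → F) {G₁ g₁ : F[X]} (h₁ : GG k n a G₁)
    (r₁ : Rad k G₁ g₁) (δ₂ : ℕ) (h12 : g₁.natDegree ≤ δ₂) (hδn : δ₂ ≤ n)
    (hδ : ∀ G g : F[X], GG k n a G → G ≠ G₁ → Rad k G g → δ₂ ≤ g.natDegree) {M : ℕ}
    (hM : MB F k (n - g₁.natDegree) M) (S : Finset (ι → F[X]))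
    (hS : ∀ y ∈ S, IsSol k n ε C₀ y ∧ ∀ i, Ann (k * n) a (y i ^ (k - 1))) :
    S.card ≤ M + 4 ^ k * (A1 k ^ (2 * k * n) *
        Fintype.card F ^ (k * (n - g₁.natDegree) + k * (n - δ₂))) +
      4 ^ k * (M * (A1 k ^ n * Fintype.card F ^ (n - δ₂)) ^ (k - 1)) := by
  classical
  have hq : 0 < Fintype.card F := Fintype.card_pos
  have hA : 0 < A1 k := by
    unfold A1
    positivity
  set q := Fintype.card F with hqd
  set u : ℕ := q ^ (n - g₁.natDegree) with hu
  set v : ℕ := A1 k ^ n * q ^ (n - δ₂) with hv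
  have hu0 : 0 < u := by positivity
  have hv0 : 0 < v := by positivity
  have hn1 : g₁.natDegree ≤ n := h12.trans hδn
  -- the set of the good indices
  set J : (ι → F[X]) → Finset ι := fun y => Finset.univ.filter fun i => G₁ ∣ y i ^ (k - 1) with hJ
  set P : Finset ι → Finset (ι → F[X]) := fun I => S.filter fun y => J y = I with hP
  have hPm : ∀ I y, y ∈ P I → y ∈ S ∧ J y = I := fun I y hy => by
    rw [hP] at hy
    exact Finset.mem_filter.1 hy
  have hmem : ∀ I y, y ∈ P I → ∀ i, (i ∈ I ↔ G₁ ∣ y i ^ (k - 1)) := fun I y hy i => by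
    rw [← (hPm I y hy).2, hJ]
    simp
  -- the values at the indices of `I`
  have hcu : ∀ I, ∀ i ∈ I, ((P I).image fun y => y i).card ≤ u := by
    intro I i hi
    rw [hu, hqd]
    refine one_y r₁.2.1 _ fun z hz => ?_
    obtain ⟨y, hy, rfl⟩ := Finset.mem_image.1 hz
    have h2 := (hS y (hPm I y hy).1).1.1 i
    exact ⟨h2.1, h2.2.1, r₁.dvd_of_dvd_pow ((hmem I y hy i).1 hi)⟩
  -- the values at the other indices
  have hcv : ∀ I, ∀ i ∉ I, ((P I).image fun y => y i).card ≤ v := by
    intro I i hi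
    rw [hv, hqd]
    refine others hk hp a G₁ δ₂ hδ _ fun z hz => ?_
    obtain ⟨y, hy, rfl⟩ := Finset.mem_image.1 hz
    have h2 := (hS y (hPm I y hy).1).1.1 i
    obtain ⟨G', hmin, hd⟩ := min_ex (h2.1.pow (k - 1)) ((hS y (hPm I y hy).1).2 i)
    refine ⟨h2, G', ⟨hmin, y i, h2, hd⟩, fun h3 => hi ?_, hd⟩
    rw [hmem I y hy i, ← h3]
    exact hd
  -- the second case
  have c2 : ∀ I : Finset ι, I.card ≤ k → (P I).card ≤
      A1 k ^ (2 * k * n) * q ^ (k * (n - g₁.natDegree) + k * (n - δ₂)) := by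
    intro I hI
    have h1 : (P I).card ≤ (Fintype.piFinset fun i => (P I).image fun y => y i).card :=
      Finset.card_le_card fun y hy => Fintype.mem_piFinset.2 fun i => Finset.mem_image_of_mem _ hy
    rw [Fintype.card_piFinset] at h1
    have h2 : (∏ i, ((P I).image fun y => y i).card) ≤ ∏ i, (if i ∈ I then u else v) := by
      refine Finset.prod_le_prod' fun i _ => ?_
      by_cases hi : i ∈ I
      · rw [if_pos hi]
        exact hcu I i hi
      · rw [if_neg hi]
        exact hcv I i hi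
    rw [prod_two] at h2
    refine (h1.trans h2).trans ?_
    rw [hu, hv, mul_pow, ← pow_mul, ← pow_mul, ← pow_mul]
    calc q ^ ((n - g₁.natDegree) * I.card) * (A1 k ^ (n * (Fintype.card ι - I.card)) *
          q ^ ((n - δ₂) * (Fintype.card ι - I.card))) =
        A1 k ^ (n * (Fintype.card ι - I.card)) *
          q ^ ((n - g₁.natDegree) * I.card + (n - δ₂) * (Fintype.card ι - I.card)) := by
          rw [pow_add]
          ring
      _ ≤ _ := by
        refine Nat.mul_le_mul (Nat.pow_le_pow_right hA ?_) (Nat.pow_le_pow_right hq ?_)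
        · rw [mul_comm (2 * k) n]
          exact Nat.mul_le_mul_left _ (by omega)
        · exact exp_le (by omega) hI hι
  -- the third case
  have c3 : ∀ I : Finset ι, k < I.card → (P I).card ≤ M * v ^ (k - 1) := by
    intro I hI
    set R : (ι → F[X]) → ({i // i ∉ I} → F[X]) := fun y i => y i with hR
    have h1 : (P I).card ≤ M * ((P I).image R).card := by
      refine Finset.card_le_mul_card_image _ _ fun r _ => ?_
      set Q : Finset (ι → F[X]) := (P I).filter fun y => R y = r with hQ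
      have hQm : ∀ y ∈ Q, y ∈ P I ∧ R y = r := fun y hy => Finset.mem_filter.1 hy
      have hinj : Set.InjOn (fun (y : ι → F[X]) (i : {i // i ∈ I}) => y i) (Q : Set (ι → F[X])) := by
        intro y hy y' hy' h
        funext i
        by_cases hi : i ∈ I
        · exact congrFun h ⟨i, hi⟩
        · have e1 := congrFun (hQm y hy).2 ⟨i, hi⟩
          have e2 := congrFun (hQm y' hy').2 ⟨i, hi⟩
          exact e1.trans e2.symm
      rw [← Finset.card_image_of_injOn hinj]
      refine irr_all (k := k) (n := n) (ι := {i // i ∈ I}) ?_ (fun i => ε i) (fun i => hε i)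
        (C₀ - ∑ i : {i // i ∉ I}, C (ε i) * r i ^ k) r₁.2.1 hn1 hM _ fun w hw => ?_
      · refine le_trans ?_ hι
        exact Fintype.card_subtype_le _
      · obtain ⟨y, hy, rfl⟩ := Finset.mem_image.1 hw
        obtain ⟨hy1, hy2⟩ := hQm y hy
        obtain ⟨⟨hsq, hsum⟩, -⟩ := hS y (hPm I y hy1).1
        refine ⟨⟨fun i => hsq i, ?_⟩, fun i => r₁.dvd_of_dvd_pow ((hmem I y hy1 i).1 i.2)⟩
        rw [← hsum, ← hy2, eq_sub_iff_add_eq]
        have e := Fintype.sum_subtype_add_sum_subtype (fun i => i ∈ I) fun i => C (ε i) * y i ^ k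
        convert e using 2
        refine Finset.sum_congr ?_ fun _ _ => rfl
        ext i
        simp only [Finset.mem_univ]
    have h2 : ((P I).image R).card ≤ v ^ (Fintype.card ι - I.card) := by
      have h3 : ((P I).image R).card ≤
          (Fintype.piFinset fun i : {i // i ∉ I} => (P I).image fun y => y i).card := by
        refine Finset.card_le_card fun w hw => ?_
        obtain ⟨y, hy, rfl⟩ := Finset.mem_image.1 hw
        exact Fintype.mem_piFinset.2 fun i => Finset.mem_image_of_mem (fun y => y (i : ι)) hy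
      rw [Fintype.card_piFinset] at h3
      refine h3.trans ((Finset.prod_le_pow_card (Finset.univ : Finset {i // i ∉ I}) _ v
        fun i _ => hcv I (i : ι) i.2).trans (le_of_eq ?_))
      congr 1
      rw [Finset.card_univ, Fintype.card_subtype_compl, Fintype.card_coe]
    refine h1.trans (Nat.mul_le_mul_left _ (h2.trans (Nat.pow_le_pow_right hv0 ?_)))
    omega
  -- the first case
  have c1 : (P Finset.univ).card ≤ M := by
    refine irr_all hι ε hε C₀ r₁.2.1 hn1 hM _ fun y hy => ⟨(hS y (hPm _ y hy).1).1, fun i => ?_⟩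
    exact r₁.dvd_of_dvd_pow ((hmem _ y hy i).1 (Finset.mem_univ i))
  set X₂ : ℕ := A1 k ^ (2 * k * n) * q ^ (k * (n - g₁.natDegree) + k * (n - δ₂)) with hX₂
  set X₃ : ℕ := M * v ^ (k - 1) with hX₃
  have hsum : S.card = ∑ I : Finset ι, (P I).card :=
    Finset.card_eq_sum_card_fiberwise (f := J) fun y _ => Finset.mem_coe.2 (Finset.mem_univ _)
  have hle : ∀ I : Finset ι, (P I).card ≤ (if I = Finset.univ then M else 0) + (X₂ + X₃) := by
    intro I
    by_cases hI : I = Finset.univ
    · rw [if_pos hI, hI]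
      exact c1.trans (Nat.le_add_right _ _)
    · rw [if_neg hI, zero_add]
      rcases Nat.lt_or_ge k I.card with h | h
      · exact (c3 I h).trans (Nat.le_add_left _ _)
      · exact (c2 I h).trans (Nat.le_add_right _ _)
  have hcard : Fintype.card (Finset ι) ≤ 4 ^ k := by
    rw [Fintype.card_finset]
    calc 2 ^ Fintype.card ι ≤ 2 ^ (2 * k) := Nat.pow_le_pow_right (by norm_num) hι
      _ = 4 ^ k := by rw [pow_mul]; norm_num
  calc S.card = ∑ I : Finset ι, (P I).card := hsum
    _ ≤ ∑ I : Finset ι, ((if I = Finset.univ then M else 0) + (X₂ + X₃)) :=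
      Finset.sum_le_sum fun I _ => hle I
    _ = M + Fintype.card (Finset ι) * (X₂ + X₃) := by
      rw [Finset.sum_add_distrib, Finset.sum_ite_eq' , if_pos (Finset.mem_univ _), Finset.sum_const,
        Finset.card_univ, smul_eq_mul]
    _ ≤ M + 4 ^ k * (X₂ + X₃) := Nat.add_le_add_left (Nat.mul_le_mul_right _ hcard) _
    _ = M + 4 ^ k * X₂ + 4 ^ k * X₃ := by ring

end H28WF
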