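import Pool.Agent.H28.WF.Com

/-!
# [WF] MajT: major arcs, one functional

`u` minimal annihilator of `a` of degree `d ≤ n`.  `lam f := pr a (f %ₘ u)` is linear, kills the
multiples of `u`, equals `pr a f` for `deg f < k n`, is primitive.  `(mon n c)^k = X^(kn) + f`,
`deg f < k n`, `pr a` of it is `pr a f = lam ((mon n c)^k) - lam (X^(kn))`.  So
`T a = ψ(- lam(X^(kn))) ∑_{y monic, deg n} ψ(lam(y^k))`, and by `per`, `per_shift` this is
`q^(n-d) S(u, lam)` up to a unit.  `com`: `‖T a‖^k ≤ q^(k(n-d)) q^((k-1) d) = q^(kn - d)`.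
-/

open Polynomial

namespace H28WF

private theorem mt_per {F : Type*} [Field F] {k : ℕ} {u : F[X]} {lam : F[X] →ₗ[F] F}
    (h0 : ∀ f : F[X], lam (u * f) = 0) (f g : F[X]) :
    lam ((f + u * g) ^ k) = lam (f ^ k) := by
  obtain ⟨h, hh⟩ := sub_dvd_pow_sub_pow (f + u * g) f k
  have h1 : (f + u * g) ^ k = f ^ k + u * (g * h) := by
    linear_combination hh
  rw [h1, map_add, h0, add_zero]

theorem majT {F : Type*} [Field F] [Fintype F] (ψ : AddChar F ℂ) (hψ : ψ ≠ 1) {k n : ℕ}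
    (hk : 3 ≤ k) (hk0 : (k : F) ≠ 0) (hq : k ^ (2 * k) ≤ Fintype.card F) (a : Fin (k * n) → F)
    {u : F[X]} (hu : IsMin (k * n) a u) (hd : u.natDegree ≤ n) :
    ‖T ψ k n a‖ ^ k * (Fintype.card F : ℝ) ^ u.natDegree ≤ (Fintype.card F : ℝ) ^ (k * n) := by
  obtain ⟨hum, hann, hmin⟩ := hu
  obtain ⟨lam, hlam⟩ : ∃ lam : F[X] →ₗ[F] F, ∀ f, lam f = pr (k * n) a (f %ₘ u) :=
    ⟨(pr (k * n) a) ∘ₗ (modByMonicHom u), fun f => rfl⟩
  have h0 : ∀ f : F[X], lam (u * f) = 0 := by
    intro f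
    rw [hlam, (modByMonic_eq_zero_iff_dvd hum).2 (dvd_mul_right _ _), map_zero]
  have hlt : ∀ f : F[X], f.degree < ((k * n : ℕ) : WithBot ℕ) → lam f = pr (k * n) a f := by
    intro f hf
    have h1 : f %ₘ u + u * (f /ₘ u) = f := modByMonic_add_div f u
    have h2 : u * (f /ₘ u) = f - f %ₘ u := by linear_combination h1
    have h3 : (u * (f /ₘ u)).degree < ((k * n : ℕ) : WithBot ℕ) := by
      rw [h2]
      exact lt_of_le_of_lt (degree_sub_le _ _) (max_lt hf (lt_of_le_of_lt degree_modByMonic_le_left hf))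
    have h4 := hann _ h3
    rw [hlam]
    conv_rhs => rw [← h1]
    rw [map_add, h4, add_zero]
  have hprim : ∀ v : F[X], v.Monic → v ∣ u → (∀ f : F[X], lam (v * f) = 0) → v = u := by
    intro v hv hvu hvk
    refine hmin v hv hvu ?_
    intro f hf
    rw [← hlt _ hf]
    exact hvk f
  have hcom := com ψ hψ hk hk0 hq hum lam h0 hprim
  -- the sum
  have hterm : ∀ c : Fin n → F, pr (k * n) a (mon n c ^ k) = -lam (X ^ (k * n)) + lam (mon n c ^ k) := by
    intro c
    have hm1 : (mon n c ^ k).Monic := (mon_monic n c).pow k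
    have hd1 : (mon n c ^ k).natDegree = k * n := by
      rw [(mon_monic n c).natDegree_pow, mon_natDegree]
    have hdeg : (mon n c ^ k).degree = ((k * n : ℕ) : WithBot ℕ) := by
      rw [degree_eq_natDegree hm1.ne_zero, hd1]
    have h1 : (mon n c ^ k - X ^ (k * n)).degree < ((k * n : ℕ) : WithBot ℕ) := by
      have h2 := degree_sub_lt_left (p := mon n c ^ k) (q := X ^ (k * n)) (by rw [hdeg, degree_X_pow])
        hm1.ne_zero (by rw [hm1.leadingCoeff, leadingCoeff_X_pow])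
      rwa [hdeg] at h2
    have h3 := hlt _ h1
    rw [map_sub, map_sub, pr_X_pow_of_le (k * n) a le_rfl, sub_zero] at h3
    rw [← h3]
    ring
  have hT : T ψ k n a = ψ (-lam (X ^ (k * n))) * ∑ c : Fin n → F, ψ (lam (mon n c ^ k)) := by
    unfold T
    rw [Finset.mul_sum]
    refine Finset.sum_congr rfl fun c _ => ?_
    rw [hterm, AddChar.map_add_eq_mul]
  have hsum : ∑ c : Fin n → F, ψ (lam (mon n c ^ k)) =
      (Fintype.card F : ℂ) ^ (n - u.natDegree) * ∑ c : Fin u.natDegree → F, ψ (lam (low _ c ^ k)) := by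
    have h1 := per hum hd (fun f => ψ (lam ((X ^ n + f) ^ k))) (fun f g => by
      rw [← add_assoc, mt_per h0])
    have h2 := per_shift hum (fun f => ψ (lam (f ^ k))) (fun f g => by rw [mt_per h0]) (X ^ n)
    rw [h2] at h1
    exact h1
  have hq1 : (1 : ℝ) ≤ Fintype.card F := by exact_mod_cast Fintype.card_pos
  rw [hT, hsum, norm_mul, AddChar.norm_apply, one_mul, norm_mul, norm_pow, Complex.norm_natCast, mul_pow,
    ← pow_mul]
  calc (Fintype.card F : ℝ) ^ ((n - u.natDegree) * k) *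
        ‖∑ c : Fin u.natDegree → F, ψ (lam (low _ c ^ k))‖ ^ k * (Fintype.card F : ℝ) ^ u.natDegree
      ≤ (Fintype.card F : ℝ) ^ ((n - u.natDegree) * k) * (Fintype.card F : ℝ) ^ ((k - 1) * u.natDegree) *
          (Fintype.card F : ℝ) ^ u.natDegree := by
        refine mul_le_mul_of_nonneg_right ?_ (by positivity)
        exact mul_le_mul_of_nonneg_left hcom (by positivity)
    _ = (Fintype.card F : ℝ) ^ (k * n) := by
        rw [← pow_add, ← pow_add]
        congr 1
        obtain ⟨k', rfl⟩ : ∃ k', k = k' + 1 := ⟨k - 1, by omega⟩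
        obtain ⟨m, hm⟩ : ∃ m, n = u.natDegree + m := ⟨n - u.natDegree, by omega⟩
        rw [hm, Nat.add_sub_cancel, Nat.add_sub_cancel_left]
        ring

end H28WF
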