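import Pool.Agent.H28.WF.MinJ
import Pool.Agent.H28.WF.BezR
import Pool.Agent.H28.WF.Bas

/-!
# [WF] Min3a: the number of minimal annihilators of one type

Unknowns: the lower coefficients of the `h e` (`σ = Σ e, Fin (m e)`, at most `n` of them), equations
`pr a ((∏ h e ^ (e+1)) X^j) = 0`, `j < k n - ∑ (e+1) m_e` (`PMX.line`, `PMX.prod_pow`,
`PMX.functional`), total degree `≤ ∑_{e < k-1} (e+1) ≤ k^2`.  `minJ` says that the Jacobian is
injective.  `bez_inj` with `r = k n - deg G ≤ k n`.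
-/

open Polynomial

namespace H28WF

section

variable {F : Type*} [Field F] {κ : ℕ}

private noncomputable def Phi (m : Fin κ → ℕ) (x : (Σ e : Fin κ, Fin (m e)) → F) (e : Fin κ) :
    F[X] := mon (m e) (fun i => x ⟨e, i⟩)

private noncomputable def dPhi (m : Fin κ → ℕ) (v : (Σ e : Fin κ, Fin (m e)) → F) (e : Fin κ) :
    F[X] := low (m e) (fun i => v ⟨e, i⟩)

private noncomputable def HH (m : Fin κ → ℕ) (x v : (Σ e : Fin κ, Fin (m e)) → F) : F[X] :=
  ∑ e, (∏ e' ∈ Finset.univ.erase e, Phi m x e' ^ ((e' : ℕ) + 1)) *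
        (((e : ℕ) + 1 : ℕ) * Phi m x e ^ (e : ℕ) * dPhi m v e)

private theorem pline (m : Fin κ → ℕ) (e : Fin κ) :
    PMX (σ := Σ e : Fin κ, Fin (m e)) (K := F) 1 (fun x => Phi m x e) (fun _ v => dPhi m v e) := by
  have h := PMX.line (σ := Σ e : Fin κ, Fin (m e)) (K := F) (D := 1) le_rfl (n := m e)
    (X ^ (m e)) (fun i => ⟨e, i⟩)
  unfold Phi dPhi mon low
  exact h

private theorem pmx (m : Fin κ → ℕ) :
    PMX (σ := Σ e : Fin κ, Fin (m e)) (K := F) (∑ e : Fin κ, ((e : ℕ) + 1) * 1)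
      (fun x => ∏ e, Phi m x e ^ ((e : ℕ) + 1)) (fun x v => HH m x v) := by
  have h := PMX.prod_pow (σ := Σ e : Fin κ, Fin (m e)) (K := F) Finset.univ (fun _ : Fin κ => 1)
    (fun e : Fin κ => (e : ℕ) + 1) (f := fun e x => Phi m x e) (Df := fun e _ v => dPhi m v e)
    (fun e _ => pline m e)
  simp only [Nat.add_sub_cancel] at h
  exact h

private theorem pm (m : Fin κ → ℕ) (N : ℕ) (a : Fin N → F) (l : ℕ) :
    PM (σ := Σ e : Fin κ, Fin (m e)) (K := F) (∑ e : Fin κ, ((e : ℕ) + 1) * 1)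
      (fun x => pr N a ((∏ e, Phi m x e ^ ((e : ℕ) + 1)) * X ^ l))
      (fun x v => pr N a (HH m x v * X ^ l)) := by
  have h := ((pmx (F := F) m).mul (PMX.const 0 (X ^ l))).functional N a
  simp only [mul_zero, add_zero] at h
  simpa only [pr_apply] using h

private theorem sum_le (κ : ℕ) : ∑ e : Fin κ, ((e : ℕ) + 1) * 1 ≤ (κ + 1) ^ 2 := by
  calc ∑ e : Fin κ, ((e : ℕ) + 1) * 1 ≤ ∑ _e : Fin κ, (κ + 1) :=
        Finset.sum_le_sum fun e _ => by have := e.2; omega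
    _ = κ * (κ + 1) := by simp
    _ ≤ (κ + 1) ^ 2 := by nlinarith

private theorem Phi_coeff (m : Fin κ → ℕ) (h : Fin κ → F[X]) (hm : ∀ e, (h e).Monic)
    (hd : ∀ e, (h e).natDegree = m e) :
    Phi m (fun s : Σ e : Fin κ, Fin (m e) => (h s.1).coeff (s.2 : ℕ)) = h := by
  funext e
  obtain ⟨c, hc⟩ := exists_mon (hm e) (hd e)
  have h1 : (fun i : Fin (m e) => (h e).coeff (i : ℕ)) = c := by
    funext i
    rw [← hc, mon, coeff_add, coeff_X_pow, if_neg (by have := i.2; omega), zero_add, low_coeff]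
  show mon (m e) (fun i => (h e).coeff (i : ℕ)) = h e
  rw [h1, hc]

end

theorem min3a {F : Type*} [Field F] {k n : ℕ} (hk : 2 ≤ k)
    (hp : ∀ e : ℕ, 1 ≤ e → e < k → (e : F) ≠ 0) (a : Fin (k * n) → F) (m : Fin (k - 1) → ℕ)
    (hmn : ∑ e, m e ≤ n) (S : Finset (Fin (k - 1) → F[X]))
    (hS : ∀ h ∈ S, (∀ e, (h e).Monic ∧ (h e).natDegree = m e ∧ Squarefree (h e)) ∧
      (∀ e e', e ≠ e' → IsCoprime (h e) (h e')) ∧ IsMin (k * n) a (∏ e, h e ^ ((e : ℕ) + 1))) :
    S.card ≤ 2 ^ (k * n) * (k ^ 2 + 1) ^ n := by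
  classical
  set Ψ : (Fin (k - 1) → F[X]) → ((Σ e : Fin (k - 1), Fin (m e)) → F) :=
    fun h s => (h s.1).coeff (s.2 : ℕ) with hΨ
  have hPhi : ∀ h ∈ S, Phi m (Ψ h) = h := fun h hh =>
    Phi_coeff m h (fun e => ((hS h hh).1 e).1) (fun e => ((hS h hh).1 e).2.1)
  have hinj : Set.InjOn Ψ (S : Set (Fin (k - 1) → F[X])) := by
    intro h hh h' hh' he
    rw [← hPhi h hh, ← hPhi h' hh', he]
  have hdeg : ∀ h ∈ S, (∏ e, h e ^ ((e : ℕ) + 1)).natDegree =
      ∑ e : Fin (k - 1), ((e : ℕ) + 1) * m e := by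
    intro h hh
    rw [natDegree_prod_of_monic _ _ (fun e _ => ((hS h hh).1 e).1.pow _)]
    refine Finset.sum_congr rfl fun e _ => ?_
    rw [((hS h hh).1 e).1.natDegree_pow, ((hS h hh).1 e).2.1]
  set d : ℕ := ∑ e : Fin (k - 1), ((e : ℕ) + 1) * m e with hd
  have key := bez_inj (σ := Σ e : Fin (k - 1), Fin (m e)) (K := F) (k * n - d) _
    (fun l x => pr (k * n) a ((∏ e, Phi m x e ^ ((e : ℕ) + 1)) * X ^ (l : ℕ)))
    (fun l x v => pr (k * n) a (HH m x v * X ^ (l : ℕ))) (fun l => pm m (k * n) a l)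
    (S.image Ψ) ?_ ?_
  · rw [Finset.card_image_of_injOn hinj] at key
    refine key.trans (Nat.mul_le_mul (Nat.pow_le_pow_right (by norm_num) (Nat.sub_le _ _)) ?_)
    have h1 : Fintype.card (Σ e : Fin (k - 1), Fin (m e)) ≤ n := by
      rw [Fintype.card_sigma]; simpa using hmn
    have h2 : ∑ e : Fin (k - 1), ((e : ℕ) + 1) * 1 ≤ k ^ 2 := by
      have := sum_le (k - 1)
      rwa [show k - 1 + 1 = k by omega] at this
    exact (Nat.pow_le_pow_left (by omega) _).trans (Nat.pow_le_pow_right (by positivity) h1)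
  · intro x hx l
    obtain ⟨h, hh, rfl⟩ := Finset.mem_image.1 hx
    simp only [hPhi h hh]
    refine (hS h hh).2.2.2.1 _ ?_
    have hG : (∏ e, h e ^ ((e : ℕ) + 1)).Monic := (hS h hh).2.2.1
    have hl := l.2
    rw [degree_eq_natDegree (hG.mul (monic_X_pow _)).ne_zero, hG.natDegree_mul (monic_X_pow _),
      natDegree_X_pow, hdeg h hh]
    exact_mod_cast (by omega : d + (l : ℕ) < k * n)
  · intro x hx v hv
    obtain ⟨h, hh, rfl⟩ := Finset.mem_image.1 hx
    have hz := minJ hk hp a h (dPhi m v) (fun e => ((hS h hh).1 e).1)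
      (fun e => ((hS h hh).1 e).2.2) (hS h hh).2.1
      (by
        refine le_trans (le_of_eq ?_) hmn
        exact Finset.sum_congr rfl fun e _ => ((hS h hh).1 e).2.1)
      (hS h hh).2.2
      (fun e => by rw [((hS h hh).1 e).2.1]; exact low_degree_lt _ _)
      (by
        intro f hf
        rw [hdeg h hh] at hf
        have hH : (∑ e, (∏ e' ∈ Finset.univ.erase e, h e' ^ ((e' : ℕ) + 1)) *
            (((e : ℕ) + 1 : ℕ) * h e ^ (e : ℕ) * dPhi m v e)) = HH m (Ψ h) v := by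
          rw [HH, hPhi h hh]
        rw [hH, ← low_of_coeff hf, low, Finset.mul_sum, map_sum]
        refine Finset.sum_eq_zero fun l _ => ?_
        rw [show HH m (Ψ h) v * (C (f.coeff (l : ℕ)) * X ^ (l : ℕ)) =
          f.coeff (l : ℕ) • (HH m (Ψ h) v * X ^ (l : ℕ)) by rw [smul_eq_C_mul]; ring, map_smul,
          hv l, smul_zero])
    funext s
    obtain ⟨e, i⟩ := s
    have h1 := hz e
    have h2 := congrArg (fun p => p.coeff (i : ℕ)) h1
    simp only [dPhi, low_coeff, coeff_zero] at h2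
    exact h2

end H28WF
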