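import Pool.Agent.H28.WF.Min3a
import Pool.Agent.H28.WF.RadL

/-!
# [WF] MinC: the number of minimal annihilators of one functional

`dec` and `min3a`, sum over the types `m : Fin (k-1) → ℕ`, `∑ m ≤ n`: at most
`(n+1)^(k-1) ≤ 2^(n (k-1))` of them, so at most
`2^(n(k-1)) 2^(kn) (k^2+1)^n ≤ (4^k (k^2+1))^n = A1 k ^ n`.
-/

open Polynomial

namespace H28WF

theorem minC {F : Type*} [Field F] {k n : ℕ} (hk : 2 ≤ k)
    (hp : ∀ e : ℕ, 1 ≤ e → e < k → (e : F) ≠ 0) (a : Fin (k * n) → F) (S : Finset F[X])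
    (hS : ∀ G ∈ S, GG k n a G) : S.card ≤ A1 k ^ n := by
  classical
  have hex : ∀ G ∈ S, ∃ h : Fin (k - 1) → F[X], (∀ e, (h e).Monic ∧ Squarefree (h e)) ∧
      (∀ e e', e ≠ e' → IsCoprime (h e) (h e')) ∧ G = ∏ e, h e ^ ((e : ℕ) + 1) ∧
      ∑ e, (h e).natDegree ≤ n := by
    intro G hG
    obtain ⟨hmin, y, hy, hGy⟩ := hS G hG
    obtain ⟨h, h1, h2, h3, h4⟩ := dec hmin.1 hy.2.2 hGy
    refine ⟨h, h1, h2, h3, ?_⟩
    rw [← natDegree_prod_of_monic _ _ fun e _ => (h1 e).1, ← hy.2.1]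
    exact natDegree_le_of_dvd h4 hy.1.ne_zero
  choose! h hh using hex
  obtain ⟨T, hT⟩ : ∃ T : Finset (Fin (k - 1) → ℕ),
      T = Fintype.piFinset fun _ => Finset.range (n + 1) := ⟨_, rfl⟩
  have hTc : T.card = (n + 1) ^ (k - 1) := by
    rw [hT, Fintype.card_piFinset, Finset.prod_const, Finset.card_range, Finset.card_univ,
      Fintype.card_fin]
  have hmap : ∀ G ∈ S, (fun e => (h G e).natDegree) ∈ T := by
    intro G hG
    rw [hT, Fintype.mem_piFinset]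
    intro e
    rw [Finset.mem_range, Nat.lt_succ_iff]
    refine le_trans ?_ (hh G hG).2.2.2
    exact Finset.single_le_sum (f := fun e => (h G e).natDegree) (fun _ _ => Nat.zero_le _)
      (Finset.mem_univ e)
  have hfib : ∀ m ∈ T, (S.filter fun G => (fun e => (h G e).natDegree) = m).card ≤
      2 ^ (k * n) * (k ^ 2 + 1) ^ n := by
    intro m _
    obtain ⟨Sm, hSm⟩ : ∃ Sm : Finset F[X],
        Sm = S.filter fun G => (fun e => (h G e).natDegree) = m := ⟨_, rfl⟩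
    rw [← hSm]
    have hmem : ∀ G ∈ Sm, G ∈ S ∧ (fun e => (h G e).natDegree) = m := by
      intro G hG
      rw [hSm, Finset.mem_filter] at hG
      exact hG
    rcases Sm.eq_empty_or_nonempty with h0 | ⟨G0, hG0⟩
    · rw [h0, Finset.card_empty]
      exact Nat.zero_le _
    have hmn : ∑ e, m e ≤ n := by
      obtain ⟨h1, h2⟩ := hmem G0 hG0
      rw [← h2]
      exact (hh G0 h1).2.2.2
    have hinj : Set.InjOn h (Sm : Set F[X]) := by
      intro G hG G' hG' heq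
      rw [(hh G (hmem G hG).1).2.2.1, (hh G' (hmem G' hG').1).2.2.1, heq]
    rw [← Finset.card_image_of_injOn hinj]
    refine min3a hk hp a m hmn _ fun g hg => ?_
    obtain ⟨G, hG, rfl⟩ := Finset.mem_image.1 hg
    obtain ⟨h1, h2⟩ := hmem G hG
    obtain ⟨g1, g2, g3, -⟩ := hh G h1
    refine ⟨fun e => ⟨(g1 e).1, ?_, (g1 e).2⟩, g2, ?_⟩
    · rw [← h2]
    · rw [← g3]
      exact (hS G h1).1
  have hcard := Finset.card_le_mul_card_image_of_maps_to hmap _ hfib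
  rw [hTc] at hcard
  refine hcard.trans ?_
  have h2 : (n + 1) ^ (k - 1) ≤ 2 ^ (k * n) := by
    calc (n + 1) ^ (k - 1) ≤ (2 ^ n) ^ (k - 1) := Nat.pow_le_pow_left Nat.lt_two_pow_self _
      _ = 2 ^ (n * (k - 1)) := (pow_mul _ _ _).symm
      _ ≤ 2 ^ (k * n) := by
        refine Nat.pow_le_pow_right (by norm_num) ?_
        rw [mul_comm k n]
        exact Nat.mul_le_mul_left n (Nat.sub_le _ _)
  calc 2 ^ (k * n) * (k ^ 2 + 1) ^ n * (n + 1) ^ (k - 1) ≤
        2 ^ (k * n) * (k ^ 2 + 1) ^ n * 2 ^ (k * n) := Nat.mul_le_mul_left _ h2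
    _ = A1 k ^ n := by
      rw [A1, mul_pow, ← pow_mul, show (4 : ℕ) = 2 ^ 2 by norm_num, ← pow_mul,
        show 2 * (k * n) = k * n + k * n by ring, pow_add]
      ring

end H28WF
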