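import Pool.Agent.H28.WF.AnnB

/-!
# [WF] MinJ: a minimal annihilator has an injective Jacobian (the heart of (3a))

`κ = k - 1` factors `h e` (`e : Fin κ`, exponent `e + 1`), monic squarefree pairwise coprime,
`G = ∏ h e ^ (e+1)` minimal annihilator of `a : Fin (k n) → F`, `δ = deg ∏ h e ≤ n`.
If `h' e`, `deg (h' e) < deg (h e)` (`h' e = 0` if `h e = 1`), satisfies
`pr a (H f) = 0` for all `deg f < k n - deg G`, where
`H = ∑_e (∏_{e' ≠ e} h e' ^ (e'+1)) * ((e+1) (h e)^e h' e)`, then all `h' e = 0`.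

PROOF.  Otherwise `H = (G / g) W`, `g = ∏ h e`, `W = ∑_e (e+1) (∏_{e' ≠ e} h e') h' e`,
`W ≢ 0 mod h e` when `h' e ≠ 0` (`(e+1 : F) ≠ 0`, the other factor is coprime to `h e`,
`deg h' e < deg h e`), so `W ≠ 0`, and `deg W < δ`.  `D := (G / g) gcd(g, W)` (normalised) is a
gcd of `G` and `H`; it is a PROPER divisor of `G`; `2 deg G - deg D ≤ deg G + δ ≤ k δ ≤ k n`
(`deg G ≤ (k-1) δ`).  By `ann_gcd'` it annihilates: contradiction to the minimality.
-/

open Polynomial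

namespace H28WF

/-- the monic greatest common divisor -/
private theorem gcdm {F : Type*} [Field F] {g W : F[X]} (hg : g ≠ 0) :
    ∃ d u w : F[X], d.Monic ∧ g = d * u ∧ W = d * w ∧ IsCoprime u w := by
  classical
  obtain ⟨d₀, hd₀⟩ : ∃ d₀, d₀ = EuclideanDomain.gcd g W := ⟨_, rfl⟩
  have h1 : d₀ ∣ g := by rw [hd₀]; exact EuclideanDomain.gcd_dvd_left g W
  have h2 : d₀ ∣ W := by rw [hd₀]; exact EuclideanDomain.gcd_dvd_right g W
  have h0 : d₀ ≠ 0 := fun h => hg (by rw [h] at h1; exact zero_dvd_iff.1 h1)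
  obtain ⟨u₀, hu₀⟩ := h1
  obtain ⟨w₀, hw₀⟩ := h2
  have hc : IsCoprime u₀ w₀ := by
    have h3 := EuclideanDomain.gcd_eq_gcd_ab g W
    rw [← hd₀] at h3
    refine ⟨EuclideanDomain.gcdA g W, EuclideanDomain.gcdB g W, ?_⟩
    refine mul_left_cancel₀ h0 ?_
    calc d₀ * (EuclideanDomain.gcdA g W * u₀ + EuclideanDomain.gcdB g W * w₀)
        = (d₀ * u₀) * EuclideanDomain.gcdA g W + (d₀ * w₀) * EuclideanDomain.gcdB g W := by ring
      _ = g * EuclideanDomain.gcdA g W + W * EuclideanDomain.gcdB g W := by rw [← hu₀, ← hw₀]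
      _ = d₀ * 1 := by rw [← h3, mul_one]
  have hl : d₀.leadingCoeff ≠ 0 := leadingCoeff_ne_zero.2 h0
  have hC : C d₀.leadingCoeff⁻¹ * C d₀.leadingCoeff = (1 : F[X]) := by
    rw [← C_mul, inv_mul_cancel₀ hl, C_1]
  have hU : IsUnit (C d₀.leadingCoeff : F[X]) := isUnit_C.2 (isUnit_iff_ne_zero.2 hl)
  refine ⟨d₀ * C d₀.leadingCoeff⁻¹, C d₀.leadingCoeff * u₀, C d₀.leadingCoeff * w₀,
    monic_mul_leadingCoeff_inv h0, ?_, ?_, ?_⟩
  · calc g = d₀ * 1 * u₀ := by rw [mul_one]; exact hu₀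
      _ = _ := by rw [← hC]; ring
  · calc W = d₀ * 1 * w₀ := by rw [mul_one]; exact hw₀
      _ = _ := by rw [← hC]; ring
  · exact (isCoprime_mul_unit_left hU u₀ w₀).2 hc

theorem minJ {F : Type*} [Field F] {k n : ℕ} (hk : 2 ≤ k)
    (hp : ∀ e : ℕ, 1 ≤ e → e < k → (e : F) ≠ 0) (a : Fin (k * n) → F)
    (h h' : Fin (k - 1) → F[X]) (hm : ∀ e, (h e).Monic) (hsq : ∀ e, Squarefree (h e))
    (hc : ∀ e e', e ≠ e' → IsCoprime (h e) (h e')) (hn : ∑ e, (h e).natDegree ≤ n)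
    (hmin : IsMin (k * n) a (∏ e, h e ^ ((e : ℕ) + 1)))
    (hd : ∀ e, (h' e).degree < ((h e).natDegree : WithBot ℕ))
    (hker : ∀ f : F[X], f.degree <
        ((k * n - (∏ e, h e ^ ((e : ℕ) + 1)).natDegree : ℕ) : WithBot ℕ) →
      pr (k * n) a ((∑ e, (∏ e' ∈ Finset.univ.erase e, h e' ^ ((e' : ℕ) + 1)) *
        (((e : ℕ) + 1 : ℕ) * h e ^ (e : ℕ) * h' e)) * f) = 0) :
    ∀ e, h' e = 0 := by
  classical
  by_contra hcon
  push Not at hcon
  obtain ⟨e₀, he₀⟩ := hcon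
  obtain ⟨G, hG⟩ : ∃ G, G = ∏ e, h e ^ ((e : ℕ) + 1) := ⟨_, rfl⟩
  obtain ⟨H, hH⟩ : ∃ H, H = ∑ e, (∏ e' ∈ Finset.univ.erase e, h e' ^ ((e' : ℕ) + 1)) *
    (((e : ℕ) + 1 : ℕ) * h e ^ (e : ℕ) * h' e) := ⟨_, rfl⟩
  rw [← hG] at hmin hker
  rw [← hH] at hker
  obtain ⟨g, hg⟩ : ∃ g, g = ∏ e, h e := ⟨_, rfl⟩
  obtain ⟨R, hR⟩ : ∃ R, R = ∏ e, h e ^ (e : ℕ) := ⟨_, rfl⟩
  obtain ⟨W, hW⟩ : ∃ W, W = ∑ e, (∏ e' ∈ Finset.univ.erase e, h e') * (((e : ℕ) + 1 : ℕ) * h' e) := ⟨_, rfl⟩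
  have hgm : g.Monic := by rw [hg]; exact monic_prod_of_monic _ _ fun e _ => hm e
  have hRm : R.Monic := by rw [hR]; exact monic_prod_of_monic _ _ fun e _ => (hm e).pow _
  have hGR : G = R * g := by
    rw [hG, hR, hg, ← Finset.prod_mul_distrib]
    exact Finset.prod_congr rfl fun e _ => pow_succ _ _
  have hHW : H = R * W := by
    rw [hH, hR, hW, Finset.mul_sum]
    refine Finset.sum_congr rfl fun e _ => ?_
    have h1 : (∏ e' ∈ Finset.univ.erase e, h e' ^ ((e' : ℕ) + 1)) * h e ^ (e : ℕ) =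
        (∏ e', h e' ^ (e' : ℕ)) * ∏ e' ∈ Finset.univ.erase e, h e' := by
      rw [← Finset.prod_erase_mul Finset.univ (fun e' => h e' ^ (e' : ℕ)) (Finset.mem_univ e)]
      rw [mul_right_comm, ← Finset.prod_mul_distrib]
      refine congrArg (· * _) (Finset.prod_congr rfl fun e' _ => pow_succ _ _)
    calc (∏ e' ∈ Finset.univ.erase e, h e' ^ ((e' : ℕ) + 1)) * (((e : ℕ) + 1 : ℕ) * h e ^ (e : ℕ) * h' e)
        = ((∏ e' ∈ Finset.univ.erase e, h e' ^ ((e' : ℕ) + 1)) * h e ^ (e : ℕ)) *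
          (((e : ℕ) + 1 : ℕ) * h' e) := by ring
      _ = _ := by rw [h1]; ring
  -- `W` is not zero
  have hW0 : W ≠ 0 := by
    intro h0
    have h1 : h e₀ ∣ (∏ e' ∈ Finset.univ.erase e₀, h e') * (((e₀ : ℕ) + 1 : ℕ) * h' e₀) := by
      have h2 : W = (∏ e' ∈ Finset.univ.erase e₀, h e') * (((e₀ : ℕ) + 1 : ℕ) * h' e₀) +
          ∑ e ∈ Finset.univ.erase e₀, (∏ e' ∈ Finset.univ.erase e, h e') * (((e : ℕ) + 1 : ℕ) * h' e) := by
        rw [hW]
        exact (Finset.add_sum_erase _ _ (Finset.mem_univ e₀)).symm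
      rw [h0] at h2
      have h3 : h e₀ ∣ ∑ e ∈ Finset.univ.erase e₀,
          (∏ e' ∈ Finset.univ.erase e, h e') * (((e : ℕ) + 1 : ℕ) * h' e) := by
        refine Finset.dvd_sum fun e he => Dvd.dvd.mul_right ?_ _
        refine Finset.dvd_prod_of_mem _ ?_
        rw [Finset.mem_erase]
        exact ⟨(Finset.ne_of_mem_erase he).symm, Finset.mem_univ _⟩
      exact (dvd_add_left h3).1 (h2 ▸ dvd_zero _)
    have h2 : IsCoprime (h e₀) (∏ e' ∈ Finset.univ.erase e₀, h e') :=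
      IsCoprime.prod_right fun e' he' => hc e₀ e' (Finset.ne_of_mem_erase he').symm
    have h3 := h2.dvd_of_dvd_mul_left h1
    have h4 : IsCoprime (h e₀) (((e₀ : ℕ) + 1 : ℕ) : F[X]) := by
      have h5 : (((e₀ : ℕ) + 1 : ℕ) : F) ≠ 0 := hp _ (by omega) (by have := e₀.2; omega)
      have h6 : (((e₀ : ℕ) + 1 : ℕ) : F[X]) = C (((e₀ : ℕ) + 1 : ℕ) : F) := (C_eq_natCast _).symm
      rw [h6]
      exact ⟨0, C (((e₀ : ℕ) + 1 : ℕ) : F)⁻¹, by
        rw [zero_mul, zero_add, ← C_mul, inv_mul_cancel₀ h5, C_1]⟩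
    have h5 := h4.dvd_of_dvd_mul_left h3
    refine he₀ (eq_zero_of_dvd_of_degree_lt h5 ?_)
    rw [degree_eq_natDegree (hm e₀).ne_zero]
    exact hd e₀
  have hgd : g.natDegree = ∑ e, (h e).natDegree := by
    rw [hg]
    exact natDegree_prod_of_monic _ _ fun e _ => hm e
  have hWd : W.natDegree < g.natDegree := by
    rw [natDegree_lt_iff_degree_lt hW0, hW]
    have hbot : (⊥ : WithBot ℕ) < ((g.natDegree : ℕ) : WithBot ℕ) := WithBot.bot_lt_coe _
    refine lt_of_le_of_lt (degree_sum_le _ _) ?_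
    rw [Finset.sup_lt_iff hbot]
    intro e _
    have h1 : ((((e : ℕ) + 1 : ℕ) : F[X]) * h' e).degree ≤ (h' e).degree := by
      have h6 : (((e : ℕ) + 1 : ℕ) : F[X]) = C (((e : ℕ) + 1 : ℕ) : F) := (C_eq_natCast _).symm
      rw [h6]
      exact (degree_C_mul (hp _ (by omega) (by have := e.2; omega))).le
    have h2 : (∏ e' ∈ Finset.univ.erase e, h e').degree =
        ((∑ e' ∈ Finset.univ.erase e, (h e').natDegree : ℕ) : WithBot ℕ) := by
      have h3 : (∏ e' ∈ Finset.univ.erase e, h e').Monic := monic_prod_of_monic _ _ fun e _ => hm e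
      rw [degree_eq_natDegree h3.ne_zero, natDegree_prod_of_monic _ _ fun e _ => hm e]
    rw [degree_mul, h2]
    have h4 : g.natDegree = ∑ e' ∈ Finset.univ.erase e, (h e').natDegree + (h e).natDegree := by
      rw [hgd]
      exact (Finset.sum_erase_add _ _ (Finset.mem_univ e)).symm
    have h7 : ((∑ e' ∈ Finset.univ.erase e, (h e').natDegree + (h e).natDegree : ℕ) : WithBot ℕ) =
        ((∑ e' ∈ Finset.univ.erase e, (h e').natDegree : ℕ) : WithBot ℕ) +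
          (((h e).natDegree : ℕ) : WithBot ℕ) := Nat.cast_add _ _
    rw [h4, h7]
    exact WithBot.add_lt_add_left (WithBot.coe_ne_bot) (lt_of_le_of_lt h1 (hd e))
  have hRd : R.natDegree ≤ (k - 2) * g.natDegree := by
    rw [hR, natDegree_prod_of_monic _ _ fun e _ => (hm e).pow _, hgd, Finset.mul_sum]
    refine Finset.sum_le_sum fun e _ => ?_
    rw [(hm e).natDegree_pow]
    exact Nat.mul_le_mul_right _ (by have := e.2; omega)
  obtain ⟨d, u, w, hdm, hgu, hWw, huw⟩ := gcdm (W := W) hgm.ne_zero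
  have hG0 : G ≠ 0 := by
    rw [hGR]
    exact (hRm.mul hgm).ne_zero
  have hH0 : H ≠ 0 := by
    rw [hHW]
    exact mul_ne_zero hRm.ne_zero hW0
  have hGd : G.natDegree = R.natDegree + g.natDegree := by
    rw [hGR]
    exact hRm.natDegree_mul hgm
  have hHd : H.natDegree = R.natDegree + W.natDegree := by
    rw [hHW]
    exact natDegree_mul hRm.ne_zero hW0
  have hDd : (R * d).natDegree = R.natDegree + d.natDegree := hRm.natDegree_mul hdm
  have hgn : g.natDegree ≤ n := by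
    rw [hgd]
    exact hn
  have hkn : R.natDegree + 2 * g.natDegree ≤ k * n := by
    have h1 : k * g.natDegree ≤ k * n := Nat.mul_le_mul_left _ hgn
    have h2 : (k - 2) * g.natDegree + 2 * g.natDegree = k * g.natDegree := by
      rw [← add_mul]
      congr 1
      omega
    omega
  have hAD : Ann (k * n) a (R * d) := by
    refine ann_gcd' (G := G) (H := H) (u := u) (w := w) ?_ ?_ huw hG0 hH0 ?_ ?_ hmin.2.1 hker
    · rw [hGR, hgu, mul_assoc]
    · rw [hHW, hWw, mul_assoc]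
    · omega
    · omega
  have hDG : R * d = G := by
    refine hmin.2.2 _ (hRm.mul hdm) ?_ hAD
    rw [hGR, hgu, ← mul_assoc]
    exact dvd_mul_right _ _
  have h1 : d.natDegree ≤ W.natDegree := natDegree_le_of_dvd ⟨w, hWw⟩ hW0
  rw [← hDG, hDd] at hGd
  omega

end H28WF
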