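import Pool.Agent.H28.WF.Bas

/-!
# [WF] MomF: the moment of the sum over squarefree `y` times a fixed factor (Fourier)

`h` monic of degree `j`, `n = 2 j + m`, `Y` = any finite set of squarefree monic polynomials of
degree `m`.  `∑_a ‖∑_{y ∈ Y} ψ(pr a ((h^2 y)^k))‖^(2k) = q^(kn) #{(y, z) ∈ Y^k × Y^k :
∑ (h^2 y_i)^k - ∑ (h^2 z_i)^k = 0}` (all these differences have degree `< k n`, and
`∑_a ψ(pr a f) = q^(kn)` if `f = 0` and `0` if `0 ≠ f`, `deg f < k n`; orthogonality for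
`ψ ≠ 1`) `≤ q^(kn) M`, by `MB F k m M` for `ι = Fin (2k)` (or `Fin k ⊕ Fin k`), `ε = ± 1`, `C₀ = 0`.
-/

open Polynomial

namespace H28WF

open Classical in
/-- orthogonality -/
theorem sum_psi_pr {F : Type*} [Field F] [Fintype F] (ψ : AddChar F ℂ) (hψ : ψ ≠ 1) (N : ℕ)
    {f : F[X]} (hf : f.degree < (N : WithBot ℕ)) :
    ∑ a : Fin N → F, ψ (pr N a f) = if f = 0 then ((Fintype.card F : ℂ) ^ N) else 0 := by
  classical
  split_ifs with h0
  · subst h0
    have h1 : ∀ a : Fin N → F, ψ (pr N a (0 : F[X])) = 1 := by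
      intro a
      rw [map_zero, AddChar.map_zero_eq_one]
    rw [Finset.sum_congr rfl (fun a _ => h1 a)]
    simp
  · obtain ⟨i, hi⟩ : ∃ i : Fin N, f.coeff i ≠ 0 := by
      by_contra hc
      push Not at hc
      refine h0 (Polynomial.ext fun j => ?_)
      rw [coeff_zero]
      rcases lt_or_ge j N with hj | hj
      · exact hc ⟨j, hj⟩
      · exact coeff_eq_zero_of_degree_lt (lt_of_lt_of_le hf (by exact_mod_cast hj))
    obtain ⟨x, hx⟩ : ∃ x : F, ψ x ≠ 1 := AddChar.ne_one_iff.1 hψ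
    let g : (Fin N → F) →+ F :=
      { toFun := fun a => pr N a f
        map_zero' := pr_zero_left N f
        map_add' := fun a b => pr_add N a b f }
    have hg : ∀ a, g a = pr N a f := fun a => rfl
    have hne : ψ.compAddMonoidHom g ≠ 0 := by
      rw [AddChar.ne_zero_iff]
      refine ⟨Pi.single i (x / f.coeff i), ?_⟩
      rw [AddChar.compAddMonoidHom_apply, hg, pr_apply, Finset.sum_eq_single i]
      · rw [Pi.single_eq_same, div_mul_cancel₀ _ hi]
        exact hx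
      · intro j _ hj
        rw [Pi.single_eq_of_ne hj, zero_mul]
      · intro h
        exact absurd (Finset.mem_univ i) h
    have h2 := AddChar.sum_eq_zero_iff_ne_zero.2 hne
    rw [← h2]
    exact Finset.sum_congr rfl fun a _ => rfl

open Classical in
/-- the Fourier identity for monic polynomials `φ y` of degree `N` (expand the `2k`-th power as
`(∑ ψ)^k (conj ∑ ψ)^k`; all the differences `∑ φ (u i) - ∑ φ (v i)` have degree `< N`) -/
theorem fourier {F : Type*} [Field F] [Fintype F] (ψ : AddChar F ℂ) (hψ : ψ ≠ 1) {N : ℕ}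
    {ι : Type*} (Y : Finset ι) (φ : ι → F[X]) (hφ : ∀ y ∈ Y, (φ y).Monic ∧ (φ y).natDegree = N)
    (k : ℕ) :
    ∑ a : Fin N → F, ‖∑ y ∈ Y, ψ (pr N a (φ y))‖ ^ (2 * k) =
      (Fintype.card F : ℝ) ^ N *
        (((Fintype.piFinset (fun _ : Fin k => Y)) ×ˢ (Fintype.piFinset (fun _ : Fin k => Y))).filter
          (fun z => ∑ i, φ (z.1 i) = ∑ i, φ (z.2 i))).card := by
  classical
  have hdeg : ∀ u v : Fin k → ι, (∀ i, u i ∈ Y) → (∀ i, v i ∈ Y) →
      ((∑ i, φ (u i)) - ∑ i, φ (v i)).degree < (N : WithBot ℕ) := by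
    intro u v hu hv
    rw [← Finset.sum_sub_distrib, ← mem_degreeLT]
    refine Submodule.sum_mem _ fun i _ => ?_
    rw [mem_degreeLT]
    obtain ⟨h1, h2⟩ := hφ _ (hu i)
    obtain ⟨h3, h4⟩ := hφ _ (hv i)
    have h5 : (φ (u i)).degree = (φ (v i)).degree := by
      rw [degree_eq_natDegree h1.ne_zero, degree_eq_natDegree h3.ne_zero, h2, h4]
    have h6 := degree_sub_lt_left h5 h1.ne_zero (by rw [h1.leadingCoeff, h3.leadingCoeff])
    rwa [degree_eq_natDegree h1.ne_zero, h2] at h6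
  have hpow : ∀ a : Fin N → F, (∑ y ∈ Y, ψ (pr N a (φ y))) ^ k =
      ∑ u ∈ Fintype.piFinset (fun _ : Fin k => Y), ψ (pr N a (∑ i, φ (u i))) := by
    intro a
    have h1 := Finset.prod_univ_sum (fun _ : Fin k => Y) (fun _ y => ψ (pr N a (φ y)))
    rw [Finset.prod_const, Finset.card_univ, Fintype.card_fin] at h1
    rw [h1]
    refine Finset.sum_congr rfl fun u _ => ?_
    rw [map_sum]
    have h2 : ∀ s : Finset (Fin k), ∏ i ∈ s, ψ (pr N a (φ (u i))) =
        ψ (∑ i ∈ s, pr N a (φ (u i))) := by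
      intro s
      induction s using Finset.induction_on with
      | empty => rw [Finset.prod_empty, Finset.sum_empty, AddChar.map_zero_eq_one]
      | insert i s hi ih =>
        rw [Finset.prod_insert hi, Finset.sum_insert hi, AddChar.map_add_eq_mul, ih]
    exact h2 Finset.univ
  have hS : ∀ a : Fin N → F, ((‖∑ y ∈ Y, ψ (pr N a (φ y))‖ ^ (2 * k) : ℝ) : ℂ) =
      ∑ z ∈ (Fintype.piFinset (fun _ : Fin k => Y)) ×ˢ (Fintype.piFinset (fun _ : Fin k => Y)),
        ψ (pr N a ((∑ i, φ (z.1 i)) - ∑ i, φ (z.2 i))) := by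
    intro a
    have h1 : ((‖∑ y ∈ Y, ψ (pr N a (φ y))‖ ^ (2 * k) : ℝ) : ℂ) =
        (∑ y ∈ Y, ψ (pr N a (φ y))) ^ k * (starRingEnd ℂ) ((∑ y ∈ Y, ψ (pr N a (φ y))) ^ k) := by
      rw [map_pow, ← mul_pow, Complex.mul_conj, Complex.normSq_eq_norm_sq, pow_mul]
      push_cast
      rfl
    rw [h1, hpow, map_sum, Finset.sum_mul_sum, ← Finset.sum_product']
    refine Finset.sum_congr rfl fun z _ => ?_
    rw [← AddChar.map_neg_eq_conj, ← AddChar.map_add_eq_mul, map_sub, sub_eq_add_neg]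
  have hC : ((∑ a : Fin N → F, ‖∑ y ∈ Y, ψ (pr N a (φ y))‖ ^ (2 * k) : ℝ) : ℂ) =
      (((Fintype.card F : ℝ) ^ N *
        (((Fintype.piFinset (fun _ : Fin k => Y)) ×ˢ (Fintype.piFinset (fun _ : Fin k => Y))).filter
          (fun z => ∑ i, φ (z.1 i) = ∑ i, φ (z.2 i))).card : ℝ) : ℂ) := by
    rw [Complex.ofReal_sum, Finset.sum_congr rfl (fun a _ => hS a), Finset.sum_comm]
    have h1 : ∀ z ∈ (Fintype.piFinset (fun _ : Fin k => Y)) ×ˢ
        (Fintype.piFinset (fun _ : Fin k => Y)),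
        ∑ a : Fin N → F, ψ (pr N a ((∑ i, φ (z.1 i)) - ∑ i, φ (z.2 i))) =
          if ∑ i, φ (z.1 i) = ∑ i, φ (z.2 i) then ((Fintype.card F : ℂ) ^ N) else 0 := by
      intro z hz
      rw [Finset.mem_product, Fintype.mem_piFinset, Fintype.mem_piFinset] at hz
      rw [sum_psi_pr ψ hψ N (hdeg z.1 z.2 hz.1 hz.2)]
      simp only [sub_eq_zero]
    rw [Finset.sum_congr rfl h1, ← Finset.sum_filter, Finset.sum_const, nsmul_eq_mul]
    push_cast
    ring
  exact_mod_cast hC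

theorem momF {F : Type*} [Field F] [Fintype F] (ψ : AddChar F ℂ) (hψ : ψ ≠ 1) {k : ℕ} (hk : 1 ≤ k)
    {n j m M : ℕ} (hn : n = 2 * j + m) (hM : MB F k m M) {h : F[X]} (hh : h.Monic)
    (hj : h.natDegree = j) (Y : Finset F[X]) (hY : ∀ y ∈ Y, Sq m y) :
    ∑ a : Fin (k * n) → F, ‖∑ y ∈ Y, ψ (pr (k * n) a ((h ^ 2 * y) ^ k))‖ ^ (2 * k) ≤
      (Fintype.card F : ℝ) ^ (k * n) * M := by
  classical
  have hφ : ∀ y ∈ Y, ((h ^ 2 * y) ^ k).Monic ∧ ((h ^ 2 * y) ^ k).natDegree = k * n := by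
    intro y hy
    obtain ⟨h1, h2, -⟩ := hY y hy
    have h3 : (h ^ 2 * y).Monic := (hh.pow 2).mul h1
    refine ⟨h3.pow k, ?_⟩
    rw [h3.natDegree_pow, (hh.pow 2).natDegree_mul h1, hh.natDegree_pow, hj, h2, hn]
  rw [fourier ψ hψ Y (fun y => (h ^ 2 * y) ^ k) hφ k]
  refine mul_le_mul_of_nonneg_left ?_ (by positivity)
  norm_cast
  set Z := ((Fintype.piFinset (fun _ : Fin k => Y)) ×ˢ
    (Fintype.piFinset (fun _ : Fin k => Y))).filter
      (fun z => ∑ i, (h ^ 2 * z.1 i) ^ k = ∑ i, (h ^ 2 * z.2 i) ^ k) with hZ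
  have hinj : Function.Injective (fun z : (Fin k → F[X]) × (Fin k → F[X]) =>
      (Sum.elim z.1 z.2 : Fin k ⊕ Fin k → F[X])) := by
    rintro ⟨u, v⟩ ⟨u', v'⟩ huv
    have h1 : ∀ i, u i = u' i := fun i => congrFun huv (Sum.inl i)
    have h2 : ∀ i, v i = v' i := fun i => congrFun huv (Sum.inr i)
    rw [Prod.mk.injEq]
    exact ⟨funext h1, funext h2⟩
  rw [← Finset.card_image_of_injective Z hinj]
  refine hM (Fin k ⊕ Fin k) (by rw [Fintype.card_sum, Fintype.card_fin]; omega)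
    (Sum.elim (fun _ => 1) (fun _ => -1)) ?_ 0 _ ?_
  · rintro (i | i)
    · exact one_ne_zero
    · exact neg_ne_zero.2 one_ne_zero
  · intro y hy
    obtain ⟨z, hz, rfl⟩ := Finset.mem_image.1 hy
    rw [hZ, Finset.mem_filter, Finset.mem_product, Fintype.mem_piFinset,
      Fintype.mem_piFinset] at hz
    obtain ⟨⟨h1, h2⟩, h3⟩ := hz
    refine ⟨?_, ?_⟩
    · rintro (i | i)
      · exact hY _ (h1 i)
      · exact hY _ (h2 i)
    · rw [Fintype.sum_sum_type]
      simp only [Sum.elim_inl, Sum.elim_inr, C_1, C_neg, one_mul, neg_mul]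
      rw [Finset.sum_neg_distrib, ← sub_eq_add_neg]
      have h4 : (h ^ 2) ^ k * (∑ i, z.1 i ^ k - ∑ i, z.2 i ^ k) = 0 := by
        rw [mul_sub, Finset.mul_sum, Finset.mul_sum]
        simp only [← mul_pow]
        rw [h3, sub_self]
      rcases mul_eq_zero.1 h4 with h5 | h5
      · exact absurd h5 (pow_ne_zero _ (pow_ne_zero _ hh.ne_zero))
      · exact h5

end H28WF
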