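import Pool.Agent.H20.WF.Reg
import Pool.Agent.H28.WF.Bas

/-!
# [WF] Reg: regular solutions

Unknowns: the lower coefficients of the `y i` (`σ = ι × Fin n`), equations: the coefficients of
`X^l`, `l < k n`, of `∑ ε_i y_i^k - C₀` (`PMX`, total degree `≤ k`), derivative
`∑ ε_i k y_i^(k-1) ξ_i`, `ξ_i = low n v_i`.  If `a` kills all derivatives then
`pr a (y_i^(k-1) f) = 0` for all `deg f < n`, that is `Ann (k n) a (y_i^(k-1))`
(`deg (y^(k-1)) = (k-1) n`, so `deg (y^(k-1) f) < k n` iff `deg f < n`), so `a = 0`.  `bez_surj`: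
`|S| q^(kn) ≤ 2^(n|ι|) (k+1)^(kn) q^(n|ι|)`, with `|ι| ≤ 2k`.

The Bezout step is `Pool.Agent.H20.WF.Reg.card_regular` (helper20); here only the translation.
-/

open Polynomial

namespace H28WF

/-- translation of the functional of length `N` -/
private theorem ann_of_low {F : Type*} [Field F] {k n : ℕ} (hk : 1 ≤ k) (c : Fin (k * n) → F)
    {y : F[X]} (hy : y.Monic) (hn : y.natDegree = n)
    (h : ∀ v : Fin n → F, ∑ l : Fin (k * n), c l * (y ^ (k - 1) * low n v).coeff l = 0) :
    Ann (k * n) c (y ^ (k - 1)) := by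
  intro f hf
  have hf' : f.degree < (n : WithBot ℕ) := by
    rcases eq_or_ne f 0 with hf0 | hf0
    · rw [hf0, degree_zero]
      exact WithBot.bot_lt_coe n
    · have hm : (y ^ (k - 1)).Monic := hy.pow _
      have hne : y ^ (k - 1) * f ≠ 0 := mul_ne_zero hm.ne_zero hf0
      rw [degree_eq_natDegree hne] at hf
      have h1 : (y ^ (k - 1) * f).natDegree < k * n := by exact_mod_cast hf
      rw [hm.natDegree_mul' hf0, hy.natDegree_pow, hn] at h1
      rw [degree_eq_natDegree hf0]
      have h2 : k * n = (k - 1) * n + n := by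
        obtain ⟨m, rfl⟩ : ∃ m, k = m + 1 := ⟨k - 1, by omega⟩
        rw [Nat.add_sub_cancel]; ring
      have h3 : f.natDegree < n := by omega
      exact_mod_cast h3
  rw [pr_apply, ← low_of_coeff hf']
  exact h _

theorem reg {F : Type*} [Field F] [Fintype F] {k n : ℕ} (hk : 1 ≤ k) (hk0 : (k : F) ≠ 0)
    {ι : Type} [Fintype ι] (hι : Fintype.card ι ≤ 2 * k) (ε : ι → F) (hε : ∀ i, ε i ≠ 0)
    (C₀ : F[X]) (S : Finset (ι → F[X]))
    (hS : ∀ y ∈ S, (∀ i, (y i).Monic ∧ (y i).natDegree = n) ∧ ∑ i, C (ε i) * y i ^ k = C₀)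
    (hR : ∀ y ∈ S, ∀ a : Fin (k * n) → F, (∀ i, Ann (k * n) a (y i ^ (k - 1))) → a = 0) :
    S.card ≤ (4 * (k + 1)) ^ (k * n) * Fintype.card F ^ (k * n) := by
  classical
  -- the vector of the lower coefficients
  let φ : (ι → F[X]) → (ι × Fin n → F) := fun y p => (y p.1).coeff p.2
  have hmon : ∀ y ∈ S, ∀ i, mon n (fun j => φ y (i, j)) = y i := by
    intro y hy i
    obtain ⟨c, hc⟩ := exists_mon ((hS y hy).1 i).1 ((hS y hy).1 i).2
    have h1 : (fun j : Fin n => φ y (i, j)) = c := by
      funext j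
      change (y i).coeff j = c j
      rw [← hc, mon, coeff_add, coeff_X_pow, if_neg (by have := j.2; omega), zero_add, low_coeff]
    rw [h1, hc]
  have hinj : Set.InjOn φ (S : Set (ι → F[X])) := by
    intro y hy z hz hyz
    funext i
    rw [← hmon y hy i, ← hmon z hz i, hyz]
  have hcard : (S.image φ).card = S.card := Finset.card_image_of_injOn hinj
  have key := Pool.Agent.H20.WF.Reg.card_regular (K := F) (ι := ι) (n := n) k hk0 ε hε C₀
    (S.image φ) (by
      intro x hx
      obtain ⟨y, hy, rfl⟩ := Finset.mem_image.1 hx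
      rw [← (hS y hy).2]
      refine Finset.sum_congr rfl fun i _ => ?_
      have h1 := hmon y hy i
      rw [mon, low] at h1
      rw [Pool.Agent.H20.WF.Reg.mon, h1]) (by
      intro x hx c hc
      obtain ⟨y, hy, rfl⟩ := Finset.mem_image.1 hx
      refine hR y hy c fun i => ?_
      refine ann_of_low hk c ((hS y hy).1 i).1 ((hS y hy).1 i).2 fun v => ?_
      have h1 := hc i v
      have h2 := hmon y hy i
      rw [mon, low] at h2
      rw [Pool.Agent.H20.WF.Reg.mon, h2] at h1
      exact h1)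
  rw [hcard] at key
  have hq : 1 ≤ Fintype.card F := Fintype.card_pos
  have hιn : Fintype.card ι * n ≤ 2 * (k * n) := by
    calc Fintype.card ι * n ≤ 2 * k * n := Nat.mul_le_mul_right _ hι
      _ = 2 * (k * n) := by ring
  calc S.card ≤ 2 ^ (Fintype.card ι * n) * k ^ (k * n) *
        Fintype.card F ^ (Fintype.card ι * n - k * n) := key
    _ ≤ 2 ^ (2 * (k * n)) * (k + 1) ^ (k * n) * Fintype.card F ^ (k * n) := by
        refine Nat.mul_le_mul (Nat.mul_le_mul ?_ ?_) ?_
        · exact Nat.pow_le_pow_right (by norm_num) hιn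
        · exact Nat.pow_le_pow_left (Nat.le_succ k) _
        · exact Nat.pow_le_pow_right hq (by omega)
    _ = (4 * (k + 1)) ^ (k * n) * Fintype.card F ^ (k * n) := by
        rw [pow_mul, ← mul_pow]
        norm_num

end H28WF
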