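import Pool.Agent.H28.WF.IrrB
import Pool.Agent.H28.WF.Reg
import Pool.Agent.H28.WF.Bd

/-!
# [WF] Rec: the mean value theorem (3)

For every `k ≥ 2` there is `B` such that for every finite field of characteristic `> k` (only
`(e : F) ≠ 0` for `1 ≤ e ≤ k` is used), all `n`: `MB F k n (B^n q^(k n))`.

PROOF.  Strong induction on `n`.  `n = 0`: all `y i = 1`.  `|ι| ≤ k`: at most `q^(n |ι|)`.
Otherwise `S` = regular solutions (`Reg`) plus the irregular ones.  Each irregular `y` has some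
`a ≠ 0` with `y_i^(k-1) ∈ Ann a` for all `i`.  For each `a ≠ 0` for which there is an irregular
solution choose `G₁ a ∈ GG k n a` with the smallest radical degree `δ₁ a` (`1 ≤ δ₁ ≤ n`) and, if
there is another one, `G₂ a` with the smallest radical degree `δ₂ a` among the others.
`irr_a_one`, `irr_a` with `M = B^(n-δ₁) q^(k(n-δ₁))`.  Sum over `a`:
`∑_a M(δ₁ a) ≤ ∑_{δ=1}^n 2^((k-1)δ) q^(kδ) B^(n-δ) q^(k(n-δ))` (`pairs`), and over the triples, in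
classes `(δ₁, δ₂) ∈ [1,n]^2` with `n < (k-1) δ₁` (`triple_deg`), with `triples`:
`#(δ₁,δ₂) q^(k(n-δ₁)+k(n-δ₂)) ≤ 4^(kn) q^(kn)`, and
`#(δ₁,δ₂) q^(k(n-δ₁)) q^((n-δ₂)(k-1)) ≤ 4^(kn) q^(kn)` (exponent `δ₂ + (k-1) n ≤ k n`).
So `|S| ≤ q^(kn) ((4(k+1))^(kn) + ∑ 2^((k-1)δ) B^(n-δ) + n^2 4^k 4^(kn) A1^(2kn)
  + n ∑_{(k-1)δ > n} 4^k 4^(kn) A1^(kn) B^(n-δ))`, and `bd` with
`A ≥ (4(k+1))^k, 4 * 4^k * 4^k * A1^(2k)` and `B = 8 A^k`.
-/

open Polynomial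

namespace H28WF

section

variable {F : Type} [Field F] {k n : ℕ} {a : Fin (k * n) → F}

/-- an element with the smallest radical degree -/
private theorem ex_first (hk : 2 ≤ k) (a : Fin (k * n) → F) (P : F[X] → Prop)
    (h : ∃ G, GG k n a G ∧ P G) :
    ∃ G g, GG k n a G ∧ P G ∧ Rad k G g ∧
      ∀ G' g', GG k n a G' → P G' → Rad k G' g' → g.natDegree ≤ g'.natDegree := by
  classical
  have hQ : ∃ d : ℕ, ∃ G g, GG k n a G ∧ P G ∧ Rad k G g ∧ g.natDegree = d := by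
    obtain ⟨G, hG, hP⟩ := h
    obtain ⟨y, hy, hd⟩ := hG.2
    obtain ⟨g, hg, -⟩ := rad_ex hk hG.1.1 hy.2.2 hd
    exact ⟨_, G, g, hG, hP, hg, rfl⟩
  obtain ⟨G, g, h1, h2, h3, h4⟩ := Nat.find_spec hQ
  refine ⟨G, g, h1, h2, h3, fun G' g' h1' h2' h3' => ?_⟩
  rw [h4]
  exact Nat.find_min' hQ ⟨G', g', h1', h2', h3', rfl⟩

private theorem gg_le {G g : F[X]} (h : GG k n a G) (r : Rad k G g) : g.natDegree ≤ n := by
  obtain ⟨y, hy, hd⟩ := h.2
  have := natDegree_le_of_dvd (r.dvd_of_dvd_pow hd) hy.1.ne_zero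
  rwa [hy.2.1] at this

private theorem gg_pos (ha : a ≠ 0) {G g : F[X]} (h : GG k n a G) (r : Rad k G g) :
    1 ≤ g.natDegree :=
  r.natDegree_pos (h.1.natDegree_pos ha)

/-- the second part of the bound in `irr_a` -/
private def EE (k n q M δ₁ δ₂ : ℕ) : ℕ :=
  4 ^ k * (A1 k ^ (2 * k * n) * q ^ (k * (n - δ₁) + k * (n - δ₂))) +
    4 ^ k * (M * (A1 k ^ n * q ^ (n - δ₂)) ^ (k - 1))

/-- the bound for one `a` -/
private theorem one_a [Fintype F] (hk : 2 ≤ k)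
    (hp : ∀ e : ℕ, 1 ≤ e → e < k → (e : F) ≠ 0)
    {ι : Type} [Fintype ι] (hι : Fintype.card ι ≤ 2 * k) (hι' : k < Fintype.card ι) (ε : ι → F)
    (hε : ∀ i, ε i ≠ 0) (C₀ : F[X]) (a : Fin (k * n) → F) (ha : a ≠ 0) (Mf : ℕ → ℕ)
    (hM : ∀ d, 1 ≤ d → d ≤ n → MB F k (n - d) (Mf d)) (S : Finset (ι → F[X]))
    (hS : ∀ y ∈ S, IsSol k n ε C₀ y ∧ ∀ i, Ann (k * n) a (y i ^ (k - 1))) (hne : S.Nonempty) :
    ∃ G₁ g₁, GG k n a G₁ ∧ Rad k G₁ g₁ ∧ (S.card ≤ Mf g₁.natDegree ∨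
      ∃ G₂ g₂, GG k n a G₂ ∧ Rad k G₂ g₂ ∧ G₁ ≠ G₂ ∧ S.card ≤ Mf g₁.natDegree +
        EE k n (Fintype.card F) (Mf g₁.natDegree) g₁.natDegree g₂.natDegree) := by
  classical
  have hex : ∃ G, GG k n a G ∧ True := by
    obtain ⟨y, hy⟩ := hne
    have hpos : 0 < Fintype.card ι := by omega
    obtain ⟨i⟩ := Fintype.card_pos_iff.1 hpos
    obtain ⟨hsol, hann⟩ := hS y hy
    obtain ⟨G', h1, h2⟩ := min_ex ((hsol.1 i).1.pow (k - 1)) (hann i)
    exact ⟨G', ⟨h1, y i, hsol.1 i, h2⟩, trivial⟩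
  obtain ⟨G₁, g₁, h1, -, r1, hmin1⟩ := ex_first hk a _ hex
  have hpos1 := gg_pos ha h1 r1
  have hle1 := gg_le h1 r1
  refine ⟨G₁, g₁, h1, r1, ?_⟩
  by_cases h2 : ∃ G, GG k n a G ∧ G ≠ G₁
  · obtain ⟨G₂, g₂, h2, hne2, r2, hmin2⟩ := ex_first hk a _ h2
    refine Or.inr ⟨G₂, g₂, h2, r2, fun h => hne2 h.symm, ?_⟩
    have := irr_a hk hp hι hι' ε hε C₀ a h1 r1 g₂.natDegree (hmin1 G₂ g₂ h2 trivial r2)
      (gg_le h2 r2) (fun G g hG hne r => hmin2 G g hG hne r) (hM _ hpos1 hle1) S hS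
    rw [EE, ← add_assoc]
    exact this
  · left
    push Not at h2
    exact irr_a_one hk hι ε hε C₀ a r1 hle1 h2 (hM _ hpos1 hle1) S hS

end

/-- grouping of a sum by the values of a function -/
private theorem sum_class {α : Type*} (s : Finset α) {β : Type*} [DecidableEq β] (t : Finset β)
    (d : α → β) (hd : ∀ a ∈ s, d a ∈ t) (M N : β → ℕ)
    (hN : ∀ b ∈ t, (s.filter (fun a => d a = b)).card ≤ N b) :
    ∑ a ∈ s, M (d a) ≤ ∑ b ∈ t, N b * M b := by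
  rw [← Finset.sum_fiberwise_of_maps_to hd]
  refine Finset.sum_le_sum fun b hb => ?_
  rw [Finset.sum_congr rfl (g := fun _ => M b)]
  · rw [Finset.sum_const, smul_eq_mul]
    exact Nat.mul_le_mul_right _ (hN b hb)
  · intro x hx
    rw [(Finset.mem_filter.1 hx).2]

/-- the base of the induction -/
private theorem base {F : Type} [Field F] (k : ℕ) : MB F k 0 1 := by
  intro ι _ _ ε _ C₀ S hS
  rw [Finset.card_le_one]
  intro y hy z hz
  funext i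
  have h1 := (hS y hy).1 i
  have h2 := (hS z hz).1 i
  rw [eq_one_of_monic_natDegree_zero h1.1 h1.2.1, eq_one_of_monic_natDegree_zero h2.1 h2.2.1]

/-- few variables: trivial bound -/
private theorem few {F : Type} [Field F] [Fintype F] {n : ℕ} {ι : Type} [Fintype ι]
    (S : Finset (ι → F[X])) (hS : ∀ y ∈ S, ∀ i, Sq n (y i)) :
    S.card ≤ Fintype.card F ^ (n * Fintype.card ι) := by
  classical
  have h : S.card ≤ (Finset.univ : Finset (ι → Fin n → F)).card := by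
    refine Finset.card_le_card_of_injOn (fun y i j => (y i).coeff j) (fun _ _ => by simp) ?_
    intro y hy z hz hyz
    funext i
    obtain ⟨c, hc⟩ := exists_mon (hS y hy i).1 (hS y hy i).2.1
    obtain ⟨d, hd⟩ := exists_mon (hS z hz i).1 (hS z hz i).2.1
    have hcd : c = d := by
      funext j
      have h1 := congrFun (congrFun hyz i) j
      simp only at h1
      rw [← hc, ← hd] at h1
      simp only [mon, coeff_add, coeff_X_pow, low_coeff] at h1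
      rwa [if_neg (by have := j.2; omega), zero_add, zero_add] at h1
    rw [← hc, ← hd, hcd]
  rw [Finset.card_univ, Fintype.card_fun, Fintype.card_fun, Fintype.card_fin, ← pow_mul] at h
  exact h

/-- the arithmetic for the triples -/
private theorem arith {k n q A₁ B N δ₁ δ₂ : ℕ} (hq : 1 ≤ q) (hk : 1 ≤ k) (h₁ : δ₁ ≤ n) (h₂ : δ₂ ≤ n)
    (hN : N * q ^ (k * n) ≤ 2 ^ ((k - 1) * (δ₁ + δ₂)) * q ^ (k * (δ₁ + δ₂))) :
    N * (4 ^ k * (A₁ ^ (2 * k * n) * q ^ (k * (n - δ₁) + k * (n - δ₂))) +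
      4 ^ k * ((B ^ (n - δ₁) * q ^ (k * (n - δ₁))) * (A₁ ^ n * q ^ (n - δ₂)) ^ (k - 1))) ≤
    q ^ (k * n) * (4 ^ k * 4 ^ (k * n) * A₁ ^ (2 * k * n) +
      4 ^ k * 4 ^ (k * n) * A₁ ^ (n * (k - 1)) * B ^ (n - δ₁)) := by
  obtain ⟨u, rfl⟩ := Nat.exists_eq_add_of_le h₁
  have hu : δ₁ + u - δ₁ = u := by omega
  obtain ⟨v, hv⟩ := Nat.exists_eq_add_of_le h₂
  have hv' : δ₁ + u - δ₂ = v := by omega
  rw [hu, hv']
  have h2 : 2 ^ ((k - 1) * (δ₁ + δ₂)) ≤ 4 ^ (k * (δ₁ + u)) := by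
    have : (4 : ℕ) = 2 ^ 2 := by norm_num
    rw [this, ← pow_mul]
    refine Nat.pow_le_pow_right (by norm_num) ?_
    calc (k - 1) * (δ₁ + δ₂) ≤ k * (2 * (δ₁ + u)) := Nat.mul_le_mul (Nat.sub_le _ _) (by omega)
      _ = 2 * (k * (δ₁ + u)) := by ring
  have hq0 : 0 < q ^ (k * (δ₁ + u)) := Nat.pow_pos hq
  have e1 : N * q ^ (k * u + k * v) ≤ 4 ^ (k * (δ₁ + u)) * q ^ (k * (δ₁ + u)) := by
    refine Nat.le_of_mul_le_mul_right ?_ hq0
    calc N * q ^ (k * u + k * v) * q ^ (k * (δ₁ + u))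
        = (N * q ^ (k * (δ₁ + u))) * q ^ (k * u + k * v) := by ring
      _ ≤ (2 ^ ((k - 1) * (δ₁ + δ₂)) * q ^ (k * (δ₁ + δ₂))) * q ^ (k * u + k * v) :=
          Nat.mul_le_mul_right _ hN
      _ ≤ (4 ^ (k * (δ₁ + u)) * q ^ (k * (δ₁ + δ₂))) * q ^ (k * u + k * v) := by gcongr
      _ = 4 ^ (k * (δ₁ + u)) * q ^ (k * (δ₁ + u)) * q ^ (k * (δ₁ + u)) := by
          rw [mul_assoc, mul_assoc, ← pow_add, ← pow_add]
          congr 2
          calc k * (δ₁ + δ₂) + (k * u + k * v) = k * (δ₁ + u) + k * (δ₂ + v) := by ring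
            _ = _ := by rw [← hv]
  have e2 : N * (q ^ (k * u) * q ^ (v * (k - 1))) ≤ 4 ^ (k * (δ₁ + u)) * q ^ (k * (δ₁ + u)) := by
    refine Nat.le_of_mul_le_mul_right ?_ hq0
    calc N * (q ^ (k * u) * q ^ (v * (k - 1))) * q ^ (k * (δ₁ + u))
        = (N * q ^ (k * (δ₁ + u))) * q ^ (k * u + v * (k - 1)) := by ring
      _ ≤ (2 ^ ((k - 1) * (δ₁ + δ₂)) * q ^ (k * (δ₁ + δ₂))) * q ^ (k * u + v * (k - 1)) :=
          Nat.mul_le_mul_right _ hN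
      _ ≤ (4 ^ (k * (δ₁ + u)) * q ^ (k * (δ₁ + δ₂))) * q ^ (k * u + v * (k - 1)) := by gcongr
      _ ≤ 4 ^ (k * (δ₁ + u)) * q ^ (k * (δ₁ + u)) * q ^ (k * (δ₁ + u)) := by
          rw [mul_assoc, mul_assoc, ← pow_add, ← pow_add]
          refine Nat.mul_le_mul_left _ (Nat.pow_le_pow_right hq ?_)
          calc k * (δ₁ + δ₂) + (k * u + v * (k - 1)) ≤ k * (δ₁ + δ₂) + (k * u + v * k) := by
                gcongr; exact Nat.sub_le _ _
            _ = k * (δ₁ + u) + k * (δ₂ + v) := by ring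
            _ = _ := by rw [← hv]
  calc N * (4 ^ k * (A₁ ^ (2 * k * (δ₁ + u)) * q ^ (k * u + k * v)) +
      4 ^ k * ((B ^ u * q ^ (k * u)) * (A₁ ^ (δ₁ + u) * q ^ v) ^ (k - 1)))
      = 4 ^ k * A₁ ^ (2 * k * (δ₁ + u)) * (N * q ^ (k * u + k * v)) +
        4 ^ k * B ^ u * A₁ ^ ((δ₁ + u) * (k - 1)) * (N * (q ^ (k * u) * q ^ (v * (k - 1)))) := by
        rw [mul_pow, ← pow_mul, ← pow_mul]
        ring
    _ ≤ 4 ^ k * A₁ ^ (2 * k * (δ₁ + u)) * (4 ^ (k * (δ₁ + u)) * q ^ (k * (δ₁ + u))) +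
        4 ^ k * B ^ u * A₁ ^ ((δ₁ + u) * (k - 1)) *
          (4 ^ (k * (δ₁ + u)) * q ^ (k * (δ₁ + u))) := by gcongr
    _ = _ := by ring

/-- the constant of the induction -/
private def AA (k : ℕ) : ℕ := (4 * (k + 1)) ^ k + 4 * 4 ^ k * 4 ^ k * A1 k ^ (2 * k)

private theorem A1_pos (k : ℕ) : 1 ≤ A1 k := Nat.mul_pos (Nat.pow_pos (by norm_num)) (by positivity)

private theorem AA_pos (k : ℕ) : 1 ≤ AA k :=
  le_trans (Nat.one_le_pow _ _ (by omega)) (Nat.le_add_right _ _)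

/-- the induction step -/
private theorem step {F : Type} [Field F] [Fintype F] {k : ℕ} (hk : 2 ≤ k)
    (hp : ∀ e : ℕ, 1 ≤ e → e ≤ k → (e : F) ≠ 0) {n : ℕ} (hn : 1 ≤ n)
    (ih : ∀ m < n, MB F k m ((8 * AA k ^ k) ^ m * Fintype.card F ^ (k * m))) :
    MB F k n ((8 * AA k ^ k) ^ n * Fintype.card F ^ (k * n)) := by
  classical
  set q := Fintype.card F with hqdef
  set B := 8 * AA k ^ k with hBdef
  have hq : 1 ≤ q := Fintype.card_pos
  have hB1 : 1 ≤ B := by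
    have := Nat.one_le_pow k (AA k) (AA_pos k)
    omega
  intro ι _ hι ε hε C₀ S hS
  rcases le_or_gt (Fintype.card ι) k with hsmall | hbig
  · refine (few S (fun y hy => (hS y hy).1)).trans ?_
    calc q ^ (n * Fintype.card ι) ≤ q ^ (k * n) :=
          Nat.pow_le_pow_right hq (by rw [mul_comm k n]; exact Nat.mul_le_mul_left _ hsmall)
      _ ≤ B ^ n * q ^ (k * n) := Nat.le_mul_of_pos_left _ (Nat.pow_pos hB1)
  -- regular and irregular solutions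
  set irr : (ι → F[X]) → Prop := fun y => ∃ a : Fin (k * n) → F, a ≠ 0 ∧
    ∀ i, Ann (k * n) a (y i ^ (k - 1)) with hirr
  have hreg : (S.filter (fun y => ¬ irr y)).card ≤ (4 * (k + 1)) ^ (k * n) * q ^ (k * n) := by
    refine reg (by omega) (hp k (by omega) le_rfl) hι ε hε C₀ _ ?_ ?_
    · intro y hy
      have := hS y (Finset.mem_filter.1 hy).1
      exact ⟨fun i => ⟨(this.1 i).1, (this.1 i).2.1⟩, this.2⟩
    · intro y hy a ha
      by_contra hne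
      exact (Finset.mem_filter.1 hy).2 ⟨a, hne, ha⟩
  set Sa : (Fin (k * n) → F) → Finset (ι → F[X]) := fun a =>
    S.filter (fun y => ∀ i, Ann (k * n) a (y i ^ (k - 1))) with hSa
  set 𝒜 : Finset (Fin (k * n) → F) := Finset.univ.filter (fun a => a ≠ 0 ∧ (Sa a).Nonempty) with h𝒜
  have hirrc : (S.filter irr).card ≤ ∑ a ∈ 𝒜, (Sa a).card := by
    refine (Finset.card_le_card ?_).trans Finset.card_biUnion_le
    intro y hy
    obtain ⟨hyS, a, ha, hann⟩ := Finset.mem_filter.1 hy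
    have hya : y ∈ Sa a := Finset.mem_filter.2 ⟨hyS, hann⟩
    exact Finset.mem_biUnion.2 ⟨a, Finset.mem_filter.2 ⟨Finset.mem_univ _, ha, y, hya⟩, hya⟩
  set Mf : ℕ → ℕ := fun d => B ^ (n - d) * q ^ (k * (n - d)) with hMf
  have hMB : ∀ d, 1 ≤ d → d ≤ n → MB F k (n - d) (Mf d) := fun d h1 h2 => ih _ (by omega)
  have hdata : ∀ a : Fin (k * n) → F, ∃ G₁ g₁ G₂ g₂ : F[X], a ∈ 𝒜 → GG k n a G₁ ∧ Rad k G₁ g₁ ∧
      ((Sa a).card ≤ Mf g₁.natDegree ∨ (GG k n a G₂ ∧ Rad k G₂ g₂ ∧ G₁ ≠ G₂ ∧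
        (Sa a).card ≤ Mf g₁.natDegree +
          EE k n q (Mf g₁.natDegree) g₁.natDegree g₂.natDegree)) := by
    intro a
    by_cases ha : a ∈ 𝒜
    · obtain ⟨-, ha0, hne⟩ := Finset.mem_filter.1 ha
      obtain ⟨G₁, g₁, h1, r1, h⟩ := one_a hk (fun e h1 h2 => hp e h1 h2.le) hι hbig ε hε C₀ a ha0 Mf
        hMB (Sa a) (fun y hy => ⟨hS y (Finset.mem_filter.1 hy).1, (Finset.mem_filter.1 hy).2⟩) hne
      rcases h with h | ⟨G₂, g₂, h2, r2, hne2, h⟩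
      · exact ⟨G₁, g₁, 0, 0, fun _ => ⟨h1, r1, Or.inl h⟩⟩
      · exact ⟨G₁, g₁, G₂, g₂, fun _ => ⟨h1, r1, Or.inr ⟨h2, r2, hne2, h⟩⟩⟩
    · exact ⟨0, 0, 0, 0, fun h => absurd h ha⟩
  choose G₁ g₁ G₂ g₂ hG using hdata
  set 𝒜₂ : Finset (Fin (k * n) → F) := 𝒜.filter (fun a => GG k n a (G₂ a) ∧ Rad k (G₂ a) (g₂ a) ∧
    G₁ a ≠ G₂ a) with h𝒜₂
  have hne0 : ∀ a ∈ 𝒜, a ≠ 0 := fun a ha => (Finset.mem_filter.1 ha).2.1
  have hd1 : ∀ a ∈ 𝒜, (g₁ a).natDegree ∈ Finset.Icc 1 n := fun a ha =>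
    Finset.mem_Icc.2 ⟨gg_pos (hne0 a ha) (hG a ha).1 (hG a ha).2.1,
      gg_le (hG a ha).1 (hG a ha).2.1⟩
  have hsum : ∑ a ∈ 𝒜, (Sa a).card ≤ ∑ a ∈ 𝒜, Mf (g₁ a).natDegree +
      ∑ a ∈ 𝒜₂, EE k n q (Mf (g₁ a).natDegree) (g₁ a).natDegree (g₂ a).natDegree := by
    have e : ∑ a ∈ 𝒜₂, EE k n q (Mf (g₁ a).natDegree) (g₁ a).natDegree (g₂ a).natDegree =
        ∑ a ∈ 𝒜, if GG k n a (G₂ a) ∧ Rad k (G₂ a) (g₂ a) ∧ G₁ a ≠ G₂ a then
          EE k n q (Mf (g₁ a).natDegree) (g₁ a).natDegree (g₂ a).natDegree else 0 := by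
      rw [h𝒜₂, Finset.sum_filter]
    rw [e, ← Finset.sum_add_distrib]
    refine Finset.sum_le_sum fun a ha => ?_
    rcases (hG a ha).2.2 with h | ⟨h2, r2, hne2, h⟩
    · exact h.trans (Nat.le_add_right _ _)
    · rw [if_pos ⟨h2, r2, hne2⟩]
      exact h
  -- first sum
  have hfirst : ∑ a ∈ 𝒜, Mf (g₁ a).natDegree ≤
      ∑ δ ∈ Finset.Icc 1 n, (2 ^ ((k - 1) * δ) * q ^ (k * δ)) * Mf δ := by
    refine sum_class 𝒜 (Finset.Icc 1 n) (fun a => (g₁ a).natDegree) hd1 Mf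
      (fun δ => 2 ^ ((k - 1) * δ) * q ^ (k * δ)) ?_
    intro δ _
    have := pairs (n := n) hk δ ((𝒜.filter (fun a => (g₁ a).natDegree = δ)).image
      (fun a => (a, G₁ a))) ?_
    · rwa [Finset.card_image_of_injective _ (fun a b h => (Prod.ext_iff.1 h).1)] at this
    · intro z hz
      obtain ⟨a, ha, rfl⟩ := Finset.mem_image.1 hz
      obtain ⟨ha, hδ⟩ := Finset.mem_filter.1 ha
      exact ⟨(hG a ha).1.1.2.1, g₁ a, (hG a ha).2.1, hδ⟩
  -- second sum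
  have hsecond : ∑ a ∈ 𝒜₂, EE k n q (Mf (g₁ a).natDegree) (g₁ a).natDegree (g₂ a).natDegree ≤
      ∑ p ∈ ((Finset.Icc 1 n).filter (fun δ => n < (k - 1) * δ)) ×ˢ (Finset.Icc 1 n),
        q ^ (k * n) * (4 ^ k * 4 ^ (k * n) * A1 k ^ (2 * k * n) +
          4 ^ k * 4 ^ (k * n) * A1 k ^ (n * (k - 1)) * B ^ (n - p.1)) := by
    rw [← Finset.sum_fiberwise_of_maps_to (t := ((Finset.Icc 1 n).filter
      (fun δ => n < (k - 1) * δ)) ×ˢ (Finset.Icc 1 n))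
      (g := fun a => ((g₁ a).natDegree, (g₂ a).natDegree))]
    · refine Finset.sum_le_sum fun p hp' => ?_
      obtain ⟨hp1, hp2⟩ := Finset.mem_product.1 hp'
      obtain ⟨hp1, -⟩ := Finset.mem_filter.1 hp1
      rw [Finset.sum_congr rfl (g := fun _ => EE k n q (Mf p.1) p.1 p.2)]
      · rw [Finset.sum_const, smul_eq_mul, EE, hMf]
        refine arith hq (by omega) (Finset.mem_Icc.1 hp1).2 (Finset.mem_Icc.1 hp2).2 ?_
        have := triples (n := n) hk p.1 p.2 (Finset.mem_Icc.1 hp1).2 (Finset.mem_Icc.1 hp2).2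
          ((𝒜₂.filter (fun a => ((g₁ a).natDegree, (g₂ a).natDegree) = p)).image
            (fun a => (a, G₁ a, G₂ a))) ?_
        · rwa [Finset.card_image_of_injective _ (fun a b h => (Prod.ext_iff.1 h).1)] at this
        · intro z hz
          obtain ⟨a, ha, rfl⟩ := Finset.mem_image.1 hz
          obtain ⟨ha, hδ⟩ := Finset.mem_filter.1 ha
          obtain ⟨ha, h2, r2, hne2⟩ := Finset.mem_filter.1 ha
          exact ⟨(hG a ha).1.1, h2.1, hne2, ⟨g₁ a, (hG a ha).2.1, congrArg Prod.fst hδ⟩,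
            ⟨g₂ a, r2, congrArg Prod.snd hδ⟩⟩
      · intro a ha
        obtain ⟨ha, hδ⟩ := Finset.mem_filter.1 ha
        have e1 : (g₁ a).natDegree = p.1 := congrArg Prod.fst hδ
        have e2 : (g₂ a).natDegree = p.2 := congrArg Prod.snd hδ
        rw [e1, e2]
    · intro a ha
      obtain ⟨ha, h2, r2, hne2⟩ := Finset.mem_filter.1 ha
      refine Finset.mem_product.2 ⟨Finset.mem_filter.2 ⟨hd1 a ha, ?_⟩, Finset.mem_Icc.2
        ⟨gg_pos (hne0 a ha) h2 r2, gg_le h2 r2⟩⟩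
      exact triple_deg hk (hG a ha).1.1 h2.1 hne2 (hG a ha).2.1 r2 (gg_le h2 r2)
  -- assembly
  set A := AA k with hA
  have hA1 : 1 ≤ A := AA_pos k
  have hAa : (4 * (k + 1)) ^ k ≤ A := Nat.le_add_right _ _
  have hAb : 4 * 4 ^ k * 4 ^ k * A1 k ^ (2 * k) ≤ A := Nat.le_add_left _ _
  have hn4 : n * n ≤ 4 ^ n := by
    have h := Nat.lt_two_pow_self (n := n)
    calc n * n ≤ 2 ^ n * 2 ^ n := Nat.mul_le_mul h.le h.le
      _ = 4 ^ n := by rw [← mul_pow]; norm_num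
  have h4k : 4 ^ k ≤ (4 ^ k) ^ n := by
    calc (4 ^ k : ℕ) = (4 ^ k) ^ 1 := (pow_one _).symm
      _ ≤ (4 ^ k) ^ n := Nat.pow_le_pow_right (Nat.pow_pos (by norm_num)) hn
  have hAn : n * n * (4 ^ k * 4 ^ (k * n) * A1 k ^ (2 * k * n)) ≤ A ^ n := by
    calc n * n * (4 ^ k * 4 ^ (k * n) * A1 k ^ (2 * k * n))
        ≤ 4 ^ n * ((4 ^ k) ^ n * 4 ^ (k * n) * A1 k ^ (2 * k * n)) := by gcongr
      _ = (4 * 4 ^ k * 4 ^ k * A1 k ^ (2 * k)) ^ n := by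
          rw [pow_mul 4 k n, pow_mul (A1 k) (2 * k) n, mul_pow, mul_pow, mul_pow]
          ring
      _ ≤ A ^ n := Nat.pow_le_pow_left hAb n
  have hAn' : n * (4 ^ k * 4 ^ (k * n) * A1 k ^ (n * (k - 1))) ≤ A ^ n := by
    refine le_trans ?_ hAn
    have : A1 k ^ (n * (k - 1)) ≤ A1 k ^ (2 * k * n) := by
      refine Nat.pow_le_pow_right (A1_pos k) ?_
      calc n * (k - 1) ≤ n * (2 * k) := Nat.mul_le_mul_left _ (by omega)
        _ = 2 * k * n := by ring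
    calc n * (4 ^ k * 4 ^ (k * n) * A1 k ^ (n * (k - 1)))
        ≤ n * (4 ^ k * 4 ^ (k * n) * A1 k ^ (2 * k * n)) := by gcongr
      _ ≤ n * n * (4 ^ k * 4 ^ (k * n) * A1 k ^ (2 * k * n)) := by
          refine Nat.mul_le_mul_right _ ?_
          exact Nat.le_mul_of_pos_left _ hn
  have hS1 : S.card ≤ q ^ (k * n) * (A ^ n) + q ^ (k * n) * (∑ δ ∈ Finset.Icc 1 n,
      A ^ δ * B ^ (n - δ)) + q ^ (k * n) * (A ^ n + ∑ δ ∈ (Finset.Icc 1 n).filter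
        (fun δ => n < (k - 1) * δ), A ^ n * B ^ (n - δ)) := by
    have hsplit : S.card = (S.filter irr).card + (S.filter (fun y => ¬ irr y)).card :=
      (Finset.card_filter_add_card_filter_not irr).symm
    have i1 : (S.filter (fun y => ¬ irr y)).card ≤ q ^ (k * n) * (A ^ n) := by
      refine hreg.trans ?_
      rw [mul_comm, pow_mul (4 * (k + 1))]
      exact Nat.mul_le_mul_left _ (Nat.pow_le_pow_left hAa n)
    have i2 : ∑ δ ∈ Finset.Icc 1 n, (2 ^ ((k - 1) * δ) * q ^ (k * δ)) * Mf δ ≤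
        q ^ (k * n) * (∑ δ ∈ Finset.Icc 1 n, A ^ δ * B ^ (n - δ)) := by
      rw [Finset.mul_sum]
      refine Finset.sum_le_sum fun δ hδ => ?_
      have hδ2 := (Finset.mem_Icc.1 hδ).2
      have e1 : q ^ (k * δ) * q ^ (k * (n - δ)) = q ^ (k * n) := by
        rw [← pow_add, ← mul_add]
        congr 2
        omega
      have e2 : 2 ^ ((k - 1) * δ) ≤ A ^ δ := by
        rw [pow_mul]
        refine Nat.pow_le_pow_left (le_trans ?_ hAb) δ
        calc 2 ^ (k - 1) ≤ 4 ^ k := by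
              calc 2 ^ (k - 1) ≤ 4 ^ (k - 1) := Nat.pow_le_pow_left (by norm_num) _
                _ ≤ 4 ^ k := Nat.pow_le_pow_right (by norm_num) (by omega)
          _ ≤ 4 * 4 ^ k * 4 ^ k * A1 k ^ (2 * k) := by
              have h1 : 1 ≤ 4 * 4 ^ k := Nat.mul_pos (by norm_num) (Nat.pow_pos (by norm_num))
              have h2 : 1 ≤ A1 k ^ (2 * k) := Nat.one_le_pow _ _ (A1_pos k)
              calc 4 ^ k = 1 * 4 ^ k * 1 := by ring
                _ ≤ 4 * 4 ^ k * 4 ^ k * A1 k ^ (2 * k) := by gcongr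
      calc (2 ^ ((k - 1) * δ) * q ^ (k * δ)) * Mf δ
          = 2 ^ ((k - 1) * δ) * B ^ (n - δ) * (q ^ (k * δ) * q ^ (k * (n - δ))) := by
            rw [hMf]; ring
        _ = q ^ (k * n) * (2 ^ ((k - 1) * δ) * B ^ (n - δ)) := by rw [e1]; ring
        _ ≤ q ^ (k * n) * (A ^ δ * B ^ (n - δ)) := by gcongr
    have i3 : ∑ p ∈ ((Finset.Icc 1 n).filter (fun δ => n < (k - 1) * δ)) ×ˢ (Finset.Icc 1 n),
        q ^ (k * n) * (4 ^ k * 4 ^ (k * n) * A1 k ^ (2 * k * n) +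
          4 ^ k * 4 ^ (k * n) * A1 k ^ (n * (k - 1)) * B ^ (n - p.1)) ≤
        q ^ (k * n) * (A ^ n + ∑ δ ∈ (Finset.Icc 1 n).filter
        (fun δ => n < (k - 1) * δ), A ^ n * B ^ (n - δ)) := by
      rw [← Finset.mul_sum]
      refine Nat.mul_le_mul_left _ ?_
      rw [Finset.sum_add_distrib]
      refine Nat.add_le_add ?_ ?_
      · rw [Finset.sum_const, smul_eq_mul, Finset.card_product, Nat.card_Icc]
        refine le_trans (Nat.mul_le_mul_right _ (Nat.mul_le_mul ?_ ?_)) hAn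
        · exact (Finset.card_filter_le _ _).trans (by rw [Nat.card_Icc]; omega)
        · omega
      · rw [Finset.sum_product]
        refine Finset.sum_le_sum fun δ _ => ?_
        simp only []
        rw [Finset.sum_const, smul_eq_mul, Nat.card_Icc, Nat.add_sub_cancel]
        calc n * (4 ^ k * 4 ^ (k * n) * A1 k ^ (n * (k - 1)) * B ^ (n - δ))
            = n * (4 ^ k * 4 ^ (k * n) * A1 k ^ (n * (k - 1))) * B ^ (n - δ) := by ring
          _ ≤ A ^ n * B ^ (n - δ) := Nat.mul_le_mul_right _ hAn'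
    rw [hsplit]
    have := hirrc.trans (hsum.trans (Nat.add_le_add (hfirst.trans i2) (hsecond.trans i3)))
    omega
  refine hS1.trans ?_
  rw [← mul_add, ← mul_add, mul_comm (B ^ n)]
  refine Nat.mul_le_mul_left _ ?_
  have := bd hk hA1 hn
  rw [← hBdef] at this
  omega

theorem mean_value (k : ℕ) (hk : 2 ≤ k) : ∃ B : ℕ, 1 ≤ B ∧ ∀ (F : Type) [Field F] [Fintype F],
    (∀ e : ℕ, 1 ≤ e → e ≤ k → (e : F) ≠ 0) → ∀ n : ℕ, MB F k n (B ^ n * Fintype.card F ^ (k * n)) := by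
  refine ⟨8 * AA k ^ k, ?_, fun F _ _ hp n => ?_⟩
  · have := Nat.one_le_pow k (AA k) (AA_pos k)
    omega
  · induction n using Nat.strong_induction_on with
    | _ n ih =>
      rcases Nat.eq_zero_or_pos n with rfl | hn
      · have := base (F := F) k
        intro ι _ hι ε hε C₀ S hS
        exact (this ι hι ε hε C₀ S hS).trans (by simp)
      · exact step hk hp hn ih

end H28WF
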