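import Pool.Agent.H28.WF.Alm

/-!
# [WF] Res: the final theorem (staged; the hand-in will be a copy in Results/MP_efcac8_nt)

`F` runs over the finite fields with characteristic `> k`, `q` is the number of elements.
-/

open Polynomial

namespace H28WF

theorem result (k : ℕ) (hk : 3 ≤ k) :
    (∃ q₀ : ℕ, ∀ (F : Type) [Field F] [Fintype F], q₀ ≤ Fintype.card F → k < ringChar F →
      ∀ (n : ℕ) (N : F[X]), N.natDegree ≤ k * n →
      ∃ x : Fin (2 * k + 1) → F[X], (∀ i, (x i).degree = (n : WithBot ℕ)) ∧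
        ∑ i, x i ^ k = N) ∧
    (∀ δ : ℝ, 0 < δ → ∃ q₀ : ℕ, ∀ (F : Type) [Field F] [Fintype F], q₀ ≤ Fintype.card F →
      k < ringChar F → ∀ s : ℕ, 2 * k + 1 ≤ s → ∀ ε : Fin s → F, (∀ i, ε i ≠ 0) →
      ∀ (n : ℕ) (N : F[X]), N.natDegree ≤ k * n → N.coeff (k * n) = ∑ i, ε i →
      |(Nat.card {y : Fin s → F[X] // (∀ i, (y i).Monic ∧ (y i).natDegree = n) ∧
        ∑ i, C (ε i) * y i ^ k = N} : ℝ) - (Fintype.card F : ℝ) ^ ((s - k) * n)| ≤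
          δ * (Fintype.card F : ℝ) ^ ((s - k) * n)) ∧
    (∃ B : ℕ, ∀ (F : Type) [Field F] [Fintype F], k < ringChar F →
      ∀ ε : Fin (2 * k) → F, (∀ i, ε i ≠ 0) → ∀ (n : ℕ) (N : F[X]),
      Nat.card {y : Fin (2 * k) → F[X] // (∀ i, (y i).Monic ∧ (y i).natDegree = n) ∧
        ∑ i, C (ε i) * y i ^ k = N} ≤ B ^ n * Fintype.card F ^ (k * n)) ∧
    (∀ δ : ℝ, 0 < δ → ∃ q₀ : ℕ, ∀ (F : Type) [Field F] [Fintype F], q₀ ≤ Fintype.card F →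
      k < ringChar F → ∀ n : ℕ, (Nat.card {N : F[X] // N.natDegree ≤ k * n ∧
        ¬ ∃ x : Fin (k + 1) → F[X], (∀ i, (x i).degree = (n : WithBot ℕ)) ∧
          ∑ i, x i ^ k = N} : ℝ) ≤ δ * (Fintype.card F : ℝ) ^ (k * n + 1)) :=
  ⟨wfB k hk, fun δ hδ => wfA k hk δ hδ, wfC' k hk, fun δ hδ => almD k hk δ hδ⟩

end H28WF
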