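import Pool.Agent.H28.WF.Bas

/-!
# [WF] WeylW: Weyl's inequality over the group of the polynomials of degree `< n`

`V` = polynomials of degree `< n`, `N = q^n` elements, `Q` a polynomial over the ring `F[X]` of degree
`≤ s + 1`, `lam : F[X] → F` linear.  CLAIM
`‖∑_{y ∈ V} ψ(lam(Q(y)))‖^(2^s) N^s ≤ N^(2^s) #{h ∈ V^s : ∀ v ∈ V, lam((s+1)! c h_1 ⋯ h_s v) = 0}`,
`c = ` coefficient of degree `s+1` of `Q`.
PROOF.  Induction on `s`.  `s = 0`: `Q = c Y + c₀`, the sum is `ψ(lam c₀) ∑_v ψ(lam(c v))`, which is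
`N` or `0` (`lam (c ·)` is a linear form on `V`).  Step: `‖∑‖^2 = ∑_h ∑_y ψ(lam(Q(y+h) - Q(y)))`
(no boundary: `V` is a group), `Q(Y+h) - Q(Y)` has degree `≤ s` and its coefficient of degree `s` is
`(s+1) c h`.  Then `(∑_h ‖S_h‖)^(2^(s-1)) ≤ N^(2^(s-1)-1) ∑_h ‖S_h‖^(2^(s-1))`
(`inner_mul_le_norm_mul_norm` / `Finset.inner..`, `inner_le_Lp`, or `pow_arith_mean_le_arith_mean_pow`),
induction hypothesis, `Fin.cons` for the tuples.
-/

open Polynomial

namespace H28WF

section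

variable {F : Type*} [Field F]

private theorem ww_tay {s : ℕ} {Q : Polynomial F[X]} (hQ : Q.natDegree ≤ s + 2) (h : F[X]) :
    (Q.comp (X + C h) - Q).natDegree ≤ s + 1 ∧
      (Q.comp (X + C h) - Q).coeff (s + 1) = ((s + 2 : ℕ) : F[X]) * Q.coeff (s + 2) * h := by
  have hz : ∀ m, s + 2 < m → Q.coeff m = 0 := fun m hm => coeff_eq_zero_of_natDegree_lt (by omega)
  have hc : ∀ m, (Q.comp (X + C h)).coeff m = (hasseDeriv m Q).eval h := fun m => by
    rw [← taylor_apply, taylor_coeff]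
  constructor
  · rw [natDegree_le_iff_coeff_eq_zero]
    intro m hm
    rw [coeff_sub, hc]
    have h1 : hasseDeriv m Q = C (Q.coeff m) := by
      ext j
      rw [hasseDeriv_coeff, coeff_C]
      by_cases hj : j = 0
      · rw [if_pos hj, hj, zero_add, Nat.choose_self, Nat.cast_one, one_mul]
      · rw [if_neg hj, hz (j + m) (by omega), mul_zero]
    rw [h1, eval_C, sub_self]
  · rw [coeff_sub, hc]
    have h1 : hasseDeriv (s + 1) Q = C (Q.coeff (s + 1)) + C (((s + 2 : ℕ) : F[X]) * Q.coeff (s + 2)) * X := by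
      ext j : 1
      rw [hasseDeriv_coeff, coeff_add, coeff_C, coeff_C_mul, coeff_X]
      rcases Nat.lt_or_ge j 1 with h0 | h0
      · have : j = 0 := by omega
        subst this
        rw [if_pos rfl, if_neg (by omega), mul_zero, add_zero, zero_add, Nat.choose_self, Nat.cast_one, one_mul]
      · rcases Nat.eq_or_lt_of_le h0 with h1 | h1
        · subst h1
          rw [if_neg (by omega), if_pos rfl, mul_one, zero_add, show 1 + (s + 1) = s + 2 by omega,
            show (s + 2).choose (s + 1) = s + 2 from Nat.choose_succ_self_right (s + 1)]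
        · rw [if_neg (by omega), if_neg (by omega), mul_zero, add_zero, hz (j + (s + 1)) (by omega), mul_zero]
    rw [h1, eval_add, eval_C, eval_mul, eval_C, eval_X, add_sub_cancel_left]

end

section

variable {F : Type*} [Field F] [Fintype F]

private theorem ww_sq (ψ : AddChar F ℂ) (n : ℕ) (g : (Fin n → F) → F) :
    ‖∑ c : Fin n → F, ψ (g c)‖ ^ 2 ≤ ∑ h : Fin n → F, ‖∑ c : Fin n → F, ψ (g (c + h) - g c)‖ := by
  have h1 : ((‖∑ c : Fin n → F, ψ (g c)‖ ^ 2 : ℝ) : ℂ) = ∑ h : Fin n → F, ∑ c : Fin n → F, ψ (g (c + h) - g c) := by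
    rw [Complex.ofReal_pow, ← Complex.mul_conj', map_sum, Finset.sum_mul_sum, Finset.sum_comm]
    have h2 : ∀ c : Fin n → F, ∑ c' : Fin n → F, ψ (g c') * (starRingEnd ℂ) (ψ (g c)) =
        ∑ h : Fin n → F, ψ (g (c + h) - g c) := by
      intro c
      have h5 := Equiv.sum_comp (Equiv.addLeft c) (fun c' : Fin n → F => ψ (g c') * (starRingEnd ℂ) (ψ (g c)))
      rw [← h5]
      refine Finset.sum_congr rfl fun h _ => ?_
      rw [Equiv.coe_addLeft, ← AddChar.map_neg_eq_conj, ← AddChar.map_add_eq_mul, sub_eq_add_neg]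
    rw [Finset.sum_congr rfl fun c _ => h2 c, Finset.sum_comm]
  calc ‖∑ c : Fin n → F, ψ (g c)‖ ^ 2 = ‖((‖∑ c : Fin n → F, ψ (g c)‖ ^ 2 : ℝ) : ℂ)‖ := by
        rw [Complex.norm_real, Real.norm_of_nonneg (by positivity)]
    _ = ‖∑ h : Fin n → F, ∑ c : Fin n → F, ψ (g (c + h) - g c)‖ := by rw [h1]
    _ ≤ _ := norm_sum_le _ _

private theorem ww_pow {ι : Type*} [Fintype ι] (a : ι → ℝ) (ha : ∀ i, 0 ≤ a i) {m : ℕ} (hm : 1 ≤ m) :
    (∑ i, a i) ^ m ≤ (Fintype.card ι : ℝ) ^ (m - 1) * ∑ i, a i ^ m := by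
  obtain ⟨m, rfl⟩ : ∃ l, m = l + 1 := ⟨m - 1, by omega⟩
  rw [Nat.add_sub_cancel]
  have h1 := pow_sum_div_card_le_sum_pow (s := Finset.univ) (f := a) (fun i _ => ha i) m
  rw [Finset.card_univ] at h1
  rcases isEmpty_or_nonempty ι with hι | hι
  · rw [Finset.univ_eq_empty, Finset.sum_empty, Finset.sum_empty, zero_pow (Nat.succ_ne_zero m), mul_zero]
  · have h2 : (0 : ℝ) < (Fintype.card ι : ℝ) ^ m := pow_pos (by exact_mod_cast Fintype.card_pos) _
    rw [div_le_iff₀ h2] at h1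
    rwa [mul_comm] at h1

private theorem ww_zero (ψ : AddChar F ℂ) (hψ : ψ ≠ 1) (n : ℕ) (lam : F[X] →ₗ[F] F) (c : F[X])
    (hne : ¬ ∀ v : Fin n → F, lam (c * low n v) = 0) : ∑ v : Fin n → F, ψ (lam (c * low n v)) = 0 := by
  push Not at hne
  obtain ⟨v0, hv0⟩ := hne
  obtain ⟨x0, hx0⟩ : ∃ x0 : F, ψ x0 ≠ 1 := by
    by_contra h
    push Not at h
    exact hψ (AddChar.ext _ _ fun x => by rw [h x]; rfl)
  -- a vector with value `x0`
  obtain ⟨w, hw⟩ : ∃ w : Fin n → F, lam (c * low n w) = x0 := by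
    refine ⟨(x0 / lam (c * low n v0)) • v0, ?_⟩
    rw [low_smul, ← mul_assoc, mul_comm c, mul_assoc, ← smul_eq_C_mul, map_smul, smul_eq_mul, div_mul_cancel₀ _ hv0]
  have h1 : ψ x0 * ∑ v : Fin n → F, ψ (lam (c * low n v)) = ∑ v : Fin n → F, ψ (lam (c * low n v)) := by
    rw [Finset.mul_sum]
    have h5 := Equiv.sum_comp (Equiv.addLeft w) (fun v : Fin n → F => ψ (lam (c * low n v)))
    rw [← h5]
    refine Finset.sum_congr rfl fun v _ => ?_
    rw [Equiv.coe_addLeft, low_add, mul_add, map_add, AddChar.map_add_eq_mul, hw]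
  have h2 : (ψ x0 - 1) * ∑ v : Fin n → F, ψ (lam (c * low n v)) = 0 := by
    rw [sub_mul, one_mul, h1, sub_self]
  rcases mul_eq_zero.1 h2 with h3 | h3
  · exact absurd (sub_eq_zero.1 h3) hx0
  · exact h3

end

open Classical in
theorem weylW {F : Type*} [Field F] [Fintype F] (ψ : AddChar F ℂ) (hψ : ψ ≠ 1) (n : ℕ)
    (lam : F[X] →ₗ[F] F) (s : ℕ) (Q : Polynomial F[X]) (hQ : Q.natDegree ≤ s + 1) :
    ‖∑ c : Fin n → F, ψ (lam (Q.eval (low n c)))‖ ^ (2 ^ s) *
        ((Fintype.card F : ℝ) ^ n) ^ s ≤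
      ((Fintype.card F : ℝ) ^ n) ^ (2 ^ s) *
        (((Finset.univ : Finset (Fin s → Fin n → F)).filter (fun h => ∀ v : Fin n → F,
          lam (((s + 1).factorial : F[X]) * Q.coeff (s + 1) * (∏ i, low n (h i)) * low n v) = 0)).card
          : ℝ) := by
  have hcard : (Fintype.card (Fin n → F) : ℝ) = (Fintype.card F : ℝ) ^ n := by
    rw [Fintype.card_fun, Fintype.card_fin]
    push_cast
    rfl
  have hN0 : (0 : ℝ) ≤ (Fintype.card F : ℝ) ^ n := by positivity
  induction s generalizing Q with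
  | zero =>
    rw [pow_zero, pow_one, pow_zero, mul_one, pow_one]
    have hev : ∀ c : Fin n → F, Q.eval (low n c) = Q.coeff 1 * low n c + Q.coeff 0 := by
      intro c
      rw [eval_eq_sum_range' (Nat.lt_succ_of_le hQ), Finset.sum_range_succ, Finset.sum_range_one, pow_zero, pow_one,
        mul_one, add_comm]
    have hsum : ∑ c : Fin n → F, ψ (lam (Q.eval (low n c))) =
        (∑ c : Fin n → F, ψ (lam (Q.coeff 1 * low n c))) * ψ (lam (Q.coeff 0)) := by
      rw [Finset.sum_mul]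
      refine Finset.sum_congr rfl fun c _ => ?_
      rw [hev, map_add, AddChar.map_add_eq_mul]
    by_cases hall : ∀ v : Fin n → F, lam (Q.coeff 1 * low n v) = 0
    · have hfil : ((Finset.univ : Finset (Fin 0 → Fin n → F)).filter (fun h => ∀ v : Fin n → F,
          lam (((0 + 1).factorial : F[X]) * Q.coeff (0 + 1) * (∏ i, low n (h i)) * low n v) = 0)) = Finset.univ := by
        rw [Finset.filter_eq_self]
        intro h _ v
        rw [Finset.univ_eq_empty, Finset.prod_empty, Nat.factorial_one, Nat.cast_one, one_mul, mul_one]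
        exact hall v
      have hone : Fintype.card (Fin 0 → Fin n → F) = 1 := Fintype.card_unique
      rw [hfil, Finset.card_univ, hone, Nat.cast_one, mul_one, ← hcard]
      refine (norm_sum_le _ _).trans (le_of_eq ?_)
      simp
    · rw [hsum, ww_zero ψ hψ n lam _ hall, zero_mul, norm_zero]
      positivity
  | succ s ih =>
    obtain ⟨N, hN⟩ : ∃ N : ℝ, N = (Fintype.card F : ℝ) ^ n := ⟨_, rfl⟩
    rw [← hN] at hN0 hcard ⊢
    obtain ⟨Qh, hQh⟩ : ∃ Qh : (Fin n → F) → Polynomial F[X], ∀ h, Qh h = Q.comp (X + C (low n h)) - Q := ⟨_, fun _ => rfl⟩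
    have hd : ∀ h, (Qh h).natDegree ≤ s + 1 ∧ (Qh h).coeff (s + 1) = ((s + 2 : ℕ) : F[X]) * Q.coeff (s + 2) * low n h :=
      fun h => by
        rw [hQh]
        exact ww_tay hQ (low n h)
    have hQe : ∀ h c : Fin n → F, (Qh h).eval (low n c) = Q.eval (low n (c + h)) - Q.eval (low n c) := by
      intro h c
      rw [hQh, eval_sub, eval_comp, eval_add, eval_X, eval_C, low_add]
    obtain ⟨S, hS⟩ : ∃ S : (Fin n → F) → ℝ, ∀ h, S h = ‖∑ c : Fin n → F, ψ (lam ((Qh h).eval (low n c)))‖ := ⟨_, fun _ => rfl⟩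
    have hsq : ‖∑ c : Fin n → F, ψ (lam (Q.eval (low n c)))‖ ^ 2 ≤ ∑ h, S h := by
      refine (ww_sq ψ n fun c => lam (Q.eval (low n c))).trans (le_of_eq ?_)
      refine Finset.sum_congr rfl fun h _ => ?_
      rw [hS]
      congr 1
      refine Finset.sum_congr rfl fun c _ => ?_
      rw [hQe, map_sub lam]
    obtain ⟨M, hM⟩ : ∃ M : (Fin n → F) → ℕ, ∀ h, M h = ((Finset.univ : Finset (Fin s → Fin n → F)).filter (fun h' =>
      ∀ v : Fin n → F, lam (((s + 1).factorial : F[X]) * (Qh h).coeff (s + 1) * (∏ i, low n (h' i)) * low n v) = 0)).card :=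
      ⟨_, fun _ => rfl⟩
    have hih : ∀ h, S h ^ (2 ^ s) * N ^ s ≤ N ^ (2 ^ s) * (M h : ℝ) := by
      intro h
      have h1 := ih (Qh h) (hd h).1
      rw [← hS, ← hM, ← hN] at h1
      exact h1
    have hcount : ((Finset.univ : Finset (Fin (s + 1) → Fin n → F)).filter (fun h => ∀ v : Fin n → F,
          lam (((s + 1 + 1).factorial : F[X]) * Q.coeff (s + 1 + 1) * (∏ i, low n (h i)) * low n v) = 0)).card =
        ∑ h, M h := by
      rw [Finset.card_filter, ← (Fin.consEquiv (fun _ : Fin (s + 1) => (Fin n → F))).sum_comp, Fintype.sum_prod_type]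
      refine Finset.sum_congr rfl fun h _ => ?_
      rw [hM, Finset.card_filter]
      refine Finset.sum_congr rfl fun h' _ => ?_
      congr 1
      refine propext (forall_congr' fun v => ?_)
      have e1 : (((s + 1 + 1).factorial : ℕ) : F[X]) * Q.coeff (s + 1 + 1) *
          (∏ i, low n ((Fin.consEquiv (fun _ : Fin (s + 1) => (Fin n → F))) (h, h') i)) * low n v =
          (((s + 1).factorial : ℕ) : F[X]) * (Qh h).coeff (s + 1) * (∏ i, low n (h' i)) * low n v := by
        rw [(hd h).2, Fin.prod_univ_succ, Nat.factorial_succ (s + 1)]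
        simp only [Fin.consEquiv_apply, Fin.cons_zero, Fin.cons_succ]
        push_cast
        ring
      rw [e1]
    rw [hcount]
    push_cast
    have h2s : 1 ≤ 2 ^ s := Nat.one_le_two_pow
    calc ‖∑ c : Fin n → F, ψ (lam (Q.eval (low n c)))‖ ^ (2 ^ (s + 1)) * N ^ (s + 1)
        = (‖∑ c : Fin n → F, ψ (lam (Q.eval (low n c)))‖ ^ 2) ^ (2 ^ s) * (N ^ s * N) := by
          rw [← pow_mul, pow_succ' 2 s, pow_succ N s]
      _ ≤ (∑ h, S h) ^ (2 ^ s) * (N ^ s * N) := by
          refine mul_le_mul_of_nonneg_right (pow_le_pow_left₀ (by positivity) hsq _) (by positivity)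
      _ ≤ (N ^ (2 ^ s - 1) * ∑ h, S h ^ (2 ^ s)) * (N ^ s * N) := by
          refine mul_le_mul_of_nonneg_right ?_ (by positivity)
          have h3 := ww_pow S (fun h => by rw [hS]; positivity) h2s
          rwa [hcard] at h3
      _ = (N ^ (2 ^ s - 1) * N) * ∑ h, S h ^ (2 ^ s) * N ^ s := by
          rw [← Finset.sum_mul]
          ring
      _ ≤ (N ^ (2 ^ s - 1) * N) * ∑ h, N ^ (2 ^ s) * (M h : ℝ) :=
          mul_le_mul_of_nonneg_left (Finset.sum_le_sum fun h _ => hih h) (by positivity)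
      _ = N ^ (2 ^ (s + 1)) * ∑ h, (M h : ℝ) := by
          rw [← Finset.mul_sum, ← pow_succ, Nat.sub_add_cancel h2s, ← mul_assoc, ← pow_add, pow_succ 2 s, mul_two]

end H28WF
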